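import Mathlib

/-! Parts: Lib_helper90c.Slice, Lib_helper90c.BallPot, Lib_helper90c.Lens, Lib_helper90c.Mix, Lib_helper90c.PD, Lib_helper90c.Pot, Lib_helper90c.Jel, Lib_helper90c.Neutral, Lib_helper90c.BallSum, Lib_helper90c.JLoc, Lib_helper90c.Moments, Lib_helper90c.Master -/

section

/-!
# Slicing three-dimensional Euclidean space
-/

set_option autoImplicit false

open MeasureTheory Set Metric
open scoped ENNReal NNReal

namespace Pool.Agent.Lib_helper90c

/-- three-dimensional Euclidean space -/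
abbrev E3 := EuclideanSpace ℝ (Fin 3)
/-- two-dimensional Euclidean space -/
abbrev E2 := EuclideanSpace ℝ (Fin 2)

/-- cylindrical coordinates -/
noncomputable def mkE (p : ℝ × E2) : E3 :=
  WithLp.toLp 2 (Fin.insertNth (0 : Fin 3) p.1 (WithLp.ofLp p.2))

/-- The measurable equivalence between `ℝ × E2` and `E3`. -/
noncomputable def cyl : (ℝ × E2) ≃ᵐ E3 :=
  ((MeasurableEquiv.refl ℝ).prodCongr (MeasurableEquiv.toLp 2 (Fin 2 → ℝ)).symm).trans
    ((MeasurableEquiv.piFinSuccAbove (fun _ : Fin 3 => ℝ) 0).symm.trans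
      (MeasurableEquiv.toLp 2 (Fin 3 → ℝ)))

theorem cyl_apply (p : ℝ × E2) : cyl p = mkE p := rfl

theorem measurePreserving_cyl : MeasurePreserving cyl := by
  have h1 : MeasurePreserving ((MeasurableEquiv.refl ℝ).prodCongr
      (MeasurableEquiv.toLp 2 (Fin 2 → ℝ)).symm) (volume : Measure (ℝ × E2)) volume :=
    (MeasurePreserving.id volume).prod (EuclideanSpace.volume_preserving_symm_measurableEquiv_toLp (Fin 2))
  have h2 : MeasurePreserving (MeasurableEquiv.piFinSuccAbove (fun _ : Fin 3 => ℝ) 0).symm :=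
    (volume_preserving_piFinSuccAbove (fun _ : Fin 3 => ℝ) 0).symm
  have h3 : MeasurePreserving (MeasurableEquiv.toLp 2 (Fin 3 → ℝ)) :=
    (EuclideanSpace.volume_preserving_symm_measurableEquiv_toLp (Fin 3)).symm
  exact (h3.comp h2).comp h1

theorem measurable_mkE : Measurable mkE := cyl.measurable

theorem lintegral_cyl (f : E3 → ℝ≥0∞) (hf : Measurable f) :
    ∫⁻ x, f x = ∫⁻ s : ℝ, ∫⁻ u : E2, f (mkE (s, u)) := by
  rw [← measurePreserving_cyl.lintegral_comp hf]
  have : (volume : Measure (ℝ × E2)) = (volume : Measure ℝ).prod (volume : Measure E2) := rfl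
  rw [this, lintegral_prod (fun a => f (cyl a)) (hf.comp cyl.measurable).aemeasurable]
  rfl

theorem norm_mkE_sq (s : ℝ) (u : E2) : ‖mkE (s, u)‖ ^ 2 = s ^ 2 + ‖u‖ ^ 2 := by
  rw [EuclideanSpace.norm_sq_eq, EuclideanSpace.norm_sq_eq]
  rw [Fin.sum_univ_succ]
  congr 1
  simp [mkE]

/-- the point `t e_0` -/
noncomputable def ax (t : ℝ) : E3 := mkE (t, 0)

theorem norm_mkE_sub_ax_sq (s t : ℝ) (u : E2) :
    ‖mkE (s, u) - ax t‖ ^ 2 = (s - t) ^ 2 + ‖u‖ ^ 2 := by
  have : mkE (s, u) - ax t = mkE (s - t, u) := by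
    ext i
    refine Fin.cases ?_ (fun j => ?_) i
    · simp [mkE, ax]
    · simp [mkE, ax]
  rw [this, norm_mkE_sq]

theorem norm_ax (t : ℝ) : ‖ax t‖ = |t| := by
  have h := norm_mkE_sq t 0
  rw [norm_zero, zero_pow two_ne_zero, add_zero] at h
  rw [← Real.sqrt_sq (norm_nonneg (ax t)), ← Real.sqrt_sq_eq_abs]
  congr 1

theorem norm_ax_of_nonneg {t : ℝ} (ht : 0 ≤ t) : ‖ax t‖ = t := by
  rw [norm_ax, abs_of_nonneg ht]

/-- Any vector is the image of a point on the axis under a linear isometry. -/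
theorem exists_isometry_ax (x : E3) : ∃ f : E3 ≃ₗᵢ[ℝ] E3, f (ax ‖x‖) = x := by
  have h : ‖ax ‖x‖‖ = ‖x‖ := norm_ax_of_nonneg (norm_nonneg _)
  refine ⟨(ℝ ∙ (ax ‖x‖ - x))ᗮ.reflection, ?_⟩
  exact Submodule.reflection_sub h

end Pool.Agent.Lib_helper90c


end

section

/-!
# The Newtonian potential of a ball
-/

set_option autoImplicit false

open MeasureTheory Set Metric
open scoped ENNReal NNReal

namespace Pool.Agent.Lib_helper90c

theorem sqrt_deriv_aux {d y : ℝ} (hy : 0 < y) :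
    HasDerivAt (fun y : ℝ => Real.sqrt (d ^ 2 + y ^ 2)) (y / Real.sqrt (d ^ 2 + y ^ 2)) y := by
  have h1 : HasDerivAt (fun y : ℝ => d ^ 2 + y ^ 2) (2 * y) y := by
    simpa using ((hasDerivAt_id y).pow 2).const_add (d ^ 2)
  have h2 := h1.sqrt (by positivity)
  convert h2 using 1
  field_simp

theorem div_sqrt_le_one (d y : ℝ) (hy : 0 ≤ y) : y / Real.sqrt (d ^ 2 + y ^ 2) ≤ 1 := by
  rcases hy.eq_or_lt with h | h
  · rw [← h]; simp
  · rw [div_le_one (Real.sqrt_pos.2 (by positivity))]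
    exact Real.le_sqrt_of_sq_le (by nlinarith [sq_nonneg d])

theorem integrableOn_disc_aux (d a : ℝ) :
    IntegrableOn (fun y : ℝ => y * (1 / Real.sqrt (d ^ 2 + y ^ 2))) (Ioo 0 a) := by
  refine Measure.integrableOn_of_bounded (M := 1) (by simp) ?_ ?_
  · exact (by fun_prop : Measurable fun y : ℝ => y * (1 / Real.sqrt (d ^ 2 + y ^ 2))).aestronglyMeasurable
  · filter_upwards [self_mem_ae_restrict measurableSet_Ioo] with y hy
    rw [mul_one_div, Real.norm_eq_abs, abs_of_nonneg (div_nonneg hy.1.le (Real.sqrt_nonneg _))]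
    exact div_sqrt_le_one d y hy.1.le

theorem integral_disc_aux (d a : ℝ) (ha : 0 ≤ a) :
    ∫ y in Ioo 0 a, y * (1 / Real.sqrt (d ^ 2 + y ^ 2)) = Real.sqrt (d ^ 2 + a ^ 2) - |d| := by
  rw [← integral_Ioc_eq_integral_Ioo, ← intervalIntegral.integral_of_le ha]
  have h := intervalIntegral.integral_eq_sub_of_hasDerivAt_of_le (a := 0) (b := a)
    (f := fun y : ℝ => Real.sqrt (d ^ 2 + y ^ 2))
    (f' := fun y : ℝ => y * (1 / Real.sqrt (d ^ 2 + y ^ 2))) ha (by fun_prop)
    (fun y hy => by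
      have := sqrt_deriv_aux (d := d) hy.1
      rwa [mul_one_div])
    (by
      rw [intervalIntegrable_iff_integrableOn_Ioo_of_le ha]
      exact integrableOn_disc_aux d a)
  rw [h]
  simp [Real.sqrt_sq_eq_abs]

/-- Integral of `1/√(d²+|u|²)` over a disc. -/
theorem lintegral_disc (d a : ℝ) (ha : 0 ≤ a) :
    ∫⁻ u in ball (0 : E2) a, ENNReal.ofReal (1 / Real.sqrt (d ^ 2 + ‖u‖ ^ 2)) =
      ENNReal.ofReal (2 * Real.pi * (Real.sqrt (d ^ 2 + a ^ 2) - |d|)) := by
  have hint : IntegrableOn (fun u : E2 => (fun y : ℝ => 1 / Real.sqrt (d ^ 2 + y ^ 2)) ‖u‖)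
      (ball (0 : E2) a) volume := by
    refine (integrableOn_fun_norm_addHaar volume
      (f := fun y : ℝ => 1 / Real.sqrt (d ^ 2 + y ^ 2))).2 ?_
    simpa using integrableOn_disc_aux d a
  rw [← ofReal_integral_eq_lintegral_ofReal hint
    (Filter.Eventually.of_forall fun u => by positivity)]
  congr 1
  have h1 : ∫ u in ball (0 : E2) a, (1 / Real.sqrt (d ^ 2 + ‖u‖ ^ 2)) =
      ∫ u : E2, (fun y : ℝ => (Iio a).indicator (fun y => 1 / Real.sqrt (d ^ 2 + y ^ 2)) y) ‖u‖ := by
    rw [← integral_indicator measurableSet_ball]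
    congr 1
    ext u
    simp [indicator]
  rw [h1, integral_fun_norm_addHaar]
  have hpi : (volume : Measure E2).real (ball 0 1) = Real.pi := by
    rw [Measure.real, EuclideanSpace.volume_ball_fin_two]
    simp [Real.pi_pos.le]
  rw [hpi]
  have hd : Module.finrank ℝ E2 = 2 := by simp
  rw [hd]
  have h2 : ∫ y in Ioi (0 : ℝ), y ^ (2 - 1) •
      (Iio a).indicator (fun y => 1 / Real.sqrt (d ^ 2 + y ^ 2)) y =
      ∫ y in Ioo 0 a, y * (1 / Real.sqrt (d ^ 2 + y ^ 2)) := by
    rw [← integral_indicator measurableSet_Ioi, ← integral_indicator measurableSet_Ioo]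
    congr 1
    ext y
    by_cases h0 : 0 < y <;> by_cases h1 : y < a <;> simp [indicator, h0, h1]
  rw [h2, integral_disc_aux d a ha]
  simp
  ring

theorem mkE_mem_ball {s r : ℝ} {u : E2} :
    mkE (s, u) ∈ ball (0 : E3) r ↔ (-r < s ∧ s < r) ∧ u ∈ ball (0 : E2) (Real.sqrt (r ^ 2 - s ^ 2)) := by
  rw [mem_ball_zero_iff, mem_ball_zero_iff, Real.lt_sqrt (norm_nonneg _)]
  have h := norm_mkE_sq s u
  constructor
  · intro hr
    have hr0 : 0 < r := lt_of_le_of_lt (norm_nonneg _) hr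
    have h2 : ‖mkE (s, u)‖ ^ 2 < r ^ 2 := by
      have := norm_nonneg (mkE (s, u)); nlinarith
    have h3 : s ^ 2 < r ^ 2 := by nlinarith [sq_nonneg ‖u‖]
    have h4 := abs_lt_of_sq_lt_sq h3 hr0.le
    rw [abs_lt] at h4
    exact ⟨h4, by nlinarith⟩
  · rintro ⟨⟨h1, h2⟩, h3⟩
    have hr0 : 0 < r := by linarith
    have h4 : ‖mkE (s, u)‖ ^ 2 < r ^ 2 := by linarith
    exact lt_of_pow_lt_pow_left₀ 2 hr0.le h4

theorem inv_norm_mkE_sub_ax (s t : ℝ) (u : E2) :
    ‖mkE (s, u) - ax t‖⁻¹ = 1 / Real.sqrt ((s - t) ^ 2 + ‖u‖ ^ 2) := by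
  rw [← norm_mkE_sub_ax_sq, Real.sqrt_sq (norm_nonneg _), one_div]

theorem lintegral_ball_ax_slice (r t : ℝ) :
    ∫⁻ y in ball (0 : E3) r, ENNReal.ofReal ‖y - ax t‖⁻¹ =
      ∫⁻ s in Ioo (-r) r, ENNReal.ofReal
        (2 * Real.pi * (Real.sqrt (t ^ 2 - 2 * t * s + r ^ 2) - |s - t|)) := by
  rw [← lintegral_indicator measurableSet_ball, lintegral_cyl]
  swap
  · exact (by fun_prop : Measurable fun y : E3 => ENNReal.ofReal ‖y - ax t‖⁻¹).indicator
      measurableSet_ball
  rw [← lintegral_indicator measurableSet_Ioo]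
  congr 1
  ext s
  by_cases hs : s ∈ Ioo (-r) r
  · rw [indicator_of_mem hs]
    have hr2 : 0 ≤ r ^ 2 - s ^ 2 := by nlinarith [hs.1, hs.2]
    have h1 : (∫⁻ u : E2, (ball (0 : E3) r).indicator
        (fun y : E3 => ENNReal.ofReal ‖y - ax t‖⁻¹) (mkE (s, u))) =
        ∫⁻ u in ball (0 : E2) (Real.sqrt (r ^ 2 - s ^ 2)),
          ENNReal.ofReal (1 / Real.sqrt ((s - t) ^ 2 + ‖u‖ ^ 2)) := by
      rw [← lintegral_indicator measurableSet_ball]
      congr 1
      ext u
      by_cases hu : u ∈ ball (0 : E2) (Real.sqrt (r ^ 2 - s ^ 2))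
      · rw [indicator_of_mem hu, indicator_of_mem (mkE_mem_ball.2 ⟨hs, hu⟩), inv_norm_mkE_sub_ax]
      · rw [indicator_of_notMem hu, indicator_of_notMem]
        intro h
        exact hu (mkE_mem_ball.1 h).2
    rw [h1, lintegral_disc _ _ (Real.sqrt_nonneg _), Real.sq_sqrt hr2]
    congr 4
    ring
  · rw [indicator_of_notMem hs]
    have h1 : (fun u : E2 => (ball (0 : E3) r).indicator
        (fun y : E3 => ENNReal.ofReal ‖y - ax t‖⁻¹) (mkE (s, u))) = fun _ => 0 := by
      ext u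
      rw [indicator_of_notMem]
      intro h
      exact hs (mkE_mem_ball.1 h).1
    rw [h1, lintegral_zero]

theorem integral_abs_sub (r t : ℝ) (hr : 0 ≤ r) :
    ∫ s in (-r)..r, |s - t| = ((r - t) * |r - t| + (r + t) * |r + t|) / 2 := by
  have hd : ∀ s : ℝ, HasDerivAt (fun s : ℝ => (s - t) * |s - t| / 2) |s - t| s := by
    intro s
    rcases lt_trichotomy s t with h | h | h
    · have h1 : HasDerivAt (fun s : ℝ => -((s - t) ^ 2) / 2) (-(s - t)) s :=
        (((((hasDerivAt_id' s).sub_const t).pow 2).neg).div_const 2).congr_deriv (by norm_num; ring)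
      rw [abs_of_neg (sub_neg.2 h)]
      refine h1.congr_of_eventuallyEq ?_
      filter_upwards [eventually_lt_nhds h] with y hy
      rw [abs_of_neg (sub_neg.2 hy)]; ring
    · subst h
      rw [sub_self, abs_zero, hasDerivAt_iff_tendsto_slope]
      have : Filter.Tendsto (fun y : ℝ => |y - s| / 2) (nhdsWithin s {s}ᶜ) (nhds 0) := by
        have h : Filter.Tendsto (fun y : ℝ => |y - s| / 2) (nhds s) (nhds (|s - s| / 2)) := by
          apply Continuous.tendsto; fun_prop
        simp only [sub_self, abs_zero, zero_div] at h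
        exact h.mono_left nhdsWithin_le_nhds
      refine this.congr' ?_
      filter_upwards [self_mem_nhdsWithin] with y hy
      have hy' : y - s ≠ 0 := sub_ne_zero.2 hy
      rw [slope_def_field]
      simp only [sub_self, abs_zero, mul_zero, zero_div, sub_zero]
      field_simp
    · have h1 : HasDerivAt (fun s : ℝ => ((s - t) ^ 2) / 2) (s - t) s :=
        ((((hasDerivAt_id' s).sub_const t).pow 2).div_const 2).congr_deriv (by norm_num)
      rw [abs_of_pos (sub_pos.2 h)]
      refine h1.congr_of_eventuallyEq ?_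
      filter_upwards [eventually_gt_nhds h] with y hy
      rw [abs_of_pos (sub_pos.2 hy)]; ring
  rw [intervalIntegral.integral_eq_sub_of_hasDerivAt (fun s _ => hd s)
    (by apply Continuous.intervalIntegrable; fun_prop)]
  have : |-r - t| = |r + t| := by rw [← abs_neg]; congr 1; ring
  rw [this]; ring

theorem integral_sqrt_aux (r t : ℝ) (hr : 0 ≤ r) (ht : 0 < t) :
    ∫ s in (-r)..r, Real.sqrt (t ^ 2 - 2 * t * s + r ^ 2) = ((t + r) ^ 3 - |t - r| ^ 3) / (3 * t) := by
  rcases hr.eq_or_lt with h | hr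
  · subst h; simp [abs_of_pos ht]
  have hq : ∀ s ∈ Ioo (-r) r, 0 < t ^ 2 - 2 * t * s + r ^ 2 := by
    intro s hs
    nlinarith [sq_nonneg (t - r), mul_pos ht (sub_pos.2 hs.2)]
  have h := intervalIntegral.integral_eq_sub_of_hasDerivAt_of_le (a := -r) (b := r)
    (f := fun s : ℝ => -(1 / (3 * t)) * ((t ^ 2 - 2 * t * s + r ^ 2) *
      Real.sqrt (t ^ 2 - 2 * t * s + r ^ 2)))
    (f' := fun s : ℝ => Real.sqrt (t ^ 2 - 2 * t * s + r ^ 2)) (by linarith) (by fun_prop)
    (fun s hs => by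
      have h1 : HasDerivAt (fun s : ℝ => t ^ 2 - 2 * t * s + r ^ 2) (-(2 * t)) s := by
        have := (((hasDerivAt_id s).const_mul (2 * t)).const_sub (t ^ 2)).add_const (r ^ 2)
        simpa using this
      have h2 := h1.mul (h1.sqrt (hq s hs).ne')
      have h3 := h2.const_mul (-(1 / (3 * t)))
      refine HasDerivAt.congr_deriv h3 ?_
      have hs' := Real.sqrt_pos.2 (hq s hs)
      have hss := Real.sq_sqrt (hq s hs).le
      have ht' := ht.ne'
      set w := Real.sqrt (t ^ 2 - 2 * t * s + r ^ 2) with hw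
      rw [← hss]
      field_simp
      ring)
    (by apply Continuous.intervalIntegrable; fun_prop)
  rw [h]
  have e1 : t ^ 2 - 2 * t * r + r ^ 2 = (t - r) ^ 2 := by ring
  have e2 : t ^ 2 - 2 * t * (-r) + r ^ 2 = (t + r) ^ 2 := by ring
  rw [e1, e2, Real.sqrt_sq_eq_abs, Real.sqrt_sq (by linarith), ← sq_abs (t - r)]
  field_simp
  ring

/-- The potential of a ball of radius `r` at distance `t` from its centre. -/
noncomputable def ballPot (r t : ℝ) : ℝ :=
  if t ≤ r then 2 * Real.pi * r ^ 2 - 2 * Real.pi / 3 * t ^ 2 else 4 * Real.pi / 3 * r ^ 3 / t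

theorem sqrt_sub_abs_nonneg {r t s : ℝ} (hs : s ∈ Ioo (-r) r) :
    0 ≤ Real.sqrt (t ^ 2 - 2 * t * s + r ^ 2) - |s - t| := by
  rw [sub_nonneg]
  apply Real.le_sqrt_of_sq_le
  rw [sq_abs]
  nlinarith [hs.1, hs.2]

theorem lintegral_ball_ax (r t : ℝ) (hr : 0 ≤ r) (ht : 0 ≤ t) :
    ∫⁻ y in ball (0 : E3) r, ENNReal.ofReal ‖y - ax t‖⁻¹ = ENNReal.ofReal (ballPot r t) := by
  rw [lintegral_ball_ax_slice]
  have hcont : Continuous fun s : ℝ =>
      2 * Real.pi * (Real.sqrt (t ^ 2 - 2 * t * s + r ^ 2) - |s - t|) := by fun_prop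
  have hint : IntegrableOn (fun s : ℝ =>
      2 * Real.pi * (Real.sqrt (t ^ 2 - 2 * t * s + r ^ 2) - |s - t|)) (Ioo (-r) r) :=
    (hcont.integrableOn_Icc (a := -r) (b := r)).mono_set Ioo_subset_Icc_self
  rw [← ofReal_integral_eq_lintegral_ofReal hint]
  swap
  · filter_upwards [self_mem_ae_restrict measurableSet_Ioo] with s hs
    exact mul_nonneg (by positivity) (sqrt_sub_abs_nonneg hs)
  congr 1
  rw [← integral_Ioc_eq_integral_Ioo, ← intervalIntegral.integral_of_le (by linarith),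
    intervalIntegral.integral_const_mul, intervalIntegral.integral_sub
      (by apply Continuous.intervalIntegrable; fun_prop)
      (by apply Continuous.intervalIntegrable; fun_prop), integral_abs_sub r t hr]
  rcases ht.eq_or_lt with h0 | h0
  · subst h0
    have : ∀ s : ℝ, Real.sqrt (0 ^ 2 - 2 * 0 * s + r ^ 2) = r := by
      intro s; simp [Real.sqrt_sq hr]
    simp only [this]
    rw [intervalIntegral.integral_const, ballPot, if_pos hr]
    simp [abs_of_nonneg hr]
    ring
  · rw [integral_sqrt_aux r t hr h0, ballPot]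
    split_ifs with h
    · rw [abs_of_nonneg (by linarith : 0 ≤ r - t), abs_of_nonneg (by linarith : 0 ≤ r + t),
        abs_of_nonpos (by linarith : t - r ≤ 0)]
      field_simp
      ring
    · push Not at h
      rw [abs_of_neg (by linarith : r - t < 0), abs_of_nonneg (by linarith : 0 ≤ r + t),
        abs_of_pos (by linarith : 0 < t - r)]
      field_simp
      ring

/-- Newton's theorem for a ball. -/
theorem lintegral_ball_inv (r : ℝ) (hr : 0 ≤ r) (x : E3) :
    ∫⁻ y in ball (0 : E3) r, ENNReal.ofReal ‖x - y‖⁻¹ = ENNReal.ofReal (ballPot r ‖x‖) := by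
  obtain ⟨f, hf⟩ := exists_isometry_ax x
  rw [← lintegral_ball_ax r ‖x‖ hr (norm_nonneg x)]
  rw [← lintegral_indicator measurableSet_ball, ← lintegral_indicator measurableSet_ball]
  rw [← f.measurePreserving.lintegral_comp
    ((by fun_prop : Measurable fun y : E3 => ENNReal.ofReal ‖x - y‖⁻¹).indicator measurableSet_ball)]
  congr 1
  ext y
  have h1 : f y ∈ ball (0 : E3) r ↔ y ∈ ball (0 : E3) r := by simp
  have h2 : ‖x - f y‖ = ‖y - ax ‖x‖‖ := by
    conv_lhs => rw [← hf]
    rw [← map_sub, f.norm_map, norm_sub_rev]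
  by_cases hy : y ∈ ball (0 : E3) r
  · rw [indicator_of_mem hy, indicator_of_mem (h1.2 hy), h2]
  · rw [indicator_of_notMem hy, indicator_of_notMem (fun h => hy (h1.1 h))]

end Pool.Agent.Lib_helper90c


end

section

/-!
# Volume of the intersection of two balls of equal radius, and the exponential as a mixture
-/

set_option autoImplicit false

open MeasureTheory Set Metric
open scoped ENNReal NNReal

namespace Pool.Agent.Lib_helper90c

theorem mkE_mem_ball_ax {s r t : ℝ} {u : E2} :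
    mkE (s, u) ∈ ball (ax t) r ↔
      (-r < s - t ∧ s - t < r) ∧ u ∈ ball (0 : E2) (Real.sqrt (r ^ 2 - (s - t) ^ 2)) := by
  have h : mkE (s, u) - ax t = mkE (s - t, u) := by
    ext i
    refine Fin.cases ?_ (fun j => ?_) i
    · simp [mkE, ax]
    · simp [mkE, ax]
  rw [mem_ball_iff_norm, h, ← mem_ball_zero_iff, mkE_mem_ball]

theorem volume_disc (a : ℝ) (ha : 0 ≤ a) :
    volume (ball (0 : E2) (Real.sqrt a)) = ENNReal.ofReal (Real.pi * a) := by
  rw [EuclideanSpace.volume_ball_fin_two, ← ENNReal.ofReal_pow (Real.sqrt_nonneg _),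
    Real.sq_sqrt ha]
  rw [← ENNReal.ofReal_mul ha, mul_comm]

/-- volume of the lens, slices -/
theorem volume_lens_slice (r t : ℝ) (ht : 0 ≤ t) :
    volume (ball (0 : E3) r ∩ ball (ax t) r) =
      ∫⁻ s in Ioo (t - r) r, ENNReal.ofReal
        (Real.pi * min (r ^ 2 - s ^ 2) (r ^ 2 - (s - t) ^ 2)) := by
  rw [← lintegral_indicator_one (measurableSet_ball.inter measurableSet_ball), lintegral_cyl]
  swap
  · exact (measurable_one).indicator (measurableSet_ball.inter measurableSet_ball)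
  rw [← lintegral_indicator measurableSet_Ioo]
  congr 1
  ext s
  by_cases hs : s ∈ Ioo (t - r) r
  · rw [indicator_of_mem hs]
    have h1 : 0 ≤ r ^ 2 - s ^ 2 := by nlinarith [hs.1, hs.2]
    have h2 : 0 ≤ r ^ 2 - (s - t) ^ 2 := by nlinarith [hs.1, hs.2]
    have h3 : 0 ≤ min (r ^ 2 - s ^ 2) (r ^ 2 - (s - t) ^ 2) := le_min h1 h2
    rw [← volume_disc _ h3, ← lintegral_indicator_one measurableSet_ball]
    congr 1
    ext u
    have hiff : mkE (s, u) ∈ ball (0 : E3) r ∩ ball (ax t) r ↔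
        u ∈ ball (0 : E2) (Real.sqrt (min (r ^ 2 - s ^ 2) (r ^ 2 - (s - t) ^ 2))) := by
      rw [mem_inter_iff, mkE_mem_ball, mkE_mem_ball_ax, mem_ball_zero_iff, mem_ball_zero_iff,
        mem_ball_zero_iff, Real.lt_sqrt (norm_nonneg _), Real.lt_sqrt (norm_nonneg _),
        Real.lt_sqrt (norm_nonneg _), lt_min_iff]
      constructor
      · rintro ⟨⟨_, h⟩, ⟨_, h'⟩⟩; exact ⟨h, h'⟩
      · rintro ⟨h, h'⟩
        exact ⟨⟨⟨by linarith [hs.1], hs.2⟩, h⟩, ⟨⟨by linarith [hs.1], by linarith [hs.2]⟩, h'⟩⟩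
    by_cases hu : u ∈ ball (0 : E2) (Real.sqrt (min (r ^ 2 - s ^ 2) (r ^ 2 - (s - t) ^ 2)))
    · rw [indicator_of_mem hu, indicator_of_mem (hiff.2 hu)]; rfl
    · rw [indicator_of_notMem hu, indicator_of_notMem (fun h => hu (hiff.1 h))]
  · rw [indicator_of_notMem hs]
    have h1 : (fun u : E2 => (ball (0 : E3) r ∩ ball (ax t) r).indicator (1 : E3 → ℝ≥0∞)
        (mkE (s, u))) = fun _ => 0 := by
      ext u
      rw [indicator_of_notMem]
      rintro ⟨h, h'⟩
      rw [mkE_mem_ball] at h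
      rw [mkE_mem_ball_ax] at h'
      exact hs ⟨by linarith [h'.1.1], h.1.2⟩
    rw [h1, lintegral_zero]

theorem integral_lens_aux (r t : ℝ) (ht : 0 ≤ t) (htr : t ≤ 2 * r) :
    ∫ s in (t - r)..r, Real.pi * min (r ^ 2 - s ^ 2) (r ^ 2 - (s - t) ^ 2) =
      Real.pi / 12 * (16 * r ^ 3 - 12 * r ^ 2 * t + t ^ 3) := by
  have hc : Continuous fun s : ℝ => Real.pi * min (r ^ 2 - s ^ 2) (r ^ 2 - (s - t) ^ 2) := by
    fun_prop
  rw [← intervalIntegral.integral_add_adjacent_intervals (b := t / 2)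
    (hc.intervalIntegrable _ _) (hc.intervalIntegrable _ _)]
  have h1 : ∫ s in (t - r)..(t / 2), Real.pi * min (r ^ 2 - s ^ 2) (r ^ 2 - (s - t) ^ 2) =
      ∫ s in (t - r)..(t / 2), Real.pi * (r ^ 2 - (s - t) ^ 2) := by
    apply intervalIntegral.integral_congr
    intro s hs
    rw [uIcc_of_le (by linarith)] at hs
    show Real.pi * min (r ^ 2 - s ^ 2) (r ^ 2 - (s - t) ^ 2) = Real.pi * (r ^ 2 - (s - t) ^ 2)
    rw [min_eq_right]
    nlinarith [hs.2]
  have h2 : ∫ s in (t / 2)..r, Real.pi * min (r ^ 2 - s ^ 2) (r ^ 2 - (s - t) ^ 2) =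
      ∫ s in (t / 2)..r, Real.pi * (r ^ 2 - s ^ 2) := by
    apply intervalIntegral.integral_congr
    intro s hs
    rw [uIcc_of_le (by linarith)] at hs
    show Real.pi * min (r ^ 2 - s ^ 2) (r ^ 2 - (s - t) ^ 2) = Real.pi * (r ^ 2 - s ^ 2)
    rw [min_eq_left]
    nlinarith [hs.1]
  have i1 := intervalIntegral.integral_eq_sub_of_hasDerivAt (a := t - r) (b := t / 2)
    (f := fun s : ℝ => Real.pi * (r ^ 2 * s - (s - t) ^ 3 / 3))
    (f' := fun s : ℝ => Real.pi * (r ^ 2 - (s - t) ^ 2))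
    (fun s _ => ((((hasDerivAt_id' s).const_mul (r ^ 2)).sub
        ((((hasDerivAt_id' s).sub_const t).pow 3).div_const 3)).const_mul Real.pi).congr_deriv
        (by norm_num)) (by apply Continuous.intervalIntegrable; fun_prop)
  have i2 := intervalIntegral.integral_eq_sub_of_hasDerivAt (a := t / 2) (b := r)
    (f := fun s : ℝ => Real.pi * (r ^ 2 * s - s ^ 3 / 3))
    (f' := fun s : ℝ => Real.pi * (r ^ 2 - s ^ 2))
    (fun s _ => ((((hasDerivAt_id' s).const_mul (r ^ 2)).sub
        (((hasDerivAt_id' s).pow 3).div_const 3)).const_mul Real.pi).congr_deriv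
        (by norm_num)) (by apply Continuous.intervalIntegrable; fun_prop)
  rw [h1, h2, i1, i2]
  ring

theorem volume_lens_ax (r t : ℝ) (ht : 0 ≤ t) (htr : t ≤ 2 * r) :
    volume (ball (0 : E3) r ∩ ball (ax t) r) =
      ENNReal.ofReal (Real.pi / 12 * (16 * r ^ 3 - 12 * r ^ 2 * t + t ^ 3)) := by
  rw [volume_lens_slice r t ht, ← integral_lens_aux r t ht htr]
  have hc : Continuous fun s : ℝ => Real.pi * min (r ^ 2 - s ^ 2) (r ^ 2 - (s - t) ^ 2) := by
    fun_prop
  rw [intervalIntegral.integral_of_le (by linarith), integral_Ioc_eq_integral_Ioo,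
    ofReal_integral_eq_lintegral_ofReal]
  · exact (hc.integrableOn_Icc (a := t - r) (b := r)).mono_set Ioo_subset_Icc_self
  · filter_upwards [self_mem_ae_restrict measurableSet_Ioo] with s hs
    exact mul_nonneg Real.pi_pos.le (le_min (by nlinarith [hs.1, hs.2]) (by nlinarith [hs.1, hs.2]))

theorem volume_lens (r : ℝ) (x y : E3) (h : ‖x - y‖ ≤ 2 * r) :
    volume (ball x r ∩ ball y r) =
      ENNReal.ofReal (Real.pi / 12 * (16 * r ^ 3 - 12 * r ^ 2 * ‖x - y‖ + ‖x - y‖ ^ 3)) := by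
  rw [← volume_lens_ax r ‖x - y‖ (norm_nonneg _) h]
  obtain ⟨f, hf⟩ := exists_isometry_ax (y - x)
  have hxy : ‖x - y‖ = ‖y - x‖ := norm_sub_rev _ _
  rw [← hxy] at hf
  have h1 : ball x r ∩ ball y r = (fun z => z - x) ⁻¹' (ball 0 r ∩ ball (y - x) r) := by
    ext z
    simp only [mem_inter_iff, mem_ball_iff_norm, mem_preimage, sub_zero, sub_sub_sub_cancel_right]
  have h2 : ball (0 : E3) r ∩ ball (ax ‖x - y‖) r = f ⁻¹' (ball 0 r ∩ ball (y - x) r) := by
    ext z
    simp only [mem_inter_iff, mem_ball_iff_norm, mem_preimage, sub_zero]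
    rw [← hf, ← map_sub, f.norm_map, f.norm_map]
  rw [h1, h2, f.measurePreserving.measure_preimage
    (measurableSet_ball.inter measurableSet_ball).nullMeasurableSet]
  exact (measurePreserving_sub_right volume x).measure_preimage
    (measurableSet_ball.inter measurableSet_ball).nullMeasurableSet

theorem volume_lens_eq_zero (r : ℝ) (x y : E3) (h : 2 * r < ‖x - y‖) :
    volume (ball x r ∩ ball y r) = 0 := by
  have : ball x r ∩ ball y r = ∅ := by
    ext z
    simp only [mem_inter_iff, mem_ball_iff_norm, mem_empty_iff_false, iff_false, not_and, not_lt]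
    intro hz
    have := norm_sub_le_norm_sub_add_norm_sub x z y
    rw [norm_sub_rev x z] at this
    linarith
  rw [this, measure_empty]

end Pool.Agent.Lib_helper90c


end

section

/-!
# The exponential kernel as a mixture of autocorrelations of balls
-/

set_option autoImplicit false

open MeasureTheory Set Metric Filter
open scoped ENNReal NNReal Topology

namespace Pool.Agent.Lib_helper90c

/-- The radial weight. -/
noncomputable def om (μ r : ℝ) : ℝ :=
  Real.exp (-(2 * μ * r)) * (2 * μ ^ 3 / r + μ ^ 2 / r ^ 2) / Real.pi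

theorem om_nonneg {μ r : ℝ} (hμ : 0 < μ) (hr : 0 < r) : 0 ≤ om μ r := by
  unfold om; positivity

theorem measurable_om (μ : ℝ) : Measurable (om μ) := by
  unfold om; fun_prop

/-- antiderivative -/
noncomputable def omG (μ t r : ℝ) : ℝ :=
  -(Real.exp (-(2 * μ * r)) * (16 * μ ^ 2 * r ^ 2 + 24 * μ * r + 12 - 12 * t * (μ ^ 2 * r + μ) +
    t ^ 3 * μ ^ 2 / r)) / 12

theorem omG_half {μ t : ℝ} (_ : 0 < μ) (ht : 0 ≤ t) : omG μ t (t / 2) = -Real.exp (-(μ * t)) := by
  unfold omG
  have : -(2 * μ * (t / 2)) = -(μ * t) := by ring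
  rw [this]
  rcases ht.eq_or_lt with h | h
  · subst h; simp
  · field_simp
    ring

theorem hasDerivAt_omG {μ t r : ℝ} (hr : 0 < r) :
    HasDerivAt (omG μ t)
      (om μ r * (Real.pi / 12 * (16 * r ^ 3 - 12 * r ^ 2 * t + t ^ 3))) r := by
  have h1 : HasDerivAt (fun r : ℝ => Real.exp (-(2 * μ * r)))
      (Real.exp (-(2 * μ * r)) * (-(2 * μ * 1))) r :=
    (((hasDerivAt_id' r).const_mul (2 * μ)).neg).exp
  have h2 : HasDerivAt (fun r : ℝ => 16 * μ ^ 2 * r ^ 2 + 24 * μ * r + 12 -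
      12 * t * (μ ^ 2 * r + μ) + t ^ 3 * μ ^ 2 / r)
      (16 * μ ^ 2 * (2 * r) + 24 * μ * 1 - 12 * t * (μ ^ 2 * 1) + -(t ^ 3 * μ ^ 2) / r ^ 2) r := by
    have ha : HasDerivAt (fun r : ℝ => 16 * μ ^ 2 * r ^ 2) (16 * μ ^ 2 * (2 * r)) r :=
      (((hasDerivAt_id' r).pow 2).const_mul (16 * μ ^ 2)).congr_deriv (by norm_num)
    have hb : HasDerivAt (fun r : ℝ => 24 * μ * r) (24 * μ * 1) r :=
      (hasDerivAt_id' r).const_mul (24 * μ)
    have hc : HasDerivAt (fun r : ℝ => 12 * t * (μ ^ 2 * r + μ)) (12 * t * (μ ^ 2 * 1)) r :=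
      (((hasDerivAt_id' r).const_mul (μ ^ 2)).add_const μ).const_mul (12 * t)
    have hd : HasDerivAt (fun r : ℝ => t ^ 3 * μ ^ 2 / r) (-(t ^ 3 * μ ^ 2) / r ^ 2) r := by
      have := ((hasDerivAt_inv hr.ne').const_mul (t ^ 3 * μ ^ 2)).congr_deriv
        (g' := -(t ^ 3 * μ ^ 2) / r ^ 2) (by rw [div_eq_mul_inv]; ring)
      simpa only [div_eq_mul_inv] using this
    exact (((ha.add hb).add_const 12).sub hc).add hd
  have h3 := ((h1.mul h2).neg).div_const 12
  refine HasDerivAt.congr_deriv h3 ?_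
  unfold om
  have := Real.pi_pos.ne'
  field_simp
  ring

theorem lens_poly_nonneg {r t : ℝ} (hr : 0 ≤ r) (ht : 0 ≤ t) :
    0 ≤ 16 * r ^ 3 - 12 * r ^ 2 * t + t ^ 3 := by
  have : 16 * r ^ 3 - 12 * r ^ 2 * t + t ^ 3 = (4 * r + t) * (2 * r - t) ^ 2 := by ring
  rw [this]; positivity

theorem tendsto_omG {μ t : ℝ} (hμ : 0 < μ) : Tendsto (omG μ t) atTop (𝓝 0) := by
  have hx : Tendsto (fun r : ℝ => 2 * μ * r) atTop atTop :=
    tendsto_id.const_mul_atTop (by positivity)
  have h0 := (Real.tendsto_pow_mul_exp_neg_atTop_nhds_zero 0).comp hx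
  have h1 := (Real.tendsto_pow_mul_exp_neg_atTop_nhds_zero 1).comp hx
  have h2 := (Real.tendsto_pow_mul_exp_neg_atTop_nhds_zero 2).comp hx
  have hi : Tendsto (fun r : ℝ => r⁻¹) atTop (𝓝 0) := tendsto_inv_atTop_zero
  have h3 := h0.mul hi
  have key := ((((h2.const_mul 4).add (h1.const_mul 12)).add (h0.const_mul 12)).add
    (((h1.const_mul (-6 * t * μ)).add (h0.const_mul (-12 * t * μ))).add
      (h3.const_mul (t ^ 3 * μ ^ 2)))).const_mul (-(1 / 12 : ℝ))
  simp only [mul_zero, add_zero] at key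
  refine key.congr fun r => ?_
  simp only [Function.comp, omG, pow_zero, pow_one, one_mul]
  ring

theorem lintegral_om_lens {μ t : ℝ} (hμ : 0 < μ) (ht : 0 ≤ t) :
    ∫⁻ r in Ioi (t / 2), ENNReal.ofReal
      (om μ r * (Real.pi / 12 * (16 * r ^ 3 - 12 * r ^ 2 * t + t ^ 3))) =
      ENNReal.ofReal (Real.exp (-(μ * t))) := by
  have hpos : ∀ r ∈ Ioi (t / 2), 0 < r := fun r hr => lt_of_le_of_lt (by positivity) hr
  have hcont : ContinuousWithinAt (omG μ t) (Ici (t / 2)) (t / 2) := by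
    rcases ht.eq_or_lt with h | h
    · subst h
      have : omG μ 0 = fun r => -(Real.exp (-(2 * μ * r)) * (16 * μ ^ 2 * r ^ 2 + 24 * μ * r + 12))
          / 12 := by
        ext r; unfold omG; simp
      rw [this]
      apply Continuous.continuousWithinAt
      fun_prop
    · exact (hasDerivAt_omG (half_pos h)).continuousAt.continuousWithinAt
  have hnn : ∀ r ∈ Ioi (t / 2), 0 ≤ om μ r *
      (Real.pi / 12 * (16 * r ^ 3 - 12 * r ^ 2 * t + t ^ 3)) := fun r hr =>
    mul_nonneg (om_nonneg hμ (hpos r hr)) (mul_nonneg (by positivity)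
      (lens_poly_nonneg (hpos r hr).le ht))
  have hint := integrableOn_Ioi_deriv_of_nonneg hcont
    (fun r hr => hasDerivAt_omG (hpos r hr)) hnn (tendsto_omG hμ)
  have hval := integral_Ioi_of_hasDerivAt_of_nonneg hcont
    (fun r hr => hasDerivAt_omG (hpos r hr)) hnn (tendsto_omG hμ)
  rw [← ofReal_integral_eq_lintegral_ofReal hint
    ((ae_restrict_iff' measurableSet_Ioi).2 (Eventually.of_forall hnn)), hval, omG_half hμ ht]
  simp

/-- The measure on the space of balls (radius, centre). -/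
noncomputable def bm (μ : ℝ) : Measure (ℝ × E3) :=
  ((volume.restrict (Ioi (0 : ℝ))).withDensity (fun r => ENNReal.ofReal (om μ r))).prod volume

instance (μ : ℝ) : SFinite (bm μ) := by unfold bm; infer_instance

/-- the open set of pairs (ball, point of the ball) -/
theorem isOpen_ballRel : IsOpen {q : (ℝ × E3) × E3 | q.2 ∈ ball q.1.2 q.1.1} := by
  simp only [mem_ball]
  exact isOpen_lt (by fun_prop) (by fun_prop)

/-- indicator of the ball `p` at the point `x` -/
noncomputable def ib (p : ℝ × E3) (x : E3) : ℝ≥0∞ := (ball p.2 p.1).indicator 1 x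

theorem measurable_ib : Measurable fun q : (ℝ × E3) × E3 => ib q.1 q.2 := by
  have : (fun q : (ℝ × E3) × E3 => ib q.1 q.2) =
      {q : (ℝ × E3) × E3 | q.2 ∈ ball q.1.2 q.1.1}.indicator 1 := by
    ext q
    by_cases h : q.2 ∈ ball q.1.2 q.1.1
    · rw [indicator_of_mem (show q ∈ {q : (ℝ × E3) × E3 | q.2 ∈ ball q.1.2 q.1.1} from h), ib,
        indicator_of_mem h]; rfl
    · rw [indicator_of_notMem (show q ∉ {q : (ℝ × E3) × E3 | q.2 ∈ ball q.1.2 q.1.1} from h), ib,
        indicator_of_notMem h]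
  rw [this]
  exact measurable_one.indicator isOpen_ballRel.measurableSet

theorem measurable_ib_left (x : E3) : Measurable (fun p : ℝ × E3 => ib p x) := by
  have h : Measurable (fun p : ℝ × E3 => (p, x)) := measurable_prodMk_right
  have h2 := measurable_ib.comp h
  exact h2

theorem measurable_ib_right (p : ℝ × E3) : Measurable (fun x : E3 => ib p x) := by
  have h : Measurable (fun x : E3 => (p, x)) := measurable_prodMk_left
  have h2 := measurable_ib.comp h
  exact h2

theorem lintegral_bm (μ : ℝ) (f : ℝ × E3 → ℝ≥0∞) (hf : Measurable f) :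
    ∫⁻ p, f p ∂(bm μ) = ∫⁻ r in Ioi (0 : ℝ), ENNReal.ofReal (om μ r) * ∫⁻ c : E3, f (r, c) := by
  unfold bm
  rw [lintegral_prod _ hf.aemeasurable]
  rw [lintegral_withDensity_eq_lintegral_mul₀ (measurable_om μ).ennreal_ofReal.aemeasurable
    hf.lintegral_prod_right'.aemeasurable]
  rfl

theorem lintegral_ib_ib (r : ℝ) (x y : E3) :
    ∫⁻ c : E3, ib (r, c) x * ib (r, c) y = volume (ball x r ∩ ball y r) := by
  rw [← lintegral_indicator_one (measurableSet_ball.inter measurableSet_ball)]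
  congr 1
  ext c
  unfold ib
  simp only [indicator, mem_inter_iff, mem_ball, Pi.one_apply]
  rw [dist_comm x c, dist_comm y c]
  by_cases h1 : dist c x < r <;> by_cases h2 : dist c y < r <;> simp [h1, h2]

/-- The key identity: the exponential is a mixture of ball autocorrelations. -/
theorem mix_exp {μ : ℝ} (hμ : 0 < μ) (x y : E3) :
    ∫⁻ p, ib p x * ib p y ∂(bm μ) = ENNReal.ofReal (Real.exp (-(μ * ‖x - y‖))) := by
  rw [lintegral_bm μ (fun p => ib p x * ib p y) ((measurable_ib_left x).mul (measurable_ib_left y))]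
  simp only [lintegral_ib_ib]
  rw [← lintegral_om_lens hμ (norm_nonneg (x - y)), ← lintegral_indicator measurableSet_Ioi,
    ← lintegral_indicator measurableSet_Ioi]
  apply lintegral_congr_ae
  have : ∀ᵐ r : ℝ, r ≠ ‖x - y‖ / 2 := by
    simp [ae_iff]
  filter_upwards [this] with r hr
  by_cases h0 : r ∈ Ioi (0 : ℝ)
  · rw [indicator_of_mem h0]
    by_cases h1 : r ∈ Ioi (‖x - y‖ / 2)
    · rw [indicator_of_mem h1, volume_lens r x y (by have := h1.out; linarith),
        ← ENNReal.ofReal_mul (om_nonneg hμ h0)]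
    · rw [indicator_of_notMem h1, volume_lens_eq_zero r x y ?_, mul_zero]
      have h2 : r ≤ ‖x - y‖ / 2 := not_lt.1 h1
      have h3 : r < ‖x - y‖ / 2 := lt_of_le_of_ne h2 hr
      linarith
  · rw [indicator_of_notMem h0, indicator_of_notMem]
    intro h1
    exact h0 (lt_of_le_of_lt (by positivity : (0:ℝ) ≤ ‖x - y‖ / 2) h1)

theorem mix_one {μ : ℝ} (hμ : 0 < μ) (x : E3) : ∫⁻ p, ib p x ∂(bm μ) = 1 := by
  have h := mix_exp hμ x x
  rw [sub_self, norm_zero, mul_zero, neg_zero, Real.exp_zero, ENNReal.ofReal_one] at h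
  rw [← h]
  congr 1
  ext p
  unfold ib
  by_cases h1 : x ∈ ball p.2 p.1 <;> simp [indicator, h1]

end Pool.Agent.Lib_helper90c


end

section

/-!
# Positive definiteness of the exponential kernel and of `(1 - e^{-κ t}) / t`
-/

set_option autoImplicit false

open MeasureTheory Set Metric Filter
open scoped ENNReal NNReal Topology

namespace Pool.Agent.Lib_helper90c

theorem lintegral_ib (p : ℝ × E3) (ν : Measure E3) : ∫⁻ x, ib p x ∂ν = ν (ball p.2 p.1) := by
  unfold ib
  exact lintegral_indicator_one measurableSet_ball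

theorem measurable_ball_measure (ν : Measure E3) [SFinite ν] :
    Measurable fun p : ℝ × E3 => ν (ball p.2 p.1) := by
  have h : (fun p : ℝ × E3 => ν (ball p.2 p.1)) = fun p => ∫⁻ x, ib p x ∂ν := by
    ext p; rw [lintegral_ib]
  rw [h]
  exact measurable_ib.lintegral_prod_right'

theorem lintegral_bm_measure_mul {μ : ℝ} (hμ : 0 < μ) (ν₁ ν₂ : Measure E3) [SFinite ν₁]
    [SFinite ν₂] :
    ∫⁻ p, ν₁ (ball p.2 p.1) * ν₂ (ball p.2 p.1) ∂(bm μ) =
      ∫⁻ x, ∫⁻ y, ENNReal.ofReal (Real.exp (-(μ * ‖x - y‖))) ∂ν₂ ∂ν₁ := by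
  have h1 : ∀ p : ℝ × E3, ν₁ (ball p.2 p.1) * ν₂ (ball p.2 p.1) =
      ∫⁻ x, ∫⁻ y, ib p x * ib p y ∂ν₂ ∂ν₁ := by
    intro p
    rw [← lintegral_ib, ← lintegral_ib]
    have : ∀ x, ∫⁻ y, ib p x * ib p y ∂ν₂ = ib p x * ∫⁻ y, ib p y ∂ν₂ := fun x =>
      lintegral_const_mul _ (measurable_ib_right p)
    simp only [this]
    rw [lintegral_mul_const _ (measurable_ib_right p)]
  simp only [h1]
  have hm : Measurable fun q : ((ℝ × E3) × E3) × E3 => ib q.1.1 q.1.2 * ib q.1.1 q.2 := by
    have a1 : Measurable fun q : ((ℝ × E3) × E3) × E3 => q.1 := measurable_fst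
    have a2 : Measurable fun q : ((ℝ × E3) × E3) × E3 => (q.1.1, q.2) := by fun_prop
    have b1 := measurable_ib.comp a1
    have b2 := measurable_ib.comp a2
    exact b1.mul b2
  have hm2 : Measurable fun q : (ℝ × E3) × E3 => ∫⁻ y, ib q.1 q.2 * ib q.1 y ∂ν₂ :=
    Measurable.lintegral_prod_right'
      (f := fun q : ((ℝ × E3) × E3) × E3 => ib q.1.1 q.1.2 * ib q.1.1 q.2) hm
  rw [lintegral_lintegral_swap (f := fun p x => ∫⁻ y, ib p x * ib p y ∂ν₂) hm2.aemeasurable]
  congr 1
  ext x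
  rw [lintegral_lintegral_swap (f := fun p y => ib p x * ib p y)]
  swap
  · have a1 : Measurable fun q : (ℝ × E3) × E3 => q.1 := measurable_fst
    have b1 := (measurable_ib_left x).comp a1
    exact (b1.mul measurable_ib).aemeasurable
  congr 1
  ext y
  exact mix_exp hμ x y

theorem lintegral_exp_le (μ : ℝ) (hμ : 0 ≤ μ) (ν₁ ν₂ : Measure E3) :
    ∫⁻ x, ∫⁻ y, ENNReal.ofReal (Real.exp (-(μ * ‖x - y‖))) ∂ν₂ ∂ν₁ ≤ ν₂ univ * ν₁ univ := by
  calc ∫⁻ x, ∫⁻ y, ENNReal.ofReal (Real.exp (-(μ * ‖x - y‖))) ∂ν₂ ∂ν₁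
      ≤ ∫⁻ _x, ∫⁻ _y, 1 ∂ν₂ ∂ν₁ := by
        refine lintegral_mono fun x => lintegral_mono fun y => ?_
        rw [← ENNReal.ofReal_one]
        apply ENNReal.ofReal_le_ofReal
        rw [Real.exp_le_one_iff]
        have := norm_nonneg (x - y)
        nlinarith
    _ = ν₂ univ * ν₁ univ := by simp

theorem integrable_bm_mul {μ : ℝ} (hμ : 0 < μ) (ν₁ ν₂ : Measure E3) [IsFiniteMeasure ν₁]
    [IsFiniteMeasure ν₂] :
    Integrable (fun p : ℝ × E3 => ν₁.real (ball p.2 p.1) * ν₂.real (ball p.2 p.1)) (bm μ) := by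
  refine ⟨((measurable_ball_measure ν₁).ennreal_toReal.mul
    (measurable_ball_measure ν₂).ennreal_toReal).aestronglyMeasurable, ?_⟩
  rw [hasFiniteIntegral_iff_ofReal (Eventually.of_forall fun p => by positivity)]
  have : ∀ p : ℝ × E3, ENNReal.ofReal (ν₁.real (ball p.2 p.1) * ν₂.real (ball p.2 p.1)) =
      ν₁ (ball p.2 p.1) * ν₂ (ball p.2 p.1) := by
    intro p
    rw [ENNReal.ofReal_mul measureReal_nonneg, ofReal_measureReal, ofReal_measureReal]
  simp only [this]
  rw [lintegral_bm_measure_mul hμ]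
  refine lt_of_le_of_lt (lintegral_exp_le μ hμ.le ν₁ ν₂) ?_
  exact ENNReal.mul_lt_top (measure_lt_top _ _) (measure_lt_top _ _)

theorem integral_bm_mul {μ : ℝ} (hμ : 0 < μ) (ν₁ ν₂ : Measure E3) [IsFiniteMeasure ν₁]
    [IsFiniteMeasure ν₂] :
    ∫ p, ν₁.real (ball p.2 p.1) * ν₂.real (ball p.2 p.1) ∂(bm μ) =
      ∫ x, ∫ y, Real.exp (-(μ * ‖x - y‖)) ∂ν₂ ∂ν₁ := by
  rw [integral_eq_lintegral_of_nonneg_ae (Eventually.of_forall fun p => by positivity)
    (integrable_bm_mul hμ ν₁ ν₂).1]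
  have : ∀ p : ℝ × E3, ENNReal.ofReal (ν₁.real (ball p.2 p.1) * ν₂.real (ball p.2 p.1)) =
      ν₁ (ball p.2 p.1) * ν₂ (ball p.2 p.1) := by
    intro p
    rw [ENNReal.ofReal_mul measureReal_nonneg, ofReal_measureReal, ofReal_measureReal]
  simp only [this]
  rw [lintegral_bm_measure_mul hμ]
  have hc : Continuous fun q : E3 × E3 => Real.exp (-(μ * ‖q.1 - q.2‖)) := by fun_prop
  have hb : ∀ x y : E3, Real.exp (-(μ * ‖x - y‖)) ≤ 1 := fun x y => by
    rw [Real.exp_le_one_iff]; have := norm_nonneg (x - y); nlinarith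
  have hin : ∀ x : E3, Integrable (fun y => Real.exp (-(μ * ‖x - y‖))) ν₂ := fun x => by
    refine Integrable.mono' (integrable_const (1 : ℝ))
      (by fun_prop : Continuous fun y => Real.exp (-(μ * ‖x - y‖))).aestronglyMeasurable ?_
    exact Eventually.of_forall fun y => by
      rw [Real.norm_eq_abs, abs_of_pos (Real.exp_pos _)]; exact hb x y
  have h2 : ∀ x : E3, ∫⁻ y, ENNReal.ofReal (Real.exp (-(μ * ‖x - y‖))) ∂ν₂ =
      ENNReal.ofReal (∫ y, Real.exp (-(μ * ‖x - y‖)) ∂ν₂) := fun x => by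
    rw [ofReal_integral_eq_lintegral_ofReal (hin x) (Eventually.of_forall fun y => by positivity)]
  simp only [h2]
  rw [← integral_eq_lintegral_of_nonneg_ae]
  · exact Eventually.of_forall fun x => integral_nonneg fun y => by positivity
  · exact (hc.stronglyMeasurable.integral_prod_right (ν := ν₂)).aestronglyMeasurable

/-- Positive definiteness of the exponential kernel. -/
theorem pd_exp {ι : Type*} [Fintype ι] {μ : ℝ} (hμ : 0 < μ) (q : ι → ℝ) (ν : ι → Measure E3)
    [∀ i, IsFiniteMeasure (ν i)] :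
    0 ≤ ∑ a, ∑ b, q a * q b * ∫ x, ∫ y, Real.exp (-(μ * ‖x - y‖)) ∂(ν b) ∂(ν a) := by
  have h : ∑ a, ∑ b, q a * q b * ∫ x, ∫ y, Real.exp (-(μ * ‖x - y‖)) ∂(ν b) ∂(ν a) =
      ∫ p, (∑ a, q a * (ν a).real (ball p.2 p.1)) ^ 2 ∂(bm μ) := by
    have : ∀ p : ℝ × E3, (∑ a, q a * (ν a).real (ball p.2 p.1)) ^ 2 =
        ∑ a, ∑ b, q a * q b * ((ν a).real (ball p.2 p.1) * (ν b).real (ball p.2 p.1)) := by
      intro p
      rw [sq, Finset.sum_mul_sum]
      refine Finset.sum_congr rfl fun a _ => Finset.sum_congr rfl fun b _ => by ring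
    simp only [this]
    rw [integral_finsetSum _ fun a _ => integrable_finsetSum _ fun b _ =>
      (integrable_bm_mul hμ (ν a) (ν b)).const_mul _]
    refine Finset.sum_congr rfl fun a _ => ?_
    rw [integral_finsetSum _ fun b _ => (integrable_bm_mul hμ (ν a) (ν b)).const_mul _]
    refine Finset.sum_congr rfl fun b _ => ?_
    rw [integral_const_mul, integral_bm_mul hμ]
  rw [h]
  exact integral_nonneg fun p => sq_nonneg _

/-- `(1 - e^{-κ t}) / t`. -/
noncomputable def wk (κ t : ℝ) : ℝ := if t = 0 then κ else (1 - Real.exp (-(κ * t))) / t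

theorem wk_zero (κ : ℝ) : wk κ 0 = κ := if_pos rfl

theorem wk_eq_integral (κ t : ℝ) : wk κ t = ∫ s in (0 : ℝ)..κ, Real.exp (-(s * t)) := by
  unfold wk
  split_ifs with h
  · subst h; simp
  · have h1 := intervalIntegral.integral_eq_sub_of_hasDerivAt (a := 0) (b := κ)
      (f := fun s : ℝ => -(Real.exp (-(s * t))) / t) (f' := fun s : ℝ => Real.exp (-(s * t)))
      (fun s _ => by
        have h2 := (((((hasDerivAt_id' s).mul_const t).neg).exp).neg).div_const t
        refine h2.congr_deriv ?_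
        simp only [Pi.neg_apply]
        field_simp)
      (by apply Continuous.intervalIntegrable; fun_prop)
    rw [h1]
    simp
    ring

theorem wk_nonneg {κ t : ℝ} (hκ : 0 ≤ κ) (_ : 0 ≤ t) : 0 ≤ wk κ t := by
  rw [wk_eq_integral]
  exact intervalIntegral.integral_nonneg hκ fun s _ => (Real.exp_pos _).le

theorem wk_le {κ t : ℝ} (hκ : 0 ≤ κ) (ht : 0 ≤ t) : wk κ t ≤ κ := by
  rw [wk_eq_integral]
  have : (∫ s in (0 : ℝ)..κ, Real.exp (-(s * t))) ≤ ∫ _s in (0 : ℝ)..κ, (1 : ℝ) := by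
    apply intervalIntegral.integral_mono_on hκ
    · apply Continuous.intervalIntegrable; fun_prop
    · simp
    · intro s hs
      rw [Real.exp_le_one_iff]
      nlinarith [hs.1]
  simpa using this

theorem measurable_wk (κ : ℝ) : Measurable (wk κ) := by
  unfold wk
  exact Measurable.ite (measurableSet_singleton 0) measurable_const (by fun_prop)

theorem integral_integral_wk {κ : ℝ} (hκ : 0 ≤ κ) (ν₁ ν₂ : Measure E3) [IsFiniteMeasure ν₁]
    [IsFiniteMeasure ν₂] :
    ∫ x, ∫ y, wk κ ‖x - y‖ ∂ν₂ ∂ν₁ =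
      ∫ s in (0 : ℝ)..κ, ∫ x, ∫ y, Real.exp (-(s * ‖x - y‖)) ∂ν₂ ∂ν₁ := by
  have hc : Continuous fun q : ℝ × (E3 × E3) => Real.exp (-(q.1 * ‖q.2.1 - q.2.2‖)) := by fun_prop
  have hb : ∀ s ∈ Ioc (0 : ℝ) κ, ∀ x y : E3, Real.exp (-(s * ‖x - y‖)) ≤ 1 := fun s hs x y => by
    rw [Real.exp_le_one_iff]; have := norm_nonneg (x - y); nlinarith [hs.1]
  have hint : Integrable (fun q : ℝ × (E3 × E3) => Real.exp (-(q.1 * ‖q.2.1 - q.2.2‖)))
      ((volume.restrict (Ioc 0 κ)).prod (ν₁.prod ν₂)) := by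
    refine Integrable.mono' (integrable_const (1 : ℝ)) hc.aestronglyMeasurable ?_
    have h0 : ∀ᵐ q : ℝ × (E3 × E3) ∂((volume.restrict (Ioc 0 κ)).prod (ν₁.prod ν₂)),
        q.1 ∈ Ioc (0 : ℝ) κ := by
      have := (Measure.quasiMeasurePreserving_fst
        (μ := volume.restrict (Ioc (0:ℝ) κ)) (ν := ν₁.prod ν₂)).ae
        (ae_restrict_mem measurableSet_Ioc)
      exact this
    filter_upwards [h0] with q hq
    rw [Real.norm_eq_abs, abs_of_pos (Real.exp_pos _)]
    exact hb q.1 hq q.2.1 q.2.2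
  have h1 : ∫ x, ∫ y, wk κ ‖x - y‖ ∂ν₂ ∂ν₁ = ∫ z, wk κ ‖z.1 - z.2‖ ∂(ν₁.prod ν₂) := by
    rw [integral_prod (fun z : E3 × E3 => wk κ ‖z.1 - z.2‖)]
    refine Integrable.mono' (integrable_const κ)
      ((measurable_wk κ).comp (by fun_prop)).aestronglyMeasurable ?_
    exact Eventually.of_forall fun z => by
      rw [Real.norm_eq_abs, abs_of_nonneg (wk_nonneg hκ (norm_nonneg _))]
      exact wk_le hκ (norm_nonneg _)
  rw [h1, intervalIntegral.integral_of_le hκ]
  have h2 : ∀ z : E3 × E3, wk κ ‖z.1 - z.2‖ = ∫ s in Ioc 0 κ, Real.exp (-(s * ‖z.1 - z.2‖)) := by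
    intro z
    rw [wk_eq_integral, intervalIntegral.integral_of_le hκ]
  simp only [h2]
  rw [integral_integral_swap (f := fun (z : E3 × E3) (s : ℝ) => Real.exp (-(s * ‖z.1 - z.2‖)))]
  swap
  · exact hint.swap
  apply integral_congr_ae
  filter_upwards [ae_restrict_mem measurableSet_Ioc] with s hs
  rw [integral_prod (fun z : E3 × E3 => Real.exp (-(s * ‖z.1 - z.2‖)))]
  refine Integrable.mono' (integrable_const (1 : ℝ))
    (by fun_prop : Continuous fun z : E3 × E3 => Real.exp (-(s * ‖z.1 - z.2‖))).aestronglyMeasurable ?_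
  exact Eventually.of_forall fun z => by
    rw [Real.norm_eq_abs, abs_of_pos (Real.exp_pos _)]
    exact hb s hs z.1 z.2

theorem continuous_exp_energy (ν₁ ν₂ : Measure E3) [IsFiniteMeasure ν₁] [IsFiniteMeasure ν₂] :
    Measurable (fun s : ℝ => ∫ x, ∫ y, Real.exp (-(s * ‖x - y‖)) ∂ν₂ ∂ν₁) := by
  have hc : Continuous fun q : (ℝ × E3) × E3 => Real.exp (-(q.1.1 * ‖q.1.2 - q.2‖)) := by fun_prop
  have h1 := hc.stronglyMeasurable.integral_prod_right' (ν := ν₂)
  exact (h1.integral_prod_right' (ν := ν₁)).measurable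

/-- Positive definiteness of `wk`. -/
theorem pd_wk {ι : Type*} [Fintype ι] {κ : ℝ} (hκ : 0 ≤ κ) (q : ι → ℝ) (ν : ι → Measure E3)
    [∀ i, IsFiniteMeasure (ν i)] :
    0 ≤ ∑ a, ∑ b, q a * q b * ∫ x, ∫ y, wk κ ‖x - y‖ ∂(ν b) ∂(ν a) := by
  simp only [integral_integral_wk hκ]
  have hi : ∀ a b, IntervalIntegrable
      (fun s : ℝ => ∫ x, ∫ y, Real.exp (-(s * ‖x - y‖)) ∂(ν b) ∂(ν a)) volume 0 κ := by
    intro a b
    rw [intervalIntegrable_iff_integrableOn_Ioc_of_le hκ]
    refine Measure.integrableOn_of_bounded (M := (ν b).real univ * (ν a).real univ) (by simp)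
      (continuous_exp_energy (ν a) (ν b)).aestronglyMeasurable ?_
    filter_upwards [ae_restrict_mem measurableSet_Ioc] with s hs
    have hb : ∀ x y : E3, ‖Real.exp (-(s * ‖x - y‖))‖ ≤ 1 := fun x y => by
      rw [Real.norm_eq_abs, abs_of_pos (Real.exp_pos _), Real.exp_le_one_iff]
      have := norm_nonneg (x - y); nlinarith [hs.1]
    refine norm_integral_le_of_norm_le_const (C := 1 * (ν b).real univ)
      (Eventually.of_forall fun x => ?_) |>.trans (by rw [one_mul])
    exact norm_integral_le_of_norm_le_const (Eventually.of_forall fun y => hb x y)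
  have hi' : ∀ a b, IntegrableOn
      (fun s : ℝ => ∫ x, ∫ y, Real.exp (-(s * ‖x - y‖)) ∂(ν b) ∂(ν a)) (Ioc 0 κ) := fun a b =>
    (intervalIntegrable_iff_integrableOn_Ioc_of_le hκ).1 (hi a b)
  have h : ∑ a, ∑ b, q a * q b * ∫ s in (0 : ℝ)..κ,
        (∫ x, ∫ y, Real.exp (-(s * ‖x - y‖)) ∂(ν b) ∂(ν a)) =
      ∫ s in Ioc 0 κ, ∑ a, ∑ b, q a * q b *
        ∫ x, ∫ y, Real.exp (-(s * ‖x - y‖)) ∂(ν b) ∂(ν a) := by
    rw [integral_finsetSum _ fun a _ => integrable_finsetSum _ fun b _ => (hi' a b).const_mul _]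
    refine Finset.sum_congr rfl fun a _ => ?_
    rw [integral_finsetSum _ fun b _ => (hi' a b).const_mul _]
    refine Finset.sum_congr rfl fun b _ => ?_
    rw [integral_const_mul, intervalIntegral.integral_of_le hκ]
  rw [h]
  apply integral_nonneg_of_ae
  filter_upwards [ae_restrict_mem measurableSet_Ioc] with s hs
  exact pd_exp hs.1 q ν

/-- Positive definiteness of `wk` for point charges. -/
theorem pd_wk_points {ι : Type*} [Fintype ι] {κ : ℝ} (hκ : 0 ≤ κ) (q : ι → ℝ) (x : ι → E3) :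
    0 ≤ ∑ a, ∑ b, q a * q b * wk κ ‖x a - x b‖ := by
  have h := pd_wk hκ q (fun i => Measure.dirac (x i))
  simpa using h

end Pool.Agent.Lib_helper90c


end

section

/-!
# Potentials of balls: real valued versions
-/

set_option autoImplicit false

open MeasureTheory Set Metric Filter
open scoped ENNReal NNReal Topology

namespace Pool.Agent.Lib_helper90c

/-- volume of a ball -/
noncomputable def vB (r : ℝ) : ℝ := 4 * Real.pi / 3 * r ^ 3

theorem vB_pos {r : ℝ} (hr : 0 < r) : 0 < vB r := by unfold vB; positivity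
theorem vB_nonneg {r : ℝ} (hr : 0 ≤ r) : 0 ≤ vB r := by unfold vB; positivity

theorem volume_ball_eq (c : E3) {r : ℝ} (hr : 0 ≤ r) :
    volume (ball c r) = ENNReal.ofReal (vB r) := by
  rw [EuclideanSpace.volume_ball_fin_three, ← ENNReal.ofReal_pow hr,
    ← ENNReal.ofReal_mul (by positivity)]
  congr 1
  unfold vB; ring

theorem measureReal_ball (c : E3) {r : ℝ} (hr : 0 ≤ r) :
    (volume : Measure E3).real (ball c r) = vB r := by
  rw [Measure.real, volume_ball_eq c hr, ENNReal.toReal_ofReal (vB_nonneg hr)]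

theorem ballPot_nonneg {r t : ℝ} (hr : 0 ≤ r) (ht : 0 ≤ t) : 0 ≤ ballPot r t := by
  unfold ballPot
  split_ifs with h
  · have := Real.pi_pos
    nlinarith [mul_nonneg Real.pi_pos.le (mul_nonneg (sub_nonneg.2 h) (add_nonneg hr ht)),
      mul_nonneg Real.pi_pos.le (sq_nonneg r)]
  · positivity

theorem ballPot_le {r t : ℝ} (hr : 0 ≤ r) (ht : 0 ≤ t) : ballPot r t ≤ 2 * Real.pi * r ^ 2 := by
  unfold ballPot
  split_ifs with h
  · have := Real.pi_pos; nlinarith [mul_nonneg Real.pi_pos.le (sq_nonneg t)]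
  · push Not at h
    have h1 : 0 < t := lt_of_le_of_lt hr h
    rw [div_le_iff₀ h1]
    have : r ^ 3 ≤ r ^ 2 * t := by nlinarith [sq_nonneg r]
    nlinarith [Real.pi_pos, mul_nonneg Real.pi_pos.le (sub_nonneg.2 this),
      mul_nonneg Real.pi_pos.le (mul_nonneg (sq_nonneg r) ht)]

theorem ballPot_of_ge {r t : ℝ} (hr : 0 < r) (h : r ≤ t) : ballPot r t = vB r / t := by
  unfold ballPot vB
  split_ifs with h'
  · have : t = r := le_antisymm h' h
    subst this
    field_simp
    ring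
  · ring

theorem measurable_ballPot (r : ℝ) : Measurable (ballPot r) := by
  unfold ballPot
  exact Measurable.ite measurableSet_Iic (by fun_prop) (by fun_prop)

theorem ballPot_scale {s r t : ℝ} (hs : 0 < s) : ballPot (s * r) (s * t) = s ^ 2 * ballPot r t := by
  unfold ballPot
  have : s * t ≤ s * r ↔ t ≤ r := mul_le_mul_iff_right₀ hs
  simp only [this]
  split_ifs with h
  · ring
  · by_cases ht : t = 0
    · subst ht; simp
    · field_simp

/-- Newton's theorem for a ball centred at `c`. -/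
theorem lintegral_ball_inv' (c x : E3) {r : ℝ} (hr : 0 ≤ r) :
    ∫⁻ y in ball c r, ENNReal.ofReal ‖x - y‖⁻¹ = ENNReal.ofReal (ballPot r ‖x - c‖) := by
  rw [← lintegral_ball_inv r hr (x - c)]
  have h := (measurePreserving_add_right (volume : Measure E3) c)
  rw [← lintegral_indicator measurableSet_ball, ← lintegral_indicator measurableSet_ball,
    ← h.lintegral_comp ((by fun_prop : Measurable fun y : E3 => ENNReal.ofReal ‖x - y‖⁻¹).indicator
      measurableSet_ball)]
  congr 1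
  ext y
  have h1 : y + c ∈ ball c r ↔ y ∈ ball (0 : E3) r := by
    simp [mem_ball_iff_norm]
  have h2 : x - (y + c) = x - c - y := by abel
  by_cases hy : y ∈ ball (0 : E3) r
  · rw [indicator_of_mem hy, indicator_of_mem (h1.2 hy), h2]
  · rw [indicator_of_notMem hy, indicator_of_notMem (fun h => hy (h1.1 h))]

theorem integrableOn_ball_inv (c x : E3) (r : ℝ) :
    IntegrableOn (fun y : E3 => ‖x - y‖⁻¹) (ball c r) := by
  rcases le_or_gt 0 r with hr | hr
  · refine ⟨(by fun_prop : Measurable fun y : E3 => ‖x - y‖⁻¹).aestronglyMeasurable, ?_⟩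
    rw [hasFiniteIntegral_iff_ofReal (Eventually.of_forall fun y => by positivity),
      lintegral_ball_inv' c x hr]
    exact ENNReal.ofReal_lt_top
  · rw [ball_eq_empty.2 hr.le]; exact integrableOn_empty

theorem integral_ball_inv (c x : E3) {r : ℝ} (hr : 0 ≤ r) :
    ∫ y in ball c r, ‖x - y‖⁻¹ = ballPot r ‖x - c‖ := by
  rw [integral_eq_lintegral_of_nonneg_ae (Eventually.of_forall fun y => by positivity)
    (integrableOn_ball_inv c x r).1, lintegral_ball_inv' c x hr,
    ENNReal.toReal_ofReal (ballPot_nonneg hr (norm_nonneg _))]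

/-- Coulomb self interaction of the uniform unit charge density on a ball (double integral). -/
noncomputable def selfE (r : ℝ) : ℝ := 32 * Real.pi ^ 2 / 15 * r ^ 5

theorem selfE_nonneg {r : ℝ} (hr : 0 ≤ r) : 0 ≤ selfE r := by unfold selfE; positivity

theorem integrableOn_ballPot (c d : E3) {r s : ℝ} (hr : 0 ≤ r) :
    IntegrableOn (fun x : E3 => ballPot r ‖x - c‖) (ball d s) := by
  refine Measure.integrableOn_of_bounded (M := 2 * Real.pi * r ^ 2)
    (by exact (measure_ball_lt_top (x := d) (r := s)).ne) ?_ ?_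
  · exact ((measurable_ballPot r).comp (by fun_prop)).aestronglyMeasurable
  · exact Eventually.of_forall fun x => by
      rw [Real.norm_eq_abs, abs_of_nonneg (ballPot_nonneg hr (norm_nonneg _))]
      exact ballPot_le hr (norm_nonneg _)

theorem integral_selfE {r : ℝ} (hr : 0 ≤ r) :
    ∫ x in ball (0 : E3) r, ballPot r ‖x‖ = selfE r := by
  have h1 : ∫ x in ball (0 : E3) r, ballPot r ‖x‖ =
      ∫ x : E3, (fun y : ℝ => (Iio r).indicator
        (fun y => 2 * Real.pi * r ^ 2 - 2 * Real.pi / 3 * y ^ 2) y) ‖x‖ := by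
    rw [← integral_indicator measurableSet_ball]
    congr 1
    ext x
    by_cases hx : ‖x‖ < r
    · rw [indicator_of_mem (mem_ball_zero_iff.2 hx)]
      simp only [indicator, mem_Iio, hx, if_true]
      unfold ballPot
      rw [if_pos hx.le]
    · rw [indicator_of_notMem (fun h => hx (mem_ball_zero_iff.1 h))]
      simp only [indicator, mem_Iio, hx, if_false]
  rw [h1, integral_fun_norm_addHaar]
  have hd : Module.finrank ℝ E3 = 3 := by simp
  rw [hd]
  have h2 : ∫ y in Ioi (0 : ℝ), y ^ (3 - 1) • (Iio r).indicator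
        (fun y => 2 * Real.pi * r ^ 2 - 2 * Real.pi / 3 * y ^ 2) y =
      ∫ y in (0 : ℝ)..r, y ^ 2 * (2 * Real.pi * r ^ 2 - 2 * Real.pi / 3 * y ^ 2) := by
    rw [intervalIntegral.integral_of_le hr, integral_Ioc_eq_integral_Ioo,
      ← integral_indicator measurableSet_Ioi, ← integral_indicator measurableSet_Ioo]
    congr 1
    ext y
    by_cases h0 : 0 < y <;> by_cases h1 : y < r <;> simp [indicator, h0, h1]
  have h3 := intervalIntegral.integral_eq_sub_of_hasDerivAt (a := 0) (b := r)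
    (f := fun y : ℝ => 2 * Real.pi * r ^ 2 * (y ^ 3 / 3) - 2 * Real.pi / 3 * (y ^ 5 / 5))
    (f' := fun y : ℝ => y ^ 2 * (2 * Real.pi * r ^ 2 - 2 * Real.pi / 3 * y ^ 2))
    (fun y _ => by
      have h5 := ((((hasDerivAt_id' y).pow 3).div_const 3).const_mul (2 * Real.pi * r ^ 2)).sub
        ((((hasDerivAt_id' y).pow 5).div_const 5).const_mul (2 * Real.pi / 3))
      refine h5.congr_deriv ?_
      norm_num
      ring)
    (by apply Continuous.intervalIntegrable; fun_prop)
  rw [h2, h3, measureReal_ball 0 zero_le_one]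
  unfold vB selfE
  simp
  ring

theorem lintegral_lintegral_ball_inv (c : E3) {r : ℝ} (hr : 0 ≤ r) :
    ∫⁻ x in ball c r, ∫⁻ y in ball c r, ENNReal.ofReal ‖x - y‖⁻¹ = ENNReal.ofReal (selfE r) := by
  simp only [lintegral_ball_inv' c _ hr]
  have h := (measurePreserving_add_right (volume : Measure E3) c)
  have hm : Measurable fun x : E3 => ENNReal.ofReal (ballPot r ‖x - c‖) :=
    ((measurable_ballPot r).comp (by fun_prop)).ennreal_ofReal
  rw [← lintegral_indicator measurableSet_ball, ← h.lintegral_comp (hm.indicator measurableSet_ball)]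
  rw [← integral_selfE hr, ofReal_integral_eq_lintegral_ofReal, ← lintegral_indicator measurableSet_ball]
  · congr 1
    ext y
    have h1 : y + c ∈ ball c r ↔ y ∈ ball (0 : E3) r := by
      simp
    by_cases hy : y ∈ ball (0 : E3) r
    · rw [indicator_of_mem hy, indicator_of_mem (h1.2 hy), add_sub_cancel_right]
    · rw [indicator_of_notMem hy, indicator_of_notMem (fun h => hy (h1.1 h))]
  · have h3 := integrableOn_ballPot 0 0 (s := r) hr
    simp only [sub_zero] at h3
    exact h3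
  · exact Eventually.of_forall fun x => ballPot_nonneg hr (norm_nonneg _)

end Pool.Agent.Lib_helper90c


end

section

/-!
# Jellium in a ball: definitions and choice lemmas
-/

set_option autoImplicit false

open MeasureTheory Set Metric Filter
open scoped ENNReal NNReal Topology

namespace Pool.Agent.Lib_helper90c

/-- Coulomb repulsion `∑_{i<j} 1/|p_i - p_j|`. -/
noncomputable def rep {ι : Type*} [Fintype ι] (p : ι → E3) : ℝ :=
  (1 / 2) * ∑ i, ∑ j, ‖p i - p j‖⁻¹

theorem rep_nonneg {ι : Type*} [Fintype ι] (p : ι → E3) : 0 ≤ rep p := by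
  unfold rep; positivity

theorem rep_reindex {ι κ : Type*} [Fintype ι] [Fintype κ] (e : κ ≃ ι) (p : ι → E3) :
    rep (p ∘ e) = rep p := by
  unfold rep
  congr 1
  rw [← e.sum_comp (fun i => ∑ j, ‖p i - p j‖⁻¹)]
  refine Finset.sum_congr rfl fun i _ => ?_
  rw [← e.sum_comp (fun j => ‖p (e i) - p j‖⁻¹)]
  rfl

theorem rep_sumElim {ι κ : Type*} [Fintype ι] [Fintype κ] (p : ι → E3) (q : κ → E3) :
    rep (Sum.elim p q) = rep p + rep q + ∑ i, ∑ j, ‖p i - q j‖⁻¹ := by
  unfold rep
  rw [Fintype.sum_sum_type]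
  simp only [Fintype.sum_sum_type, Sum.elim_inl, Sum.elim_inr, Finset.sum_add_distrib]
  have : ∑ x : κ, ∑ x_1 : ι, ‖q x - p x_1‖⁻¹ = ∑ i, ∑ j, ‖p i - q j‖⁻¹ := by
    rw [Finset.sum_comm]
    simp only [norm_sub_rev]
  rw [this]
  ring

theorem rep_smul {ι : Type*} [Fintype ι] (p : ι → E3) {s : ℝ} (hs : 0 < s) :
    rep (fun i => s • p i) = s⁻¹ * rep p := by
  unfold rep
  simp only [← smul_sub, norm_smul, Real.norm_eq_abs, abs_of_pos hs, mul_inv]
  simp only [← Finset.mul_sum]
  ring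

/-- Jellium energy: nuclei of charge `z` at `p i`, uniform background of density `-1` in the
ball of radius `r`. -/
noncomputable def jel (z r : ℝ) {ι : Type*} [Fintype ι] (p : ι → E3) : ℝ :=
  z ^ 2 * rep p - z * ∑ i, ballPot r ‖p i‖ + selfE r / 2

theorem jel_reindex (z r : ℝ) {ι κ : Type*} [Fintype ι] [Fintype κ] (e : κ ≃ ι) (p : ι → E3) :
    jel z r (p ∘ e) = jel z r p := by
  unfold jel
  rw [rep_reindex]
  congr 3
  exact e.sum_comp (fun i => ballPot r ‖p i‖)

/-- One random point. -/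
theorem exists_point {ν : Measure E3} [IsProbabilityMeasure ν] [NullSingletonClass ν] {G : E3 → ℝ}
    (hG : Integrable G ν) (N : Set E3) (hN : ν N = 0) (S : Set E3) (hS : S.Finite) :
    ∃ x, x ∉ N ∧ x ∉ S ∧ G x ≤ ∫ a, G a ∂ν := by
  have h : ν (N ∪ S) = 0 := by
    rw [measure_union_null_iff]
    exact ⟨hN, hS.measure_zero ν⟩
  obtain ⟨x, hx, hx'⟩ := exists_notMem_null_le_integral hG h
  exact ⟨x, fun h => hx (Or.inl h), fun h => hx (Or.inr h), hx'⟩

/-- A probability measure for which Coulomb potentials are integrable. -/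
structure GoodMeas (ν : Measure E3) : Prop where
  prob : IsProbabilityMeasure ν
  noatoms : NullSingletonClass ν
  pot : ∀ y : E3, Integrable (fun x => ‖x - y‖⁻¹) ν
  pot2 : Integrable (fun y => ∫ x, ‖x - y‖⁻¹ ∂ν) ν

/-- Random i.i.d. placement of `m` points. -/
theorem exists_iid {ν : Measure E3} (hν : GoodMeas ν) (z : ℝ) (N : Set E3) (hN : ν N = 0)
    (S : Set E3) (hS : S.Finite) (m : ℕ) :
    ∀ (G : E3 → ℝ), Integrable G ν →
    ∃ X : Fin m → E3, Function.Injective X ∧ (∀ i, X i ∉ N) ∧ (∀ i, X i ∉ S) ∧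
      z ^ 2 * rep X + ∑ i, G (X i) ≤
        (m : ℝ) * (∫ a, G a ∂ν) + (m : ℝ) * ((m : ℝ) - 1) / 2 * z ^ 2 *
          ∫ y, ∫ x, ‖x - y‖⁻¹ ∂ν ∂ν := by
  have := hν.prob
  have := hν.noatoms
  induction m generalizing S with
  | zero =>
    intro G _
    refine ⟨Fin.elim0, fun i => i.elim0, fun i => i.elim0, fun i => i.elim0, ?_⟩
    simp [rep]
  | succ m ih =>
    intro G hG
    have hpot2 := hν.pot2
    obtain ⟨y, hyN, hyS, hy⟩ := exists_point
      (G := fun y => G y + (m : ℝ) * z ^ 2 * ∫ x, ‖x - y‖⁻¹ ∂ν)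
      (hG.add (hpot2.const_mul _)) N hN S hS
    have hGy : Integrable (fun x => G x + z ^ 2 * ‖x - y‖⁻¹) ν :=
      hG.add ((hν.pot y).const_mul _)
    obtain ⟨X, hXinj, hXN, hXS, hX⟩ := ih (S ∪ {y}) (hS.union (finite_singleton y))
      (fun x => G x + z ^ 2 * ‖x - y‖⁻¹) hGy
    refine ⟨Fin.cons y X, ?_, ?_, ?_, ?_⟩
    · rw [Fin.cons_injective_iff]
      refine ⟨?_, hXinj⟩
      rintro ⟨i, hi⟩
      exact hXS i (Or.inr hi)
    · intro i
      refine Fin.cases ?_ (fun j => ?_) i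
      · simpa using hyN
      · simpa using hXN j
    · intro i
      refine Fin.cases ?_ (fun j => ?_) i
      · simpa using hyS
      · simpa using fun h => hXS j (Or.inl h)
    · have hrep : rep (Fin.cons y X : Fin (m + 1) → E3) = rep X + ∑ i, ‖X i - y‖⁻¹ := by
        unfold rep
        rw [Fin.sum_univ_succ]
        simp only [Fin.sum_univ_succ, Fin.cons_zero, Fin.cons_succ, sub_self, norm_zero, inv_zero,
          zero_add, Finset.sum_add_distrib]
        have : ∑ x, ‖y - X x‖⁻¹ = ∑ i, ‖X i - y‖⁻¹ := by simp only [norm_sub_rev]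
        rw [this]
        ring
      rw [hrep, Fin.sum_univ_succ]
      simp only [Fin.cons_zero, Fin.cons_succ]
      rw [integral_add hG ((hν.pot y).const_mul _), integral_const_mul] at hX
      rw [integral_add hG (hpot2.const_mul _), integral_const_mul] at hy
      have e1 : ∑ i, (G (X i) + z ^ 2 * ‖X i - y‖⁻¹) =
          ∑ i, G (X i) + z ^ 2 * ∑ i, ‖X i - y‖⁻¹ := by
        rw [Finset.sum_add_distrib, Finset.mul_sum]
      rw [e1] at hX
      push_cast
      linarith

/-- Uniform measure on a bounded measurable set of positive volume. -/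
theorem goodMeas_uniform {A : Set E3} {R : ℝ} (hAR : A ⊆ ball 0 R)
    (hA0 : volume A ≠ 0) : GoodMeas ((volume A)⁻¹ • volume.restrict A) := by
  have hfin : volume A ≠ ∞ := ((measure_mono hAR).trans_lt measure_ball_lt_top).ne
  have hR : 0 ≤ R := by
    by_contra h
    rw [ball_eq_empty.2 (not_le.1 h).le] at hAR
    exact hA0 (by rw [subset_empty_iff.1 hAR, measure_empty])
  have hpot : ∀ y : E3, IntegrableOn (fun x => ‖x - y‖⁻¹) A := fun y => by
    have := (integrableOn_ball_inv 0 y R).mono_set hAR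
    simpa only [norm_sub_rev y] using this
  have hle : ∀ y : E3, ∫ x in A, ‖x - y‖⁻¹ ≤ 2 * Real.pi * R ^ 2 := fun y => by
    have h1 : ∫ x in A, ‖x - y‖⁻¹ ≤ ∫ x in ball (0 : E3) R, ‖x - y‖⁻¹ := by
      apply setIntegral_mono_set
      · have := integrableOn_ball_inv 0 y R
        simpa only [norm_sub_rev y] using this
      · exact Eventually.of_forall fun x => by positivity
      · exact LE.le.eventuallyLE hAR
    have h2 := integral_ball_inv 0 y hR
    simp only [norm_sub_rev y] at h2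
    rw [h2] at h1
    exact h1.trans (ballPot_le hR (norm_nonneg _))
  refine ⟨?_, ?_, ?_, ?_⟩
  · exact ⟨by simp [ENNReal.inv_mul_cancel hA0 hfin]⟩
  · exact ⟨fun x => by rw [Measure.smul_apply, measure_singleton]; simp⟩
  · intro y
    exact Integrable.smul_measure (hpot y) (ENNReal.inv_ne_top.2 hA0)
  · have hm : Measurable fun q : E3 × E3 => ‖q.2 - q.1‖⁻¹ := by fun_prop
    apply Integrable.smul_measure _ (ENNReal.inv_ne_top.2 hA0)
    have : IsFiniteMeasure (volume.restrict A) := ⟨by simpa using hfin.lt_top⟩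
    refine Integrable.mono' (integrable_const ((volume A)⁻¹.toReal * (2 * Real.pi * R ^ 2)))
      ?_ ?_
    · exact (hm.stronglyMeasurable.integral_prod_right'
        (ν := (volume A)⁻¹ • volume.restrict A)).aestronglyMeasurable
    · refine Eventually.of_forall fun y => ?_
      rw [integral_smul_measure, smul_eq_mul, Real.norm_eq_abs, abs_of_nonneg (by
        apply mul_nonneg ENNReal.toReal_nonneg
        exact integral_nonneg fun x => by positivity)]
      exact mul_le_mul_of_nonneg_left (hle y) ENNReal.toReal_nonneg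

end Pool.Agent.Lib_helper90c


end

section

/-!
# Neutralisation by an annulus
-/

set_option autoImplicit false

open MeasureTheory Set Metric Filter
open scoped ENNReal NNReal Topology

namespace Pool.Agent.Lib_helper90c

/-- open annulus (with inner sphere) -/
def ann (r R : ℝ) : Set E3 := ball 0 R \ ball 0 r

theorem measurableSet_ann (r R : ℝ) : MeasurableSet (ann r R) :=
  measurableSet_ball.diff measurableSet_ball

theorem measureReal_ann {r R : ℝ} (hr : 0 ≤ r) (hR : r ≤ R) :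
    (volume : Measure E3).real (ann r R) = vB R - vB r := by
  unfold ann
  rw [measureReal_sdiff (ball_subset_ball hR) measurableSet_ball
    (measure_ball_lt_top (x := (0 : E3)) (r := R)).ne, measureReal_ball 0 (hr.trans hR),
    measureReal_ball 0 hr]

theorem integral_ann_ball {f : E3 → ℝ} {r R : ℝ} (hR : r ≤ R) (hf : IntegrableOn f (ball 0 R)) :
    ∫ x in ann r R, f x = (∫ x in ball 0 R, f x) - ∫ x in ball 0 r, f x := by
  unfold ann
  rw [setIntegral_sdiff measurableSet_ball hf (ball_subset_ball hR)]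

theorem integral_ann_inv (x : E3) {r R : ℝ} (hr : 0 ≤ r) (hR : r ≤ R) :
    ∫ y in ann r R, ‖x - y‖⁻¹ = ballPot R ‖x‖ - ballPot r ‖x‖ := by
  rw [integral_ann_ball hR (integrableOn_ball_inv 0 x R), integral_ball_inv 0 x (hr.trans hR),
    integral_ball_inv 0 x hr, sub_zero]

theorem ballPot_diff_of_le {r R t : ℝ} (hR : r ≤ R) (h : t ≤ r) :
    ballPot R t - ballPot r t = 2 * Real.pi * (R ^ 2 - r ^ 2) := by
  unfold ballPot
  rw [if_pos h, if_pos (h.trans hR)]
  ring

theorem ballPot_diff_le {r R t : ℝ} (hr : 0 ≤ r) (hR : r ≤ R) (ht : 0 ≤ t) :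
    ballPot R t - ballPot r t ≤ 2 * Real.pi * (R ^ 2 - r ^ 2) := by
  have hpi := Real.pi_pos
  rcases le_or_gt t r with h | h
  · rw [ballPot_diff_of_le hR h]
  · have h0 : 0 < t := lt_of_le_of_lt hr h
    unfold ballPot
    rw [if_neg (not_le.2 h)]
    have key : 3 * r ^ 2 * t ≤ t ^ 3 + 2 * r ^ 3 := by
      have : t ^ 3 + 2 * r ^ 3 - 3 * r ^ 2 * t = (t - r) ^ 2 * (t + 2 * r) := by ring
      nlinarith [mul_nonneg (sq_nonneg (t - r)) (by linarith : 0 ≤ t + 2 * r)]
    split_ifs with h2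
    · have e : 4 * Real.pi / 3 * r ^ 3 / t = 2 * Real.pi / 3 * (2 * r ^ 3 / t) := by ring
      have h3 : 3 * r ^ 2 - t ^ 2 ≤ 2 * r ^ 3 / t := by
        rw [le_div_iff₀ h0]; nlinarith
      rw [e]
      nlinarith [mul_le_mul_of_nonneg_left h3 hpi.le]
    · push Not at h2
      have key2 : 2 * R ^ 3 - 3 * R ^ 2 * t ≤ 2 * r ^ 3 - 3 * r ^ 2 * t := by
        have : 2 * R ^ 3 - 3 * R ^ 2 * t - (2 * r ^ 3 - 3 * r ^ 2 * t) =
          (R - r) * (2 * (R ^ 2 + R * r + r ^ 2) - 3 * t * (R + r)) := by ring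
        have h4 : 2 * (R ^ 2 + R * r + r ^ 2) - 3 * t * (R + r) ≤ 0 := by nlinarith
        nlinarith [mul_nonneg (sub_nonneg.2 hR) (neg_nonneg.2 h4)]
      have e : 4 * Real.pi / 3 * R ^ 3 / t - 4 * Real.pi / 3 * r ^ 3 / t =
        2 * Real.pi / 3 * ((2 * R ^ 3 - 2 * r ^ 3) / t) := by ring
      have h3 : (2 * R ^ 3 - 2 * r ^ 3) / t ≤ 3 * (R ^ 2 - r ^ 2) := by
        rw [div_le_iff₀ h0]; nlinarith
      rw [e]
      nlinarith [mul_le_mul_of_nonneg_left h3 hpi.le]

theorem neutral_alg {z m k P a A2 b v s SR Sr rX rp : ℝ} (ha : a = z * m + z * k - v)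
    (hb : b = P * v + a * A2) (hk : SR = Sr + k * P * a)
    (hX : rX ≤ m * (z ^ 2 * (k * P) - z * b) + m * (m - 1) / 2 * z ^ 2 * A2) :
    z ^ 2 * rp - z * SR + (s + a * P * v + a * b) / 2 + rX ≤
      z ^ 2 * rp - z * Sr + s / 2 - P * (z * k - v) ^ 2 + A2 * (z * k - v) ^ 2 / 2 -
        m * z ^ 2 * A2 / 2 := by
  subst hk hb ha
  linear_combination hX

/-- Neutralisation: a configuration in a ball can be completed to a neutral configuration in a
larger ball without increasing the energy. -/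
theorem exists_neutral {z : ℝ} {ι : Type} [Fintype ι] (p : ι → E3) (hinj : Function.Injective p)
    {r R : ℝ} (hr : 0 < r) (hR : r < R) (hp : ∀ i, p i ∈ ball (0 : E3) r) (m : ℕ)
    (hz : z * ((Fintype.card ι : ℝ) + m) = vB R) :
    ∃ X : Fin m → E3, Function.Injective (Sum.elim p X) ∧
      (∀ i, Sum.elim p X i ∈ ball (0 : E3) R) ∧
      jel z R (Sum.elim p X) ≤ jel z r p - (z * Fintype.card ι - vB r) ^ 2 / (2 * R) := by
  have hR0 : 0 < R := hr.trans hR
  have hvlt : vB r < vB R := by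
    unfold vB
    have : r ^ 3 < R ^ 3 := pow_lt_pow_left₀ hR hr.le (by norm_num)
    have := Real.pi_pos
    nlinarith [mul_pos Real.pi_pos (sub_pos.2 ‹r ^ 3 < R ^ 3›)]
  set a := vB R - vB r with ha
  have ha0 : 0 < a := sub_pos.2 hvlt
  have hvolr : (volume : Measure E3).real (ann r R) = a := measureReal_ann hr.le hR.le
  have hvol0 : volume (ann r R) ≠ 0 := by
    intro h
    rw [Measure.real, h, ENNReal.toReal_zero] at hvolr
    linarith
  set ν := (volume (ann r R))⁻¹ • volume.restrict (ann r R) with hν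
  have hgood : GoodMeas ν := goodMeas_uniform sdiff_subset hvol0
  have := hgood.prob
  have hint : ∀ f : E3 → ℝ, ∫ x, f x ∂ν = a⁻¹ * ∫ x in ann r R, f x := by
    intro f
    rw [hν, integral_smul_measure, smul_eq_mul]
    congr 1
    rw [ENNReal.toReal_inv, ← hvolr]
    rfl
  set P := a⁻¹ * (2 * Real.pi * (R ^ 2 - r ^ 2)) with hP
  -- integrability of bounded potentials
  have hbp : ∀ s : ℝ, 0 ≤ s → Integrable (fun x : E3 => ballPot s ‖x‖) ν := by
    intro s hs
    refine Integrable.mono' (integrable_const (2 * Real.pi * s ^ 2))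
      ((measurable_ballPot s).comp (by fun_prop)).aestronglyMeasurable ?_
    exact Eventually.of_forall fun x => by
      rw [Real.norm_eq_abs, abs_of_nonneg (ballPot_nonneg hs (norm_nonneg _))]
      exact ballPot_le hs (norm_nonneg _)
  have hpotx : ∀ y : E3, ∫ x, ‖x - y‖⁻¹ ∂ν = a⁻¹ * (ballPot R ‖y‖ - ballPot r ‖y‖) := by
    intro y
    rw [hint]
    congr 1
    rw [← integral_ann_inv y hr.le hR.le]
    simp only [norm_sub_rev]
  set b := ∫ x, ballPot R ‖x‖ ∂ν with hb
  have hb' : ∫ x, ballPot r ‖x‖ ∂ν = vB r * P := by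
    rw [hint]
    have h1 : ∫ x in ann r R, ballPot r ‖x‖ = ∫ x in ann r R, vB r * ‖(0 : E3) - x‖⁻¹ := by
      apply setIntegral_congr_fun (measurableSet_ann r R)
      intro x hx
      show ballPot r ‖x‖ = vB r * ‖(0 : E3) - x‖⁻¹
      have h2 : r ≤ ‖x‖ := by
        have := hx.2
        simpa using this
      rw [ballPot_of_ge hr h2, zero_sub, norm_neg]
      rfl
    rw [h1, integral_const_mul, integral_ann_inv 0 hr.le hR.le, norm_zero,
      ballPot_diff_of_le hR.le hr.le, hP]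
    ring
  set A2 := ∫ y, ∫ x, ‖x - y‖⁻¹ ∂ν ∂ν with hA2
  have hA2' : A2 = a⁻¹ * (b - vB r * P) := by
    rw [hA2]
    simp only [hpotx]
    rw [integral_const_mul, integral_sub (hbp R hR0.le) (hbp r hr.le), hb']
  have hA2P : A2 ≤ P := by
    rw [hA2]
    have h1 : ∀ y : E3, ∫ x, ‖x - y‖⁻¹ ∂ν ≤ P := by
      intro y
      rw [hpotx, hP]
      exact mul_le_mul_of_nonneg_left (ballPot_diff_le hr.le hR.le (norm_nonneg _))
        (inv_nonneg.2 ha0.le)
    calc ∫ y, ∫ x, ‖x - y‖⁻¹ ∂ν ∂ν ≤ ∫ _y, P ∂ν := integral_mono hgood.pot2 (integrable_const _) h1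
      _ = P := by simp
  have hA20 : 0 ≤ A2 := integral_nonneg fun y => integral_nonneg fun x => by positivity
  have hPR : 1 / R ≤ P := by
    rw [hP, ha]
    unfold vB
    have h1 : 4 * Real.pi / 3 * R ^ 3 - 4 * Real.pi / 3 * r ^ 3 =
      4 * Real.pi / 3 * (R ^ 3 - r ^ 3) := by ring
    rw [h1]
    have h2 : 0 < R ^ 3 - r ^ 3 := sub_pos.2 (pow_lt_pow_left₀ hR hr.le (by norm_num))
    rw [div_le_iff₀ hR0, mul_inv, mul_assoc, mul_assoc]
    have h3 : (4 * Real.pi / 3)⁻¹ * ((R ^ 3 - r ^ 3)⁻¹ * (2 * Real.pi * (R ^ 2 - r ^ 2) * R)) =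
      (3 / 2 * (R ^ 2 - r ^ 2) * R) / (R ^ 3 - r ^ 3) := by
      have := Real.pi_pos.ne'
      field_simp
      ring
    rw [h3, le_div_iff₀ h2, one_mul]
    nlinarith [mul_pos (sub_pos.2 hR) (sub_pos.2 hR), mul_pos hr hR0,
      mul_pos (mul_pos (sub_pos.2 hR) (sub_pos.2 hR)) hR0,
      mul_pos (mul_pos (sub_pos.2 hR) (sub_pos.2 hR)) hr, mul_pos (mul_pos (sub_pos.2 hR) hR0) hr]
  -- self energy relation
  have hself : selfE R = selfE r + a * P * vB r + a * b := by
    have h1 := integral_selfE hR0.le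
    have h2 : ∫ x in ann r R, ballPot R ‖x‖ = a * b := by
      rw [hb, hint, ← mul_assoc, mul_inv_cancel₀ ha0.ne', one_mul]
    have h3 : ∫ x in ball (0 : E3) r, ballPot R ‖x‖ = selfE r + a * P * vB r := by
      have h4 : ∫ x in ball (0 : E3) r, ballPot R ‖x‖ =
          ∫ x in ball (0 : E3) r, (ballPot r ‖x‖ + 2 * Real.pi * (R ^ 2 - r ^ 2)) := by
        apply setIntegral_congr_fun measurableSet_ball
        intro x hx
        show ballPot R ‖x‖ = ballPot r ‖x‖ + 2 * Real.pi * (R ^ 2 - r ^ 2)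
        have h5 := ballPot_diff_of_le hR.le (mem_ball_zero_iff.1 hx).le
        linarith
      have h6 := integrableOn_ballPot 0 0 (s := r) hr.le
      simp only [sub_zero] at h6
      rw [h4, integral_add h6 (by
        have : IsFiniteMeasure ((volume : Measure E3).restrict (ball 0 r)) :=
          ⟨by simpa using (measure_ball_lt_top (x := (0 : E3)) (r := r) (μ := volume))⟩
        exact integrable_const _), integral_selfE hr.le, setIntegral_const,
        measureReal_ball 0 hr.le, smul_eq_mul, hP]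
      field_simp
    have h7 := integrableOn_ballPot 0 0 (s := R) hR0.le
    simp only [sub_zero] at h7
    have h8 := integral_ann_ball hR.le h7
    linarith
  -- the random points
  set G : E3 → ℝ := fun x => z ^ 2 * ∑ i, ‖x - p i‖⁻¹ - z * ballPot R ‖x‖ with hG
  have hGint : Integrable G ν :=
    ((integrable_finsetSum _ fun i _ => hgood.pot (p i)).const_mul _).sub
      ((hbp R hR0.le).const_mul _)
  obtain ⟨X, hXinj, hXN, hXS, hX⟩ := exists_iid hgood z (ann r R)ᶜ
    (by rw [hν, Measure.smul_apply, Measure.restrict_apply (measurableSet_ann r R).compl]; simp)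
    (range p) (finite_range p) m G hGint
  have hXA : ∀ i, X i ∈ ann r R := fun i => not_not.1 (hXN i)
  refine ⟨X, ?_, ?_, ?_⟩
  · rw [Sum.elim_injective]
    refine ⟨hinj, hXinj, fun i j h => hXS j ⟨i, h⟩⟩
  · rintro (i | j)
    · exact ball_subset_ball hR.le (hp i)
    · exact (hXA j).1
  · have hk : (Fintype.card ι : ℝ) * P * a = ∑ i, (ballPot R ‖p i‖ - ballPot r ‖p i‖) := by
      have : ∀ i, ballPot R ‖p i‖ - ballPot r ‖p i‖ = P * a := by
        intro i
        rw [ballPot_diff_of_le hR.le (mem_ball_zero_iff.1 (hp i)).le, hP]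
        field_simp
      simp only [this, Finset.sum_const, Finset.card_univ, nsmul_eq_mul]
      ring
    have hGval : ∫ x, G x ∂ν = z ^ 2 * (Fintype.card ι * P) - z * b := by
      rw [hG, integral_sub ((integrable_finsetSum _ fun i _ => hgood.pot (p i)).const_mul _)
        ((hbp R hR0.le).const_mul _), integral_const_mul, integral_const_mul,
        integral_finsetSum _ fun i _ => hgood.pot (p i)]
      congr 2
      have : ∀ i, ∫ x, ‖x - p i‖⁻¹ ∂ν = P := by
        intro i
        rw [hpotx, ballPot_diff_of_le hR.le (mem_ball_zero_iff.1 (hp i)).le]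
      simp only [this, Finset.sum_const, Finset.card_univ, nsmul_eq_mul]
    rw [hGval] at hX
    have hjel : jel z R (Sum.elim p X) = z ^ 2 * rep p - z * ∑ i, ballPot R ‖p i‖ + selfE R / 2 +
        (z ^ 2 * rep X + ∑ i, G (X i)) := by
      unfold jel
      rw [rep_sumElim, Fintype.sum_sum_type]
      simp only [Sum.elim_inl, Sum.elim_inr, hG, Finset.sum_sub_distrib, ← Finset.mul_sum]
      have : ∑ i, ∑ j, ‖p i - X j‖⁻¹ = ∑ x, ∑ i, ‖X x - p i‖⁻¹ := by
        rw [Finset.sum_comm]; simp only [norm_sub_rev]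
      rw [this]
      ring
    have hb2 : b = P * vB r + a * A2 := by
      rw [hA2']; field_simp; ring
    rw [Finset.sum_sub_distrib] at hk
    have hm : a = z * m + z * (Fintype.card ι : ℝ) - vB r := by
      rw [ha, ← hz]; ring
    set k : ℝ := (Fintype.card ι : ℝ) with hkdef
    set Q := z * k - vB r with hQ
    have hfin : jel z R (Sum.elim p X) ≤ jel z r p - P * Q ^ 2 + A2 * Q ^ 2 / 2 -
        m * z ^ 2 * A2 / 2 := by
      rw [hjel, hself]
      unfold jel
      exact neutral_alg hm hb2 (by linarith) hX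
    have h9 : Q ^ 2 / (2 * R) = (1 / R) * Q ^ 2 / 2 := by field_simp
    rw [h9]
    have h10 : (1 / R) * Q ^ 2 ≤ P * Q ^ 2 := mul_le_mul_of_nonneg_right hPR (sq_nonneg _)
    have h11 : A2 * Q ^ 2 ≤ P * Q ^ 2 := mul_le_mul_of_nonneg_right hA2P (sq_nonneg _)
    have h12 : 0 ≤ m * z ^ 2 * A2 := by positivity
    linarith

end Pool.Agent.Lib_helper90c


end

section

/-!
# Sums over the points of a configuration contained in a ball
-/

set_option autoImplicit false

open MeasureTheory Set Metric Filter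
open scoped ENNReal NNReal Topology

namespace Pool.Agent.Lib_helper90c

/-- The Yukawa kernel. -/
noncomputable def Yk (κ : ℝ) (x y : E3) : ℝ := Real.exp (-(κ * ‖x - y‖)) * ‖x - y‖⁻¹

theorem Yk_nonneg (κ : ℝ) (x y : E3) : 0 ≤ Yk κ x y := by unfold Yk; positivity

theorem Yk_le {κ : ℝ} (hκ : 0 ≤ κ) (x y : E3) : Yk κ x y ≤ ‖x - y‖⁻¹ := by
  unfold Yk
  have h : Real.exp (-(κ * ‖x - y‖)) ≤ 1 := by
    rw [Real.exp_le_one_iff]; have := norm_nonneg (x - y); nlinarith
  exact mul_le_of_le_one_left (by positivity) h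

theorem measurable_Yk (κ : ℝ) : Measurable fun q : E3 × E3 => Yk κ q.1 q.2 := by
  unfold Yk; fun_prop

theorem measurable_Yk_right (κ : ℝ) (x : E3) : Measurable fun y : E3 => Yk κ x y := by
  unfold Yk; fun_prop

theorem mix_Yk {κ : ℝ} (hκ : 0 < κ) (x y : E3) :
    ∫⁻ b, ib b x * ib b y * ENNReal.ofReal ‖x - y‖⁻¹ ∂(bm κ) = ENNReal.ofReal (Yk κ x y) := by
  have hm : Measurable fun b => ib b x * ib b y :=
    (measurable_ib_left x).mul (measurable_ib_left y)
  rw [lintegral_mul_const _ hm, mix_exp hκ, ← ENNReal.ofReal_mul (Real.exp_pos _).le]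
  rfl

theorem wk_eq {κ t : ℝ} (ht : t ≠ 0) : wk κ t = t⁻¹ - Real.exp (-(κ * t)) * t⁻¹ := by
  unfold wk; rw [if_neg ht, div_eq_mul_inv]; ring

theorem ib_eq (b : ℝ × E3) (x : E3) [Decidable (x ∈ ball b.2 b.1)] :
    ib b x = if x ∈ ball b.2 b.1 then 1 else 0 := by
  unfold ib
  split_ifs with h
  · rw [indicator_of_mem h]; rfl
  · rw [indicator_of_notMem h]

section
variable {ι : Type} [Fintype ι]

/-- the points of `p` in the ball `b` -/
abbrev Sb (p : ι → E3) (b : ℝ × E3) : Type := {i // p i ∈ ball b.2 b.1}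

noncomputable instance (p : ι → E3) (b : ℝ × E3) : Fintype (Sb p b) := by
  classical exact Subtype.fintype _

theorem sum_ib (p : ι → E3) (b : ℝ × E3) (f : ι → ℝ≥0∞) :
    ∑ i, ib b (p i) * f i = ∑ i : Sb p b, f i := by
  classical
  simp only [ib_eq, ite_mul, one_mul, zero_mul]
  rw [← Finset.sum_filter]
  exact Finset.sum_subtype (Finset.univ.filter fun i => p i ∈ ball b.2 b.1)
    (fun x => by simp only [Finset.mem_filter, Finset.mem_univ, true_and]) f

/-- repulsion inside the ball -/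
noncomputable def Ub (p : ι → E3) (b : ℝ × E3) : ℝ≥0∞ :=
  2⁻¹ * ∑ i, ∑ j, ib b (p i) * ib b (p j) * ENNReal.ofReal ‖p i - p j‖⁻¹

theorem Ub_eq (p : ι → E3) (b : ℝ × E3) :
    Ub p b = ENNReal.ofReal (rep fun i : Sb p b => p i) := by
  unfold Ub rep
  rw [ENNReal.ofReal_mul (by norm_num)]
  congr 1
  · rw [one_div, ENNReal.ofReal_inv_of_pos (by norm_num)]; norm_num
  · rw [ENNReal.ofReal_sum_of_nonneg fun i _ => Finset.sum_nonneg fun j _ => by positivity]
    rw [← sum_ib p b (fun i => ENNReal.ofReal (∑ x : Sb p b, ‖p i - p x‖⁻¹))]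
    refine Finset.sum_congr rfl fun i _ => ?_
    rw [ENNReal.ofReal_sum_of_nonneg fun j _ => by positivity]
    rw [← sum_ib p b (fun j => ENNReal.ofReal ‖p i - p j‖⁻¹), Finset.mul_sum]
    refine Finset.sum_congr rfl fun j _ => ?_
    ring

theorem measurable_Ub (p : ι → E3) : Measurable (Ub p) := by
  unfold Ub
  refine Measurable.const_mul ?_ _
  refine Finset.measurable_sum _ fun i _ => Finset.measurable_sum _ fun j _ => ?_
  exact ((measurable_ib_left _).mul (measurable_ib_left _)).mul_const _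

theorem lintegral_Ub {κ : ℝ} (hκ : 0 < κ) (p : ι → E3) :
    ∫⁻ b, Ub p b ∂(bm κ) = ENNReal.ofReal ((1 / 2) * ∑ i, ∑ j, Yk κ (p i) (p j)) := by
  unfold Ub
  have hm : ∀ i j, Measurable fun b => ib b (p i) * ib b (p j) * ENNReal.ofReal ‖p i - p j‖⁻¹ :=
    fun i j => ((measurable_ib_left _).mul (measurable_ib_left _)).mul_const _
  rw [lintegral_const_mul _ (Finset.measurable_sum _ fun i _ => Finset.measurable_sum _ fun j _ =>
    hm i j), ENNReal.ofReal_mul (by norm_num)]
  congr 1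
  · rw [one_div, ENNReal.ofReal_inv_of_pos (by norm_num)]; norm_num
  · rw [ENNReal.ofReal_sum_of_nonneg fun i _ => Finset.sum_nonneg fun j _ => Yk_nonneg _ _ _,
      lintegral_finsetSum _ fun i _ => Finset.measurable_sum _ fun j _ => hm i j]
    refine Finset.sum_congr rfl fun i _ => ?_
    rw [ENNReal.ofReal_sum_of_nonneg fun j _ => Yk_nonneg _ _ _,
      lintegral_finsetSum _ fun j _ => hm i j]
    exact Finset.sum_congr rfl fun j _ => mix_Yk hκ _ _

/-- number of points in the ball -/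
noncomputable def kb (p : ι → E3) (b : ℝ × E3) : ℕ := Fintype.card (Sb p b)

theorem sum_ib_one (p : ι → E3) (b : ℝ × E3) : ∑ i, ib b (p i) = kb p b := by
  have := sum_ib p b (fun _ => 1)
  simp only [mul_one] at this
  rw [this]
  simp [kb]

theorem kb_le_card (p : ι → E3) (b : ℝ × E3) : kb p b ≤ Fintype.card ι :=
  Fintype.card_subtype_le _

/-- lower bound on the repulsion of `k` points in a ball -/
theorem rep_lower {κ : Type*} [Fintype κ] (q : κ → E3) (hq : Function.Injective q) (c : E3) {r : ℝ}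
    (hr : 0 < r) (h : ∀ i, q i ∈ ball c r) :
    (Fintype.card κ : ℝ) * ((Fintype.card κ : ℝ) - 1) / (4 * r) ≤ rep q := by
  classical
  have h1 : ∀ i j, i ≠ j → (2 * r)⁻¹ ≤ ‖q i - q j‖⁻¹ := by
    intro i j hij
    have h2 : 0 < ‖q i - q j‖ := norm_pos_iff.2 (sub_ne_zero.2 (hq.ne hij))
    rw [inv_le_inv₀ (by positivity) h2]
    have h3 := h i
    have h4 := h j
    rw [mem_ball_iff_norm] at h3 h4
    have h5 := norm_sub_le_norm_sub_add_norm_sub (q i) c (q j)
    rw [norm_sub_rev c] at h5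
    linarith
  unfold rep
  have h2 : ∀ i, ((Fintype.card κ : ℝ) - 1) * (2 * r)⁻¹ ≤ ∑ j, ‖q i - q j‖⁻¹ := by
    intro i
    have e : ∑ j ∈ Finset.univ.erase i, (2 * r)⁻¹ ≤ ∑ j ∈ Finset.univ.erase i, ‖q i - q j‖⁻¹ :=
      Finset.sum_le_sum fun j hj => h1 i j (Finset.ne_of_mem_erase hj).symm
    have e2 : ∑ j ∈ Finset.univ.erase i, (2 * r)⁻¹ = ((Fintype.card κ : ℝ) - 1) * (2 * r)⁻¹ := by
      rw [Finset.sum_const, Finset.card_erase_of_mem (Finset.mem_univ i), Finset.card_univ,
        nsmul_eq_mul, Nat.cast_sub (Fintype.card_pos_iff.2 ⟨i⟩), Nat.cast_one]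
    rw [← e2]
    exact e.trans (Finset.sum_le_sum_of_subset_of_nonneg (Finset.erase_subset _ _)
      fun j _ _ => by positivity)
  calc (Fintype.card κ : ℝ) * ((Fintype.card κ : ℝ) - 1) / (4 * r)
      = 1 / 2 * ∑ _i : κ, ((Fintype.card κ : ℝ) - 1) * (2 * r)⁻¹ := by
        rw [Finset.sum_const, Finset.card_univ, nsmul_eq_mul]; field_simp; ring
    _ ≤ 1 / 2 * ∑ i, ∑ j, ‖q i - q j‖⁻¹ := by
        gcongr with i; exact h2 i

end

end Pool.Agent.Lib_helper90c


end

section

/-!
# Localisation of the jellium energy into balls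
-/

set_option autoImplicit false

open MeasureTheory Set Metric Filter
open scoped ENNReal NNReal Topology

namespace Pool.Agent.Lib_helper90c

section
variable {ι : Type} [Fintype ι]

/-- attraction of the points of `p` in `b` to the background in `b ∩ B_R` -/
noncomputable def Ab (p : ι → E3) (R : ℝ) (b : ℝ × E3) : ℝ≥0∞ :=
  ∑ i, ib b (p i) * ∫⁻ y in ball (0 : E3) R, ib b y * ENNReal.ofReal ‖p i - y‖⁻¹

/-- self energy of the background in `b ∩ B_R` (double integral) -/
noncomputable def Db (R : ℝ) (b : ℝ × E3) : ℝ≥0∞ :=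
  ∫⁻ x in ball (0 : E3) R, ∫⁻ y in ball (0 : E3) R, ib b x * ib b y * ENNReal.ofReal ‖x - y‖⁻¹

theorem integrableOn_Yk (κ : ℝ) (hκ : 0 ≤ κ) (x c : E3) (R : ℝ) :
    IntegrableOn (fun y => Yk κ x y) (ball c R) := by
  refine Integrable.mono' (integrableOn_ball_inv c x R) (measurable_Yk_right κ x).aestronglyMeasurable ?_
  exact Eventually.of_forall fun y => by
    rw [Real.norm_eq_abs, abs_of_nonneg (Yk_nonneg _ _ _)]
    exact Yk_le hκ _ _

theorem measurable_inner (x : E3) (R : ℝ) :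
    Measurable fun b : ℝ × E3 => ∫⁻ y in ball (0 : E3) R, ib b y * ENNReal.ofReal ‖x - y‖⁻¹ := by
  have h : Measurable fun q : (ℝ × E3) × E3 => ib q.1 q.2 * ENNReal.ofReal ‖x - q.2‖⁻¹ :=
    measurable_ib.mul (by fun_prop)
  exact Measurable.lintegral_prod_right'
    (f := fun q : (ℝ × E3) × E3 => ib q.1 q.2 * ENNReal.ofReal ‖x - q.2‖⁻¹) h

theorem measurable_Ab (p : ι → E3) (R : ℝ) : Measurable (Ab p R) := by
  unfold Ab
  exact Finset.measurable_sum _ fun i _ => (measurable_ib_left _).mul (measurable_inner _ _)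

theorem measurable_ib11 : Measurable fun q : ((ℝ × E3) × E3) × E3 => ib q.1.1 q.1.2 := by
  have h : Measurable fun q : ((ℝ × E3) × E3) × E3 => q.1 := measurable_fst
  have h2 := measurable_ib.comp h
  exact h2

theorem measurable_ib12 : Measurable fun q : ((ℝ × E3) × E3) × E3 => ib q.1.1 q.2 := by
  have h : Measurable fun q : ((ℝ × E3) × E3) × E3 => (q.1.1, q.2) :=
    (measurable_fst.comp measurable_fst).prodMk measurable_snd
  have h2 := measurable_ib.comp h
  exact h2

theorem measurable_Db_inner (R : ℝ) : Measurable fun q : (ℝ × E3) × E3 =>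
    ∫⁻ y in ball (0 : E3) R, ib q.1 q.2 * ib q.1 y * ENNReal.ofReal ‖q.2 - y‖⁻¹ := by
  have a3 : Measurable fun q : ((ℝ × E3) × E3) × E3 => ENNReal.ofReal ‖q.1.2 - q.2‖⁻¹ := by
    fun_prop
  have h : Measurable fun q : ((ℝ × E3) × E3) × E3 => ib q.1.1 q.1.2 * ib q.1.1 q.2 *
      ENNReal.ofReal ‖q.1.2 - q.2‖⁻¹ := (measurable_ib11.mul measurable_ib12).mul a3
  exact h.lintegral_prod_right'

theorem measurable_Db (R : ℝ) : Measurable (Db R) := by
  unfold Db
  exact (measurable_Db_inner R).lintegral_prod_right'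

theorem lintegral_Ab {κ : ℝ} (hκ : 0 < κ) (p : ι → E3) (R : ℝ) :
    ∫⁻ b, Ab p R b ∂(bm κ) = ENNReal.ofReal (∑ i, ∫ y in ball (0 : E3) R, Yk κ (p i) y) := by
  unfold Ab
  have hm : ∀ i, Measurable fun b : ℝ × E3 => ib b (p i) * ∫⁻ y in ball (0 : E3) R,
      ib b y * ENNReal.ofReal ‖p i - y‖⁻¹ :=
    fun i => (measurable_ib_left _).mul (measurable_inner _ _)
  rw [lintegral_finsetSum _ fun i _ => hm i,
    ENNReal.ofReal_sum_of_nonneg fun i _ => integral_nonneg fun y => Yk_nonneg _ _ _]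
  refine Finset.sum_congr rfl fun i _ => ?_
  have h1 : ∀ b : ℝ × E3, ib b (p i) * ∫⁻ y in ball (0 : E3) R, ib b y * ENNReal.ofReal ‖p i - y‖⁻¹ =
      ∫⁻ y in ball (0 : E3) R, ib b (p i) * ib b y * ENNReal.ofReal ‖p i - y‖⁻¹ := by
    intro b
    have hm : Measurable fun y => ib b y * ENNReal.ofReal ‖p i - y‖⁻¹ :=
      (measurable_ib_right b).mul (by fun_prop)
    rw [← lintegral_const_mul _ hm]
    simp only [mul_assoc]
  simp only [h1]
  rw [lintegral_lintegral_swap
    (f := fun (b : ℝ × E3) (y : E3) => ib b (p i) * ib b y * ENNReal.ofReal ‖p i - y‖⁻¹)]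
  swap
  · have a1 : Measurable fun q : (ℝ × E3) × E3 => ib q.1 (p i) := by
      have : Measurable fun q : (ℝ × E3) × E3 => q.1 := measurable_fst
      exact (measurable_ib_left (p i)).comp this
    have a3 : Measurable fun q : (ℝ × E3) × E3 => ENNReal.ofReal ‖p i - q.2‖⁻¹ := by fun_prop
    exact ((a1.mul measurable_ib).mul a3).aemeasurable
  simp only [mix_Yk hκ]
  rw [ofReal_integral_eq_lintegral_ofReal (integrableOn_Yk κ hκ.le _ _ _)
    (Eventually.of_forall fun y => Yk_nonneg _ _ _)]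

theorem integral_Yk_nonneg (κ : ℝ) (x c : E3) (R : ℝ) : 0 ≤ ∫ y in ball c R, Yk κ x y :=
  integral_nonneg fun y => Yk_nonneg _ _ _

theorem integrableOn_integral_Yk {κ : ℝ} (hκ : 0 ≤ κ) {R : ℝ} (hR : 0 ≤ R) :
    IntegrableOn (fun x => ∫ y in ball (0 : E3) R, Yk κ x y) (ball (0 : E3) R) := by
  have h6 := integrableOn_ballPot 0 0 (s := R) hR
  simp only [sub_zero] at h6
  refine Integrable.mono' h6 ?_ ?_
  · exact ((measurable_Yk κ).stronglyMeasurable.integral_prod_right').aestronglyMeasurable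
  · refine Eventually.of_forall fun x => ?_
    rw [Real.norm_eq_abs, abs_of_nonneg (integral_Yk_nonneg _ _ _ _)]
    have := integral_ball_inv 0 x hR
    rw [sub_zero] at this
    rw [← this]
    exact integral_mono (integrableOn_Yk κ hκ x 0 R) (integrableOn_ball_inv 0 x R)
      fun y => Yk_le hκ x y

theorem lintegral_Db {κ : ℝ} (hκ : 0 < κ) {R : ℝ} (hR : 0 ≤ R) :
    ∫⁻ b, Db R b ∂(bm κ) =
      ENNReal.ofReal (∫ x in ball (0 : E3) R, ∫ y in ball (0 : E3) R, Yk κ x y) := by
  unfold Db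
  rw [lintegral_lintegral_swap (f := fun (b : ℝ × E3) (x : E3) =>
    ∫⁻ y in ball (0 : E3) R, ib b x * ib b y * ENNReal.ofReal ‖x - y‖⁻¹)
    (measurable_Db_inner R).aemeasurable]
  have h1 : ∀ x : E3, ∫⁻ b, (∫⁻ y in ball (0 : E3) R, ib b x * ib b y * ENNReal.ofReal ‖x - y‖⁻¹)
      ∂(bm κ) = ENNReal.ofReal (∫ y in ball (0 : E3) R, Yk κ x y) := by
    intro x
    rw [lintegral_lintegral_swap
      (f := fun (b : ℝ × E3) (y : E3) => ib b x * ib b y * ENNReal.ofReal ‖x - y‖⁻¹)]
    · simp only [mix_Yk hκ]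
      rw [ofReal_integral_eq_lintegral_ofReal (integrableOn_Yk κ hκ.le _ _ _)
        (Eventually.of_forall fun y => Yk_nonneg _ _ _)]
    · have a1 : Measurable fun q : (ℝ × E3) × E3 => ib q.1 x := by
        have : Measurable fun q : (ℝ × E3) × E3 => q.1 := measurable_fst
        exact (measurable_ib_left x).comp this
      have a3 : Measurable fun q : (ℝ × E3) × E3 => ENNReal.ofReal ‖x - q.2‖⁻¹ := by fun_prop
      exact ((a1.mul measurable_ib).mul a3).aemeasurable
  simp only [h1]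
  rw [ofReal_integral_eq_lintegral_ofReal (integrableOn_integral_Yk hκ.le hR)
    (Eventually.of_forall fun x => integral_Yk_nonneg _ _ _ _)]

/-- Yukawa jellium energy -/
noncomputable def jelY (κ z R : ℝ) (p : ι → E3) : ℝ :=
  z ^ 2 * ((1 / 2) * ∑ i, ∑ j, Yk κ (p i) (p j)) -
    z * (∑ i, ∫ y in ball (0 : E3) R, Yk κ (p i) y) +
    (∫ x in ball (0 : E3) R, ∫ y in ball (0 : E3) R, Yk κ x y) / 2

theorem jelY_le {κ z R : ℝ} (hκ : 0 ≤ κ) (hR : 0 ≤ R) (p : ι → E3)
    (hinj : Function.Injective p) :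
    jelY κ z R p - κ * z ^ 2 * Fintype.card ι / 2 ≤ jel z R p := by
  classical
  -- apply positivity with points and background
  have hfin : IsFiniteMeasure ((volume : Measure E3).restrict (ball 0 R)) :=
    ⟨by simpa using (measure_ball_lt_top (x := (0 : E3)) (r := R) (μ := volume))⟩
  let q : Option ι → ℝ := fun o => o.elim (-1) (fun _ => z)
  let ν : Option ι → Measure E3 := fun o =>
    o.elim ((volume : Measure E3).restrict (ball 0 R)) (fun i => Measure.dirac (p i))
  have hνfin : ∀ o, IsFiniteMeasure (ν o) := by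
    intro o
    cases o with
    | none => exact hfin
    | some i => show IsFiniteMeasure (Measure.dirac (p i)); infer_instance
  have h := pd_wk hκ q ν
  rw [Fintype.sum_option] at h
  simp only [Fintype.sum_option] at h
  -- evaluate the terms
  have hwkx : ∀ x y : E3, x ≠ y → wk κ ‖x - y‖ = ‖x - y‖⁻¹ - Yk κ x y := fun x y hxy =>
    wk_eq (norm_ne_zero_iff.2 (sub_ne_zero.2 hxy))
  have hsing : ∀ x : E3, ∀ᵐ y ∂((volume : Measure E3).restrict (ball 0 R)), y ≠ x := by
    intro x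
    refine ae_restrict_of_ae ?_
    simp [ae_iff]
  have hpt : ∀ x : E3, ∫ y in ball (0 : E3) R, wk κ ‖x - y‖ =
      ballPot R ‖x‖ - ∫ y in ball (0 : E3) R, Yk κ x y := by
    intro x
    have e1 := integral_ball_inv 0 x hR
    rw [sub_zero] at e1
    rw [← e1, ← integral_sub (integrableOn_ball_inv 0 x R) (integrableOn_Yk κ hκ x 0 R)]
    apply integral_congr_ae
    filter_upwards [hsing x] with y hy
    exact hwkx x y hy.symm
  have t00 : ∫ x, ∫ y, wk κ ‖x - y‖ ∂(ν none) ∂(ν none) =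
      selfE R - ∫ x in ball (0 : E3) R, ∫ y in ball (0 : E3) R, Yk κ x y := by
    show ∫ x in ball (0 : E3) R, ∫ y in ball (0 : E3) R, wk κ ‖x - y‖ = _
    simp only [hpt]
    have h6 := integrableOn_ballPot 0 0 (s := R) hR
    simp only [sub_zero] at h6
    rw [integral_sub h6 (integrableOn_integral_Yk hκ hR), integral_selfE hR]
  have t01 : ∀ i, ∫ x, ∫ y, wk κ ‖x - y‖ ∂(ν (some i)) ∂(ν none) =
      ballPot R ‖p i‖ - ∫ y in ball (0 : E3) R, Yk κ (p i) y := by
    intro i
    show ∫ x in ball (0 : E3) R, ∫ y, wk κ ‖x - y‖ ∂(Measure.dirac (p i)) = _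
    simp only [integral_dirac]
    rw [← hpt (p i)]
    simp only [norm_sub_rev]
  have t10 : ∀ i, ∫ x, ∫ y, wk κ ‖x - y‖ ∂(ν none) ∂(ν (some i)) =
      ballPot R ‖p i‖ - ∫ y in ball (0 : E3) R, Yk κ (p i) y := by
    intro i
    show ∫ x, (∫ y in ball (0 : E3) R, wk κ ‖x - y‖) ∂(Measure.dirac (p i)) = _
    rw [integral_dirac, hpt (p i)]
  have t11 : ∀ i j, ∫ x, ∫ y, wk κ ‖x - y‖ ∂(ν (some j)) ∂(ν (some i)) =
      ‖p i - p j‖⁻¹ - Yk κ (p i) (p j) + if i = j then κ else 0 := by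
    intro i j
    show ∫ x, (∫ y, wk κ ‖x - y‖ ∂(Measure.dirac (p j))) ∂(Measure.dirac (p i)) = _
    rw [integral_dirac, integral_dirac]
    split_ifs with hij
    · subst hij
      simp [wk_zero, Yk]
    · rw [hwkx _ _ (hinj.ne hij), add_zero]
  simp only [t00, t01, t10, t11] at h
  have hq0 : q none = -1 := rfl
  have hq1 : ∀ i, q (some i) = z := fun i => rfl
  simp only [hq0, hq1] at h
  unfold jelY jel rep
  simp only [Finset.sum_add_distrib, Finset.sum_sub_distrib, mul_sub, mul_add,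
    ← Finset.mul_sum, Finset.sum_ite_eq, Finset.mem_univ, if_true, Finset.sum_const,
    Finset.card_univ, nsmul_eq_mul] at h
  nlinarith [h]

/-- Localisation of the jellium energy. -/
theorem jel_localize {κ z R : ℝ} (hκ : 0 < κ) (hz : 0 ≤ z) (hR : 0 ≤ R) (p : ι → E3)
    (hinj : Function.Injective p) (L : ℝ × E3 → ℝ≥0∞) (hLm : Measurable L) {C : ℝ} (hC : 0 ≤ C)
    (hL : ∀ᵐ b ∂(bm κ), ENNReal.ofReal z * Ab p R b ≤
      ENNReal.ofReal (z ^ 2) * Ub p b + 2⁻¹ * Db R b + L b)
    (hLC : ∫⁻ b, L b ∂(bm κ) ≤ ENNReal.ofReal C) :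
    -C - κ * z ^ 2 * Fintype.card ι / 2 ≤ jel z R p := by
  have h1 := lintegral_mono_ae hL
  rw [lintegral_const_mul _ (measurable_Ab p R), lintegral_Ab hκ,
    lintegral_add_right _ hLm, lintegral_add_right _ ((measurable_Db R).const_mul _),
    lintegral_const_mul _ (measurable_Ub p), lintegral_const_mul _ (measurable_Db R),
    lintegral_Ub hκ, lintegral_Db hκ hR] at h1
  have hA0 : 0 ≤ ∑ i, ∫ y in ball (0 : E3) R, Yk κ (p i) y :=
    Finset.sum_nonneg fun i _ => integral_Yk_nonneg _ _ _ _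
  have hU0 : 0 ≤ (1 / 2) * ∑ i, ∑ j, Yk κ (p i) (p j) := by
    have : 0 ≤ ∑ i, ∑ j, Yk κ (p i) (p j) :=
      Finset.sum_nonneg fun i _ => Finset.sum_nonneg fun j _ => Yk_nonneg _ _ _
    positivity
  have hD0 : 0 ≤ ∫ x in ball (0 : E3) R, ∫ y in ball (0 : E3) R, Yk κ x y :=
    integral_nonneg fun x => integral_Yk_nonneg _ _ _ _
  have h2 : (2⁻¹ : ℝ≥0∞) = ENNReal.ofReal (1 / 2) := by
    rw [one_div, ENNReal.ofReal_inv_of_pos (by norm_num)]; norm_num
  rw [h2, ← ENNReal.ofReal_mul hz, ← ENNReal.ofReal_mul (sq_nonneg z),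
    ← ENNReal.ofReal_mul (by norm_num), ← ENNReal.ofReal_add (mul_nonneg (sq_nonneg z) hU0)
      (mul_nonneg (by norm_num) hD0)] at h1
  have h3 := h1.trans (add_le_add_right hLC _)
  have hsum : 0 ≤ z ^ 2 * (1 / 2 * ∑ i, ∑ j, Yk κ (p i) (p j)) +
      1 / 2 * ∫ x in ball (0 : E3) R, ∫ y in ball (0 : E3) R, Yk κ x y :=
    add_nonneg (mul_nonneg (sq_nonneg z) hU0) (mul_nonneg (by norm_num) hD0)
  rw [← ENNReal.ofReal_add hsum hC, ENNReal.ofReal_le_ofReal_iff (add_nonneg hsum hC)] at h3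
  have h4 := jelY_le hκ.le hR p hinj (z := z)
  unfold jelY at h4
  linarith

end

end Pool.Agent.Lib_helper90c


end

section

/-!
# Moments of the radial weight
-/

set_option autoImplicit false

open MeasureTheory Set Metric Filter
open scoped ENNReal NNReal Topology

namespace Pool.Agent.Lib_helper90c

theorem integral_pow_exp {b : ℝ} (hb : 0 < b) (j : ℕ) :
    ∫ t in Ioi (0 : ℝ), t ^ j * Real.exp (-(b * t)) = (j.factorial : ℝ) / b ^ (j + 1) := by
  have h := Real.integral_rpow_mul_exp_neg_mul_Ioi (a := (j : ℝ) + 1) (r := b)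
    (by positivity) hb
  rw [Real.Gamma_nat_eq_factorial] at h
  have h2 : (1 / b) ^ ((j : ℝ) + 1) = 1 / b ^ (j + 1) := by
    rw [← Nat.cast_succ, Real.rpow_natCast, one_div, inv_pow, one_div]
  rw [h2] at h
  rw [← mul_one_div, mul_comm, ← h]
  apply setIntegral_congr_fun measurableSet_Ioi
  intro t ht
  simp only [add_sub_cancel_right, Real.rpow_natCast]

theorem integrableOn_pow_exp {b : ℝ} (hb : 0 < b) (j : ℕ) :
    IntegrableOn (fun t : ℝ => t ^ j * Real.exp (-(b * t))) (Ioi 0) := by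
  by_contra h
  have h1 := integral_pow_exp hb j
  rw [integral_undef h] at h1
  have : (0 : ℝ) < (j.factorial : ℝ) / b ^ (j + 1) := by positivity
  linarith

theorem lintegral_pow_exp {b : ℝ} (hb : 0 < b) (j : ℕ) :
    ∫⁻ t in Ioi (0 : ℝ), ENNReal.ofReal (t ^ j * Real.exp (-(b * t))) =
      ENNReal.ofReal ((j.factorial : ℝ) / b ^ (j + 1)) := by
  rw [← integral_pow_exp hb j, ofReal_integral_eq_lintegral_ofReal (integrableOn_pow_exp hb j)]
  rw [EventuallyLE, ae_restrict_iff' measurableSet_Ioi]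
  exact Eventually.of_forall fun t ht => mul_nonneg (pow_nonneg (le_of_lt ht) _) (Real.exp_pos _).le

/-- moment constants -/
noncomputable def mC (j : ℕ) : ℝ := (j.factorial : ℝ) * (j + 2) / (2 ^ (j + 1) * Real.pi)

theorem mC_pos (j : ℕ) : 0 < mC j := by unfold mC; positivity

theorem lintegral_om_pow {κ : ℝ} (hκ : 0 < κ) (j : ℕ) :
    ∫⁻ r in Ioi (0 : ℝ), ENNReal.ofReal (om κ r) * ENNReal.ofReal (r ^ (j + 2)) =
      ENNReal.ofReal (mC j * κ / κ ^ j) := by
  have h1 : ∀ r ∈ Ioi (0 : ℝ), ENNReal.ofReal (om κ r) * ENNReal.ofReal (r ^ (j + 2)) =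
      ENNReal.ofReal (2 * κ ^ 3 / Real.pi) *
        ENNReal.ofReal (r ^ (j + 1) * Real.exp (-((2 * κ) * r))) +
      ENNReal.ofReal (κ ^ 2 / Real.pi) * ENNReal.ofReal (r ^ j * Real.exp (-((2 * κ) * r))) := by
    intro r hr
    have hr0 : 0 < r := hr
    rw [← ENNReal.ofReal_mul (om_nonneg hκ hr0), ← ENNReal.ofReal_mul (by positivity),
      ← ENNReal.ofReal_mul (by positivity), ← ENNReal.ofReal_add (by positivity) (by positivity)]
    congr 1
    unfold om
    have := Real.pi_pos.ne'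
    field_simp
    ring
  rw [setLIntegral_congr_fun measurableSet_Ioi h1, lintegral_add_left (by fun_prop),
    lintegral_const_mul _ (by fun_prop), lintegral_const_mul _ (by fun_prop),
    lintegral_pow_exp (by positivity), lintegral_pow_exp (by positivity),
    ← ENNReal.ofReal_mul (by positivity), ← ENNReal.ofReal_mul (by positivity),
    ← ENNReal.ofReal_add (by positivity) (by positivity)]
  congr 1
  unfold mC
  have := Real.pi_pos.ne'
  rw [Nat.factorial_succ]
  push_cast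
  field_simp
  ring

/-- almost every ball of `bm` has positive radius -/
theorem ae_bm_pos (κ : ℝ) : ∀ᵐ b ∂(bm κ), 0 < b.1 := by
  unfold bm
  have h : ∀ᵐ r ∂((volume.restrict (Ioi (0 : ℝ))).withDensity
      (fun r => ENNReal.ofReal (om κ r))), 0 < r := by
    have h1 : ∀ᵐ r ∂(volume.restrict (Ioi (0 : ℝ))), 0 < r :=
      (ae_restrict_iff' measurableSet_Ioi).2 (Eventually.of_forall fun r hr => hr)
    exact (withDensity_absolutelyContinuous _ _).ae_le h1
  have h2 : ∀ᵐ b ∂(((volume.restrict (Ioi (0 : ℝ))).withDensity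
      (fun r => ENNReal.ofReal (om κ r))).prod (volume : Measure E3)), b.1 ∈ {r : ℝ | 0 < r} :=
    Measure.quasiMeasurePreserving_fst.ae h
  exact h2

end Pool.Agent.Lib_helper90c


end

section

/-!
# Master localisation bound for jellium
-/

set_option autoImplicit false

open MeasureTheory Set Metric Filter
open scoped ENNReal NNReal Topology

namespace Pool.Agent.Lib_helper90c

/-- trivial lower bound for the energy of a ball -/
noncomputable def lowT (z r : ℝ) : ℝ := 2 * Real.pi * z * r ^ 2 + 4 * Real.pi ^ 2 * r ^ 5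

theorem lowT_nonneg {z r : ℝ} (hz : 0 ≤ z) (hr : 0 ≤ r) : 0 ≤ lowT z r := by
  unfold lowT; positivity

theorem alg_triv {z r : ℝ} (hz : 0 ≤ z) (hr : 0 < r) (k : ℕ) :
    z * (k * (2 * Real.pi * r ^ 2)) ≤ z ^ 2 * ((k : ℝ) * ((k : ℝ) - 1) / (4 * r)) + lowT z r := by
  rcases Nat.eq_zero_or_pos k with h | h
  · subst h
    have := lowT_nonneg hz hr.le
    simpa using this
  · have h1 : (1 : ℝ) ≤ k := by exact_mod_cast h
    have e : z ^ 2 * ((k : ℝ) * ((k : ℝ) - 1) / (4 * r)) + lowT z r -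
        z * (k * (2 * Real.pi * r ^ 2)) =
        (z * (k - 1) - 4 * Real.pi * r ^ 3) ^ 2 / (4 * r) + z ^ 2 * (k - 1) / (4 * r) := by
      unfold lowT
      field_simp
      ring
    have e1 : 0 ≤ (z * (k - 1) - 4 * Real.pi * r ^ 3) ^ 2 / (4 * r) := by positivity
    have e2 : 0 ≤ z ^ 2 * (k - 1) / (4 * r) := by
      apply div_nonneg (mul_nonneg (sq_nonneg _) (by linarith)) (by positivity)
    linarith

theorem setLIntegral_ib (b : ℝ × E3) (R : ℝ) (f : E3 → ℝ≥0∞) :
    ∫⁻ y in ball (0 : E3) R, ib b y * f y = ∫⁻ y in ball b.2 b.1 ∩ ball 0 R, f y := by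
  have h1 : ∀ y, ib b y * f y = (ball b.2 b.1).indicator f y := by
    intro y
    unfold ib
    by_cases h : y ∈ ball b.2 b.1
    · rw [indicator_of_mem h, indicator_of_mem h]; simp
    · rw [indicator_of_notMem h, indicator_of_notMem h, zero_mul]
  simp only [h1]
  rw [lintegral_indicator measurableSet_ball, Measure.restrict_restrict measurableSet_ball]

section
variable {ι : Type} [Fintype ι]

theorem Ab_le (p : ι → E3) (R : ℝ) (b : ℝ × E3) (hb : 0 < b.1) :
    Ab p R b ≤ ENNReal.ofReal (kb p b * (2 * Real.pi * b.1 ^ 2)) := by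
  have h1 : ∀ x : E3, ∫⁻ y in ball (0 : E3) R, ib b y * ENNReal.ofReal ‖x - y‖⁻¹ ≤
      ENNReal.ofReal (2 * Real.pi * b.1 ^ 2) := by
    intro x
    rw [setLIntegral_ib]
    refine (lintegral_mono_set inter_subset_left).trans ?_
    rw [lintegral_ball_inv' b.2 x hb.le]
    exact ENNReal.ofReal_le_ofReal (ballPot_le hb.le (norm_nonneg _))
  unfold Ab
  calc ∑ i, ib b (p i) * ∫⁻ y in ball (0 : E3) R, ib b y * ENNReal.ofReal ‖p i - y‖⁻¹
      ≤ ∑ i, ib b (p i) * ENNReal.ofReal (2 * Real.pi * b.1 ^ 2) := by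
        gcongr with i; exact h1 _
    _ = ENNReal.ofReal (kb p b * (2 * Real.pi * b.1 ^ 2)) := by
        rw [← Finset.sum_mul, sum_ib_one, ENNReal.ofReal_mul (Nat.cast_nonneg _),
          ENNReal.ofReal_natCast]

theorem jel_ge_of_card (z : ℝ) {r : ℝ} (hr : 0 < r) (p : ι → E3) (hz : 0 ≤ z)
    (hinj : Function.Injective p) (hp : ∀ i, p i ∈ ball (0 : E3) r) :
    z ^ 2 * ((Fintype.card ι : ℝ) * ((Fintype.card ι : ℝ) - 1) / (4 * r)) -
      z * (Fintype.card ι * (2 * Real.pi * r ^ 2)) ≤ jel z r p := by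
  have h1 := rep_lower p hinj 0 hr hp
  have h2 : ∑ i, ballPot r ‖p i‖ ≤ Fintype.card ι * (2 * Real.pi * r ^ 2) := by
    calc ∑ i, ballPot r ‖p i‖ ≤ ∑ _i : ι, 2 * Real.pi * r ^ 2 :=
          Finset.sum_le_sum fun i _ => ballPot_le hr.le (norm_nonneg _)
      _ = _ := by rw [Finset.sum_const, Finset.card_univ, nsmul_eq_mul]
  have h3 := selfE_nonneg hr.le
  unfold jel
  have h4 := mul_le_mul_of_nonneg_left h1 (sq_nonneg z)
  have h5 := mul_le_mul_of_nonneg_left h2 hz
  linarith

theorem jel_ge_lowT {z r : ℝ} (hz : 0 ≤ z) (hr : 0 < r) (p : ι → E3)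
    (hinj : Function.Injective p) (hp : ∀ i, p i ∈ ball (0 : E3) r) :
    -lowT z r ≤ jel z r p := by
  have h1 := jel_ge_of_card z hr p hz hinj hp
  have h2 := alg_triv hz hr (Fintype.card ι)
  linarith

theorem jel_Fin {z r a : ℝ} (h : ∀ (n : ℕ) (p : Fin n → E3), Function.Injective p →
    (∀ i, p i ∈ ball (0 : E3) r) → a ≤ jel z r p) (p : ι → E3)
    (hinj : Function.Injective p) (hp : ∀ i, p i ∈ ball (0 : E3) r) : a ≤ jel z r p := by
  have e := (Fintype.equivFin ι).symm
  rw [← jel_reindex z r e p]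
  exact h _ _ (hinj.comp e.injective) fun i => hp _

/-- the ball inside -/
theorem interior_bound {z R : ℝ} (hz : 0 ≤ z) (p : ι → E3) (hinj : Function.Injective p)
    (b : ℝ × E3) (hb : 0 < b.1) (hin : ‖b.2‖ + b.1 ≤ R) {l : ℝ} (hl0 : 0 ≤ l)
    (hl : ∀ (n : ℕ) (p : Fin n → E3), Function.Injective p →
      (∀ i, p i ∈ ball (0 : E3) b.1) → -l ≤ jel z b.1 p) :
    ENNReal.ofReal z * Ab p R b ≤
      ENNReal.ofReal (z ^ 2) * Ub p b + 2⁻¹ * Db R b + ENNReal.ofReal l := by
  have hsub : ball b.2 b.1 ∩ ball (0 : E3) R = ball b.2 b.1 := by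
    apply inter_eq_left.2
    apply ball_subset_ball'
    rw [dist_zero_right]; linarith
  have hA : Ab p R b = ENNReal.ofReal (∑ i : Sb p b, ballPot b.1 ‖p i - b.2‖) := by
    unfold Ab
    simp only [setLIntegral_ib, hsub, lintegral_ball_inv' b.2 _ hb.le]
    rw [sum_ib p b (fun i => ENNReal.ofReal (ballPot b.1 ‖p i - b.2‖)),
      ENNReal.ofReal_sum_of_nonneg fun i _ => ballPot_nonneg hb.le (norm_nonneg _)]
  have hD : Db R b = ENNReal.ofReal (selfE b.1) := by
    unfold Db
    rw [← lintegral_lintegral_ball_inv b.2 hb.le]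
    have h1 : ∀ x : E3, ∫⁻ y in ball (0 : E3) R, ib b x * ib b y * ENNReal.ofReal ‖x - y‖⁻¹ =
        ib b x * ∫⁻ y in ball b.2 b.1, ENNReal.ofReal ‖x - y‖⁻¹ := by
      intro x
      have : ∀ y, ib b x * ib b y * ENNReal.ofReal ‖x - y‖⁻¹ =
        ib b y * (ib b x * ENNReal.ofReal ‖x - y‖⁻¹) := fun y => by ring
      simp only [this]
      rw [setLIntegral_ib, hsub, lintegral_const_mul _ (by fun_prop)]
    simp only [h1]
    rw [setLIntegral_ib, hsub]
  have hU := Ub_eq p b
  have hj := jel_Fin hl (fun i : Sb p b => p i - b.2)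
    (fun i j hij => Subtype.ext (hinj (sub_left_injective hij)))
    (fun i => by
      have := i.2
      rw [mem_ball_iff_norm] at this
      rwa [mem_ball_zero_iff])
  unfold jel at hj
  have hrep : rep (fun i : Sb p b => p i - b.2) = rep (fun i : Sb p b => p i) := by
    unfold rep; simp only [sub_sub_sub_cancel_right]
  rw [hrep] at hj
  have hr0 := rep_nonneg (fun i : Sb p b => p i)
  have hs0 := selfE_nonneg hb.le
  have h2 : (2⁻¹ : ℝ≥0∞) = ENNReal.ofReal (1 / 2) := by
    rw [one_div, ENNReal.ofReal_inv_of_pos (by norm_num)]; norm_num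
  rw [hA, hD, hU, h2, ← ENNReal.ofReal_mul hz, ← ENNReal.ofReal_mul (sq_nonneg z),
    ← ENNReal.ofReal_mul (by norm_num),
    ← ENNReal.ofReal_add (mul_nonneg (sq_nonneg z) hr0) (mul_nonneg (by norm_num) hs0),
    ← ENNReal.ofReal_add (add_nonneg (mul_nonneg (sq_nonneg z) hr0)
      (mul_nonneg (by norm_num) hs0)) hl0]
  apply ENNReal.ofReal_le_ofReal
  linarith

theorem crossing_bound {z R : ℝ} (hz : 0 ≤ z) (p : ι → E3) (hinj : Function.Injective p)
    (b : ℝ × E3) (hb : 0 < b.1) :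
    ENNReal.ofReal z * Ab p R b ≤
      ENNReal.ofReal (z ^ 2) * Ub p b + ENNReal.ofReal (lowT z b.1) := by
  have hr := rep_lower (fun i : Sb p b => p i)
    (fun i j hij => Subtype.ext (hinj hij)) b.2 hb (fun i => i.2)
  have hr0 := rep_nonneg (fun i : Sb p b => p i)
  calc ENNReal.ofReal z * Ab p R b
      ≤ ENNReal.ofReal z * ENNReal.ofReal (kb p b * (2 * Real.pi * b.1 ^ 2)) := by
        gcongr; exact Ab_le p R b hb
    _ ≤ ENNReal.ofReal (z ^ 2) * Ub p b + ENNReal.ofReal (lowT z b.1) := by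
        rw [Ub_eq, ← ENNReal.ofReal_mul hz, ← ENNReal.ofReal_mul (sq_nonneg z),
          ← ENNReal.ofReal_add (mul_nonneg (sq_nonneg z) hr0) (lowT_nonneg hz hb.le)]
        apply ENNReal.ofReal_le_ofReal
        have h1 := alg_triv hz hb (kb p b)
        have h2 := mul_le_mul_of_nonneg_left hr (sq_nonneg z)
        unfold kb at *
        linarith

theorem outside_zero {R : ℝ} (p : ι → E3) (hp : ∀ i, p i ∈ ball (0 : E3) R)
    (b : ℝ × E3) (hout : R + b.1 ≤ ‖b.2‖) : Ab p R b = 0 := by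
  unfold Ab
  apply Finset.sum_eq_zero
  intro i _
  have : p i ∉ ball b.2 b.1 := by
    intro h
    rw [mem_ball_iff_norm'] at h
    have h1 := hp i
    rw [mem_ball_zero_iff] at h1
    have h2 := norm_sub_norm_le b.2 (p i)
    linarith
  unfold ib
  rw [indicator_of_notMem this, zero_mul]

end

theorem volume_crossing {R r : ℝ} (hR : 1 ≤ R) (hr : 0 < r) :
    volume (ball (0 : E3) (R + r) \ closedBall 0 (R - r)) ≤
      ENNReal.ofReal (R ^ 2 * (4 * Real.pi / 3 * (6 * r + 8 * r ^ 3))) := by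
  have hpi := Real.pi_pos
  by_cases h : r ≤ R
  · rw [measure_sdiff ?_ measurableSet_closedBall.nullMeasurableSet
      measure_closedBall_lt_top.ne]
    · rw [volume_ball_eq _ (by linarith), Measure.addHaar_closedBall_eq_addHaar_ball,
        volume_ball_eq _ (by linarith), ← ENNReal.ofReal_sub _ (vB_nonneg (by linarith))]
      apply ENNReal.ofReal_le_ofReal
      unfold vB
      have e : 4 * Real.pi / 3 * (R + r) ^ 3 - 4 * Real.pi / 3 * (R - r) ^ 3 =
        4 * Real.pi / 3 * (6 * R ^ 2 * r + 2 * r ^ 3) := by ring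
      rw [e]
      have e2 : R ^ 2 * (4 * Real.pi / 3 * (6 * r + 8 * r ^ 3)) =
        4 * Real.pi / 3 * (6 * R ^ 2 * r + R ^ 2 * (8 * r ^ 3)) := by ring
      rw [e2]
      have h3 : 0 < r ^ 3 := by positivity
      have h4 : (1:ℝ) ≤ R ^ 2 := by nlinarith
      have h5 : 2 * r ^ 3 ≤ R ^ 2 * (8 * r ^ 3) := by nlinarith
      apply mul_le_mul_of_nonneg_left _ (by positivity)
      linarith
    · apply closedBall_subset_ball'
      simp; linarith
  · push Not at h
    refine (measure_mono sdiff_subset).trans ?_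
    rw [volume_ball_eq _ (by linarith)]
    apply ENNReal.ofReal_le_ofReal
    unfold vB
    have h1 : (R + r) ^ 3 ≤ R ^ 2 * (6 * r + 8 * r ^ 3) := by
      have h2 : (R + r) ^ 3 ≤ (2 * r) ^ 3 := pow_le_pow_left₀ (by linarith) (by linarith) 3
      have h3 : 0 < r ^ 3 := by positivity
      have h4 : (1:ℝ) ≤ R ^ 2 := by nlinarith
      nlinarith [mul_pos hr (show (0:ℝ) < R ^ 2 by positivity)]
    have h5 := mul_le_mul_of_nonneg_left h1 (show 0 ≤ 4 * Real.pi / 3 by positivity)
    linarith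

theorem pow_le_two_nine {r : ℝ} (hr : 0 < r) {j : ℕ} (h2 : 2 ≤ j) (h9 : j ≤ 9) :
    r ^ j ≤ r ^ 2 + r ^ 9 := by
  rcases le_total r 1 with h | h
  · have := pow_le_pow_of_le_one hr.le h h2
    have h1 : 0 < r ^ 9 := by positivity
    linarith
  · have := pow_le_pow_right₀ h h9
    have h1 : 0 < r ^ 2 := by positivity
    linarith

theorem lintegral_om_two_nine {κ : ℝ} (hκ : 0 < κ) {A : ℝ} (hA : 0 ≤ A) :
    ∫⁻ r in Ioi (0 : ℝ), ENNReal.ofReal (om κ r) * ENNReal.ofReal (A * (r ^ 2 + r ^ 9)) =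
      ENNReal.ofReal (A * (mC 0 * κ + mC 7 * κ / κ ^ 7)) := by
  have h1 : ∀ r ∈ Ioi (0 : ℝ), ENNReal.ofReal (om κ r) * ENNReal.ofReal (A * (r ^ 2 + r ^ 9)) =
      ENNReal.ofReal A * (ENNReal.ofReal (om κ r) * ENNReal.ofReal (r ^ (0 + 2)) +
        ENNReal.ofReal (om κ r) * ENNReal.ofReal (r ^ (7 + 2))) := by
    intro r hr
    have hr0 : 0 < r := hr
    rw [ENNReal.ofReal_mul hA, ENNReal.ofReal_add (by positivity) (by positivity)]
    ring
  have hm := measurable_om κ
  rw [setLIntegral_congr_fun measurableSet_Ioi h1, lintegral_const_mul _ (by fun_prop),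
    lintegral_add_left (by fun_prop), lintegral_om_pow hκ, lintegral_om_pow hκ,
    ← ENNReal.ofReal_add (by have := mC_pos 0; positivity) (by have := mC_pos 7; positivity),
    ← ENNReal.ofReal_mul hA]
  simp

/-- Master localisation bound. -/
theorem master {κ z Λ : ℝ} (hκ : 0 < κ) (hz : 0 < z) (hΛ0 : 0 ≤ Λ) (low : ℝ → ℝ)
    (hm : Measurable low) (hlow0 : ∀ r, 0 < r → 0 ≤ low r)
    (hlow : ∀ r, 0 < r → ∀ (n : ℕ) (p : Fin n → E3), Function.Injective p →
      (∀ i, p i ∈ ball (0 : E3) r) → -low r ≤ jel z r p)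
    (hΛ : ∫⁻ r in Ioi (0 : ℝ), ENNReal.ofReal (om κ r) * ENNReal.ofReal (low r) ≤
      ENNReal.ofReal Λ) :
    ∃ C, 0 ≤ C ∧ ∀ R, 1 ≤ R → ∀ (n : ℕ) (p : Fin n → E3), Function.Injective p →
      (∀ i, p i ∈ ball (0 : E3) R) → -(Λ + 3 * κ * z) * vB R - C * R ^ 2 ≤ jel z R p := by
  have hpi := Real.pi_pos
  set A : ℝ := 4 * Real.pi / 3 * (28 * Real.pi * z + 56 * Real.pi ^ 2) with hA
  have hA0 : 0 ≤ A := by positivity
  set C1 : ℝ := A * (mC 0 * κ + mC 7 * κ / κ ^ 7) with hC1
  have hC10 : 0 ≤ C1 := by have := mC_pos 0; have := mC_pos 7; positivity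
  refine ⟨C1 + κ * z ^ 2 / 2, by positivity, fun R hR n p hinj hp => ?_⟩
  have hR0 : 0 < R := by linarith
  by_cases hn : 8 * Real.pi * R ^ 3 ≤ z * ((n : ℝ) - 1)
  · have h1 := jel_ge_of_card z hR0 p hz.le hinj hp
    rw [Fintype.card_fin] at h1
    have h2 : z ^ 2 * ((n : ℝ) * ((n : ℝ) - 1) / (4 * R)) -
        z * (n * (2 * Real.pi * R ^ 2)) =
        z * n * (z * ((n : ℝ) - 1) - 8 * Real.pi * R ^ 3) / (4 * R) := by
      field_simp
      ring
    have h3 : 0 ≤ z * n * (z * ((n : ℝ) - 1) - 8 * Real.pi * R ^ 3) / (4 * R) := by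
      apply div_nonneg (mul_nonneg (by positivity) (by linarith)) (by positivity)
    have h4 := vB_nonneg hR0.le
    have h5 : 0 ≤ (Λ + 3 * κ * z) * vB R := by positivity
    have h6 : 0 ≤ (C1 + κ * z ^ 2 / 2) * R ^ 2 := by positivity
    linarith
  · push Not at hn
    set L : ℝ × E3 → ℝ≥0∞ := fun b =>
      ENNReal.ofReal (low b.1) * {q : ℝ × E3 | ‖q.2‖ + q.1 ≤ R}.indicator 1 b +
      ENNReal.ofReal (lowT z b.1) *
        {q : ℝ × E3 | R < ‖q.2‖ + q.1 ∧ ‖q.2‖ < R + q.1}.indicator 1 b with hL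
    have hs1 : MeasurableSet {q : ℝ × E3 | ‖q.2‖ + q.1 ≤ R} :=
      measurableSet_le (by fun_prop) (by fun_prop)
    have hs2 : MeasurableSet {q : ℝ × E3 | R < ‖q.2‖ + q.1 ∧ ‖q.2‖ < R + q.1} := by
      have h3 : MeasurableSet {q : ℝ × E3 | R < ‖q.2‖ + q.1} :=
        measurableSet_lt (by fun_prop) (by fun_prop)
      have h4 : MeasurableSet {q : ℝ × E3 | ‖q.2‖ < R + q.1} :=
        measurableSet_lt (by fun_prop) (by fun_prop)
      exact h3.inter h4
    have hlT : Measurable (lowT z) := by unfold lowT; fun_prop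
    have hLm : Measurable L := by
      have a1 : Measurable fun b : ℝ × E3 => ENNReal.ofReal (low b.1) :=
        (hm.comp measurable_fst).ennreal_ofReal
      have a2 : Measurable fun b : ℝ × E3 => ENNReal.ofReal (lowT z b.1) :=
        (hlT.comp measurable_fst).ennreal_ofReal
      exact (a1.mul (measurable_one.indicator hs1)).add (a2.mul (measurable_one.indicator hs2))
    have hmain := jel_localize hκ hz.le hR0.le p hinj L hLm
      (C := Λ * vB R + C1 * R ^ 2) (by have := vB_nonneg hR0.le; positivity) ?_ ?_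
    · rw [Fintype.card_fin] at hmain
      have h7 : κ * z ^ 2 * n / 2 ≤ κ * z ^ 2 / 2 * R ^ 2 + 3 * κ * z * vB R := by
        have h8 : z * n ≤ z + 8 * Real.pi * R ^ 3 := by linarith
        have h9 := mul_le_mul_of_nonneg_left h8 (show 0 ≤ κ * z / 2 by positivity)
        have h10 : κ * z ^ 2 / 2 * 1 ≤ κ * z ^ 2 / 2 * R ^ 2 := by
          gcongr; nlinarith
        unfold vB
        nlinarith
      linarith
    · filter_upwards [ae_bm_pos κ] with b hb
      by_cases h1 : ‖b.2‖ + b.1 ≤ R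
      · have h2 := interior_bound hz.le p hinj b hb h1 (hlow0 _ hb) (hlow _ hb)
        refine h2.trans (add_le_add_right ?_ _)
        rw [hL]
        simp only
        rw [indicator_of_mem (show b ∈ {q : ℝ × E3 | ‖q.2‖ + q.1 ≤ R} from h1)]
        simp
      · by_cases h3 : ‖b.2‖ < R + b.1
        · have h2 := crossing_bound (R := R) hz.le p hinj b hb
          refine h2.trans ?_
          rw [hL]
          simp only
          rw [indicator_of_mem (show b ∈ {q : ℝ × E3 | R < ‖q.2‖ + q.1 ∧ ‖q.2‖ < R + q.1} from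
            ⟨not_le.1 h1, h3⟩)]
          simp only [Pi.one_apply, mul_one]
          rw [add_assoc]
          gcongr
          exact le_add_left (le_add_left le_rfl)
        · rw [outside_zero p hp b (not_lt.1 h3), mul_zero]
          exact zero_le
    · rw [lintegral_bm _ _ hLm]
      have hin : ∀ r ∈ Ioi (0 : ℝ), ENNReal.ofReal (om κ r) * ∫⁻ c : E3, L (r, c) ≤
          ENNReal.ofReal (vB R) * (ENNReal.ofReal (om κ r) * ENNReal.ofReal (low r)) +
          ENNReal.ofReal (R ^ 2) *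
            (ENNReal.ofReal (om κ r) * ENNReal.ofReal (A * (r ^ 2 + r ^ 9))) := by
        intro r hr
        have hr0 : 0 < r := hr
        have e1 : ∫⁻ c : E3, L (r, c) = ENNReal.ofReal (low r) * volume (closedBall (0 : E3) (R - r))
            + ENNReal.ofReal (lowT z r) *
              volume (ball (0 : E3) (R + r) \ closedBall 0 (R - r)) := by
          rw [hL]
          simp only
          have i1 : ∀ c : E3, {q : ℝ × E3 | ‖q.2‖ + q.1 ≤ R}.indicator (1 : ℝ × E3 → ℝ≥0∞) (r, c) =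
              (closedBall (0 : E3) (R - r)).indicator 1 c := by
            intro c
            simp only [indicator, mem_ofPred_eq, mem_closedBall_zero_iff, Pi.one_apply]
            congr 1
            simp only [eq_iff_iff]
            constructor <;> intro h <;> linarith
          have i2 : ∀ c : E3, {q : ℝ × E3 | R < ‖q.2‖ + q.1 ∧ ‖q.2‖ < R + q.1}.indicator
              (1 : ℝ × E3 → ℝ≥0∞) (r, c) =
              (ball (0 : E3) (R + r) \ closedBall 0 (R - r)).indicator 1 c := by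
            intro c
            simp only [indicator, mem_ofPred_eq, Set.mem_sdiff, mem_ball_zero_iff,
              mem_closedBall_zero_iff, Pi.one_apply, not_le]
            congr 1
            simp only [eq_iff_iff]
            constructor
            · rintro ⟨h, h'⟩; exact ⟨h', by linarith⟩
            · rintro ⟨h, h'⟩; exact ⟨by linarith, h⟩
          simp only [i1, i2]
          rw [lintegral_add_left ((measurable_one.indicator measurableSet_closedBall).const_mul _),
            lintegral_const_mul _ (measurable_one.indicator measurableSet_closedBall),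
            lintegral_const_mul _ (measurable_one.indicator
              (measurableSet_ball.diff measurableSet_closedBall)),
            lintegral_indicator_one measurableSet_closedBall,
            lintegral_indicator_one (measurableSet_ball.diff measurableSet_closedBall)]
        rw [e1, mul_add]
        have v1 : volume (closedBall (0 : E3) (R - r)) ≤ ENNReal.ofReal (vB R) := by
          rw [← volume_ball_eq 0 hR0.le]
          apply measure_mono
          exact closedBall_subset_ball (by linarith)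
        have v2 := volume_crossing hR hr0
        have e2 : ENNReal.ofReal (lowT z r) *
            ENNReal.ofReal (R ^ 2 * (4 * Real.pi / 3 * (6 * r + 8 * r ^ 3))) ≤
            ENNReal.ofReal (R ^ 2) * ENNReal.ofReal (A * (r ^ 2 + r ^ 9)) := by
          rw [← ENNReal.ofReal_mul (lowT_nonneg hz.le hr0.le), ← ENNReal.ofReal_mul (sq_nonneg R)]
          apply ENNReal.ofReal_le_ofReal
          have q3 := pow_le_two_nine hr0 (j := 3) (by norm_num) (by norm_num)
          have q5 := pow_le_two_nine hr0 (j := 5) (by norm_num) (by norm_num)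
          have q6 := pow_le_two_nine hr0 (j := 6) (by norm_num) (by norm_num)
          have q8 := pow_le_two_nine hr0 (j := 8) (by norm_num) (by norm_num)
          have e3 : lowT z r * (R ^ 2 * (4 * Real.pi / 3 * (6 * r + 8 * r ^ 3))) =
            R ^ 2 * (4 * Real.pi / 3 * (12 * Real.pi * z * r ^ 3 + 16 * Real.pi * z * r ^ 5 +
              24 * Real.pi ^ 2 * r ^ 6 + 32 * Real.pi ^ 2 * r ^ 8)) := by unfold lowT; ring
          have e4 : A * (r ^ 2 + r ^ 9) = 4 * Real.pi / 3 * (12 * Real.pi * z * (r ^ 2 + r ^ 9) +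
              16 * Real.pi * z * (r ^ 2 + r ^ 9) + 24 * Real.pi ^ 2 * (r ^ 2 + r ^ 9) +
              32 * Real.pi ^ 2 * (r ^ 2 + r ^ 9)) := by rw [hA]; ring
          rw [e3, e4]
          gcongr
        calc ENNReal.ofReal (om κ r) * (ENNReal.ofReal (low r) * volume (closedBall (0 : E3) (R - r)))
            + ENNReal.ofReal (om κ r) * (ENNReal.ofReal (lowT z r) *
              volume (ball (0 : E3) (R + r) \ closedBall 0 (R - r)))
            ≤ ENNReal.ofReal (om κ r) * (ENNReal.ofReal (low r) * ENNReal.ofReal (vB R)) +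
              ENNReal.ofReal (om κ r) * (ENNReal.ofReal (lowT z r) *
                ENNReal.ofReal (R ^ 2 * (4 * Real.pi / 3 * (6 * r + 8 * r ^ 3)))) := by
              gcongr
          _ ≤ ENNReal.ofReal (om κ r) * (ENNReal.ofReal (low r) * ENNReal.ofReal (vB R)) +
              ENNReal.ofReal (om κ r) * (ENNReal.ofReal (R ^ 2) *
                ENNReal.ofReal (A * (r ^ 2 + r ^ 9))) := by gcongr
          _ = _ := by ring
      refine (setLIntegral_mono' measurableSet_Ioi hin).trans ?_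
      have hmo := measurable_om κ
      rw [lintegral_add_left (by fun_prop), lintegral_const_mul _ (by fun_prop),
        lintegral_const_mul _ (by fun_prop), lintegral_om_two_nine hκ hA0,
        ENNReal.ofReal_add (by have := vB_nonneg hR0.le; positivity) (by positivity)]
      gcongr
      · rw [mul_comm Λ, ENNReal.ofReal_mul (vB_nonneg hR0.le)]
        gcongr
      · rw [← ENNReal.ofReal_mul (sq_nonneg R)]
        apply ENNReal.ofReal_le_ofReal
        rw [← hC1, mul_comm]

end Pool.Agent.Lib_helper90c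


end
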