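import Mathlib
import Pool.Agent.BMLM.C01

/-! Parts: Lib_helper90c.Estar, Lib_helper90c.Canon, Lib_helper90c.Rot, Lib_helper90c.Back, Lib_helper90c.Iid, Lib_helper90c.Pack, Lib_helper90c.UpperJ, Lib_helper90c.Defs, Lib_helper90c.NBody, Lib_helper90c.EForm -/

section

/-!
# The jellium constant
-/

set_option autoImplicit false

open MeasureTheory Set Metric Filter
open scoped ENNReal NNReal Topology

namespace Pool.Agent.Lib_helper90c

/-- asymptotic lower bounds for the jellium energy per volume in balls -/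
def estarSet (z : ℝ) : Set ℝ :=
  {a | ∃ r0, 0 < r0 ∧ ∀ r, r0 ≤ r → ∀ (n : ℕ) (p : Fin n → E3), Function.Injective p →
    (∀ i, p i ∈ ball (0 : E3) r) → a * vB r ≤ jel z r p}

/-- the jellium ground state energy per volume, background density one -/
noncomputable def estar (z : ℝ) : ℝ := sSup (estarSet z)

theorem master_mem {κ z Λ a : ℝ} (hκ : 0 < κ) (hz : 0 < z) (hΛ0 : 0 ≤ Λ) (low : ℝ → ℝ)
    (hm : Measurable low) (hlow0 : ∀ r, 0 < r → 0 ≤ low r)
    (hlow : ∀ r, 0 < r → ∀ (n : ℕ) (p : Fin n → E3), Function.Injective p →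
      (∀ i, p i ∈ ball (0 : E3) r) → -low r ≤ jel z r p)
    (hΛ : ∫⁻ r in Ioi (0 : ℝ), ENNReal.ofReal (om κ r) * ENNReal.ofReal (low r) ≤
      ENNReal.ofReal Λ) (ha : a < -(Λ + 3 * κ * z)) : a ∈ estarSet z := by
  obtain ⟨C, hC0, hC⟩ := master hκ hz hΛ0 low hm hlow0 hlow hΛ
  set g := -(Λ + 3 * κ * z) - a with hg
  have hg0 : 0 < g := by linarith
  have hpi := Real.pi_pos
  refine ⟨max 1 (C / (g * (4 * Real.pi / 3))), by positivity, fun r hr n p hinj hp => ?_⟩
  have hr1 : 1 ≤ r := (le_max_left _ _).trans hr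
  have hr2 : C / (g * (4 * Real.pi / 3)) ≤ r := (le_max_right _ _).trans hr
  have h1 := hC r hr1 n p hinj hp
  rw [div_le_iff₀ (by positivity)] at hr2
  have h2 : 0 ≤ g * vB r - C * r ^ 2 := by
    have : g * vB r - C * r ^ 2 = r ^ 2 * (r * (g * (4 * Real.pi / 3)) - C) := by
      unfold vB; ring
    rw [this]
    exact mul_nonneg (sq_nonneg _) (by linarith)
  have h3 : g * vB r = -(Λ + 3 * κ * z) * vB r - a * vB r := by rw [hg]; ring
  linarith

theorem lowT_le {z r : ℝ} (hz : 0 ≤ z) (hr : 0 < r) :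
    lowT z r ≤ (2 * Real.pi * z + 4 * Real.pi ^ 2) * (r ^ 2 + r ^ 9) := by
  have hpi := Real.pi_pos
  have q2 := pow_le_two_nine hr (j := 2) (by norm_num) (by norm_num)
  have q5 := pow_le_two_nine hr (j := 5) (by norm_num) (by norm_num)
  unfold lowT
  rw [add_mul]
  gcongr

theorem estarSet_nonempty {z : ℝ} (hz : 0 < z) : (estarSet z).Nonempty := by
  have hpi := Real.pi_pos
  set A : ℝ := 2 * Real.pi * z + 4 * Real.pi ^ 2 with hA
  have hA0 : 0 ≤ A := by positivity
  set Λ : ℝ := A * (mC 0 * 1 + mC 7 * 1 / 1 ^ 7) with hΛ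
  have hΛ0 : 0 ≤ Λ := by have := mC_pos 0; have := mC_pos 7; positivity
  refine ⟨-(Λ + 3 * 1 * z) - 1, master_mem one_pos hz hΛ0 (lowT z)
    (by unfold lowT; fun_prop) (fun r hr => lowT_nonneg hz.le hr.le)
    (fun r hr n p hinj hp => jel_ge_lowT hz.le hr p hinj hp) ?_ (by linarith)⟩
  rw [hΛ, ← lintegral_om_two_nine one_pos hA0]
  apply setLIntegral_mono' measurableSet_Ioi
  intro r hr
  gcongr
  exact lowT_le hz.le hr

/-- radius of the neutral ball -/
noncomputable def nR (z : ℝ) (n : ℕ) : ℝ := (z * n / (4 * Real.pi / 3)) ^ (1 / 3 : ℝ)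

theorem nR_pos {z : ℝ} (hz : 0 < z) {n : ℕ} (hn : 0 < n) : 0 < nR z n := by
  unfold nR
  have : (0 : ℝ) < n := by exact_mod_cast hn
  positivity

theorem vB_nR {z : ℝ} (hz : 0 < z) (n : ℕ) : vB (nR z n) = z * n := by
  unfold vB nR
  rw [← Real.rpow_natCast, ← Real.rpow_mul (by positivity)]
  norm_num
  field_simp

theorem vB_lt_iff {r s : ℝ} (hr : 0 ≤ r) (hs : 0 ≤ s) : vB r < vB s ↔ r < s := by
  unfold vB
  rw [mul_lt_mul_iff_right₀ (by positivity), pow_lt_pow_iff_left₀ hr hs (by norm_num)]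

theorem vB_le_iff {r s : ℝ} (hr : 0 ≤ r) (hs : 0 ≤ s) : vB r ≤ vB s ↔ r ≤ s := by
  unfold vB
  rw [mul_le_mul_iff_right₀ (by positivity), pow_le_pow_iff_left₀ hr hs (by norm_num)]

theorem estarSet_le_zero {z a : ℝ} (hz : 0 < z) (ha : a ∈ estarSet z) : a ≤ 0 := by
  obtain ⟨r0, hr0, h⟩ := ha
  by_contra hneg
  push Not at hneg
  -- a neutral ball of radius at least `r0`
  obtain ⟨n, hn⟩ := exists_nat_gt (vB r0 / z)
  have hn0 : 0 < n := by
    have h1 : (0 : ℝ) < n := lt_of_le_of_lt (div_nonneg (vB_nonneg hr0.le) hz.le) hn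
    exact_mod_cast h1
  have hR := nR_pos hz hn0
  have hRr : r0 ≤ nR z n := by
    rw [← vB_le_iff hr0.le hR.le, vB_nR hz]
    rw [div_lt_iff₀ hz] at hn
    linarith
  have key : ∀ r, 0 < r → r < nR z n → a * vB (nR z n) ≤ selfE r / 2 := by
    intro r hr hrR
    obtain ⟨X, hinj, hX, hj⟩ := exists_neutral (z := z) (fun i : Fin 0 => i.elim0)
      (fun i => i.elim0) hr hrR (fun i => i.elim0) n (by rw [vB_nR hz]; simp)
    have h1 := jel_Fin (fun n' p' => h _ hRr n' p') _ hinj hX
    have h2 : jel z r (fun i : Fin 0 => (i.elim0 : E3)) = selfE r / 2 := by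
      unfold jel rep; simp
    rw [h2] at hj
    have h3 : 0 ≤ (z * (Fintype.card (Fin 0) : ℝ) - vB r) ^ 2 / (2 * nR z n) := by positivity
    linarith
  have hlim : Tendsto (fun r : ℝ => selfE r / 2) (𝓝[>] 0) (𝓝 0) := by
    have : Continuous fun r : ℝ => selfE r / 2 := by unfold selfE; fun_prop
    have h1 := (this.tendsto 0).mono_left (nhdsWithin_le_nhds (s := Ioi (0:ℝ)))
    simpa [selfE] using h1
  have hev : ∀ᶠ r in 𝓝[>] (0 : ℝ), a * vB (nR z n) ≤ selfE r / 2 := by
    filter_upwards [Ioo_mem_nhdsGT hR] with r hr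
    exact key r hr.1 hr.2
  have h2 := ge_of_tendsto hlim hev
  have h3 : 0 < a * vB (nR z n) := mul_pos hneg (vB_pos hR)
  linarith

theorem estar_nonpos {z : ℝ} (hz : 0 < z) : estar z ≤ 0 :=
  csSup_le (estarSet_nonempty hz) fun _ ha => estarSet_le_zero hz ha

theorem estar_bdd {z : ℝ} (hz : 0 < z) : BddAbove (estarSet z) :=
  ⟨0, fun _ ha => estarSet_le_zero hz ha⟩

theorem estar_lower {z δ : ℝ} (hz : 0 < z) (hδ : 0 < δ) :
    ∃ r0, 0 < r0 ∧ ∀ r, r0 ≤ r → ∀ (n : ℕ) (p : Fin n → E3), Function.Injective p →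
      (∀ i, p i ∈ ball (0 : E3) r) → (estar z - δ) * vB r ≤ jel z r p := by
  obtain ⟨a, ⟨r0, hr0, h⟩, ha⟩ := exists_lt_of_lt_csSup (estarSet_nonempty hz)
    (show estar z - δ < sSup (estarSet z) by unfold estar; linarith)
  refine ⟨r0, hr0, fun r hr n p hinj hp => ?_⟩
  refine le_trans ?_ (h r hr n p hinj hp)
  exact mul_le_mul_of_nonneg_right ha.le (vB_nonneg (hr0.le.trans hr))

theorem lintegral_om_vB {κ : ℝ} (hκ : 0 < κ) {A : ℝ} (hA : 0 ≤ A) :
    ∫⁻ r in Ioi (0 : ℝ), ENNReal.ofReal (om κ r) * ENNReal.ofReal (A * vB r) =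
      ENNReal.ofReal A := by
  have h1 : ∀ r ∈ Ioi (0 : ℝ), ENNReal.ofReal (om κ r) * ENNReal.ofReal (A * vB r) =
      ENNReal.ofReal (A * (4 * Real.pi / 3)) *
        (ENNReal.ofReal (om κ r) * ENNReal.ofReal (r ^ (1 + 2))) := by
    intro r hr
    have hr0 : 0 < r := hr
    unfold vB
    rw [← mul_assoc A, ENNReal.ofReal_mul (by positivity)]
    ring
  have hm := measurable_om κ
  rw [setLIntegral_congr_fun measurableSet_Ioi h1, lintegral_const_mul _ (by fun_prop),
    lintegral_om_pow hκ, ← ENNReal.ofReal_mul (by positivity)]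
  congr 1
  unfold mC
  have := Real.pi_pos.ne'
  field_simp
  norm_num
  ring

/-- lower bound for the mass of a window of radii -/
theorem mass_window {ℓ q : ℝ} (hℓ : 0 < ℓ) (hq : 1 < q) :
    ENNReal.ofReal (4 / 3 * Real.exp (-(2 * q)) * (q - 1)) ≤
      ∫⁻ r in Icc ℓ (q * ℓ), ENNReal.ofReal (om ℓ⁻¹ r) * ENNReal.ofReal (vB r) := by
  have hpi := Real.pi_pos
  have h1 : ∀ r ∈ Icc ℓ (q * ℓ), ENNReal.ofReal (4 / 3 * Real.exp (-(2 * q)) * ℓ⁻¹) ≤
      ENNReal.ofReal (om ℓ⁻¹ r) * ENNReal.ofReal (vB r) := by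
    intro r hr
    have hr0 : 0 < r := hℓ.trans_le hr.1
    rw [← ENNReal.ofReal_mul (om_nonneg (by positivity) hr0)]
    apply ENNReal.ofReal_le_ofReal
    have e : om ℓ⁻¹ r * vB r = Real.exp (-(2 * ℓ⁻¹ * r)) *
        (4 / 3 * (2 * (ℓ⁻¹) ^ 3 * r ^ 2 + (ℓ⁻¹) ^ 2 * r)) := by
      unfold om vB
      have := hpi.ne'
      field_simp
    rw [e]
    have e1 : Real.exp (-(2 * q)) ≤ Real.exp (-(2 * ℓ⁻¹ * r)) := by
      apply Real.exp_le_exp.2
      have : ℓ⁻¹ * r ≤ q := by
        rw [inv_mul_le_iff₀ hℓ]; linarith [hr.2]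
      linarith
    have e2 : 4 / 3 * ℓ⁻¹ ≤ 4 / 3 * (2 * (ℓ⁻¹) ^ 3 * r ^ 2 + (ℓ⁻¹) ^ 2 * r) := by
      have h3 : ℓ⁻¹ ≤ (ℓ⁻¹) ^ 2 * r := by
        have : (ℓ⁻¹) ^ 2 * r = ℓ⁻¹ * (ℓ⁻¹ * r) := by ring
        rw [this]
        have h4 : 1 ≤ ℓ⁻¹ * r := by
          rw [← inv_mul_cancel₀ hℓ.ne']
          exact mul_le_mul_of_nonneg_left hr.1 (by positivity)
        exact le_mul_of_one_le_right (by positivity) h4
      have h5 : 0 ≤ 2 * (ℓ⁻¹) ^ 3 * r ^ 2 := by positivity
      linarith
    calc 4 / 3 * Real.exp (-(2 * q)) * ℓ⁻¹ = Real.exp (-(2 * q)) * (4 / 3 * ℓ⁻¹) := by ring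
      _ ≤ _ := mul_le_mul e1 e2 (by positivity) (Real.exp_pos _).le
  calc ENNReal.ofReal (4 / 3 * Real.exp (-(2 * q)) * (q - 1))
      = ∫⁻ _r in Icc ℓ (q * ℓ), ENNReal.ofReal (4 / 3 * Real.exp (-(2 * q)) * ℓ⁻¹) := by
        rw [setLIntegral_const, Real.volume_Icc, ← ENNReal.ofReal_mul (by positivity)]
        congr 1
        field_simp
    _ ≤ _ := setLIntegral_mono' measurableSet_Icc h1

/-- Theorem G: near optimal configurations exist at some radius in every window. -/
theorem exists_window {z ε q : ℝ} (hz : 0 < z) (hε : 0 < ε) (hq : 1 < q) :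
    ∃ ℓ0, 0 < ℓ0 ∧ ∀ ℓ, ℓ0 ≤ ℓ → ∃ r, r ∈ Icc ℓ (q * ℓ) ∧ ∃ (n : ℕ) (p : Fin n → E3),
      Function.Injective p ∧ (∀ i, p i ∈ ball (0 : E3) r) ∧ jel z r p < (estar z + ε) * vB r := by
  classical
  have hpi := Real.pi_pos
  set e := estar z with he
  -- reduce to the case `e + ε ≤ 0`
  have hred : ∃ ε', 0 < ε' ∧ ε' ≤ ε ∧ (e + ε' ≤ 0 ∨ e = 0) := by
    rcases (estar_nonpos hz).eq_or_lt with h | h
    · exact ⟨ε, hε, le_rfl, Or.inr h⟩
    · refine ⟨min ε (-e), lt_min hε (by linarith), min_le_left _ _, Or.inl ?_⟩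
      have := min_le_right ε (-e)
      linarith
  set m : ℝ := 4 / 3 * Real.exp (-(2 * q)) * (q - 1) with hm
  have hm0 : 0 < m := by
    have := Real.exp_pos (-(2 * q))
    have : 0 < q - 1 := by linarith
    positivity
  rcases (estar_nonpos hz).eq_or_lt with h0 | h0
  · -- `e = 0`
    -- neutral balls have small energy: use the iid configuration
    obtain ⟨ε', hε', _, _⟩ := hred
    refine ⟨(z / (4 * Real.pi / 3 * (q ^ 3 - 1))) ^ (1 / 3 : ℝ) + 1, by
      have : 0 < q ^ 3 - 1 := by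
        have := one_lt_pow₀ hq (n := 3) (by norm_num)
        linarith
      positivity, fun ℓ hℓ => ?_⟩
    have hq3 : 0 < q ^ 3 - 1 := by
      have := one_lt_pow₀ hq (n := 3) (by norm_num)
      linarith
    have hb0 : 0 < (z / (4 * Real.pi / 3 * (q ^ 3 - 1))) ^ (1 / 3 : ℝ) := by positivity
    have hℓ0 : 0 < ℓ := by linarith
    have hℓ3 : z ≤ vB (q * ℓ) - vB ℓ := by
      have h1 : ((z / (4 * Real.pi / 3 * (q ^ 3 - 1))) ^ (1 / 3 : ℝ)) ^ 3 ≤ ℓ ^ 3 :=
        pow_le_pow_left₀ hb0.le (by linarith) 3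
      rw [← Real.rpow_natCast, ← Real.rpow_mul (by positivity)] at h1
      norm_num at h1
      rw [div_le_iff₀ (by positivity)] at h1
      unfold vB
      nlinarith
    -- an integer in the window
    set n := ⌊vB (q * ℓ) / z⌋₊ with hn
    have h1 : (n : ℝ) ≤ vB (q * ℓ) / z := Nat.floor_le (by
      have := vB_nonneg (show 0 ≤ q * ℓ by positivity)
      positivity)
    have h2 : vB (q * ℓ) / z < n + 1 := Nat.lt_floor_add_one _
    rw [le_div_iff₀ hz] at h1
    rw [div_lt_iff₀ hz] at h2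
    have hn0 : 0 < n := by
      rcases Nat.eq_zero_or_pos n with h | h
      · rw [h] at h2
        have := vB_pos hℓ0
        simp only [Nat.cast_zero, zero_add, one_mul] at h2
        linarith
      · exact h
    have hR := nR_pos hz hn0
    have hvR := vB_nR hz n
    refine ⟨nR z n, ⟨?_, ?_⟩, ?_⟩
    · rw [← vB_le_iff hℓ0.le hR.le, hvR]; nlinarith
    · rw [← vB_le_iff hR.le (by positivity), hvR]; linarith
    -- configuration
    have hlim : Tendsto (fun r : ℝ => selfE r / 2) (𝓝[>] 0) (𝓝 0) := by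
      have : Continuous fun r : ℝ => selfE r / 2 := by unfold selfE; fun_prop
      have h1 := (this.tendsto 0).mono_left (nhdsWithin_le_nhds (s := Ioi (0:ℝ)))
      simpa [selfE] using h1
    have hpos : 0 < (e + ε) * vB (nR z n) := by
      rw [he, h0, zero_add]; exact mul_pos hε (vB_pos hR)
    have hev := (hlim.eventually (gt_mem_nhds hpos)).and (Ioo_mem_nhdsGT hR)
    obtain ⟨r, hr1, hr2⟩ := hev.exists
    obtain ⟨X, hinj, hX, hj⟩ := exists_neutral (z := z) (fun i : Fin 0 => i.elim0)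
      (fun i => i.elim0) hr2.1 hr2.2 (fun i => i.elim0) n (by rw [vB_nR hz]; simp)
    have h2' : jel z r (fun i : Fin 0 => (i.elim0 : E3)) = selfE r / 2 := by
      unfold jel rep; simp
    rw [h2'] at hj
    have h3 : 0 ≤ (z * (Fintype.card (Fin 0) : ℝ) - vB r) ^ 2 / (2 * nR z n) := by positivity
    have eq := (Fintype.equivFin (Fin 0 ⊕ Fin n)).symm
    refine ⟨_, _, hinj.comp eq.injective, fun i => hX _, ?_⟩
    rw [jel_reindex]
    linarith
  · obtain ⟨ε', hε', hε'ε, hc⟩ := hred
    have hc' : e + ε' ≤ 0 := by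
      rcases hc with h | h
      · exact h
      · exact absurd h h0.ne
    set δ := ε' * m / 2 / (1 + m) with hδ
    have hδ0 : 0 < δ := by positivity
    obtain ⟨r0, hr0, hlow0⟩ := estar_lower hz hδ0
    -- constant for small radii
    set A : ℝ := 2 * Real.pi * z + 4 * Real.pi ^ 2 * r0 ^ 3 with hA
    have hA0 : 0 < A := by positivity
    set D : ℝ := A * mC 0 + 3 * z with hD
    have hD0 : 0 < D := by have := mC_pos 0; positivity
    refine ⟨max r0 (8 * D / (ε' * m)), by positivity, fun ℓ hℓ => ?_⟩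
    have hℓr0 : r0 ≤ ℓ := (le_max_left _ _).trans hℓ
    have hℓ2 : 8 * D / (ε' * m) ≤ ℓ := (le_max_right _ _).trans hℓ
    have hℓ0 : 0 < ℓ := hr0.trans_le hℓr0
    by_contra hcon
    push Not at hcon
    have hcon2 : ∀ r ∈ Icc ℓ (q * ℓ), ∀ (n : ℕ) (p : Fin n → E3), Function.Injective p →
        (∀ i, p i ∈ ball (0 : E3) r) → (e + ε') * vB r ≤ jel z r p := by
      intro r hr n p hinj hp
      refine le_trans ?_ (hcon r hr n p hinj hp)
      exact mul_le_mul_of_nonneg_right (by linarith) (vB_nonneg (hℓ0.le.trans hr.1))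
    set low : ℝ → ℝ := fun r => if r < r0 then lowT z r else
      if r ∈ Icc ℓ (q * ℓ) then (-(e + ε')) * vB r else (-e + δ) * vB r with hlow
    have hlowm : Measurable low := by
      refine Measurable.ite measurableSet_Iio (by unfold lowT; fun_prop) ?_
      exact Measurable.ite measurableSet_Icc (by unfold vB; fun_prop) (by unfold vB; fun_prop)
    have hlownn : ∀ r, 0 < r → 0 ≤ low r := by
      intro r hr
      simp only [hlow]
      split_ifs with h1 h2
      · exact lowT_nonneg hz.le hr.le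
      · exact mul_nonneg (by linarith) (vB_nonneg hr.le)
      · exact mul_nonneg (by linarith) (vB_nonneg hr.le)
    have hlowb : ∀ r, 0 < r → ∀ (n : ℕ) (p : Fin n → E3), Function.Injective p →
        (∀ i, p i ∈ ball (0 : E3) r) → -low r ≤ jel z r p := by
      intro r hr n p hinj hp
      simp only [hlow]
      split_ifs with h1 h2
      · exact jel_ge_lowT hz.le hr p hinj hp
      · have := hcon2 r h2 n p hinj hp
        linarith
      · have := hlow0 r (not_lt.1 h1) n p hinj hp
        linarith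
    -- the integral
    set κ : ℝ := ℓ⁻¹ with hκ
    have hκ0 : 0 < κ := by positivity
    set Λ : ℝ := A * mC 0 * κ + (-e + δ) - (δ + ε') * m with hΛ
    have hpt : ∀ r ∈ Ioi (0 : ℝ), ENNReal.ofReal (om κ r) * ENNReal.ofReal (low r) +
        ENNReal.ofReal (δ + ε') * (Icc ℓ (q * ℓ)).indicator (fun r =>
          ENNReal.ofReal (om κ r) * ENNReal.ofReal (vB r)) r ≤
        ENNReal.ofReal A * (ENNReal.ofReal (om κ r) * ENNReal.ofReal (r ^ (0 + 2))) +
        ENNReal.ofReal (om κ r) * ENNReal.ofReal ((-e + δ) * vB r) := by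
      intro r hr
      have hr' : 0 < r := hr
      have hv := vB_nonneg hr'.le
      by_cases hmem : r ∈ Icc ℓ (q * ℓ)
      · rw [indicator_of_mem hmem]
        have h1 : ¬ r < r0 := not_lt.2 (hℓr0.trans hmem.1)
        have h2 : low r = (-(e + ε')) * vB r := by
          simp only [hlow]; rw [if_neg h1, if_pos hmem]
        rw [h2]
        refine le_trans (le_of_eq ?_) (le_add_left le_rfl)
        rw [show (-e + δ) * vB r = (-(e + ε')) * vB r + (δ + ε') * vB r by ring,
          ENNReal.ofReal_add (mul_nonneg (by linarith) hv) (by positivity),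
          ENNReal.ofReal_mul (p := δ + ε') (by positivity)]
        ring
      · rw [indicator_of_notMem hmem, mul_zero, add_zero]
        by_cases h1 : r < r0
        · refine le_trans ?_ (le_add_right le_rfl)
          have h2 : low r = lowT z r := by simp only [hlow]; rw [if_pos h1]
          rw [h2, mul_left_comm, ← ENNReal.ofReal_mul hA0.le]
          gcongr
          unfold lowT
          rw [hA]
          have : r ^ 3 ≤ r0 ^ 3 := pow_le_pow_left₀ hr'.le h1.le 3
          have h4 : r ^ 5 ≤ r0 ^ 3 * r ^ 2 := by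
            have : r ^ 5 = r ^ 3 * r ^ 2 := by ring
            rw [this]; gcongr
          have h5 := mul_le_mul_of_nonneg_left h4 (show 0 ≤ 4 * Real.pi ^ 2 by positivity)
          simp only [zero_add]
          linarith
        · refine le_trans ?_ (le_add_left le_rfl)
          have h2 : low r = (-e + δ) * vB r := by
            simp only [hlow]; rw [if_neg h1, if_neg hmem]
          rw [h2]
    have hom := measurable_om κ
    have hvm : Measurable vB := by unfold vB; fun_prop
    have hI := setLIntegral_mono' (μ := volume) measurableSet_Ioi hpt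
    have hsubI : Icc ℓ (q * ℓ) ∩ Ioi (0 : ℝ) = Icc ℓ (q * ℓ) :=
      inter_eq_left.2 (fun r hr => hℓ0.trans_le (mem_Icc.1 hr).1)
    have hmind : Measurable ((Icc ℓ (q * ℓ)).indicator fun r => ENNReal.ofReal (om κ r) *
        ENNReal.ofReal (vB r)) :=
      (by fun_prop : Measurable fun r => ENNReal.ofReal (om κ r) *
          ENNReal.ofReal (vB r)).indicator measurableSet_Icc
    rw [lintegral_add_left (by fun_prop), lintegral_add_left (by fun_prop),
      lintegral_const_mul _ hmind, lintegral_const_mul _ (by fun_prop), lintegral_om_pow hκ0,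
      lintegral_om_vB hκ0 (by linarith),
      lintegral_indicator measurableSet_Icc, Measure.restrict_restrict measurableSet_Icc,
      hsubI] at hI
    have hw := mass_window hℓ0 hq
    have hI2 : (∫⁻ r in Ioi (0 : ℝ), ENNReal.ofReal (om κ r) * ENNReal.ofReal (low r)) +
        ENNReal.ofReal ((δ + ε') * m) ≤ ENNReal.ofReal (A * mC 0 * κ + (-e + δ)) := by
      refine le_trans ?_ (hI.trans (le_of_eq ?_))
      · rw [ENNReal.ofReal_mul (by positivity)]
        gcongr
      · rw [← ENNReal.ofReal_mul hA0.le, ← ENNReal.ofReal_add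
          (by have := mC_pos 0; positivity) (by linarith)]
        congr 1
        simp; ring
    have hΛint : ∫⁻ r in Ioi (0 : ℝ), ENNReal.ofReal (om κ r) * ENNReal.ofReal (low r) ≤
        ENNReal.ofReal Λ := by
      rw [hΛ, ENNReal.ofReal_sub _ (by positivity)]
      exact ENNReal.le_sub_of_add_le_right ENNReal.ofReal_ne_top hI2
    -- the constant in front
    have hκD : κ * D ≤ ε' * m / 8 := by
      rw [hκ, inv_mul_le_iff₀ hℓ0]
      rw [div_le_iff₀ (by positivity)] at hℓ2
      linarith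
    have hδm : δ * (1 + m) = ε' * m / 2 := by rw [hδ]; field_simp
    have hδle : δ ≤ ε' * m / 2 := by nlinarith
    by_cases hΛneg : 0 ≤ Λ
    · have hlt : e + ε' * m / 8 < -(Λ + 3 * κ * z) := by
        rw [hΛ]
        have : κ * D = A * mC 0 * κ + 3 * κ * z := by rw [hD]; ring
        nlinarith [mul_pos hδ0 hm0, mul_pos hε' hm0]
      have hmem := master_mem hκ0 hz hΛneg low hlowm hlownn hlowb hΛint hlt
      have h2 := le_csSup (estar_bdd hz) hmem
      have h3 : sSup (estarSet z) = e := rfl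
      rw [h3] at h2
      have := mul_pos hε' hm0
      linarith
    · -- impossible or immediate
      push Not at hΛneg
      have hΛ0' : ∫⁻ r in Ioi (0 : ℝ), ENNReal.ofReal (om κ r) * ENNReal.ofReal (low r) ≤
          ENNReal.ofReal 0 := by
        refine hΛint.trans ?_
        rw [ENNReal.ofReal_of_nonpos hΛneg.le]; simp
      have hlt : e + ε' * m / 8 < -(0 + 3 * κ * z) ∨ -(0 + 3 * κ * z) ≤ e + ε' * m / 8 :=
        lt_or_ge _ _
      rcases hlt with hlt | hge
      · have hmem := master_mem hκ0 hz le_rfl low hlowm hlownn hlowb hΛ0' hlt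
        have h2 := le_csSup (estar_bdd hz) hmem
        have h3 : sSup (estarSet z) = e := rfl
        rw [h3] at h2
        have := mul_pos hε' hm0
        linarith
      · have : κ * D = A * mC 0 * κ + 3 * κ * z := by rw [hD]; ring
        have h5 : 0 ≤ A * mC 0 * κ := by have := mC_pos 0; positivity
        have hm43 : m ≤ 4 / 3 := by
          have h6 : (q - 2) + 1 ≤ Real.exp (q - 2) := Real.add_one_le_exp _
          have h7 : Real.exp (q - 2) ≤ Real.exp (2 * q) := Real.exp_le_exp.2 (by linarith)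
          have h8 : Real.exp (-(2 * q)) * (q - 1) ≤ 1 := by
            rw [Real.exp_neg, inv_mul_le_iff₀ (Real.exp_pos _)]; linarith
          rw [hm]; linarith
        have h9 : ε' * m ≤ ε' * (4 / 3) := mul_le_mul_of_nonneg_left hm43 hε'.le
        linarith

end Pool.Agent.Lib_helper90c


end

section

/-!
# Near optimal neutral configurations for all large numbers of nuclei
-/

set_option autoImplicit false

open MeasureTheory Set Metric Filter
open scoped ENNReal NNReal Topology

namespace Pool.Agent.Lib_helper90c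

theorem excess_alg {e ε g w v R' J J0 : ℝ} (he : e ≤ 0) (hε : 0 < ε) (hg : 0 < g) (hw : 0 < w)
    (hR' : 0 < R') (hv0 : 0 ≤ v) (h2 : g * w ≤ w - v)
    (hlow : (e - ε / 2) * w ≤ J) (hj : J ≤ J0 - (w - v) ^ 2 / (2 * R'))
    (hJ0 : J0 < (e + ε / 2) * v) (h7 : w = 4 * Real.pi / 3 * R' ^ 3) :
    R' ^ 2 ≤ 2 * (-e + ε) / (g ^ 2 * (4 * Real.pi / 3)) := by
  have hpi := Real.pi_pos
  have hvw : v ≤ w := by nlinarith only [h2, mul_pos hg hw]
  have h3 : (g * w) ^ 2 ≤ (w - v) ^ 2 := pow_le_pow_left₀ (by positivity) h2 2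
  have h4 : (w - v) ^ 2 / (2 * R') ≤ (-e + ε) * w := by
    have h5 : (e + ε / 2) * v ≤ ε / 2 * w := by
      nlinarith only [mul_nonneg (neg_nonneg.2 he) hv0, mul_le_mul_of_nonneg_left hvw hε.le]
    linarith
  have h5 : (g * w) ^ 2 ≤ (-e + ε) * w * (2 * R') := by
    rw [div_le_iff₀ (by positivity)] at h4
    exact h3.trans h4
  have h6 : g ^ 2 * w ≤ (-e + ε) * (2 * R') := by
    have : w * (g ^ 2 * w) ≤ w * ((-e + ε) * (2 * R')) := by linarith
    exact le_of_mul_le_mul_left this hw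
  rw [h7] at h6
  have h8 : g ^ 2 * (4 * Real.pi / 3) * R' ^ 2 ≤ 2 * (-e + ε) := by
    have : R' * (g ^ 2 * (4 * Real.pi / 3) * R' ^ 2) ≤ R' * (2 * (-e + ε)) := by linarith
    exact le_of_mul_le_mul_left this hR'
  rw [le_div_iff₀ (by positivity)]
  linarith

theorem final_alg {e ε v w Q : ℝ} (he : e ≤ 0) (hε : 0 < ε) (hw : 0 < w) (hQ1 : 1 < Q)
    (hQ : Q ≤ 1 + ε / (2 * (-e + 1))) (hv : w * Q⁻¹ ≤ v) (hvw : v ≤ w) :
    (e + ε / 2) * v ≤ (e + ε) * w := by
  have hQ0 : 0 < Q := by linarith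
  have hne : 0 < 2 * (-e + 1) := by linarith
  have h6 : -e * (ε / (2 * (-e + 1))) ≤ ε / 2 := by
    rw [← mul_div_assoc, div_le_iff₀ hne]
    linarith
  have h5 : e * Q⁻¹ ≤ e + ε / 2 := by
    rw [← div_eq_mul_inv, div_le_iff₀ hQ0]
    have h8 : -e * (Q - 1) ≤ ε / 2 :=
      (mul_le_mul_of_nonneg_left (show Q - 1 ≤ ε / (2 * (-e + 1)) by linarith)
        (neg_nonneg.2 he)).trans h6
    have h9 : ε / 2 ≤ ε / 2 * Q := le_mul_of_one_le_right (by positivity) hQ1.le
    linarith
  have h4 : e * v ≤ e * (w * Q⁻¹) := mul_le_mul_of_nonpos_left hv he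
  have h7 : e * (w * Q⁻¹) ≤ (e + ε / 2) * w := by
    have := mul_le_mul_of_nonneg_right h5 hw.le
    linarith
  have h8 : ε / 2 * v ≤ ε / 2 * w := mul_le_mul_of_nonneg_left hvw (by positivity)
  linarith

theorem exists_canonical {z ε : ℝ} (hz : 0 < z) (hε : 0 < ε) :
    ∃ n0 : ℕ, ∀ n, n0 ≤ n → ∃ p : Fin n → E3, Function.Injective p ∧
      (∀ i, p i ∈ ball (0 : E3) (nR z n)) ∧ jel z (nR z n) p ≤ (estar z + ε) * (z * n) := by
  have hpi := Real.pi_pos
  have he := estar_nonpos hz
  set e := estar z with hedef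
  set η := ε / (2 * (-e + 1)) with hη
  have hη0 : 0 < η := by
    have : 0 < -e + 1 := by linarith
    positivity
  obtain ⟨q, hq1, hq6⟩ : ∃ q : ℝ, 1 < q ∧ q ^ 6 < 1 + η := by
    have h1 : ∀ᶠ q in 𝓝[>] (1 : ℝ), q ^ 6 < 1 + η := by
      have h2 : Tendsto (fun q : ℝ => q ^ 6) (𝓝[>] 1) (𝓝 (1 ^ 6)) :=
        ((continuous_pow 6).tendsto 1).mono_left nhdsWithin_le_nhds
      exact h2.eventually (gt_mem_nhds (by linarith))
    obtain ⟨q, hq⟩ := (h1.and self_mem_nhdsWithin).exists
    exact ⟨q, hq.2, hq.1⟩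
  have hq0 : 0 < q := by linarith
  obtain ⟨ℓ0, hℓ0, hwin⟩ := exists_window hz (half_pos hε) hq1
  obtain ⟨r0, hr0, hlow⟩ := estar_lower hz (half_pos hε)
  have hq3 : 1 < q ^ 3 := one_lt_pow₀ hq1 (by norm_num)
  set g := 1 - (q ^ 3)⁻¹ with hg
  have hg0 : 0 < g := by
    rw [hg]; exact sub_pos.2 (inv_lt_one_of_one_lt₀ hq3)
  set B := 2 * (-e + ε) / (g ^ 2 * (4 * Real.pi / 3)) with hB
  have hB0 : 0 ≤ B := by
    have : 0 ≤ -e + ε := by linarith
    positivity
  set M := max (q ^ 2 * ℓ0) (max r0 (B + 1)) with hM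
  have hM0 : 0 < M := by positivity
  obtain ⟨n0, hn0⟩ := exists_nat_gt (vB M / z)
  refine ⟨n0, fun n hn => ?_⟩
  have hn0' : 0 < n0 := by
    have h1 : (0 : ℝ) < n0 := lt_of_le_of_lt (div_nonneg (vB_nonneg hM0.le) hz.le) hn0
    exact_mod_cast h1
  have hnpos : 0 < n := lt_of_lt_of_le hn0' hn
  have hR := nR_pos hz hnpos
  set R := nR z n with hRdef
  have hvR : vB R = z * n := vB_nR hz n
  have hMR : M ≤ R := by
    rw [← vB_le_iff hM0.le hR.le, hvR]
    rw [div_lt_iff₀ hz] at hn0
    have : (n0 : ℝ) ≤ n := by exact_mod_cast hn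
    nlinarith
  have hR1 : q ^ 2 * ℓ0 ≤ R := (le_max_left _ _).trans hMR
  have hR2 : r0 ≤ R := (le_max_left _ _).trans ((le_max_right _ _).trans hMR)
  have hR3 : B + 1 ≤ R := (le_max_right _ _).trans ((le_max_right _ _).trans hMR)
  obtain ⟨r, hr, k, p, hpinj, hp, hjel⟩ := hwin (R / q ^ 2) (by
    rw [le_div_iff₀ (by positivity)]; linarith)
  have hr0' : 0 < r := lt_of_lt_of_le (by positivity) hr.1
  have hrR : r ≤ R / q := by
    have := hr.2
    have h2 : q * (R / q ^ 2) = R / q := by field_simp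
    rwa [h2] at this
  have hrltR : r < R := lt_of_le_of_lt hrR (div_lt_self hR hq1)
  have hv1 : vB r ≤ z * n * (q ^ 3)⁻¹ := by
    rw [← hvR]
    have : vB (R / q) = vB R * (q ^ 3)⁻¹ := by unfold vB; field_simp
    rw [← this]
    exact (vB_le_iff hr0'.le (by positivity)).2 hrR
  have hv2 : z * n * (q ^ 6)⁻¹ ≤ vB r := by
    rw [← hvR]
    have : vB (R / q ^ 2) = vB R * (q ^ 6)⁻¹ := by unfold vB; field_simp
    rw [← this]
    exact (vB_le_iff (by positivity) hr0'.le).2 hr.1
  have hvpos := vB_pos hr0'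
  -- number bound
  have hk : k ≤ n := by
    by_contra hcon
    push Not at hcon
    have hkpos : 0 < k := lt_of_le_of_lt (Nat.zero_le _) hcon
    have hR' := nR_pos hz hkpos
    have hvR' : vB (nR z k) = z * k := vB_nR hz k
    set R' := nR z k with hR'def
    have hnk : (n : ℝ) < k := by exact_mod_cast hcon
    have hRR' : R < R' := by
      rw [← vB_lt_iff hR.le hR'.le, hvR, hvR']
      exact mul_lt_mul_of_pos_left hnk hz
    obtain ⟨X, hinj, hX, hj⟩ := exists_neutral (z := z) p hpinj hr0' (hrltR.trans hRR') hp 0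
      (by rw [Fintype.card_fin, hvR']; simp)
    have h1 := jel_Fin (fun n' p' => hlow R' (hR2.trans hRR'.le) n' p') _ hinj hX
    rw [hvR'] at h1
    rw [Fintype.card_fin] at hj
    have hw0 : 0 < z * (k : ℝ) := by
      have : (0 : ℝ) < k := by exact_mod_cast hkpos
      positivity
    have hvw : vB r ≤ z * (k : ℝ) * (q ^ 3)⁻¹ := by
      refine hv1.trans ?_
      gcongr
    have h2 : g * (z * (k : ℝ)) ≤ z * (k : ℝ) - vB r := by rw [hg]; linarith
    have h9 := excess_alg he hε hg0 hw0 hR' hvpos.le h2 h1 hj hjel (by rw [← hvR']; rfl)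
    have h10 : B + 1 ≤ R' := hR3.trans hRR'.le
    have h11 : R' ^ 2 ≤ B := h9
    nlinarith only [h10, h11, hB0]
  obtain ⟨m, hm⟩ := Nat.exists_eq_add_of_le hk
  obtain ⟨X, hinj, hX, hj⟩ := exists_neutral (z := z) p hpinj hr0' hrltR hp m
    (by rw [Fintype.card_fin, hvR, hm]; push_cast; ring)
  have hcard : Fintype.card (Fin n) = Fintype.card (Fin k ⊕ Fin m) := by simp [hm]
  have eq := Fintype.equivOfCardEq hcard
  refine ⟨Sum.elim p X ∘ eq, hinj.comp eq.injective, fun i => hX _, ?_⟩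
  rw [jel_reindex]
  have h1 : 0 ≤ (z * (Fintype.card (Fin k) : ℝ) - vB r) ^ 2 / (2 * R) := by positivity
  have hzn : 0 < z * n := by
    have : (0 : ℝ) < n := by exact_mod_cast hnpos
    positivity
  have h3 : vB r ≤ z * n := by rw [← hvR]; exact (vB_le_iff hr0'.le hR.le).2 hrltR.le
  have h2 : (e + ε / 2) * vB r ≤ (e + ε) * (z * n) :=
    final_alg he hε hzn (one_lt_pow₀ hq1 (by norm_num)) hq6.le hv2 h3
  linarith

end Pool.Agent.Lib_helper90c


end

section

/-!
# Rotation averages of the Coulomb potential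
-/

set_option autoImplicit false

open MeasureTheory Set Metric Filter
open scoped ENNReal NNReal Topology

namespace Pool.Agent.Lib_helper90c

instance instCS : ContinuousStar (E3 →L[ℝ] E3) :=
  ⟨(ContinuousLinearMap.adjoint : (E3 →L[ℝ] E3) ≃ₗᵢ⋆[ℝ] (E3 →L[ℝ] E3)).continuous⟩

theorem compG3 : IsCompact ((unitary (E3 →L[ℝ] E3) : Submonoid (E3 →L[ℝ] E3)) :
    Set (E3 →L[ℝ] E3)) := by
  have : ProperSpace (E3 →L[ℝ] E3) := FiniteDimensional.proper_real _
  refine Metric.isCompact_of_isClosed_isBounded isClosed_unitary ?_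
  refine (Metric.isBounded_closedBall (x := (0 : E3 →L[ℝ] E3)) (r := 1)).subset ?_
  intro u hu
  rw [mem_closedBall_zero_iff]
  exact CStarRing.norm_of_mem_unitary hu |>.le

instance : CompactSpace (unitary (E3 →L[ℝ] E3)) := isCompact_iff_compactSpace.1 compG3

/-- The orthogonal group. -/
noncomputable abbrev G3 : Type := unitary (E3 →L[ℝ] E3)

noncomputable instance : MeasurableSpace G3 := borel _
instance : BorelSpace G3 := ⟨rfl⟩

/-- normalised Haar measure -/
noncomputable def hG : Measure G3 := Measure.haarMeasure ⊤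

instance : IsProbabilityMeasure hG := by
  refine ⟨?_⟩
  have := Measure.haarMeasure_self (K₀ := (⊤ : TopologicalSpace.PositiveCompacts G3))
  unfold hG
  simpa using this

instance : Measure.IsMulLeftInvariant hG := by unfold hG; infer_instance

theorem continuous_act (y : E3) : Continuous fun g : G3 => (g : E3 →L[ℝ] E3) y := by
  have h1 : Continuous fun g : G3 => (g : E3 →L[ℝ] E3) := continuous_subtype_val
  exact h1.clm_apply continuous_const

theorem norm_act (g : G3) (y : E3) : ‖(g : E3 →L[ℝ] E3) y‖ = ‖y‖ :=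
  (g : E3 →L[ℝ] E3).norm_map_of_mem_unitary g.property y

theorem mul_act (g h : G3) (y : E3) :
    ((g * h : G3) : E3 →L[ℝ] E3) y = (g : E3 →L[ℝ] E3) ((h : E3 →L[ℝ] E3) y) := rfl

theorem exists_act {x x' : E3} (h : ‖x‖ = ‖x'‖) : ∃ g : G3, (g : E3 →L[ℝ] E3) x = x' := by
  obtain ⟨f, hf⟩ := exists_isometry_ax x
  obtain ⟨f', hf'⟩ := exists_isometry_ax x'
  refine ⟨Unitary.linearIsometryEquiv.symm (f.symm.trans f'), ?_⟩
  show (f.symm.trans f') x = x'
  rw [LinearIsometryEquiv.trans_apply]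
  have : f.symm x = ax ‖x‖ := by rw [LinearIsometryEquiv.symm_apply_eq, hf]
  rw [this, h, hf']

/-- rotation average of the Coulomb potential of the point `y` -/
noncomputable def rotF (y x : E3) : ℝ := ∫ g : G3, ‖x - (g : E3 →L[ℝ] E3) y‖⁻¹ ∂hG

theorem norm_sub_act_ge (g : G3) (x y : E3) : ‖x‖ - ‖y‖ ≤ ‖x - (g : E3 →L[ℝ] E3) y‖ := by
  have := norm_sub_norm_le x ((g : E3 →L[ℝ] E3) y)
  rwa [norm_act] at this

theorem rotF_invariant (y x : E3) (h : G3) : rotF y ((h : E3 →L[ℝ] E3) x) = rotF y x := by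
  unfold rotF
  rw [← integral_mul_left_eq_self (μ := hG) _ h]
  congr 1
  ext g
  rw [mul_act, ← map_sub, norm_act]

theorem rotF_radial (y : E3) {x x' : E3} (h : ‖x‖ = ‖x'‖) : rotF y x = rotF y x' := by
  obtain ⟨g, rfl⟩ := exists_act h
  rw [rotF_invariant]

theorem integrable_act {x y : E3} (h : ‖y‖ < ‖x‖) :
    Integrable (fun g : G3 => ‖x - (g : E3 →L[ℝ] E3) y‖⁻¹) hG := by
  apply Continuous.integrable_of_hasCompactSupport
  · apply Continuous.inv₀
    · exact (continuous_const.sub (continuous_act y)).norm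
    · intro g
      have := norm_sub_act_ge g x y
      linarith
  · exact HasCompactSupport.of_compactSpace _

theorem continuousAt_rotF {y x0 : E3} (h : ‖y‖ < ‖x0‖) : ContinuousAt (rotF y) x0 := by
  unfold rotF
  set d := (‖x0‖ - ‖y‖) / 2 with hd
  have hd0 : 0 < d := by rw [hd]; linarith
  have hnear : ∀ᶠ x in 𝓝 x0, d < ‖x‖ - ‖y‖ := by
    have : ContinuousAt (fun x : E3 => ‖x‖ - ‖y‖) x0 := by fun_prop
    exact this.eventually (lt_mem_nhds (by rw [hd]; linarith))
  refine continuousAt_of_dominated (bound := fun _ => d⁻¹) ?_ ?_ (integrable_const _) ?_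
  · refine Eventually.of_forall fun x => ?_
    exact ((continuous_const.sub (continuous_act y)).norm.measurable.inv).aestronglyMeasurable
  · filter_upwards [hnear] with x hx
    refine Eventually.of_forall fun g => ?_
    rw [norm_inv, norm_norm]
    exact inv_anti₀ hd0 (hx.le.trans (norm_sub_act_ge g x y))
  · refine Eventually.of_forall fun g => ?_
    apply ContinuousAt.inv₀
    · fun_prop
    · have := norm_sub_act_ge g x0 y
      linarith

theorem ann_subset (s t : ℝ) : ann s t ⊆ ball 0 t := sdiff_subset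

theorem integrable_ann_inv (s t : ℝ) (w : E3) :
    Integrable (fun x : E3 => ‖x - w‖⁻¹) ((volume : Measure E3).restrict (ann s t)) := by
  have h : IntegrableOn (fun x : E3 => ‖w - x‖⁻¹) (ann s t) volume :=
    (integrableOn_ball_inv 0 w t).mono_set (ann_subset s t)
  have e : (fun x : E3 => ‖w - x‖⁻¹) = fun x : E3 => ‖x - w‖⁻¹ := by
    ext x; rw [norm_sub_rev]
  rw [e] at h
  exact h

theorem isFiniteMeasure_ann (s t : ℝ) :
    IsFiniteMeasure ((volume : Measure E3).restrict (ann s t)) := by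
  refine ⟨?_⟩
  rw [Measure.restrict_apply_univ]
  exact (measure_mono (ann_subset s t)).trans_lt measure_ball_lt_top

theorem integral_ann_rotF (y : E3) {s t : ℝ} (hs : ‖y‖ ≤ s) (hst : s ≤ t) :
    ∫ x in ann s t, rotF y x = 2 * Real.pi * (t ^ 2 - s ^ 2) := by
  have hs0 : 0 ≤ s := (norm_nonneg _).trans hs
  have hfin := isFiniteMeasure_ann s t
  have hjc : Continuous fun q : E3 × G3 => q.1 - (q.2 : E3 →L[ℝ] E3) y := by
    have h1 : Continuous fun q : E3 × G3 => (q.2 : E3 →L[ℝ] E3) y :=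
      (continuous_act y).comp continuous_snd
    exact continuous_fst.sub h1
  have hmeas : Measurable fun q : E3 × G3 => ‖q.1 - (q.2 : E3 →L[ℝ] E3) y‖⁻¹ :=
    hjc.norm.measurable.inv
  have hval : ∀ g : G3, ∫ x in ann s t, ‖x - (g : E3 →L[ℝ] E3) y‖⁻¹ =
      2 * Real.pi * (t ^ 2 - s ^ 2) := by
    intro g
    have h1 := integral_ann_inv ((g : E3 →L[ℝ] E3) y) hs0 hst
    rw [norm_act, ballPot_diff_of_le hst hs] at h1
    rw [← h1]
    simp only [norm_sub_rev]
  have e1 : ∀ g : G3, Integrable (fun x : E3 => ‖x - (g : E3 →L[ℝ] E3) y‖⁻¹)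
      ((volume : Measure E3).restrict (ann s t)) := fun g =>
    integrable_ann_inv s t ((g : E3 →L[ℝ] E3) y)
  have e2 : (fun g : G3 => ∫ x in ann s t, ‖‖x - (g : E3 →L[ℝ] E3) y‖⁻¹‖) =
      fun _ => 2 * Real.pi * (t ^ 2 - s ^ 2) := by
    ext g
    rw [← hval g]
    congr 1
    ext x
    rw [Real.norm_eq_abs, abs_of_nonneg (by positivity)]
  have e3 : Integrable (fun g : G3 => ∫ x in ann s t, ‖‖x - (g : E3 →L[ℝ] E3) y‖⁻¹‖) hG := by
    rw [e2]
    exact integrable_const _
  have hprod : Integrable (fun q : E3 × G3 => ‖q.1 - (q.2 : E3 →L[ℝ] E3) y‖⁻¹)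
      (((volume : Measure E3).restrict (ann s t)).prod hG) :=
    (integrable_prod_iff' hmeas.aestronglyMeasurable).2 ⟨Eventually.of_forall e1, e3⟩
  unfold rotF
  rw [integral_integral_swap (f := fun (x : E3) (g : G3) => ‖x - (g : E3 →L[ℝ] E3) y‖⁻¹) hprod]
  simp only [hval]
  simp

/-- Newton's theorem for rotation averages. -/
theorem rotF_eq {y x : E3} (h : ‖y‖ < ‖x‖) : rotF y x = ‖x‖⁻¹ := by
  have hx0 : 0 < ‖x‖ := (norm_nonneg _).trans_lt h
  -- the difference is continuous and radial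
  set f : E3 → ℝ := fun x => rotF y x - ‖x‖⁻¹ with hf
  have hfc : ∀ x : E3, ‖y‖ < ‖x‖ → ContinuousAt f x := by
    intro x hx
    have hx0 : 0 < ‖x‖ := (norm_nonneg _).trans_lt hx
    exact (continuousAt_rotF hx).sub (ContinuousAt.inv₀ (by fun_prop) hx0.ne')
  have hfr : ∀ x x' : E3, ‖x‖ = ‖x'‖ → f x = f x' := by
    intro x x' h
    simp only [hf, h, rotF_radial y h]
  -- integrals over annuli vanish
  have hzero : ∀ s t, ‖y‖ < s → s ≤ t → ∫ x in ann s t, f x = 0 := by
    intro s t hs hst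
    have hs0 : 0 ≤ s := (norm_nonneg y).trans hs.le
    have h1 := integral_ann_rotF y hs.le hst
    have h2 := integral_ann_inv 0 hs0 hst
    rw [norm_zero, ballPot_diff_of_le hst hs0] at h2
    simp only [zero_sub, norm_neg] at h2
    have hfin := isFiniteMeasure_ann s t
    have i1 : IntegrableOn (rotF y) (ann s t) := by
      refine Integrable.mono' (integrable_const (s - ‖y‖)⁻¹) ?_ ?_
      · have hco : ContinuousOn (rotF y) (ann s t) := by
          intro x hx
          have h3 : s ≤ ‖x‖ := by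
            have := hx.2
            simpa using this
          exact (continuousAt_rotF (hs.trans_le h3)).continuousWithinAt
        exact hco.aestronglyMeasurable (measurableSet_ann s t)
      · rw [ae_restrict_iff' (measurableSet_ann s t)]
        refine Eventually.of_forall fun x hx => ?_
        have h3 : s ≤ ‖x‖ := by
          have := hx.2
          simpa using this
        unfold rotF
        refine (norm_integral_le_integral_norm _).trans ?_
        have h4 : ∀ g : G3, ‖‖x - (g : E3 →L[ℝ] E3) y‖⁻¹‖ ≤ (s - ‖y‖)⁻¹ := by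
          intro g
          rw [norm_inv, norm_norm]
          exact inv_anti₀ (by linarith) ((by linarith : s - ‖y‖ ≤ ‖x‖ - ‖y‖).trans
            (norm_sub_act_ge g x y))
        calc ∫ g : G3, ‖‖x - (g : E3 →L[ℝ] E3) y‖⁻¹‖ ∂hG ≤ ∫ _g : G3, (s - ‖y‖)⁻¹ ∂hG :=
              integral_mono_of_nonneg (Eventually.of_forall fun g => norm_nonneg _)
                (integrable_const _) (Eventually.of_forall h4)
          _ = (s - ‖y‖)⁻¹ := by simp
    have i2 : Integrable (fun x : E3 => ‖x‖⁻¹) ((volume : Measure E3).restrict (ann s t)) := by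
      have := integrable_ann_inv s t 0
      simpa only [sub_zero] using this
    show ∫ x in ann s t, (rotF y x - ‖x‖⁻¹) = 0
    rw [integral_sub i1 i2, h1, h2, sub_self]
  -- conclusion by contradiction
  have key : ∀ c : ℝ, c ≠ 0 → (∀ x', ‖y‖ < ‖x'‖ → ContinuousAt (fun x => c * f x) x') →
      ¬ 0 < c * f x := by
    intro c hc hcont hpos
    have h1 : ∀ᶠ x' in 𝓝 x, c * f x / 2 < c * f x' :=
      (hcont x h).eventually (lt_mem_nhds (by linarith))
    obtain ⟨δ, hδ, hball⟩ := Metric.eventually_nhds_iff.1 h1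
    set δ' := min (δ / 2) ((‖x‖ - ‖y‖) / 2) with hδ'
    have hδ'0 : 0 < δ' := lt_min (by linarith) (by linarith)
    have hδ'1 : δ' ≤ δ / 2 := min_le_left _ _
    have hδ'2 : δ' ≤ (‖x‖ - ‖y‖) / 2 := min_le_right _ _
    set s := ‖x‖ - δ' with hs
    set t := ‖x‖ + δ' with ht
    have hsy : ‖y‖ < s := by rw [hs]; linarith
    have hs0 : 0 < s := (norm_nonneg y).trans_lt hsy
    have hst : s < t := by rw [hs, ht]; linarith
    have hlow : ∀ x' ∈ ann s t, c * f x / 2 < c * f x' := by
      intro x' hx'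
      have h3 : s ≤ ‖x'‖ := by
        have := hx'.2
        simpa using this
      have h4 : ‖x'‖ < t := by
        have := hx'.1
        simpa using this
      -- move to the ray of `x`
      set w : E3 := (‖x'‖ / ‖x‖) • x with hw
      have hwn : ‖w‖ = ‖x'‖ := by
        rw [hw, norm_smul, Real.norm_eq_abs, abs_of_nonneg (by positivity)]
        field_simp
      have hwd : dist w x < δ := by
        rw [dist_eq_norm]
        have : w - x = (‖x'‖ / ‖x‖ - 1) • x := by rw [hw, sub_smul, one_smul]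
        rw [this, norm_smul, Real.norm_eq_abs]
        have e : |‖x'‖ / ‖x‖ - 1| * ‖x‖ = |‖x'‖ - ‖x‖| := by
          rw [← abs_of_pos hx0, ← abs_mul, abs_of_pos hx0]
          congr 1
          field_simp
        rw [e, abs_lt]
        constructor <;> linarith
      rw [hfr x' w hwn.symm]
      exact hball hwd
    have hz := hzero s t hsy hst.le
    have hfin := isFiniteMeasure_ann s t
    have hint : IntegrableOn (fun x => c * f x) (ann s t) := by
      by_contra hn
      -- not integrable is impossible: bounded continuous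
      apply hn
      have hco : ContinuousOn (fun x => c * f x) (closedBall 0 t \ ball 0 s) := by
        intro x' hx'
        have h3 : s ≤ ‖x'‖ := by
          have := hx'.2
          simpa using this
        exact (hcont x' (hsy.trans_le h3)).continuousWithinAt
      have hcomp : IsCompact (closedBall (0 : E3) t \ ball 0 s) :=
        (isCompact_closedBall 0 t).diff isOpen_ball
      exact (hco.integrableOn_compact hcomp).mono_set
        (sdiff_subset_sdiff_left ball_subset_closedBall)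
    have h5 : ∫ x' in ann s t, c * f x / 2 ≤ ∫ x' in ann s t, c * f x' := by
      apply setIntegral_mono_on (integrable_const _) hint (measurableSet_ann s t)
      intro x' hx'
      exact (hlow x' hx').le
    rw [integral_const_mul, hz, mul_zero, setIntegral_const, measureReal_ann hs0.le hst.le,
      smul_eq_mul] at h5
    have h6 : 0 < vB t - vB s := sub_pos.2 ((vB_lt_iff hs0.le (by linarith)).2 hst)
    have : 0 < (vB t - vB s) * (c * f x / 2) := mul_pos h6 (by linarith)
    linarith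
  have k1 := key 1 one_ne_zero (fun x' hx' => (hfc x' hx').const_mul 1)
  have k2 := key (-1) (by norm_num) (fun x' hx' => (hfc x' hx').const_mul (-1))
  have h0 : f x = 0 := by linarith
  simp only [hf] at h0
  linarith

end Pool.Agent.Lib_helper90c


end

section

/-!
# Background measures, their potentials, and merging of neutral systems
-/

set_option autoImplicit false

open MeasureTheory Set Metric Filter
open scoped ENNReal NNReal Topology

namespace Pool.Agent.Lib_helper90c

/-- measures with bounded density and bounded support -/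
def BM (β : Measure E3) : Prop :=
  ∃ (C : ℝ≥0) (R : ℝ), 0 ≤ R ∧ β ≤ (C : ℝ≥0∞) • (volume : Measure E3).restrict (ball 0 R)

/-- potential of a measure -/
noncomputable def Pot (β : Measure E3) (y : E3) : ℝ := ∫ x, ‖y - x‖⁻¹ ∂β

theorem Pot_nonneg (β : Measure E3) (y : E3) : 0 ≤ Pot β y :=
  integral_nonneg fun x => by positivity

theorem integrable_ball_inv (R : ℝ) (y : E3) :
    Integrable (fun x : E3 => ‖y - x‖⁻¹) ((volume : Measure E3).restrict (ball 0 R)) :=
  integrableOn_ball_inv 0 y R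

theorem isFiniteMeasure_ball (c : E3) (R : ℝ) :
    IsFiniteMeasure ((volume : Measure E3).restrict (ball c R)) := by
  refine ⟨?_⟩
  rw [Measure.restrict_apply_univ]
  exact measure_ball_lt_top

theorem BM.isFinite {β : Measure E3} (h : BM β) : IsFiniteMeasure β := by
  obtain ⟨C, R, hR, hle⟩ := h
  have := isFiniteMeasure_ball 0 R
  refine ⟨lt_of_le_of_lt (hle univ) ?_⟩
  rw [Measure.smul_apply]
  exact ENNReal.mul_lt_top ENNReal.coe_lt_top (measure_lt_top _ _)

theorem BM.pot {β : Measure E3} (h : BM β) (y : E3) : Integrable (fun x => ‖y - x‖⁻¹) β := by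
  obtain ⟨C, R, hR, hle⟩ := h
  exact ((integrable_ball_inv R y).smul_measure ENNReal.coe_ne_top).mono_measure hle

theorem BM.Pot_le {β : Measure E3} (h : BM β) : ∃ M, 0 ≤ M ∧ ∀ y, Pot β y ≤ M := by
  obtain ⟨C, R, hR, hle⟩ := h
  refine ⟨C * (2 * Real.pi * R ^ 2), by positivity, fun y => ?_⟩
  have h1 : Pot β y ≤ ∫ x, ‖y - x‖⁻¹ ∂((C : ℝ≥0∞) • (volume : Measure E3).restrict (ball 0 R)) := by
    apply integral_mono_measure hle
    · exact Eventually.of_forall fun x => by positivity
    · exact (integrable_ball_inv R y).smul_measure ENNReal.coe_ne_top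
  refine h1.trans ?_
  rw [integral_smul_measure, ENNReal.coe_toReal, smul_eq_mul, integral_ball_inv 0 y hR]
  exact mul_le_mul_of_nonneg_left (ballPot_le hR (norm_nonneg _)) C.coe_nonneg

theorem measurable_inv_norm_sub : Measurable fun q : E3 × E3 => ‖q.1 - q.2‖⁻¹ := by fun_prop

theorem measurable_Pot (β : Measure E3) [SFinite β] : Measurable (Pot β) := by
  unfold Pot
  exact (measurable_inv_norm_sub.stronglyMeasurable.integral_prod_right').measurable

theorem BM.measurable_Pot {β : Measure E3} (h : BM β) : Measurable (Pot β) := by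
  have := h.isFinite
  exact Lib_helper90c.measurable_Pot β

theorem BM.integrable_Pot {β : Measure E3} (h : BM β) (β' : Measure E3) [IsFiniteMeasure β'] :
    Integrable (Pot β) β' := by
  obtain ⟨M, hM0, hM⟩ := h.Pot_le
  refine Integrable.mono' (integrable_const M) h.measurable_Pot.aestronglyMeasurable ?_
  exact Eventually.of_forall fun y => by
    rw [Real.norm_eq_abs, abs_of_nonneg (Pot_nonneg _ _)]; exact hM y

theorem BM.add {β β' : Measure E3} (h : BM β) (h' : BM β') : BM (β + β') := by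
  obtain ⟨C, R, hR, hle⟩ := h
  obtain ⟨C', R', hR', hle'⟩ := h'
  refine ⟨C + C', max R R', le_max_of_le_left hR, ?_⟩
  push_cast
  rw [add_smul]
  have m1 : (volume : Measure E3).restrict (ball 0 R) ≤ (volume : Measure E3).restrict
      (ball 0 (max R R')) := Measure.restrict_mono_set _ (ball_subset_ball (le_max_left _ _))
  have m2 : (volume : Measure E3).restrict (ball 0 R') ≤ (volume : Measure E3).restrict
      (ball 0 (max R R')) := Measure.restrict_mono_set _ (ball_subset_ball (le_max_right _ _))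
  refine add_le_add (hle.trans ?_) (hle'.trans ?_)
  · intro s
    rw [Measure.smul_apply, Measure.smul_apply]
    exact smul_le_smul_of_nonneg_left (m1 s) (zero_le)
  · intro s
    rw [Measure.smul_apply, Measure.smul_apply]
    exact smul_le_smul_of_nonneg_left (m2 s) (zero_le)

theorem BM.mono {β β' : Measure E3} (h : BM β) (hle : β' ≤ β) : BM β' := by
  obtain ⟨C, R, hR, h⟩ := h
  exact ⟨C, R, hR, hle.trans h⟩

theorem BM_zero : BM 0 := ⟨0, 0, le_rfl, by simp⟩

/-- uniform background in a ball -/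
noncomputable def ubg (σ : ℝ) (c : E3) (r : ℝ) : Measure E3 :=
  ENNReal.ofReal σ • (volume : Measure E3).restrict (ball c r)

theorem BM_ubg (σ : ℝ) (c : E3) (r : ℝ) : BM (ubg σ c r) := by
  refine ⟨σ.toNNReal, ‖c‖ + |r|, by positivity, ?_⟩
  intro s
  unfold ubg
  rw [Measure.smul_apply, Measure.smul_apply]
  apply smul_le_smul_of_nonneg_left _ zero_le
  apply Measure.restrict_mono_set
  apply ball_subset_ball'
  rw [dist_zero_right]
  have := le_abs_self r
  linarith

theorem integral_ubg {σ : ℝ} (hσ : 0 ≤ σ) (c : E3) (r : ℝ) (f : E3 → ℝ) :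
    ∫ x, f x ∂(ubg σ c r) = σ * ∫ x in ball c r, f x := by
  unfold ubg
  rw [integral_smul_measure, ENNReal.toReal_ofReal hσ, smul_eq_mul]

theorem Pot_ubg {σ : ℝ} (hσ : 0 ≤ σ) (c : E3) {r : ℝ} (hr : 0 ≤ r) (y : E3) :
    Pot (ubg σ c r) y = σ * ballPot r ‖y - c‖ := by
  unfold Pot
  rw [integral_ubg hσ, integral_ball_inv c y hr]

theorem Pot_add {β β' : Measure E3} (h : BM β) (h' : BM β') (y : E3) :
    Pot (β + β') y = Pot β y + Pot β' y := by
  unfold Pot
  exact integral_add_measure (h.pot y) (h'.pot y)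

theorem integrable_prod_inv {β β' : Measure E3} (h : BM β) (h' : BM β') :
    Integrable (fun q : E3 × E3 => ‖q.1 - q.2‖⁻¹) (β.prod β') := by
  have := h.isFinite
  have := h'.isFinite
  rw [integrable_prod_iff measurable_inv_norm_sub.aestronglyMeasurable]
  refine ⟨Eventually.of_forall fun x => h'.pot x, ?_⟩
  have e : (fun x : E3 => ∫ y, ‖‖(x, y).1 - (x, y).2‖⁻¹‖ ∂β') = Pot β' := by
    ext x
    unfold Pot
    congr 1
    ext y
    simp
  rw [e]
  exact h'.integrable_Pot β

theorem Pot_symm {β β' : Measure E3} (h : BM β) (h' : BM β') :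
    ∫ x, Pot β' x ∂β = ∫ x, Pot β x ∂β' := by
  have := h.isFinite
  have := h'.isFinite
  unfold Pot
  rw [integral_integral_swap (f := fun x y : E3 => ‖x - y‖⁻¹) (integrable_prod_inv h h')]
  simp only [norm_sub_rev]

section
variable {ι κ : Type} [Fintype ι] [Fintype κ]

/-- Coulomb energy of nuclei `q` in the (negative) background `β`. -/
noncomputable def JE (z : ℝ) (β : Measure E3) (q : ι → E3) : ℝ :=
  z ^ 2 * rep q - z * ∑ i, Pot β (q i) + (∫ x, Pot β x ∂β) / 2

theorem JE_reindex (z : ℝ) (β : Measure E3) (e : κ ≃ ι) (q : ι → E3) :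
    JE z β (q ∘ e) = JE z β q := by
  unfold JE
  rw [rep_reindex]
  congr 3
  exact e.sum_comp (fun i => Pot β (q i))

/-- interaction between two systems -/
noncomputable def cross (z : ℝ) (β β' : Measure E3) (q : ι → E3) (q' : κ → E3) : ℝ :=
  z ^ 2 * (∑ i, ∑ j, ‖q i - q' j‖⁻¹) - z * (∑ i, Pot β' (q i)) - z * (∑ j, Pot β (q' j)) +
    ∫ x, Pot β x ∂β'

theorem JE_add (z : ℝ) {β β' : Measure E3} (h : BM β) (h' : BM β') (q : ι → E3) (q' : κ → E3) :
    JE z (β + β') (Sum.elim q q') = JE z β q + JE z β' q' + cross z β β' q q' := by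
  have := h.isFinite
  have := h'.isFinite
  unfold JE cross
  rw [rep_sumElim, Fintype.sum_sum_type]
  simp only [Sum.elim_inl, Sum.elim_inr, Pot_add h h', Finset.sum_add_distrib]
  have e1 : ∫ x, (Pot β x + Pot β' x) ∂(β + β') =
      ∫ x, Pot β x ∂β + ∫ x, Pot β' x ∂β' + 2 * ∫ x, Pot β x ∂β' := by
    have ha : Integrable (fun x => Pot β x + Pot β' x) β :=
      (h.integrable_Pot β).add (h'.integrable_Pot β)
    have hb : Integrable (fun x => Pot β x + Pot β' x) β' :=
      (h.integrable_Pot β').add (h'.integrable_Pot β')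
    rw [integral_add_measure ha hb,
      integral_add (h.integrable_Pot β) (h'.integrable_Pot β),
      integral_add (h.integrable_Pot β') (h'.integrable_Pot β'), Pot_symm h h']
    ring
  rw [e1]
  ring

/-- rotated and translated configuration -/
noncomputable def rotc (c : E3) (g : G3) (p : κ → E3) : κ → E3 :=
  fun j => c + (g : E3 →L[ℝ] E3) (p j)

theorem rep_rotc (c : E3) (g : G3) (p : κ → E3) : rep (rotc c g p) = rep p := by
  unfold rep rotc
  simp only [add_sub_add_left_eq_sub, ← map_sub, norm_act]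

theorem JE_ball {z σ : ℝ} (hσ : 0 ≤ σ) (c : E3) {r : ℝ} (hr : 0 ≤ r) (g : G3) (p : κ → E3) :
    JE z (ubg σ c r) (rotc c g p) =
      z ^ 2 * rep p - z * (σ * ∑ j, ballPot r ‖p j‖) + σ ^ 2 * selfE r / 2 := by
  unfold JE
  rw [rep_rotc]
  simp only [Pot_ubg hσ c hr]
  rw [integral_ubg hσ]
  have e1 : ∫ x in ball c r, σ * ballPot r ‖x - c‖ = σ * selfE r := by
    rw [integral_const_mul, ← integral_selfE hr]
    congr 1
    have h := (measurePreserving_sub_right (volume : Measure E3) c).setIntegral_preimage_emb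
      (MeasurableEquiv.subRight c).measurableEmbedding (fun x => ballPot r ‖x‖) (ball 0 r)
    rw [← h]
    congr 1
    congr 1
    ext x
    simp [dist_eq_norm]
  rw [e1]
  have e2 : ∀ j, ‖rotc c g p j - c‖ = ‖p j‖ := by
    intro j
    unfold rotc
    rw [add_sub_cancel_left, norm_act]
  simp only [e2, Finset.mul_sum]
  ring

/-- average of the interaction over rotations -/
theorem integral_cross {z σ : ℝ} (hσ : 0 ≤ σ) {β : Measure E3} (hβ : BM β) (c : E3) {r : ℝ}
    (hr : 0 < r) (q : ι → E3) (hq : ∀ i, r ≤ ‖q i - c‖) (hβ0 : β (ball c r) = 0)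
    (p : κ → E3) (hp : ∀ j, p j ∈ ball (0 : E3) r) (hneut : σ * vB r = z * Fintype.card κ) :
    Integrable (fun g : G3 => cross z β (ubg σ c r) q (rotc c g p)) hG ∧
      ∫ g : G3, cross z β (ubg σ c r) q (rotc c g p) ∂hG = 0 := by
  have := hβ.isFinite
  have hpj : ∀ j, ‖p j‖ < r := fun j => mem_ball_zero_iff.1 (hp j)
  have e0 : ∀ (i : ι) (j : κ) (g : G3), ‖q i - rotc c g p j‖⁻¹ =
      ‖(q i - c) - (g : E3 →L[ℝ] E3) (p j)‖⁻¹ := by
    intro i j g; unfold rotc; rw [sub_add_eq_sub_sub]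
  have i1 : ∀ (i : ι) (j : κ), Integrable (fun g : G3 => ‖q i - rotc c g p j‖⁻¹) hG := by
    intro i j
    simp only [e0]
    exact integrable_act ((hpj j).trans_le (hq i))
  have v1 : ∀ (i : ι) (j : κ), ∫ g : G3, ‖q i - rotc c g p j‖⁻¹ ∂hG = ‖q i - c‖⁻¹ := by
    intro i j
    simp only [e0]
    exact rotF_eq ((hpj j).trans_le (hq i))
  -- the potential of the background
  have hae : ∀ᵐ x ∂β, r ≤ ‖x - c‖ := by
    rw [ae_iff]
    convert hβ0 using 2
    ext x
    simp [dist_eq_norm]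
  have hjm : ∀ j : κ, Measurable fun q : G3 × E3 => ‖rotc c q.1 p j - q.2‖⁻¹ := by
    intro j
    have h1 : Continuous fun q : G3 × E3 => rotc c q.1 p j - q.2 := by
      unfold rotc
      exact (continuous_const.add ((continuous_act (p j)).comp continuous_fst)).sub continuous_snd
    exact h1.norm.measurable.inv
  have i2 : ∀ j : κ, Integrable (fun q : G3 × E3 => ‖rotc c q.1 p j - q.2‖⁻¹) (hG.prod β) := by
    intro j
    have e3 : ∀ g : G3, Integrable (fun x : E3 => ‖rotc c g p j - x‖⁻¹) β := fun g =>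
      hβ.pot (rotc c g p j)
    obtain ⟨M, hM0, hM⟩ := hβ.Pot_le
    have e4 : Integrable (fun g : G3 => ∫ x, ‖‖rotc c g p j - x‖⁻¹‖ ∂β) hG := by
      have e5 : (fun g : G3 => ∫ x, ‖‖rotc c g p j - x‖⁻¹‖ ∂β) =
          fun g => Pot β (rotc c g p j) := by
        ext g
        unfold Pot
        congr 1
        ext x
        rw [Real.norm_eq_abs, abs_of_nonneg (by positivity)]
      rw [e5]
      refine Integrable.mono' (integrable_const M) ?_ ?_
      · have hc : Continuous fun g : G3 => rotc c g p j := by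
          unfold rotc
          exact continuous_const.add (continuous_act (p j))
        exact (hβ.measurable_Pot.comp hc.measurable).aestronglyMeasurable
      · exact Eventually.of_forall fun g => by
          rw [Real.norm_eq_abs, abs_of_nonneg (Pot_nonneg _ _)]; exact hM _
    exact (integrable_prod_iff (hjm j).aestronglyMeasurable).2 ⟨Eventually.of_forall e3, e4⟩
  have i3 : ∀ j : κ, Integrable (fun g : G3 => Pot β (rotc c g p j)) hG := by
    intro j
    exact (i2 j).integral_prod_left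
  have v3 : ∀ j : κ, ∫ g : G3, Pot β (rotc c g p j) ∂hG = Pot β c := by
    intro j
    unfold Pot
    rw [integral_integral_swap (f := fun (g : G3) (x : E3) => ‖rotc c g p j - x‖⁻¹) (i2 j)]
    apply integral_congr_ae
    filter_upwards [hae] with x hx
    have h1 : ∀ g : G3, ‖rotc c g p j - x‖⁻¹ = ‖(x - c) - (g : E3 →L[ℝ] E3) (p j)‖⁻¹ := by
      intro g; unfold rotc; rw [norm_sub_rev, sub_add_eq_sub_sub]
    simp only [h1]
    rw [norm_sub_rev c x]
    exact rotF_eq ((hpj j).trans_le hx)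
  -- the background-background term
  have v4 : ∫ x, Pot β x ∂(ubg σ c r) = σ * vB r * Pot β c := by
    rw [← Pot_symm hβ (BM_ubg σ c r)]
    have : ∫ x, Pot (ubg σ c r) x ∂β = ∫ x, σ * vB r * ‖c - x‖⁻¹ ∂β := by
      apply integral_congr_ae
      filter_upwards [hae] with x hx
      rw [Pot_ubg hσ c hr.le, ballPot_of_ge hr hx, norm_sub_rev c x, mul_assoc]
      rfl
    rw [this, integral_const_mul]
    rfl
  have v2 : ∀ i, Pot (ubg σ c r) (q i) = σ * vB r * ‖q i - c‖⁻¹ := by
    intro i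
    rw [Pot_ubg hσ c hr.le, ballPot_of_ge hr (hq i), mul_assoc]
    rfl
  have i1' : Integrable (fun g : G3 => ∑ i, ∑ j, ‖q i - rotc c g p j‖⁻¹) hG :=
    integrable_finsetSum _ fun i _ => integrable_finsetSum _ fun j _ => i1 i j
  have i3' : Integrable (fun g : G3 => ∑ j, Pot β (rotc c g p j)) hG :=
    integrable_finsetSum _ fun j _ => i3 j
  have ia : Integrable (fun g : G3 => z ^ 2 * (∑ i, ∑ j, ‖q i - rotc c g p j‖⁻¹)) hG :=
    i1'.const_mul _
  have ib : Integrable (fun g : G3 => z ^ 2 * (∑ i, ∑ j, ‖q i - rotc c g p j‖⁻¹) -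
      z * (∑ i, Pot (ubg σ c r) (q i))) hG := ia.sub (integrable_const _)
  have ic : Integrable (fun g : G3 => z ^ 2 * (∑ i, ∑ j, ‖q i - rotc c g p j‖⁻¹) -
      z * (∑ i, Pot (ubg σ c r) (q i)) - z * ∑ j, Pot β (rotc c g p j)) hG :=
    ib.sub (i3'.const_mul _)
  refine ⟨ic.add (integrable_const _), ?_⟩
  unfold cross
  rw [integral_add ic (integrable_const _), integral_sub ib (i3'.const_mul _),
    integral_sub ia (integrable_const _), integral_const_mul, integral_const_mul,
    integral_const_mul,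
    integral_finsetSum _ fun i _ => integrable_finsetSum _ fun j _ => i1 i j,
    integral_finsetSum _ fun j _ => i3 j]
  simp only [integral_finsetSum _ fun j _ => i1 _ j, v1, v3, v2, v4, integral_const,
    probReal_univ, one_smul, Finset.sum_const, Finset.card_univ, nsmul_eq_mul]
  rw [← Finset.mul_sum, hneut, ← Finset.mul_sum]
  ring

/-- Merging a neutral ball with an outside system. -/
theorem merge_ball {z σ : ℝ} (hσ : 0 ≤ σ) {β : Measure E3} (hβ : BM β) (c : E3) {r : ℝ}
    (hr : 0 < r) (q : ι → E3) (hqinj : Function.Injective q) (hq : ∀ i, r ≤ ‖q i - c‖)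
    (hβ0 : β (ball c r) = 0) (p : κ → E3) (hpinj : Function.Injective p)
    (hp : ∀ j, p j ∈ ball (0 : E3) r) (hneut : σ * vB r = z * Fintype.card κ) :
    ∃ p' : κ → E3, Function.Injective (Sum.elim q p') ∧ (∀ j, p' j ∈ ball c r) ∧
      JE z (β + ubg σ c r) (Sum.elim q p') ≤ JE z β q +
        (z ^ 2 * rep p - z * (σ * ∑ j, ballPot r ‖p j‖) + σ ^ 2 * selfE r / 2) := by
  obtain ⟨hint, h0⟩ := integral_cross hσ hβ c hr q hq hβ0 p hp hneut
  obtain ⟨g, hg⟩ := exists_le_integral hint
  rw [h0] at hg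
  have hin : ∀ j, rotc c g p j ∈ ball c r := by
    intro j
    rw [mem_ball_iff_norm]
    unfold rotc
    rw [add_sub_cancel_left, norm_act]
    exact mem_ball_zero_iff.1 (hp j)
  refine ⟨rotc c g p, ?_, hin, ?_⟩
  · rw [Sum.elim_injective]
    refine ⟨hqinj, ?_, ?_⟩
    · intro a b hab
      unfold rotc at hab
      have h1 : (g : E3 →L[ℝ] E3) (p a - p b) = 0 := by
        rw [map_sub, sub_eq_zero]; exact add_left_cancel hab
      have h2 := norm_act g (p a - p b)
      rw [h1, norm_zero] at h2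
      exact hpinj (sub_eq_zero.1 (norm_eq_zero.1 h2.symm))
    · intro i j h
      have h1 := hin j
      rw [← h, mem_ball_iff_norm] at h1
      exact absurd (hq i) (not_le.2 h1)
  · rw [JE_add z hβ (BM_ubg σ c r), JE_ball hσ c hr.le]
    linarith

end

end Pool.Agent.Lib_helper90c


end

section

/-!
# Filling a background by i.i.d. points
-/

set_option autoImplicit false

open MeasureTheory Set Metric Filter
open scoped ENNReal NNReal Topology

namespace Pool.Agent.Lib_helper90c

theorem BM.null_singleton {β : Measure E3} (h : BM β) (x : E3) : β {x} = 0 := by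
  obtain ⟨C, R, hR, hle⟩ := h
  refine le_antisymm ((hle {x}).trans ?_) zero_le
  rw [Measure.smul_apply]
  have : (volume : Measure E3).restrict (ball 0 R) {x} = 0 := by
    refine le_antisymm ((Measure.restrict_apply_le _ _).trans ?_) zero_le
    simp
  rw [this, smul_zero]

theorem goodMeas_of_BM {η : Measure E3} (hη : BM η) {Z : ℝ} (hZ : 0 < Z)
    (hm : η univ = ENNReal.ofReal Z) : GoodMeas ((ENNReal.ofReal Z)⁻¹ • η) := by
  have := hη.isFinite
  have hZ0 : ENNReal.ofReal Z ≠ 0 := (ENNReal.ofReal_pos.2 hZ).ne'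
  have hne : (ENNReal.ofReal Z)⁻¹ ≠ ∞ := ENNReal.inv_ne_top.2 hZ0
  refine ⟨⟨?_⟩, ⟨fun x => ?_⟩, fun y => ?_, ?_⟩
  · rw [Measure.smul_apply, hm, smul_eq_mul, ENNReal.inv_mul_cancel hZ0 ENNReal.ofReal_ne_top]
  · rw [Measure.smul_apply, hη.null_singleton, smul_zero]
  · have := hη.pot y
    simp only [norm_sub_rev y] at this
    exact this.smul_measure hne
  · have h1 : (fun y => ∫ x, ‖x - y‖⁻¹ ∂((ENNReal.ofReal Z)⁻¹ • η)) =
        fun y => ((ENNReal.ofReal Z)⁻¹).toReal * Pot η y := by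
      ext y
      rw [integral_smul_measure, smul_eq_mul]
      unfold Pot
      simp only [norm_sub_rev]
    rw [h1]
    exact ((hη.integrable_Pot η).const_mul _).smul_measure hne

section
variable {ι : Type} [Fintype ι]

theorem JE_zero (z : ℝ) (X : Fin 0 → E3) : JE z 0 X = 0 := by
  unfold JE rep; simp

theorem merge_iid {z : ℝ} (hz : 0 < z) {β η : Measure E3} (hβ : BM β) (hη : BM η) (m : ℕ)
    (hm : η univ = ENNReal.ofReal (z * m)) (q : ι → E3) (hqinj : Function.Injective q) :
    ∃ X : Fin m → E3, Function.Injective (Sum.elim q X) ∧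
      JE z (β + η) (Sum.elim q X) ≤ JE z β q := by
  have := hη.isFinite
  have := hβ.isFinite
  rcases Nat.eq_zero_or_pos m with h0 | hpos
  · subst h0
    have hη0 : η = 0 := by
      rw [← Measure.measure_univ_eq_zero, hm]; simp
    subst hη0
    refine ⟨Fin.elim0, ?_, ?_⟩
    · rw [Sum.elim_injective]
      exact ⟨hqinj, fun i => i.elim0, fun i j => j.elim0⟩
    · rw [JE_add z hβ hη, JE_zero]
      unfold cross Pot
      simp
  · have hm1 : (1 : ℝ) ≤ m := by exact_mod_cast hpos
    have hm0 : (0 : ℝ) < m := by linarith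
    set Z := z * (m : ℝ) with hZ
    have hZ0 : 0 < Z := by positivity
    have hgood := goodMeas_of_BM hη hZ0 hm
    set ν := (ENNReal.ofReal Z)⁻¹ • η with hν
    have hint : ∀ f : E3 → ℝ, ∫ x, f x ∂ν = Z⁻¹ * ∫ x, f x ∂η := by
      intro f
      rw [hν, integral_smul_measure, smul_eq_mul, ENNReal.toReal_inv,
        ENNReal.toReal_ofReal hZ0.le]
    have hν_int : ∀ f : E3 → ℝ, Integrable f η → Integrable f ν := fun f hf =>
      hf.smul_measure (ENNReal.inv_ne_top.2 (ENNReal.ofReal_pos.2 hZ0).ne')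
    set G : E3 → ℝ := fun x => z ^ 2 * (∑ i, ‖x - q i‖⁻¹) - z * Pot β x - z * Pot η x with hG
    have i1 : Integrable (fun x : E3 => z ^ 2 * (∑ i, ‖x - q i‖⁻¹)) ν :=
      (integrable_finsetSum _ fun i _ => hgood.pot (q i)).const_mul _
    have i2 : Integrable (fun x : E3 => z * Pot β x) ν :=
      (hν_int _ (hβ.integrable_Pot η)).const_mul _
    have i3 : Integrable (fun x : E3 => z * Pot η x) ν :=
      (hν_int _ (hη.integrable_Pot η)).const_mul _
    have i12 : Integrable (fun x : E3 => z ^ 2 * (∑ i, ‖x - q i‖⁻¹) - z * Pot β x) ν := i1.sub i2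
    have hGint : Integrable G ν := i12.sub i3
    obtain ⟨X, hXinj, -, hXS, hX⟩ := exists_iid hgood z ∅ (measure_empty) (range q)
      (finite_range q) m G hGint
    refine ⟨X, ?_, ?_⟩
    · rw [Sum.elim_injective]
      exact ⟨hqinj, hXinj, fun i j h => hXS j ⟨i, h⟩⟩
    · have hsym : ∀ y, ∫ x, ‖x - y‖⁻¹ ∂ν = Z⁻¹ * Pot η y := by
        intro y
        rw [hint]
        unfold Pot
        simp only [norm_sub_rev]
      have hA2 : ∫ y, ∫ x, ‖x - y‖⁻¹ ∂ν ∂ν = Z⁻¹ * (Z⁻¹ * ∫ x, Pot η x ∂η) := by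
        simp only [hsym]
        rw [integral_const_mul, hint]
      have hGval : ∫ x, G x ∂ν = z ^ 2 * (∑ i, Z⁻¹ * Pot η (q i)) - z * (Z⁻¹ * ∫ x, Pot β x ∂η) -
          z * (Z⁻¹ * ∫ x, Pot η x ∂η) := by
        rw [hG, integral_sub i12 i3, integral_sub i1 i2, integral_const_mul, integral_const_mul,
          integral_const_mul, integral_finsetSum _ fun i _ => hgood.pot (q i), hint, hint]
        simp only [hsym]
      rw [hA2, hGval] at hX
      rw [JE_add z hβ hη]
      unfold cross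
      have hJ : JE z η X = z ^ 2 * rep X - z * (∑ j, Pot η (X j)) + (∫ x, Pot η x ∂η) / 2 := rfl
      rw [hJ]
      have hsum : ∑ j, G (X j) = z ^ 2 * (∑ i, ∑ j, ‖q i - X j‖⁻¹) - z * (∑ j, Pot β (X j)) -
          z * (∑ j, Pot η (X j)) := by
        simp only [hG, Finset.sum_sub_distrib, ← Finset.mul_sum]
        rw [Finset.sum_comm]
        simp only [norm_sub_rev]
      rw [hsum] at hX
      have hD : 0 ≤ ∫ x, Pot η x ∂η := integral_nonneg fun x => Pot_nonneg _ _
      set D := ∫ x, Pot η x ∂η with hDdef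
      have e1 : (m : ℝ) * (z ^ 2 * (∑ i, Z⁻¹ * Pot η (q i)) - z * (Z⁻¹ * ∫ x, Pot β x ∂η) -
          z * (Z⁻¹ * D)) = z * (∑ i, Pot η (q i)) - (∫ x, Pot β x ∂η) - D := by
        rw [← Finset.mul_sum, hZ]
        field_simp
      have e2 : (m : ℝ) * ((m : ℝ) - 1) / 2 * z ^ 2 * (Z⁻¹ * (Z⁻¹ * D)) =
          D / 2 - D / (2 * m) := by
        rw [hZ]; field_simp
      rw [e1, e2] at hX
      have e3 : 0 ≤ D / (2 * m) := by positivity
      linarith

end

end Pool.Agent.Lib_helper90c


end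

section

/-!
# Packing the support of a continuous density by balls
-/

set_option autoImplicit false

open MeasureTheory Set Metric Filter
open scoped ENNReal NNReal Topology

namespace Pool.Agent.Lib_helper90c

theorem integrable_rpow_of_compact {μ : E3 → ℝ} (hc : Continuous μ) (_h0 : ∀ x, 0 ≤ μ x)
    (hs : HasCompactSupport μ) {p : ℝ} (hp : 0 < p) : Integrable (fun x => μ x ^ p) := by
  apply Continuous.integrable_of_hasCompactSupport
  · exact hc.rpow_const (fun x => Or.inr hp.le)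
  · have : (fun x => μ x ^ p) = (fun t : ℝ => t ^ p) ∘ μ := rfl
    rw [this]
    exact hs.comp_left (Real.zero_rpow hp.ne')

theorem volume_closedBall_eq (c : E3) {r : ℝ} (hr : 0 ≤ r) :
    volume (closedBall c r) = ENNReal.ofReal (vB r) := by
  rw [Measure.addHaar_closedBall_eq_addHaar_ball, volume_ball_eq c hr]

theorem packing {μ : E3 → ℝ} (hc : Continuous μ) (h0 : ∀ x, 0 ≤ μ x)
    (hs : HasCompactSupport μ) {ε : ℝ} (hε : 0 < ε) :
    ∃ (s : Finset E3) (r a : E3 → ℝ), (∀ x ∈ s, 0 < r x) ∧ (∀ x ∈ s, 0 < a x) ∧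
      (∀ x ∈ s, ∀ y ∈ closedBall x (r x), a x ≤ μ y) ∧
      (s : Set E3).PairwiseDisjoint (fun x => closedBall x (r x)) ∧
      (∫ x, μ x ^ (4 / 3 : ℝ)) - ε ≤ ∑ x ∈ s, a x ^ (4 / 3 : ℝ) * vB (r x) := by
  set G := ∫ x, μ x ^ (4 / 3 : ℝ) with hG
  have hG0 : 0 ≤ G := integral_nonneg fun x => Real.rpow_nonneg (h0 x) _
  have hint := integrable_rpow_of_compact hc h0 hs (p := 4 / 3) (by norm_num)
  -- choice of `δ`
  obtain ⟨δ, hδ0, hδ1, hδ⟩ : ∃ δ : ℝ, 0 < δ ∧ δ < 1 ∧
      G - ε < ((1 - δ) / (1 + δ)) ^ (4 / 3 : ℝ) * G := by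
    have h1 : Tendsto (fun δ : ℝ => ((1 - δ) / (1 + δ)) ^ (4 / 3 : ℝ) * G) (𝓝[>] 0)
        (𝓝 (((1 - 0) / (1 + 0)) ^ (4 / 3 : ℝ) * G)) := by
      have hca : ContinuousAt (fun δ : ℝ => ((1 - δ) / (1 + δ)) ^ (4 / 3 : ℝ) * G) 0 := by
        apply ContinuousAt.mul _ continuousAt_const
        apply ContinuousAt.rpow_const _ (Or.inr (by norm_num))
        apply ContinuousAt.div (by fun_prop) (by fun_prop) (by norm_num)
      exact hca.tendsto.mono_left nhdsWithin_le_nhds
    have h2 := h1.eventually (lt_mem_nhds (show G - ε <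
      ((1 - 0) / (1 + 0)) ^ (4 / 3 : ℝ) * G by norm_num; exact hε))
    obtain ⟨δ, hδ, hδ'⟩ := (h2.and (Ioo_mem_nhdsGT (show (0 : ℝ) < 1 by norm_num))).exists
    exact ⟨δ, hδ'.1, hδ'.2, hδ⟩
  set Ω : Set E3 := {x | 0 < μ x} with hΩ
  have hR : ∀ x ∈ Ω, ∃ R : ℝ, 0 < R ∧ ∀ y ∈ closedBall x R, (1 - δ) * μ x ≤ μ y ∧
      μ y ≤ (1 + δ) * μ x := by
    intro x hx
    have hx0 : 0 < μ x := hx
    have h1 : ∀ᶠ y in 𝓝 x, (1 - δ) * μ x < μ y :=
      hc.continuousAt.eventually (lt_mem_nhds (by nlinarith))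
    have h2 : ∀ᶠ y in 𝓝 x, μ y < (1 + δ) * μ x :=
      hc.continuousAt.eventually (gt_mem_nhds (by nlinarith))
    obtain ⟨R, hR, hball⟩ := Metric.eventually_nhds_iff.1 (h1.and h2)
    refine ⟨R / 2, by linarith, fun y hy => ?_⟩
    have h3 := hball (y := y) (lt_of_le_of_lt (mem_closedBall.1 hy) (by linarith))
    exact ⟨h3.1.le, h3.2.le⟩
  choose! R hR0 hRb using hR
  obtain ⟨t, r, htc, hts, hr, hcov, hdisj⟩ := Besicovitch.exists_disjoint_closedBall_covering_ae
    (volume : Measure E3) (fun _ => univ) Ω (fun x _ δ hδ => ⟨δ / 2, by simp; linarith⟩) R hR0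
  have hr0 : ∀ x ∈ t, 0 < r x := fun x hx => (hr x hx).2.1
  have hrb : ∀ x ∈ t, ∀ y ∈ closedBall x (r x), (1 - δ) * μ x ≤ μ y ∧ μ y ≤ (1 + δ) * μ x :=
    fun x hx y hy => hRb x (hts hx) y (closedBall_subset_closedBall (hr x hx).2.2.le hy)
  set a : E3 → ℝ := fun x => (1 - δ) * μ x with ha
  set q : ℝ := ((1 + δ) / (1 - δ)) ^ (4 / 3 : ℝ) with hq
  have h1δ : 0 < 1 - δ := by linarith
  have hq0 : 0 < q := by positivity
  -- the integral is controlled by the sum
  have hmain : ENNReal.ofReal G ≤ ENNReal.ofReal q *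
      ∑' x : t, ENNReal.ofReal (a x ^ (4 / 3 : ℝ) * vB (r x)) := by
    rw [hG, ofReal_integral_eq_lintegral_ofReal hint
      (Eventually.of_forall fun x => Real.rpow_nonneg (h0 x) _)]
    have hsupp : ∫⁻ x, ENNReal.ofReal (μ x ^ (4 / 3 : ℝ)) =
        ∫⁻ x in Ω, ENNReal.ofReal (μ x ^ (4 / 3 : ℝ)) := by
      rw [setLIntegral_eq_of_support_subset]
      intro x hx
      by_contra h
      apply hx
      have : μ x = 0 := le_antisymm (not_lt.1 h) (h0 x)
      simp [this]
    rw [hsupp]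
    calc ∫⁻ x in Ω, ENNReal.ofReal (μ x ^ (4 / 3 : ℝ))
        ≤ ∫⁻ x in (⋃ x ∈ t, closedBall x (r x)), ENNReal.ofReal (μ x ^ (4 / 3 : ℝ)) := by
          apply lintegral_mono_set'
          rw [ae_le_set]
          exact hcov
      _ = ∑' x : t, ∫⁻ y in closedBall (x : E3) (r x), ENNReal.ofReal (μ y ^ (4 / 3 : ℝ)) := by
          rw [lintegral_biUnion htc (fun x _ => measurableSet_closedBall) hdisj]
      _ ≤ ∑' x : t, ENNReal.ofReal q * ENNReal.ofReal (a x ^ (4 / 3 : ℝ) * vB (r x)) := by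
          apply ENNReal.tsum_le_tsum
          intro x
          have hx0 : 0 < μ x := hts x.2
          have e1 : ((1 + δ) * μ x) ^ (4 / 3 : ℝ) = q * a x ^ (4 / 3 : ℝ) := by
            rw [hq, ha, ← Real.mul_rpow (by positivity) (by positivity)]
            congr 1
            field_simp
          calc ∫⁻ y in closedBall (x : E3) (r x), ENNReal.ofReal (μ y ^ (4 / 3 : ℝ))
              ≤ ∫⁻ _y in closedBall (x : E3) (r x), ENNReal.ofReal (q * a x ^ (4 / 3 : ℝ)) := by
                apply setLIntegral_mono' measurableSet_closedBall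
                intro y hy
                apply ENNReal.ofReal_le_ofReal
                rw [← e1]
                exact Real.rpow_le_rpow (h0 y) (hrb x x.2 y hy).2 (by norm_num)
            _ = ENNReal.ofReal q * ENNReal.ofReal (a x ^ (4 / 3 : ℝ) * vB (r x)) := by
                rw [setLIntegral_const, volume_closedBall_eq _ (hr0 x x.2).le,
                  ← ENNReal.ofReal_mul (by positivity), ← ENNReal.ofReal_mul hq0.le]
                congr 1; ring
      _ = _ := ENNReal.tsum_mul_left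
  -- extract a finite family
  by_cases hneg : G - ε < 0
  · exact ⟨∅, r, a, by simp, by simp, by simp, by simp, by simp; linarith⟩
  · push Not at hneg
    have hlt : ENNReal.ofReal (G - ε) <
        ∑' x : t, ENNReal.ofReal (a x ^ (4 / 3 : ℝ) * vB (r x)) := by
      by_contra hcon
      push Not at hcon
      have h3 : ENNReal.ofReal G ≤ ENNReal.ofReal (q * (G - ε)) := by
        rw [ENNReal.ofReal_mul hq0.le]
        exact hmain.trans (by gcongr)
      rw [ENNReal.ofReal_le_ofReal_iff (mul_nonneg hq0.le hneg)] at h3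
      have h4 : q * (G - ε) < q * (((1 - δ) / (1 + δ)) ^ (4 / 3 : ℝ) * G) :=
        mul_lt_mul_of_pos_left hδ hq0
      have h5 : q * (((1 - δ) / (1 + δ)) ^ (4 / 3 : ℝ) * G) = G := by
        rw [hq, ← mul_assoc, ← Real.mul_rpow (by positivity) (by positivity)]
        have : (1 + δ) / (1 - δ) * ((1 - δ) / (1 + δ)) = 1 := by
          field_simp
        rw [this, Real.one_rpow, one_mul]
      linarith
    rw [ENNReal.tsum_eq_iSup_sum, lt_iSup_iff] at hlt
    obtain ⟨u, hu⟩ := hlt
    classical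
    refine ⟨u.map (Function.Embedding.subtype _), r, a, ?_, ?_, ?_, ?_, ?_⟩
    · intro x hx
      simp only [Finset.mem_map, Function.Embedding.subtype_apply] at hx
      obtain ⟨y, -, rfl⟩ := hx
      exact hr0 y y.2
    · intro x hx
      simp only [Finset.mem_map, Function.Embedding.subtype_apply] at hx
      obtain ⟨y, -, rfl⟩ := hx
      exact mul_pos h1δ (hts y.2)
    · intro x hx
      simp only [Finset.mem_map, Function.Embedding.subtype_apply] at hx
      obtain ⟨y, -, rfl⟩ := hx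
      intro w hw
      exact (hrb y y.2 w hw).1
    · intro x hx y hy hxy
      simp only [Finset.coe_map, Set.mem_image, Finset.mem_coe,
        Function.Embedding.subtype_apply] at hx hy
      obtain ⟨x', -, rfl⟩ := hx
      obtain ⟨y', -, rfl⟩ := hy
      exact hdisj x'.2 y'.2 hxy
    · rw [Finset.sum_map]
      simp only [Function.Embedding.subtype_apply]
      have hnn : ∀ x ∈ u, 0 ≤ a x ^ (4 / 3 : ℝ) * vB (r x) := fun x _ =>
        mul_nonneg (Real.rpow_nonneg (mul_pos h1δ (hts x.2)).le _) (vB_nonneg (hr0 x x.2).le)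
      rw [← ENNReal.ofReal_sum_of_nonneg hnn,
        ENNReal.ofReal_lt_ofReal_iff_of_nonneg hneg] at hu
      exact hu.le

end Pool.Agent.Lib_helper90c


end

section

/-!
# Upper bound for the energy of nuclei in a given background
-/

set_option autoImplicit false

open MeasureTheory Set Metric Filter
open scoped ENNReal NNReal Topology

namespace Pool.Agent.Lib_helper90c

/-- near optimal configuration in a ball with uniform background -/
theorem scaled_canonical {z ε : ℝ} (hz : 0 < z) {n : ℕ} (hn : 0 < n) (p0 : Fin n → E3)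
    (hinj : Function.Injective p0) (hp0 : ∀ i, p0 i ∈ ball (0 : E3) (nR z n))
    (hj : jel z (nR z n) p0 ≤ (estar z + ε) * (z * n)) {r : ℝ} (hr : 0 < r) :
    ∃ p : Fin n → E3, Function.Injective p ∧ (∀ i, p i ∈ ball (0 : E3) r) ∧
      z ^ 2 * rep p - z * ((z * n / vB r) * ∑ j, ballPot r ‖p j‖) +
        (z * n / vB r) ^ 2 * selfE r / 2 ≤
        (estar z + ε) * ((z * n / vB r) ^ (4 / 3 : ℝ) * vB r) := by
  have hR := nR_pos hz hn
  set R := nR z n with hRdef
  have hvR : vB R = z * n := vB_nR hz n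
  set s := r / R with hs
  have hs0 : 0 < s := by positivity
  have hsr : s * R = r := by rw [hs]; field_simp
  have hvr : vB r = s ^ 3 * (z * n) := by rw [← hvR, ← hsr]; unfold vB; ring
  have hn0 : (0 : ℝ) < n := by exact_mod_cast hn
  have hσ : z * n / vB r = (s ^ 3)⁻¹ := by rw [hvr]; field_simp
  refine ⟨fun i => s • p0 i, ?_, ?_, ?_⟩
  · intro i j h
    exact hinj (smul_right_injective E3 hs0.ne' h)
  · intro i
    have h1 := mem_ball_zero_iff.1 (hp0 i)
    rw [mem_ball_zero_iff, norm_smul, Real.norm_eq_abs, abs_of_pos hs0, ← hsr]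
    exact mul_lt_mul_of_pos_left h1 hs0
  · rw [hσ, rep_smul p0 hs0]
    have e1 : ∀ j, ballPot r ‖s • p0 j‖ = s ^ 2 * ballPot R ‖p0 j‖ := by
      intro j
      rw [norm_smul, Real.norm_eq_abs, abs_of_pos hs0, ← hsr, ballPot_scale hs0]
    simp only [e1, ← Finset.mul_sum]
    have e2 : selfE r = s ^ 5 * selfE R := by rw [← hsr]; unfold selfE; ring
    rw [e2]
    have e3 : z ^ 2 * (s⁻¹ * rep p0) - z * ((s ^ 3)⁻¹ * (s ^ 2 * ∑ j, ballPot R ‖p0 j‖)) +
        ((s ^ 3)⁻¹) ^ 2 * (s ^ 5 * selfE R) / 2 = s⁻¹ * jel z R p0 := by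
      unfold jel
      field_simp
    rw [e3]
    have e4 : ((s ^ 3)⁻¹) ^ (4 / 3 : ℝ) = (s ^ 4)⁻¹ := by
      rw [← inv_pow, ← inv_pow, ← Real.rpow_natCast, ← Real.rpow_mul (by positivity),
        ← Real.rpow_natCast]
      norm_num
    rw [e4, hvr]
    have e5 : (estar z + ε) * ((s ^ 4)⁻¹ * (s ^ 3 * (z * n))) =
        s⁻¹ * ((estar z + ε) * (z * n)) := by
      field_simp
    rw [e5]
    exact mul_le_mul_of_nonneg_left hj (by positivity)

theorem BM_finsetSum {α : Type*} (s : Finset α) (β : α → Measure E3) (h : ∀ x ∈ s, BM (β x)) :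
    BM (∑ x ∈ s, β x) := by
  classical
  induction s using Finset.induction_on with
  | empty => simpa using BM_zero
  | insert a s ha ih =>
    rw [Finset.sum_insert ha]
    exact (h a (Finset.mem_insert_self _ _)).add
      (ih fun x hx => h x (Finset.mem_insert_of_mem hx))

/-- successive filling of disjoint balls -/
theorem fill_balls {z ε : ℝ} (hz : 0 < z) {n0 : ℕ}
    (hcan : ∀ n, n0 ≤ n → ∃ p : Fin n → E3, Function.Injective p ∧
      (∀ i, p i ∈ ball (0 : E3) (nR z n)) ∧ jel z (nR z n) p ≤ (estar z + ε) * (z * n))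
    (s : Finset E3) (r : E3 → ℝ) (n : E3 → ℕ) (hr : ∀ x ∈ s, 0 < r x)
    (hn : ∀ x ∈ s, n0 ≤ n x) (hn1 : ∀ x ∈ s, 0 < n x)
    (hdisj : (s : Set E3).PairwiseDisjoint (fun x => closedBall x (r x))) :
    ∃ q : Fin (∑ x ∈ s, n x) → E3, Function.Injective q ∧
      (∀ i, ∃ x ∈ s, q i ∈ ball x (r x)) ∧
      JE z (∑ x ∈ s, ubg (z * n x / vB (r x)) x (r x)) q ≤
        ∑ x ∈ s, (estar z + ε) * ((z * n x / vB (r x)) ^ (4 / 3 : ℝ) * vB (r x)) := by
  classical
  induction s using Finset.induction_on with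
  | empty =>
    refine ⟨fun i => 0, ?_, ?_, ?_⟩
    · intro i; exact absurd i.2 (by simp)
    · intro i; exact absurd i.2 (by simp)
    · unfold JE rep Pot
      simp
  | insert c s hc ih =>
    obtain ⟨q, hqinj, hq, hJ⟩ := ih (fun x hx => hr x (Finset.mem_insert_of_mem hx))
      (fun x hx => hn x (Finset.mem_insert_of_mem hx))
      (fun x hx => hn1 x (Finset.mem_insert_of_mem hx))
      (hdisj.subset (by simp))
    set β := ∑ x ∈ s, ubg (z * n x / vB (r x)) x (r x) with hβ
    have hBM : BM β := BM_finsetSum _ _ fun x _ => BM_ubg _ _ _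
    have hrc := hr c (Finset.mem_insert_self _ _)
    have hnc := hn1 c (Finset.mem_insert_self _ _)
    have hdc : ∀ x ∈ s, Disjoint (closedBall x (r x)) (closedBall c (r c)) := by
      intro x hx
      exact hdisj (by simp [hx]) (by simp) (fun h => hc (h ▸ hx))
    have hqc : ∀ i, r c ≤ ‖q i - c‖ := by
      intro i
      obtain ⟨x, hx, hqx⟩ := hq i
      by_contra hcon
      push Not at hcon
      have h1 : q i ∈ closedBall c (r c) := by
        rw [mem_closedBall, dist_eq_norm]; exact hcon.le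
      exact (Set.disjoint_left.1 (hdc x hx)) (ball_subset_closedBall hqx) h1
    have hβ0 : β (ball c (r c)) = 0 := by
      rw [hβ, Measure.finsetSum_apply]
      apply Finset.sum_eq_zero
      intro x hx
      unfold ubg
      rw [Measure.smul_apply, Measure.restrict_apply measurableSet_ball]
      have : ball c (r c) ∩ ball x (r x) = ∅ := by
        rw [← disjoint_iff_inter_eq_empty]
        exact ((hdc x hx).symm).mono ball_subset_closedBall ball_subset_closedBall
      rw [this, measure_empty, smul_zero]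
    obtain ⟨p0, hp0inj, hp0, hp0j⟩ := hcan (n c) (hn c (Finset.mem_insert_self _ _))
    obtain ⟨p, hpinj, hp, hpj⟩ := scaled_canonical hz hnc p0 hp0inj hp0 hp0j hrc
    have hσ : 0 ≤ z * n c / vB (r c) := by
      have := vB_pos hrc
      positivity
    obtain ⟨p', hinj', hp', hJ'⟩ := merge_ball hσ hBM c hrc q hqinj hqc hβ0 p hpinj hp
      (by rw [Fintype.card_fin]; have := (vB_pos hrc).ne'; field_simp)
    have hcard : Fintype.card (Fin (∑ x ∈ insert c s, n x)) =
        Fintype.card (Fin (∑ x ∈ s, n x) ⊕ Fin (n c)) := by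
      rw [Finset.sum_insert hc]; simp [add_comm]
    have eq := Fintype.equivOfCardEq hcard
    refine ⟨Sum.elim q p' ∘ eq, hinj'.comp eq.injective, ?_, ?_⟩
    · intro i
      have : ∀ w, ∃ x ∈ insert c s, Sum.elim q p' w ∈ ball x (r x) := by
        rintro (w | w)
        · obtain ⟨x, hx, h⟩ := hq w
          exact ⟨x, Finset.mem_insert_of_mem hx, h⟩
        · exact ⟨c, Finset.mem_insert_self _ _, hp' w⟩
      exact this (eq i)
    · rw [JE_reindex, Finset.sum_insert hc, Finset.sum_insert hc, add_comm (ubg _ _ _)]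
      linarith

/-- background with density `N μ` -/
noncomputable def bg (N : ℝ) (μ : E3 → ℝ) : Measure E3 :=
  (volume : Measure E3).withDensity fun x => ENNReal.ofReal (N * μ x)

theorem BM_bg {μ : E3 → ℝ} (hc : Continuous μ) (hs : HasCompactSupport μ) (N : ℝ) :
    BM (bg N μ) := by
  obtain ⟨R, hR⟩ := hs.isBounded.subset_ball (0 : E3)
  have hR' : tsupport μ ⊆ ball 0 |R| := hR.trans (ball_subset_ball (le_abs_self R))
  obtain ⟨C, hC⟩ := hc.bounded_above_of_compact_support hs
  have hC0 : 0 ≤ C := (norm_nonneg _).trans (hC 0)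
  refine ⟨(|N| * C).toNNReal, |R|, abs_nonneg R, ?_⟩
  refine Measure.le_intro fun s hs' _ => ?_
  unfold bg
  rw [withDensity_apply _ hs', Measure.smul_apply, Measure.restrict_apply hs', smul_eq_mul,
    ← setLIntegral_const]
  have h1 : ∫⁻ x in s, ENNReal.ofReal (N * μ x) =
      ∫⁻ x in s ∩ ball 0 |R|, ENNReal.ofReal (N * μ x) := by
    rw [← Measure.restrict_restrict_of_subset inter_subset_left, eq_comm]
    have h2 : (volume.restrict s).restrict (s ∩ ball (0 : E3) |R|) =
        (volume.restrict s).restrict (ball (0 : E3) |R|) := by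
      rw [Measure.restrict_restrict (hs'.inter measurableSet_ball),
        Measure.restrict_restrict measurableSet_ball, inter_comm (ball (0 : E3) |R|) s,
        inter_assoc, inter_comm (ball (0 : E3) |R|) s, ← inter_assoc, inter_self]
    rw [h2]
    apply setLIntegral_eq_of_support_subset
    intro x hx
    by_contra hn
    apply hx
    have : μ x = 0 := by
      by_contra h
      exact hn (hR' (subset_tsupport μ h))
    simp [this]
  rw [h1]
  apply lintegral_mono
  intro x
  show ENNReal.ofReal (N * μ x) ≤ ENNReal.ofReal (|N| * C)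
  apply ENNReal.ofReal_le_ofReal
  calc N * μ x ≤ |N * μ x| := le_abs_self _
    _ = |N| * |μ x| := abs_mul _ _
    _ ≤ |N| * C := mul_le_mul_of_nonneg_left (hC x) (abs_nonneg _)

theorem bg_univ {μ : E3 → ℝ} (hc : Continuous μ) (h0 : ∀ x, 0 ≤ μ x) (hs : HasCompactSupport μ)
    (h1 : ∫ x, μ x = 1) {N : ℝ} (hN : 0 ≤ N) : bg N μ univ = ENNReal.ofReal N := by
  unfold bg
  rw [withDensity_apply _ MeasurableSet.univ, Measure.restrict_univ,
    ← ofReal_integral_eq_lintegral_ofReal
      ((hc.integrable_of_hasCompactSupport hs).const_mul N)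
      (Eventually.of_forall fun x => mul_nonneg hN (h0 x)), integral_const_mul, h1, mul_one]

theorem sum_ubg_le_bg {μ : E3 → ℝ} {N : ℝ} (s : Finset E3) (r σ : E3 → ℝ)
    (hdisj : (s : Set E3).PairwiseDisjoint (fun x => closedBall x (r x)))
    (hσ : ∀ x ∈ s, ∀ y ∈ closedBall x (r x), σ x ≤ N * μ y) :
    ∑ x ∈ s, ubg (σ x) x (r x) ≤ bg N μ := by
  refine Measure.le_intro fun A hA _ => ?_
  rw [Measure.finsetSum_apply]
  unfold bg ubg
  rw [withDensity_apply _ hA]
  have hd : (s : Set E3).PairwiseDisjoint (fun x => A ∩ ball x (r x)) := by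
    intro x hx y hy hxy
    exact (hdisj hx hy hxy).mono (inter_subset_right.trans ball_subset_closedBall)
      (inter_subset_right.trans ball_subset_closedBall)
  calc ∑ x ∈ s, (ENNReal.ofReal (σ x) • (volume : Measure E3).restrict (ball x (r x))) A
      ≤ ∑ x ∈ s, ∫⁻ y in A ∩ ball x (r x), ENNReal.ofReal (N * μ y) := by
        apply Finset.sum_le_sum
        intro x hx
        rw [Measure.smul_apply, Measure.restrict_apply hA, smul_eq_mul, ← setLIntegral_const]
        apply setLIntegral_mono' (hA.inter measurableSet_ball)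
        intro y hy
        exact ENNReal.ofReal_le_ofReal (hσ x hx y (ball_subset_closedBall hy.2))
    _ = ∫⁻ y in ⋃ x ∈ s, (A ∩ ball x (r x)), ENNReal.ofReal (N * μ y) :=
        (lintegral_biUnion_finset hd (fun x _ => hA.inter measurableSet_ball) _).symm
    _ ≤ ∫⁻ y in A, ENNReal.ofReal (N * μ y) := by
        apply lintegral_mono_set
        simp

/-- Upper bound for the energy of the nuclei in the background `N μ`. -/
theorem upper_J {z : ℝ} (hz : 0 < z) {μ : E3 → ℝ} (hc : Continuous μ) (h0 : ∀ x, 0 ≤ μ x)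
    (hs : HasCompactSupport μ) (h1 : ∫ x, μ x = 1) {ε : ℝ} (hε : 0 < ε) :
    ∃ N0 : ℝ, 0 < N0 ∧ ∀ N : ℝ, N0 ≤ N → ∀ K : ℕ, z * K = N →
      ∃ q : Fin K → E3, Function.Injective q ∧
        JE z (bg N μ) q ≤ N ^ (4 / 3 : ℝ) * (estar z * (∫ x, μ x ^ (4 / 3 : ℝ)) + ε) := by
  set e := estar z with hedef
  have he : e ≤ 0 := estar_nonpos hz
  set G := ∫ x, μ x ^ (4 / 3 : ℝ) with hG
  have hG0 : 0 ≤ G := integral_nonneg fun x => Real.rpow_nonneg (h0 x) _
  set ε1 := ε / (4 * (-e + 1)) with hε1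
  have hε10 : 0 < ε1 := by
    have : 0 < -e + 1 := by linarith
    positivity
  obtain ⟨s, r, a, hr, ha, hab, hdisj, hsum⟩ := packing hc h0 hs hε10
  set S := ∑ x ∈ s, a x ^ (4 / 3 : ℝ) * vB (r x) with hS
  have hS0 : 0 ≤ S := Finset.sum_nonneg fun x hx =>
    mul_nonneg (Real.rpow_nonneg (ha x hx).le _) (vB_nonneg (hr x hx).le)
  set ε2 := ε / (4 * (S + 1)) with hε2
  have hε20 : 0 < ε2 := by positivity
  obtain ⟨n0, hcan⟩ := exists_canonical hz hε20
  -- the numbers of nuclei
  set nn : ℝ → E3 → ℕ := fun N x => ⌊(a x * vB (r x) / z) * N⌋₊ with hnn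
  set σ : ℝ → E3 → ℝ := fun N x => z * nn N x / vB (r x) with hσ
  have hcoef : ∀ x ∈ s, 0 < a x * vB (r x) / z := fun x hx =>
    div_pos (mul_pos (ha x hx) (vB_pos (hr x hx))) hz
  have hσle : ∀ N, 0 ≤ N → ∀ x ∈ s, σ N x ≤ N * a x := by
    intro N hN x hx
    have hv := vB_pos (hr x hx)
    simp only [hσ, hnn]
    rw [div_le_iff₀ hv]
    have h2 := Nat.floor_le (mul_nonneg (hcoef x hx).le hN)
    calc z * (⌊(a x * vB (r x) / z) * N⌋₊ : ℝ) ≤ z * ((a x * vB (r x) / z) * N) :=
          mul_le_mul_of_nonneg_left h2 hz.le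
      _ = N * a x * vB (r x) := by field_simp
  have hσ0 : ∀ N, ∀ x ∈ s, 0 ≤ σ N x := by
    intro N x hx
    have hv := vB_pos (hr x hx)
    simp only [hσ]; positivity
  -- the limit of the sum
  have hlim : Tendsto (fun N : ℝ => ∑ x ∈ s, (σ N x / N) ^ (4 / 3 : ℝ) * vB (r x)) atTop
      (𝓝 S) := by
    apply tendsto_finsetSum
    intro x hx
    apply Tendsto.mul_const
    have hv := vB_pos (hr x hx)
    have h2 := (tendsto_nat_floor_mul_div_atTop (R := ℝ) (hcoef x hx).le).const_mul (z / vB (r x))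
    have h3 : z / vB (r x) * (a x * vB (r x) / z) = a x := by field_simp
    rw [h3] at h2
    have h4 : Tendsto (fun N : ℝ => σ N x / N) atTop (𝓝 (a x)) := by
      refine h2.congr fun N => ?_
      simp only [hσ, hnn]
      ring
    exact h4.rpow_const (Or.inl (ha x hx).ne')
  have hev1 := hlim.eventually (lt_mem_nhds (show S - ε1 < S by linarith))
  have hev2 : ∀ᶠ N : ℝ in atTop, ∀ x ∈ s, max n0 1 ≤ nn N x := by
    rw [Filter.eventually_all_finset]
    intro x hx
    have h2 : Tendsto (fun N : ℝ => (a x * vB (r x) / z) * N) atTop atTop :=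
      tendsto_id.const_mul_atTop (hcoef x hx)
    exact (tendsto_nat_floor_atTop.comp h2).eventually_ge_atTop _
  obtain ⟨N1, hN1⟩ := Filter.eventually_atTop.1 (hev1.and hev2)
  refine ⟨max N1 1, by positivity, fun N hN K hK => ?_⟩
  have hN0 : 0 < N := lt_of_lt_of_le one_pos ((le_max_right _ _).trans hN)
  obtain ⟨hSN, hnN⟩ := hN1 N ((le_max_left _ _).trans hN)
  obtain ⟨q, hqinj, hq, hJ⟩ := fill_balls hz hcan s r (nn N) hr
    (fun x hx => (le_max_left _ _).trans (hnN x hx))
    (fun x hx => lt_of_lt_of_le one_pos ((le_max_right _ _).trans (hnN x hx))) hdisj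
  set β := ∑ x ∈ s, ubg (z * nn N x / vB (r x)) x (r x) with hβ
  have hBMβ : BM β := BM_finsetSum _ _ fun x _ => BM_ubg _ _ _
  have := hBMβ.isFinite
  have hle : β ≤ bg N μ := by
    apply sum_ubg_le_bg s r (σ N) hdisj
    intro x hx y hy
    refine (hσle N hN0.le x hx).trans ?_
    exact mul_le_mul_of_nonneg_left (hab x hx y hy) hN0.le
  have hBMbg := BM_bg hc hs N
  have := hBMbg.isFinite
  set η := bg N μ - β with hη
  have hηle : η ≤ bg N μ := Measure.sub_le
  have hBMη : BM η := hBMbg.mono hηle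
  have hsumη : β + η = bg N μ := by rw [add_comm]; exact Measure.sub_add_cancel_of_le hle
  -- masses
  have hβuniv : β univ = ENNReal.ofReal (z * ((∑ x ∈ s, nn N x : ℕ) : ℝ)) := by
    rw [hβ, Measure.finsetSum_apply]
    have h2 : ∀ x ∈ s, ubg (z * nn N x / vB (r x)) x (r x) univ =
        ENNReal.ofReal (z * nn N x) := by
      intro x hx
      have hv := vB_pos (hr x hx)
      unfold ubg
      rw [Measure.smul_apply, Measure.restrict_apply_univ, volume_ball_eq _ (hr x hx).le,
        smul_eq_mul, ← ENNReal.ofReal_mul (by positivity)]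
      congr 1
      field_simp
    rw [Finset.sum_congr rfl h2, ← ENNReal.ofReal_sum_of_nonneg (fun x _ => by positivity)]
    congr 1
    push_cast
    rw [Finset.mul_sum]
  have hbguniv : bg N μ univ = ENNReal.ofReal N := bg_univ hc h0 hs h1 hN0.le
  have hKle : (∑ x ∈ s, nn N x) ≤ K := by
    have h2 := hle univ
    rw [hβuniv, hbguniv, ENNReal.ofReal_le_ofReal_iff hN0.le] at h2
    have h3 := le_of_mul_le_mul_left (h2.trans (le_of_eq hK.symm)) hz
    exact_mod_cast h3
  obtain ⟨m, hm⟩ := Nat.exists_eq_add_of_le hKle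
  have hηuniv : η univ = ENNReal.ofReal (z * m) := by
    rw [hη, Measure.sub_apply MeasurableSet.univ hle, hβuniv, hbguniv,
      ← ENNReal.ofReal_sub _ (by positivity)]
    congr 1
    have h2 : (K : ℝ) = ((∑ x ∈ s, nn N x : ℕ) : ℝ) + m := by exact_mod_cast hm
    have h3 : N = z * ((∑ x ∈ s, nn N x : ℕ) : ℝ) + z * m := by rw [← mul_add, ← h2, hK]
    linarith
  obtain ⟨X, hXinj, hXJ⟩ := merge_iid hz hBMβ hBMη m hηuniv q hqinj
  rw [hsumη] at hXJ
  have hcard : Fintype.card (Fin K) = Fintype.card (Fin (∑ x ∈ s, nn N x) ⊕ Fin m) := by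
    rw [hm]; simp
  have eq := Fintype.equivOfCardEq hcard
  refine ⟨Sum.elim q X ∘ eq, hXinj.comp eq.injective, ?_⟩
  rw [JE_reindex]
  refine hXJ.trans (hJ.trans ?_)
  -- final estimate
  have e1 : ∑ x ∈ s, (e + ε2) * ((z * nn N x / vB (r x)) ^ (4 / 3 : ℝ) * vB (r x)) =
      N ^ (4 / 3 : ℝ) * ((e + ε2) * ∑ x ∈ s, (σ N x / N) ^ (4 / 3 : ℝ) * vB (r x)) := by
    rw [← Finset.mul_sum, mul_left_comm]
    congr 1
    rw [Finset.mul_sum]
    refine Finset.sum_congr rfl fun x hx => ?_
    rw [← mul_assoc, ← Real.mul_rpow hN0.le (div_nonneg (hσ0 N x hx) hN0.le)]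
    congr 2
    simp only [hσ]
    field_simp
  rw [e1]
  apply mul_le_mul_of_nonneg_left _ (by positivity)
  set SN := ∑ x ∈ s, (σ N x / N) ^ (4 / 3 : ℝ) * vB (r x) with hSNdef
  have hSNle : SN ≤ S := by
    rw [hSNdef, hS]
    apply Finset.sum_le_sum
    intro x hx
    apply mul_le_mul_of_nonneg_right _ (vB_nonneg (hr x hx).le)
    apply Real.rpow_le_rpow (div_nonneg (hσ0 N x hx) hN0.le) _ (by norm_num)
    rw [div_le_iff₀ hN0]
    linarith [hσle N hN0.le x hx]
  have f1 : e * SN ≤ e * (G - 2 * ε1) := mul_le_mul_of_nonpos_left (by linarith) he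
  have f2 : -e * (2 * ε1) ≤ ε / 2 := by
    have h5 : 0 < 4 * (-e + 1) := by linarith
    have h6 : 2 * ε1 * (2 * (-e + 1)) = ε := by
      have h8 : 2 * ε1 * (2 * (-e + 1)) = ε * ((4 * (-e + 1)) / (4 * (-e + 1))) := by
        rw [hε1]; ring
      rw [h8, div_self h5.ne', mul_one]
    have h7 : 0 ≤ -e := by linarith
    nlinarith
  have f3 : ε2 * SN ≤ ε / 4 := by
    have h6 : ε2 * (4 * (S + 1)) = ε := by rw [hε2]; field_simp
    nlinarith
  linarith

end Pool.Agent.Lib_helper90c


end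

section

/-!
# The many-body problem: definitions

`N` negative particles of charge `-1` and mass `1/2` (no statistics), `K` static nuclei of charge
`z` at the positions `R`.
-/

set_option autoImplicit false

open MeasureTheory Set Metric Filter
open scoped ENNReal NNReal Topology

namespace Pool.Agent.Lib_helper90c

/-- positions of `N` particles in `ℝ³` -/
abbrev Conf (N : ℕ) : Type := Fin N → E3

/-- `|∇_i ψ|²` at the configuration `x`, as the sum of the squares of the three partial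
derivatives in the coordinates of particle `i` -/
noncomputable def gradSq {N : ℕ} (ψ : Conf N → ℂ) (i : Fin N) (x : Conf N) : ℝ :=
  ∑ a : Fin 3, ‖fderiv ℝ ψ x (Pi.single i (EuclideanSpace.single a (1 : ℝ)))‖ ^ 2

/-- the kinetic energy `⟨ψ, -∑ Δ_i ψ⟩ = ∑_i ∫ |∇_i ψ|²` -/
noncomputable def kinetic {N : ℕ} (ψ : Conf N → ℂ) : ℝ := ∫ x, ∑ i, gradSq ψ i x

/-- the total Coulomb potential `∑_{i<j} 1/|x_i-x_j| - z ∑_{i,k} 1/|x_i-R_k| + z² ∑_{k<l}
1/|R_k-R_l|` -/
noncomputable def coulomb (z : ℝ) {K N : ℕ} (R : Fin K → E3) (x : Conf N) : ℝ :=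
  (∑ i, ∑ j ∈ Finset.Ioi i, ‖x i - x j‖⁻¹) - z * (∑ i, ∑ k, ‖x i - R k‖⁻¹) +
    z ^ 2 * (∑ k, ∑ l ∈ Finset.Ioi k, ‖R k - R l‖⁻¹)

/-- `⟨ψ, H_{N,R} ψ⟩` -/
noncomputable def energy (z : ℝ) {K N : ℕ} (R : Fin K → E3) (ψ : Conf N → ℂ) : ℝ :=
  kinetic ψ + ∫ x, coulomb z R x * ‖ψ x‖ ^ 2

/-- normalised smooth compactly supported wave functions -/
structure Trial {N : ℕ} (ψ : Conf N → ℂ) : Prop where
  smooth : ContDiff ℝ (⊤ : ℕ∞) ψ
  compact : HasCompactSupport ψ
  normalized : ∫ x, ‖ψ x‖ ^ 2 = 1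

/-- the ground state energy `E₀(N)`: infimum over the positions of the `K = N / z` nuclei (pairwise
distinct, as otherwise the energy is `+∞`) and over the wave functions -/
noncomputable def groundEnergy (z : ℝ) (N : ℕ) : ℝ :=
  sInf {E : ℝ | ∃ (K : ℕ) (R : Fin K → E3) (ψ : Conf N → ℂ), (K : ℝ) * z = N ∧
    Function.Injective R ∧ Trial ψ ∧ E = energy z R ψ}

/-- smooth compactly supported normalised one-particle functions -/
structure Trial1 (u : E3 → ℂ) : Prop where
  smooth : ContDiff ℝ (⊤ : ℕ∞) u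
  compact : HasCompactSupport u
  normalized : ∫ x, ‖u x‖ ^ 2 = 1

/-- `|∇u|²` -/
noncomputable def grad1 (u : E3 → ℂ) (x : E3) : ℝ :=
  ∑ a : Fin 3, ‖fderiv ℝ u x (EuclideanSpace.single a (1 : ℝ))‖ ^ 2

/-- the limiting functional -/
noncomputable def limFun (z : ℝ) (u : E3 → ℂ) : ℝ :=
  (∫ x, grad1 u x) + estar z * (∫ x, (‖u x‖ ^ 2) ^ (4 / 3 : ℝ))

/-- the limit -/
noncomputable def limE (z : ℝ) : ℝ := sInf {E : ℝ | ∃ u : E3 → ℂ, Trial1 u ∧ E = limFun z u}

end Pool.Agent.Lib_helper90c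


end

section

/-!
# Integrating out one particle
-/

set_option autoImplicit false

open MeasureTheory Set Metric Filter
open scoped ENNReal NNReal Topology

namespace Pool.Agent.Lib_helper90c

section
variable {N : ℕ}

theorem lintegral_update_le (i : Fin N) {f g : Conf N → ℝ≥0∞} (hf : Measurable f)
    (hg : Measurable g) (h : ∀ x, ∫⁻ y, f (Function.update x i y) ≤
      ∫⁻ y, g (Function.update x i y)) : ∫⁻ x, f x ≤ ∫⁻ x, g x := by
  rw [volume_pi]
  refine lintegral_le_of_lmarginal_le {i} hf hg ?_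
  intro x
  rw [lmarginal_singleton, lmarginal_singleton]
  exact h x

theorem lintegral_update_eq (i : Fin N) {f g : Conf N → ℝ≥0∞} (hf : Measurable f)
    (hg : Measurable g) (h : ∀ x, ∫⁻ y, f (Function.update x i y) =
      ∫⁻ y, g (Function.update x i y)) : ∫⁻ x, f x = ∫⁻ x, g x :=
  le_antisymm (lintegral_update_le i hf hg fun x => (h x).le)
    (lintegral_update_le i hg hf fun x => (h x).ge)

/-- product of one-particle densities -/
noncomputable def prodD (ρ : E3 → ℝ≥0∞) (x : Conf N) : ℝ≥0∞ := ∏ k, ρ (x k)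

theorem measurable_prodD {ρ : E3 → ℝ≥0∞} (hρ : Measurable ρ) : Measurable (prodD (N := N) ρ) := by
  unfold prodD
  exact Finset.measurable_prod _ fun k _ => hρ.comp (measurable_pi_apply k)

theorem prodD_update (ρ : E3 → ℝ≥0∞) (i : Fin N) (x : Conf N) (y : E3) :
    prodD ρ (Function.update x i y) = ρ y * ∏ k ∈ Finset.univ.erase i, ρ (x k) := by
  unfold prodD
  rw [← Finset.mul_prod_erase Finset.univ _ (Finset.mem_univ i), Function.update_self]
  congr 1
  apply Finset.prod_congr rfl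
  intro k hk
  rw [Function.update_of_ne (Finset.ne_of_mem_erase hk)]

theorem prodD_split (ρ : E3 → ℝ≥0∞) (i : Fin N) (x : Conf N) :
    prodD ρ x = ρ (x i) * ∏ k ∈ Finset.univ.erase i, ρ (x k) := by
  unfold prodD
  rw [← Finset.mul_prod_erase Finset.univ _ (Finset.mem_univ i)]

theorem measurable_update_pair (i : Fin N) :
    Measurable fun q : Conf N × E3 => Function.update q.1 i q.2 := by
  rw [measurable_pi_iff]
  intro k
  by_cases h : k = i
  · subst h
    simp only [Function.update_self]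
    exact measurable_snd
  · simp only [Function.update_of_ne h]
    exact (measurable_pi_apply k).comp measurable_fst

/-- Integrating out particle `i` in a product state. -/
theorem lintegral_prod_one {ρ : E3 → ℝ≥0∞} (hρ : Measurable ρ) (h1 : ∫⁻ y, ρ y = 1) (i : Fin N)
    {f : Conf N → ℝ≥0∞} (hf : Measurable f) :
    ∫⁻ x, f x * prodD ρ x =
      ∫⁻ x, (∫⁻ y, f (Function.update x i y) * ρ y) * prodD ρ x := by
  have hm : Measurable fun x : Conf N => ∫⁻ y, f (Function.update x i y) * ρ y := by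
    have h2 : Measurable fun q : Conf N × E3 => f (Function.update q.1 i q.2) * ρ q.2 :=
      (hf.comp (measurable_update_pair i)).mul (hρ.comp measurable_snd)
    exact h2.lintegral_prod_right'
  refine lintegral_update_eq i (hf.mul (measurable_prodD hρ)) (hm.mul (measurable_prodD hρ))
    fun x => ?_
  simp only [prodD_update, Function.update_idem]
  have e1 : ∀ y, f (Function.update x i y) * (ρ y * ∏ k ∈ Finset.univ.erase i, ρ (x k)) =
      (f (Function.update x i y) * ρ y) * ∏ k ∈ Finset.univ.erase i, ρ (x k) := fun y => by ring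
  have hm1 : Measurable fun y => f (Function.update x i y) * ρ y := by
    have h2 : Measurable fun y => Function.update x i y := measurable_update x
    exact (hf.comp h2).mul hρ
  simp only [e1]
  rw [lintegral_mul_const _ hm1]
  have e2 : ∀ y, (∫⁻ y, f (Function.update x i y) * ρ y) *
      (ρ y * ∏ k ∈ Finset.univ.erase i, ρ (x k)) =
      ρ y * ((∫⁻ y, f (Function.update x i y) * ρ y) * ∏ k ∈ Finset.univ.erase i, ρ (x k)) :=
    fun y => by ring
  simp only [e2]
  rw [lintegral_mul_const _ hρ, h1, one_mul]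

theorem lintegral_prodD {ρ : E3 → ℝ≥0∞} (hρ : Measurable ρ) (h1 : ∫⁻ y, ρ y = 1) :
    ∫⁻ x : Conf N, prodD ρ x = 1 := by
  have h : ∀ s : Finset (Fin N), ∫⁻ x : Conf N, prodD ρ x ∂(volume) =
      ∫⁻ x : Conf N, prodD ρ x := fun s => rfl
  -- use the marginal over all coordinates
  have key : ∀ s : Finset (Fin N), ∀ x : Conf N,
      (lmarginal (fun _ => (volume : Measure E3)) s (prodD ρ)) x =
        ∏ k ∈ Finset.univ \ s, ρ (x k) := by
    intro s
    induction s using Finset.induction_on with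
    | empty => intro x; simp [prodD]
    | insert i s hi ih =>
      intro x
      rw [lmarginal_insert _ (measurable_prodD hρ) hi]
      simp only [ih]
      have e1 : ∀ y, ∏ k ∈ Finset.univ \ s, ρ (Function.update x i y k) =
          ρ y * ∏ k ∈ Finset.univ \ insert i s, ρ (x k) := by
        intro y
        have hmem : i ∈ Finset.univ \ s := by simp [hi]
        rw [← Finset.mul_prod_erase _ _ hmem, Function.update_self]
        congr 1
        have : (Finset.univ \ s).erase i = Finset.univ \ insert i s := by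
          ext k; simp [not_or]
        rw [this]
        apply Finset.prod_congr rfl
        intro k hk
        have hki : k ≠ i := by
          intro h; subst h; simp at hk
        rw [Function.update_of_ne hki]
      simp only [e1]
      rw [lintegral_mul_const _ hρ, h1, one_mul]
  rw [volume_pi, lintegral_eq_lmarginal_univ (0 : Conf N), key]
  simp

/-- one-body expectation in a product state -/
theorem lintegral_prod_eval {ρ : E3 → ℝ≥0∞} (hρ : Measurable ρ) (h1 : ∫⁻ y, ρ y = 1) (i : Fin N)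
    {f : E3 → ℝ≥0∞} (hf : Measurable f) :
    ∫⁻ x : Conf N, f (x i) * prodD ρ x = ∫⁻ y, f y * ρ y := by
  rw [lintegral_prod_one hρ h1 i (f := fun x => f (x i)) (hf.comp (measurable_pi_apply i))]
  simp only [Function.update_self]
  rw [lintegral_const_mul _ (measurable_prodD hρ), lintegral_prodD hρ h1, mul_one]

/-- two-body expectation in a product state -/
theorem lintegral_prod_eval2 {ρ : E3 → ℝ≥0∞} (hρ : Measurable ρ) (h1 : ∫⁻ y, ρ y = 1)
    {i j : Fin N} (hij : i ≠ j) {f : E3 → E3 → ℝ≥0∞} (hf : Measurable (Function.uncurry f)) :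
    ∫⁻ x : Conf N, f (x i) (x j) * prodD ρ x = ∫⁻ y', (∫⁻ y, f y y' * ρ y) * ρ y' := by
  have hm : Measurable fun x : Conf N => f (x i) (x j) := by
    have : Measurable fun x : Conf N => (x i, x j) :=
      (measurable_pi_apply i).prodMk (measurable_pi_apply j)
    exact hf.comp this
  rw [lintegral_prod_one hρ h1 i hm]
  simp only [Function.update_self, Function.update_of_ne hij.symm]
  have hm2 : Measurable fun y' : E3 => ∫⁻ y, f y y' * ρ y := by
    have h2 : Measurable fun q : E3 × E3 => f q.2 q.1 * ρ q.2 :=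
      (hf.comp measurable_swap).mul (hρ.comp measurable_snd)
    exact h2.lintegral_prod_right'
  exact lintegral_prod_eval hρ h1 j hm2

/-- Coulomb singularities are integrable for bounded compactly supported densities -/
theorem lintegral_coul_lt_top (i : Fin N) {w : Conf N → ℝ≥0∞} {M ρ0 : ℝ} (hρ0 : 0 < ρ0)
    (hw : ∀ x, w x ≤ ENNReal.ofReal M * prodD ((ball (0 : E3) ρ0).indicator 1) x)
    (Y : Conf N → E3) (hY : Measurable Y) (hYi : ∀ x y, Y (Function.update x i y) = Y x) :
    ∫⁻ x, ENNReal.ofReal ‖x i - Y x‖⁻¹ * w x < ∞ := by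
  set χ : E3 → ℝ≥0∞ := (ball (0 : E3) ρ0).indicator 1 with hχ
  have hχm : Measurable χ := measurable_one.indicator measurableSet_ball
  set v := ENNReal.ofReal (vB ρ0) with hv
  have hvpos : v ≠ 0 := (ENNReal.ofReal_pos.2 (vB_pos hρ0)).ne'
  have hvtop : v ≠ ∞ := ENNReal.ofReal_ne_top
  -- normalised density
  set ρ : E3 → ℝ≥0∞ := fun y => v⁻¹ * χ y with hρ
  have hρm : Measurable ρ := hχm.const_mul _
  have hρ1 : ∫⁻ y, ρ y = 1 := by
    rw [hρ, lintegral_const_mul _ hχm, hχ, lintegral_indicator_one measurableSet_ball,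
      volume_ball_eq 0 hρ0.le, ENNReal.inv_mul_cancel hvpos hvtop]
  have hprod : ∀ x : Conf N, prodD χ x = v ^ N * prodD ρ x := by
    intro x
    unfold prodD
    simp only [hρ]
    rw [Finset.prod_mul_distrib, Finset.prod_const, Finset.card_univ, Fintype.card_fin,
      ← mul_assoc, ← mul_pow, ENNReal.mul_inv_cancel hvpos hvtop, one_pow, one_mul]
  have hfm : Measurable fun x : Conf N => ENNReal.ofReal ‖x i - Y x‖⁻¹ := by
    have : Measurable fun x : Conf N => x i := measurable_pi_apply i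
    exact ((this.sub hY).norm.inv).ennreal_ofReal
  calc ∫⁻ x, ENNReal.ofReal ‖x i - Y x‖⁻¹ * w x
      ≤ ∫⁻ x, (ENNReal.ofReal M * v ^ N) * (ENNReal.ofReal ‖x i - Y x‖⁻¹ * prodD ρ x) := by
        apply lintegral_mono
        intro x
        calc ENNReal.ofReal ‖x i - Y x‖⁻¹ * w x
            ≤ ENNReal.ofReal ‖x i - Y x‖⁻¹ * (ENNReal.ofReal M * prodD χ x) := by
              gcongr; exact hw x
          _ = (ENNReal.ofReal M * v ^ N) * (ENNReal.ofReal ‖x i - Y x‖⁻¹ * prodD ρ x) := by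
              rw [hprod]; ring
    _ = (ENNReal.ofReal M * v ^ N) * ∫⁻ x, ENNReal.ofReal ‖x i - Y x‖⁻¹ * prodD ρ x :=
        lintegral_const_mul _ (hfm.mul (measurable_prodD hρm))
    _ ≤ (ENNReal.ofReal M * v ^ N) * (v⁻¹ * ENNReal.ofReal (2 * Real.pi * ρ0 ^ 2)) := by
        gcongr
        rw [lintegral_prod_one hρm hρ1 i hfm]
        have h2 : ∀ x : Conf N, ∫⁻ y, ENNReal.ofReal ‖Function.update x i y i -
            Y (Function.update x i y)‖⁻¹ * ρ y ≤ v⁻¹ * ENNReal.ofReal (2 * Real.pi * ρ0 ^ 2) := by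
          intro x
          simp only [Function.update_self, hYi, hρ]
          have e : ∀ y : E3, ENNReal.ofReal ‖y - Y x‖⁻¹ * (v⁻¹ * χ y) =
              v⁻¹ * (ball (0 : E3) ρ0).indicator (fun y => ENNReal.ofReal ‖Y x - y‖⁻¹) y := by
            intro y
            by_cases h : y ∈ ball (0 : E3) ρ0
            · rw [hχ, indicator_of_mem h, indicator_of_mem h, norm_sub_rev]
              simp [mul_comm]
            · rw [hχ, indicator_of_notMem h, indicator_of_notMem h]; simp
          simp only [e]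
          have hm3 : Measurable fun y : E3 => ENNReal.ofReal ‖Y x - y‖⁻¹ := by fun_prop
          rw [lintegral_const_mul _ (hm3.indicator measurableSet_ball),
            lintegral_indicator measurableSet_ball, lintegral_ball_inv' 0 _ hρ0.le]
          gcongr
          exact ballPot_le hρ0.le (norm_nonneg _)
        calc ∫⁻ x, (∫⁻ y, ENNReal.ofReal ‖Function.update x i y i -
              Y (Function.update x i y)‖⁻¹ * ρ y) * prodD ρ x
            ≤ ∫⁻ x : Conf N, (v⁻¹ * ENNReal.ofReal (2 * Real.pi * ρ0 ^ 2)) * prodD ρ x := by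
              apply lintegral_mono
              intro x
              exact mul_le_mul_left (h2 x) _
          _ = v⁻¹ * ENNReal.ofReal (2 * Real.pi * ρ0 ^ 2) := by
              rw [lintegral_const_mul _ (measurable_prodD hρm), lintegral_prodD hρm hρ1, mul_one]
    _ < ∞ := by
        refine ENNReal.mul_lt_top (ENNReal.mul_lt_top ENNReal.ofReal_lt_top
          (ENNReal.pow_lt_top hvtop.lt_top)) (ENNReal.mul_lt_top ?_ ENNReal.ofReal_lt_top)
        exact (ENNReal.inv_ne_top.2 hvpos).lt_top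

end

end Pool.Agent.Lib_helper90c


end

section

/-!
# The energy as a sum of finite nonnegative pieces
-/

set_option autoImplicit false

open MeasureTheory Set Metric Filter
open scoped ENNReal NNReal Topology

namespace Pool.Agent.Lib_helper90c

theorem sum_Ioi_eq {n : ℕ} (f : Fin n → Fin n → ℝ) (hs : ∀ i j, f i j = f j i)
    (h0 : ∀ i, f i i = 0) : ∑ i, ∑ j ∈ Finset.Ioi i, f i j = (1 / 2) * ∑ i, ∑ j, f i j := by
  have h1 : ∀ i, ∑ j, f i j = ∑ j ∈ Finset.Ioi i, f i j + ∑ j ∈ Finset.Iio i, f i j := by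
    intro i
    have hu : (Finset.univ : Finset (Fin n)) = (Finset.Ioi i ∪ Finset.Iio i) ∪ {i} := by
      ext j
      simp only [Finset.mem_univ, Finset.mem_union, Finset.mem_Ioi, Finset.mem_Iio,
        Finset.mem_singleton, true_iff]
      rcases lt_trichotomy i j with h | h | h
      · exact Or.inl (Or.inl h)
      · exact Or.inr h.symm
      · exact Or.inl (Or.inr h)
    rw [hu, Finset.sum_union, Finset.sum_union, Finset.sum_singleton, h0, add_zero]
    · rw [Finset.disjoint_left]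
      intro j hj hj'
      exact absurd (Finset.mem_Ioi.1 hj) (not_lt.2 (Finset.mem_Iio.1 hj').le)
    · rw [Finset.disjoint_singleton_right]
      simp
  have h2 : ∑ i, ∑ j ∈ Finset.Iio i, f i j = ∑ i, ∑ j ∈ Finset.Ioi i, f i j := by
    rw [Finset.sum_comm' (s' := Finset.Ioi) (t' := Finset.univ)]
    · refine Finset.sum_congr rfl fun i _ => Finset.sum_congr rfl fun j _ => hs _ _
    · intro i j; simp
  simp only [h1, Finset.sum_add_distrib, h2]
  ring

theorem rep_eq_Ioi {n : ℕ} (R : Fin n → E3) : ∑ k, ∑ l ∈ Finset.Ioi k, ‖R k - R l‖⁻¹ = rep R := by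
  rw [sum_Ioi_eq _ (fun i j => by rw [norm_sub_rev]) (fun i => by simp)]
  rfl

section
variable {N : ℕ}

/-- the probability density `|ψ|²` -/
noncomputable def dens (ψ : Conf N → ℂ) (x : Conf N) : ℝ≥0∞ := ENNReal.ofReal (‖ψ x‖ ^ 2)

theorem measurable_dens {ψ : Conf N → ℂ} (h : Continuous ψ) : Measurable (dens ψ) := by
  unfold dens; fun_prop

theorem exists_bound {ψ : Conf N → ℂ} (hc : Continuous ψ) (hs : HasCompactSupport ψ) :
    ∃ M ρ0 : ℝ, 0 < ρ0 ∧ ∀ x, dens ψ x ≤
      ENNReal.ofReal M * prodD ((ball (0 : E3) ρ0).indicator 1) x := by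
  obtain ⟨C, hC⟩ := hc.bounded_above_of_compact_support hs
  obtain ⟨R, hR⟩ := hs.isBounded.subset_closedBall (0 : Conf N)
  refine ⟨C ^ 2, |R| + 1, by positivity, fun x => ?_⟩
  by_cases hx : ψ x = 0
  · unfold dens; rw [hx]; simp
  · have h1 : x ∈ closedBall (0 : Conf N) R := hR (subset_tsupport ψ hx)
    have h2 : prodD ((ball (0 : E3) (|R| + 1)).indicator 1) x = 1 := by
      unfold prodD
      apply Finset.prod_eq_one
      intro k _
      rw [indicator_of_mem]; · rfl
      rw [mem_ball_zero_iff]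
      have h3 : ‖x k‖ ≤ ‖x‖ := norm_le_pi_norm x k
      have h4 := mem_closedBall_zero_iff.1 h1
      have := le_abs_self R
      linarith
    rw [h2, mul_one]
    exact ENNReal.ofReal_le_ofReal (pow_le_pow_left₀ (norm_nonneg _) (hC x) 2)

/-- electron-nucleus attraction (without the factor `z`) -/
noncomputable def Aen {K : ℕ} (R : Fin K → E3) (ψ : Conf N → ℂ) : ℝ≥0∞ :=
  ∑ i, ∑ k, ∫⁻ x, ENNReal.ofReal ‖x i - R k‖⁻¹ * dens ψ x

/-- electron-electron repulsion -/
noncomputable def Pee (ψ : Conf N → ℂ) : ℝ≥0∞ :=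
  2⁻¹ * ∑ i, ∑ j, ∫⁻ x, ENNReal.ofReal ‖x i - x j‖⁻¹ * dens ψ x

theorem lt_top_en {ψ : Conf N → ℂ} (hc : Continuous ψ) (hs : HasCompactSupport ψ) (i : Fin N)
    (y : E3) : ∫⁻ x, ENNReal.ofReal ‖x i - y‖⁻¹ * dens ψ x < ∞ := by
  obtain ⟨M, ρ0, hρ0, hw⟩ := exists_bound hc hs
  exact lintegral_coul_lt_top i hρ0 hw (fun _ => y) measurable_const fun _ _ => rfl

theorem lt_top_ee {ψ : Conf N → ℂ} (hc : Continuous ψ) (hs : HasCompactSupport ψ)
    (i j : Fin N) : ∫⁻ x, ENNReal.ofReal ‖x i - x j‖⁻¹ * dens ψ x < ∞ := by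
  by_cases hij : i = j
  · subst hij
    simp
  · obtain ⟨M, ρ0, hρ0, hw⟩ := exists_bound hc hs
    refine lintegral_coul_lt_top i hρ0 hw (fun x => x j) (measurable_pi_apply j) fun x y => ?_
    exact Function.update_of_ne (Ne.symm hij) _ _

theorem integral_coul {ψ : Conf N → ℂ} {k : Conf N → ℝ} (hk : Measurable k) (hk0 : ∀ x, 0 ≤ k x)
    (hc : Continuous ψ) (hfin : ∫⁻ x, ENNReal.ofReal (k x) * dens ψ x < ∞) :
    Integrable (fun x => k x * ‖ψ x‖ ^ 2) ∧
      ∫ x, k x * ‖ψ x‖ ^ 2 = (∫⁻ x, ENNReal.ofReal (k x) * dens ψ x).toReal := by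
  have e : ∀ x, ENNReal.ofReal (k x * ‖ψ x‖ ^ 2) = ENNReal.ofReal (k x) * dens ψ x := by
    intro x; unfold dens; rw [ENNReal.ofReal_mul (hk0 x)]
  have hm : Measurable fun x => k x * ‖ψ x‖ ^ 2 := hk.mul (hc.norm.pow 2).measurable
  have h1 : ∫⁻ x, ENNReal.ofReal (k x * ‖ψ x‖ ^ 2) < ∞ := by simp only [e]; exact hfin
  constructor
  · refine ⟨hm.aestronglyMeasurable, ?_⟩
    rw [hasFiniteIntegral_iff_ofReal (Eventually.of_forall fun x =>
      mul_nonneg (hk0 x) (sq_nonneg _))]
    exact h1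
  · rw [integral_eq_lintegral_of_nonneg_ae (Eventually.of_forall fun x =>
      mul_nonneg (hk0 x) (sq_nonneg _)) hm.aestronglyMeasurable]
    simp only [e]

theorem Pee_lt_top {ψ : Conf N → ℂ} (hc : Continuous ψ) (hs : HasCompactSupport ψ) :
    Pee ψ < ∞ := by
  unfold Pee
  refine ENNReal.mul_lt_top (by norm_num) ?_
  refine ENNReal.sum_lt_top.2 fun i _ => ENNReal.sum_lt_top.2 fun j _ => lt_top_ee hc hs i j

theorem Aen_lt_top {K : ℕ} (R : Fin K → E3) {ψ : Conf N → ℂ} (hc : Continuous ψ)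
    (hs : HasCompactSupport ψ) : Aen R ψ < ∞ := by
  unfold Aen
  exact ENNReal.sum_lt_top.2 fun i _ => ENNReal.sum_lt_top.2 fun j _ => lt_top_en hc hs i (R j)

theorem energy_eq (z : ℝ) {K : ℕ} (R : Fin K → E3) {ψ : Conf N → ℂ} (h : Trial ψ) :
    energy z R ψ = kinetic ψ + (Pee ψ).toReal - z * (Aen R ψ).toReal + z ^ 2 * rep R := by
  have hc := h.smooth.continuous
  have hs := h.compact
  have hm2 : ∀ i j : Fin N, Measurable fun x : Conf N => ‖x i - x j‖⁻¹ := by
    intro i j
    exact ((measurable_pi_apply i).sub (measurable_pi_apply j)).norm.inv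
  have hm1 : ∀ (i : Fin N) (y : E3), Measurable fun x : Conf N => ‖x i - y‖⁻¹ := by
    intro i y
    exact ((measurable_pi_apply i).sub measurable_const).norm.inv
  have hee : ∀ i j : Fin N, _ := fun i j =>
    integral_coul (hm2 i j) (fun x => by positivity) hc (lt_top_ee hc hs i j)
  have hen : ∀ (i : Fin N) (k : Fin K), _ := fun i k =>
    integral_coul (hm1 i (R k)) (fun x => by positivity) hc (lt_top_en hc hs i (R k))
  have hcoul : ∀ x : Conf N, coulomb z R x * ‖ψ x‖ ^ 2 =
      (1 / 2) * (∑ i, ∑ j, ‖x i - x j‖⁻¹ * ‖ψ x‖ ^ 2) -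
        z * (∑ i, ∑ k, ‖x i - R k‖⁻¹ * ‖ψ x‖ ^ 2) + z ^ 2 * rep R * ‖ψ x‖ ^ 2 := by
    intro x
    unfold coulomb
    rw [rep_eq_Ioi, rep_eq_Ioi]
    unfold rep
    simp only [← Finset.sum_mul]
    ring
  unfold energy
  simp only [hcoul]
  have i1 : Integrable fun x : Conf N => (1 / 2) * (∑ i, ∑ j, ‖x i - x j‖⁻¹ * ‖ψ x‖ ^ 2) :=
    (integrable_finsetSum _ fun i _ => integrable_finsetSum _ fun j _ => (hee i j).1).const_mul _
  have i2 : Integrable fun x : Conf N => z * (∑ i, ∑ k, ‖x i - R k‖⁻¹ * ‖ψ x‖ ^ 2) :=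
    (integrable_finsetSum _ fun i _ => integrable_finsetSum _ fun j _ => (hen i j).1).const_mul _
  have i3 : Integrable fun x : Conf N => z ^ 2 * rep R * ‖ψ x‖ ^ 2 := by
    apply Integrable.const_mul
    by_contra hn
    have := h.normalized
    rw [integral_undef hn] at this
    exact zero_ne_one this
  have i12 : Integrable fun x : Conf N => (1 / 2) * (∑ i, ∑ j, ‖x i - x j‖⁻¹ * ‖ψ x‖ ^ 2) -
      z * (∑ i, ∑ k, ‖x i - R k‖⁻¹ * ‖ψ x‖ ^ 2) := i1.sub i2
  rw [integral_add i12 i3, integral_sub i1 i2, integral_const_mul, integral_const_mul,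
    integral_const_mul, h.normalized,
    integral_finsetSum _ fun i _ => integrable_finsetSum _ fun j _ => (hee i j).1,
    integral_finsetSum _ fun i _ => integrable_finsetSum _ fun j _ => (hen i j).1]
  have e1 : ∑ i, ∫ x : Conf N, ∑ j, ‖x i - x j‖⁻¹ * ‖ψ x‖ ^ 2 =
      ∑ i, ∑ j, (∫⁻ x : Conf N, ENNReal.ofReal ‖x i - x j‖⁻¹ * dens ψ x).toReal := by
    refine Finset.sum_congr rfl fun i _ => ?_
    rw [integral_finsetSum _ fun j _ => (hee i j).1]
    exact Finset.sum_congr rfl fun j _ => (hee i j).2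
  have e2 : ∑ i, ∫ x : Conf N, ∑ k, ‖x i - R k‖⁻¹ * ‖ψ x‖ ^ 2 =
      ∑ i, ∑ k, (∫⁻ x : Conf N, ENNReal.ofReal ‖x i - R k‖⁻¹ * dens ψ x).toReal := by
    refine Finset.sum_congr rfl fun i _ => ?_
    rw [integral_finsetSum _ fun j _ => (hen i j).1]
    exact Finset.sum_congr rfl fun j _ => (hen i j).2
  have e3 : (Pee ψ).toReal = (1 / 2) *
      ∑ i, ∑ j, (∫⁻ x : Conf N, ENNReal.ofReal ‖x i - x j‖⁻¹ * dens ψ x).toReal := by
    unfold Pee
    rw [ENNReal.toReal_mul, ENNReal.toReal_inv]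
    congr 1
    · norm_num
    · rw [ENNReal.toReal_sum fun i _ => (ENNReal.sum_lt_top.2 fun j _ => lt_top_ee hc hs i j).ne]
      refine Finset.sum_congr rfl fun i _ => ?_
      rw [ENNReal.toReal_sum fun j _ => (lt_top_ee hc hs i j).ne]
  have e4 : (Aen R ψ).toReal =
      ∑ i, ∑ k, (∫⁻ x : Conf N, ENNReal.ofReal ‖x i - R k‖⁻¹ * dens ψ x).toReal := by
    unfold Aen
    rw [ENNReal.toReal_sum fun i _ => (ENNReal.sum_lt_top.2 fun j _ => lt_top_en hc hs i (R j)).ne]
    refine Finset.sum_congr rfl fun i _ => ?_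
    rw [ENNReal.toReal_sum fun j _ => (lt_top_en hc hs i (R j)).ne]
  rw [e1, e2, e3, e4]
  ring

end

end Pool.Agent.Lib_helper90c


end
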