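import Mathlib
import Pool.Agent.BMLM.C02

/-! Parts: Lib_helper90c.Product, Lib_helper90c.UpperE, Lib_helper90c.Cond, Lib_helper90c.BallPoinc, Lib_helper90c.LocN, Lib_helper90c.LocB, Lib_helper90c.OneVar, Lib_helper90c.TwoBody, Lib_helper90c.MainBall, Lib_helper90c.Crude -/

section

/-!
# Product states
-/

set_option autoImplicit false

open MeasureTheory Set Metric Filter
open scoped ENNReal NNReal Topology

namespace Pool.Agent.Lib_helper90c

section
variable {N : ℕ}

/-- the product state -/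
noncomputable def prodS (N : ℕ) (φ : E3 → ℂ) (x : Conf N) : ℂ := ∏ i, φ (x i)

theorem normSq_prodS (φ : E3 → ℂ) (x : Conf N) : ‖prodS N φ x‖ ^ 2 = ∏ i, ‖φ (x i)‖ ^ 2 := by
  unfold prodS; rw [norm_prod, Finset.prod_pow]

theorem contDiff_prodS {φ : E3 → ℂ} (h : ContDiff ℝ (⊤ : ℕ∞) φ) :
    ContDiff ℝ (⊤ : ℕ∞) (prodS N φ) := by
  unfold prodS
  apply contDiff_prod
  intro i _
  exact h.comp (contDiff_apply ℝ E3 i)

theorem hasCompactSupport_prodS {φ : E3 → ℂ} (h : HasCompactSupport φ) :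
    HasCompactSupport (prodS N φ) := by
  have hK : IsCompact (Set.pi univ fun _ : Fin N => tsupport φ) := isCompact_univ_pi fun _ => h
  refine HasCompactSupport.intro hK fun x hx => ?_
  simp only [Set.mem_pi, mem_univ, true_implies, not_forall] at hx
  obtain ⟨i, hi⟩ := hx
  exact Finset.prod_eq_zero (Finset.mem_univ i) (image_eq_zero_of_notMem_tsupport hi)

theorem trial_prodS {φ : E3 → ℂ} (h : Trial1 φ) : Trial (prodS N φ) := by
  refine ⟨contDiff_prodS h.smooth, hasCompactSupport_prodS h.compact, ?_⟩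
  simp only [normSq_prodS]
  rw [integral_fintype_prod_volume_eq_prod (fun _ : Fin N => fun y : E3 => ‖φ y‖ ^ 2)]
  simp [h.normalized]

theorem dens_prodS (φ : E3 → ℂ) (x : Conf N) :
    dens (prodS N φ) x = prodD (fun y => ENNReal.ofReal (‖φ y‖ ^ 2)) x := by
  unfold dens prodD
  rw [normSq_prodS, ENNReal.ofReal_prod_of_nonneg fun i _ => sq_nonneg _]

theorem fderiv_prodS {φ : E3 → ℂ} (h : Differentiable ℝ φ) (x : Conf N) (i : Fin N) (v : E3) :
    fderiv ℝ (prodS N φ) x (Pi.single i v) =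
      (∏ j ∈ Finset.univ.erase i, φ (x j)) * fderiv ℝ φ (x i) v := by
  have h1 : ∀ k ∈ (Finset.univ : Finset (Fin N)),
      HasFDerivAt (fun x : Conf N => φ (x k))
        ((fderiv ℝ φ (x k)).comp (ContinuousLinearMap.proj (R := ℝ) k)) x := by
    intro k _
    exact (h (x k)).hasFDerivAt.comp x (hasFDerivAt_apply k x)
  have h2 := HasFDerivAt.finsetProd h1
  have h3 : HasFDerivAt (prodS N φ) _ x := h2
  rw [h3.fderiv]
  simp only [sum_apply, smul_apply,
    ContinuousLinearMap.comp_apply, ContinuousLinearMap.proj_apply, smul_eq_mul]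
  rw [Finset.sum_eq_single i]
  · rw [Pi.single_eq_same]
  · intro k _ hk
    rw [Pi.single_eq_of_ne hk, map_zero, mul_zero]
  · intro h; exact absurd (Finset.mem_univ i) h

theorem gradSq_prodS {φ : E3 → ℂ} (h : Differentiable ℝ φ) (x : Conf N) (i : Fin N) :
    gradSq (prodS N φ) i x =
      ∏ k, (if k = i then grad1 φ (x k) else ‖φ (x k)‖ ^ 2) := by
  unfold gradSq
  rw [← Finset.mul_prod_erase Finset.univ _ (Finset.mem_univ i)]
  rw [if_pos rfl]
  have e1 : ∏ k ∈ Finset.univ.erase i, (if k = i then grad1 φ (x k) else ‖φ (x k)‖ ^ 2) =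
      ∏ k ∈ Finset.univ.erase i, ‖φ (x k)‖ ^ 2 := by
    apply Finset.prod_congr rfl
    intro k hk
    rw [if_neg (Finset.ne_of_mem_erase hk)]
  rw [e1]
  unfold grad1
  rw [Finset.sum_mul]
  refine Finset.sum_congr rfl fun a _ => ?_
  rw [fderiv_prodS h, norm_mul, mul_pow, norm_prod, Finset.prod_pow]
  ring

theorem continuous_grad1 {u : E3 → ℂ} (h : ContDiff ℝ (⊤ : ℕ∞) u) : Continuous (grad1 u) := by
  have h1 : Continuous (fderiv ℝ u) := h.continuous_fderiv (by simp)
  unfold grad1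
  exact continuous_finsetSum _ fun a _ => ((h1.clm_apply continuous_const).norm.pow 2)

theorem integrable_grad1 {u : E3 → ℂ} (h : Trial1 u) : Integrable (grad1 u) := by
  apply (continuous_grad1 h.smooth).integrable_of_hasCompactSupport
  have h1 : HasCompactSupport (fderiv ℝ u) := h.compact.fderiv ℝ
  refine h1.mono ?_
  intro x hx
  by_contra hn
  apply hx
  unfold grad1
  have : fderiv ℝ u x = 0 := by
    by_contra h; exact hn h
  simp [this]

theorem kinetic_prodS {φ : E3 → ℂ} (h : Trial1 φ) :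
    kinetic (prodS N φ) = N * ∫ y, grad1 φ y := by
  have hd : Differentiable ℝ φ := h.smooth.differentiable (by simp)
  unfold kinetic
  simp only [gradSq_prodS hd]
  have hint : ∀ i : Fin N, Integrable fun x : Conf N =>
      ∏ k, (if k = i then grad1 φ (x k) else ‖φ (x k)‖ ^ 2) := by
    intro i
    have h1 := Integrable.fintype_prod (𝕜 := ℝ) (μ := fun _ : Fin N => (volume : Measure E3))
      (f := fun k => if k = i then grad1 φ else fun y => ‖φ y‖ ^ 2) (by
        intro k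
        by_cases hk : k = i
        · simp only [hk, if_true]
          exact integrable_grad1 h
        · simp only [hk, if_false]
          by_contra hn
          have := h.normalized
          rw [integral_undef hn] at this
          exact zero_ne_one this)
    have e : (fun x : Conf N => ∏ k, (if k = i then grad1 φ (x k) else ‖φ (x k)‖ ^ 2)) =
        fun x : Conf N => ∏ k, (if k = i then grad1 φ else fun y => ‖φ y‖ ^ 2) (x k) := by
      ext x
      apply Finset.prod_congr rfl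
      intro k _
      split_ifs <;> rfl
    rw [e]
    exact h1
  rw [integral_finsetSum _ fun i _ => hint i]
  have hval : ∀ i : Fin N, ∫ x : Conf N,
      ∏ k, (if k = i then grad1 φ (x k) else ‖φ (x k)‖ ^ 2) = ∫ y, grad1 φ y := by
    intro i
    have e : ∀ x : Conf N, ∏ k, (if k = i then grad1 φ (x k) else ‖φ (x k)‖ ^ 2) =
        ∏ k, (if k = i then grad1 φ else fun y => ‖φ y‖ ^ 2) (x k) := by
      intro x
      apply Finset.prod_congr rfl
      intro k _
      split_ifs <;> rfl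
    simp only [e]
    rw [integral_fintype_prod_volume_eq_prod
      (fun k : Fin N => if k = i then grad1 φ else fun y => ‖φ y‖ ^ 2)]
    rw [← Finset.mul_prod_erase Finset.univ _ (Finset.mem_univ i), if_pos rfl]
    have : ∏ k ∈ Finset.univ.erase i, ∫ y, (if k = i then grad1 φ else fun y => ‖φ y‖ ^ 2) y =
        1 := by
      apply Finset.prod_eq_one
      intro k hk
      rw [if_neg (Finset.ne_of_mem_erase hk)]
      exact h.normalized
    rw [this, mul_one]
  simp only [hval, Finset.sum_const, Finset.card_univ, Fintype.card_fin, nsmul_eq_mul]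

theorem ofReal_Pot {β : Measure E3} (h : BM β) (y : E3) :
    ENNReal.ofReal (Pot β y) = ∫⁻ x, ENNReal.ofReal ‖y - x‖⁻¹ ∂β := by
  unfold Pot
  rw [ofReal_integral_eq_lintegral_ofReal (h.pot y) (Eventually.of_forall fun x => by positivity)]

theorem ofReal_integral_Pot {β : Measure E3} (h : BM β) :
    ENNReal.ofReal (∫ x, Pot β x ∂β) = ∫⁻ y, ∫⁻ x, ENNReal.ofReal ‖y - x‖⁻¹ ∂β ∂β := by
  have := h.isFinite
  rw [ofReal_integral_eq_lintegral_ofReal (h.integrable_Pot β)
    (Eventually.of_forall fun x => Pot_nonneg _ _)]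
  simp only [ofReal_Pot h]

theorem lintegral_bg {φ : E3 → ℂ} (hc : Continuous φ) {M : ℝ} (hM : 0 ≤ M) {f : E3 → ℝ≥0∞}
    (hf : Measurable f) :
    ∫⁻ x, f x ∂(bg M fun y => ‖φ y‖ ^ 2) =
      ENNReal.ofReal M * ∫⁻ x, f x * ENNReal.ofReal (‖φ x‖ ^ 2) := by
  unfold bg
  have hm : Measurable fun x => f x * ENNReal.ofReal (‖φ x‖ ^ 2) := hf.mul (by fun_prop)
  rw [lintegral_withDensity_eq_lintegral_mul _ (by fun_prop) hf, ← lintegral_const_mul _ hm]
  congr 1
  ext x
  rw [Pi.mul_apply, ENNReal.ofReal_mul hM]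
  ring

/-- the background of a product state -/
noncomputable def bgs (N : ℕ) (φ : E3 → ℂ) : Measure E3 := bg N fun y => ‖φ y‖ ^ 2

/-- one-particle density -/
noncomputable def rho1 (φ : E3 → ℂ) (y : E3) : ℝ≥0∞ := ENNReal.ofReal (‖φ y‖ ^ 2)

theorem measurable_rho1 {φ : E3 → ℂ} (hc : Continuous φ) : Measurable (rho1 φ) := by
  unfold rho1; fun_prop

theorem lintegral_rho1 {φ : E3 → ℂ} (h : Trial1 φ) : ∫⁻ y, rho1 φ y = 1 := by
  have hint : Integrable fun y => ‖φ y‖ ^ 2 := by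
    by_contra hn
    have := h.normalized
    rw [integral_undef hn] at this
    exact zero_ne_one this
  unfold rho1
  rw [← ofReal_integral_eq_lintegral_ofReal hint (Eventually.of_forall fun y => sq_nonneg _),
      h.normalized, ENNReal.ofReal_one]

theorem hasCompactSupport_normSq {φ : E3 → ℂ} (h : HasCompactSupport φ) :
    HasCompactSupport fun y => ‖φ y‖ ^ 2 := by
  refine h.mono ?_
  intro x hx hx'
  apply hx
  simp only [hx', norm_zero]
  norm_num

theorem BM_bgs {φ : E3 → ℂ} (h : Trial1 φ) (N : ℕ) : BM (bgs N φ) := by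
  have h1 : Continuous fun y => ‖φ y‖ ^ 2 := h.smooth.continuous.norm.pow 2
  have h2 := hasCompactSupport_normSq h.compact
  unfold bgs
  exact BM_bg h1 h2 (N : ℝ)

theorem lintegral_bgs {φ : E3 → ℂ} (hc : Continuous φ) (N : ℕ) {f : E3 → ℝ≥0∞}
    (hf : Measurable f) : ∫⁻ x, f x ∂(bgs N φ) = (N : ℝ≥0∞) * ∫⁻ x, f x * rho1 φ x := by
  have := lintegral_bg hc (M := N) (Nat.cast_nonneg _) hf
  rw [ENNReal.ofReal_natCast] at this
  exact this

theorem Aen_prodS {φ : E3 → ℂ} (h : Trial1 φ) {K : ℕ} (R : Fin K → E3) :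
    (Aen R (prodS N φ)).toReal = ∑ k, Pot (bgs N φ) (R k) := by
  have hc := h.smooth.continuous
  have hBM := BM_bgs h N
  have h2 : ∀ (k : Fin K) (i : Fin N), ∫⁻ x : Conf N, ENNReal.ofReal ‖x i - R k‖⁻¹ *
      dens (prodS N φ) x = ∫⁻ y, ENNReal.ofReal ‖R k - y‖⁻¹ * rho1 φ y := by
    intro k i
    have e : ∀ x : Conf N, dens (prodS N φ) x = prodD (rho1 φ) x := fun x => dens_prodS φ x
    simp only [e]
    have hm : Measurable fun y : E3 => ENNReal.ofReal ‖y - R k‖⁻¹ := by fun_prop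
    rw [lintegral_prod_eval (measurable_rho1 hc) (lintegral_rho1 h) i hm]
    simp only [norm_sub_rev]
  have h1 : Aen R (prodS N φ) = ENNReal.ofReal (∑ k, Pot (bgs N φ) (R k)) := by
    unfold Aen
    rw [ENNReal.ofReal_sum_of_nonneg fun k _ => Pot_nonneg _ _, Finset.sum_comm]
    refine Finset.sum_congr rfl fun k _ => ?_
    have hm : Measurable fun y : E3 => ENNReal.ofReal ‖R k - y‖⁻¹ := by fun_prop
    rw [ofReal_Pot hBM, lintegral_bgs hc N hm]
    simp only [h2, Finset.sum_const, Finset.card_univ, Fintype.card_fin, nsmul_eq_mul]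
  rw [h1, ENNReal.toReal_ofReal (Finset.sum_nonneg fun k _ => Pot_nonneg _ _)]

theorem Pee_prodS_le {φ : E3 → ℂ} (h : Trial1 φ) :
    (Pee (prodS N φ)).toReal ≤ (∫ x, Pot (bgs N φ) x ∂(bgs N φ)) / 2 := by
  have hc := h.smooth.continuous
  have hBM := BM_bgs h N
  have hfin := hBM.isFinite
  have hρm := measurable_rho1 hc
  have hD0 : 0 ≤ ∫ x, Pot (bgs N φ) x ∂(bgs N φ) := integral_nonneg fun x => Pot_nonneg _ _
  apply ENNReal.toReal_le_of_le_ofReal (by positivity)
  have h3 : ENNReal.ofReal (2⁻¹ : ℝ) = 2⁻¹ := by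
    rw [ENNReal.ofReal_inv_of_pos (by norm_num)]; norm_num
  rw [div_eq_inv_mul, ENNReal.ofReal_mul (by norm_num), ofReal_integral_Pot hBM, h3]
  have hm2 : Measurable fun q : E3 × E3 => ENNReal.ofReal ‖q.1 - q.2‖⁻¹ := by fun_prop
  have hm : Measurable fun y : E3 => ∫⁻ x : E3, ENNReal.ofReal ‖y - x‖⁻¹ ∂(bgs N φ) :=
    hm2.lintegral_prod_right'
  have hmr : ∀ y : E3, Measurable fun x : E3 => ENNReal.ofReal ‖y - x‖⁻¹ := fun y => by fun_prop
  rw [lintegral_bgs hc N hm]
  have e2 : ∀ y : E3, ∫⁻ x : E3, ENNReal.ofReal ‖y - x‖⁻¹ ∂(bgs N φ) =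
      (N : ℝ≥0∞) * ∫⁻ x : E3, ENNReal.ofReal ‖y - x‖⁻¹ * rho1 φ x := fun y =>
    lintegral_bgs hc N (hmr y)
  simp only [e2]
  have h2 : ∀ i j : Fin N, ∫⁻ x : Conf N, ENNReal.ofReal ‖x i - x j‖⁻¹ *
      dens (prodS N φ) x ≤
      ∫⁻ y', (∫⁻ y, ENNReal.ofReal ‖y' - y‖⁻¹ * rho1 φ y) * rho1 φ y' := by
    intro i j
    by_cases hij : i = j
    · subst hij; simp
    · have e : ∀ x : Conf N, dens (prodS N φ) x = prodD (rho1 φ) x := fun x => dens_prodS φ x
      simp only [e]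
      have hme : Measurable (Function.uncurry fun y y' : E3 => ENNReal.ofReal ‖y - y'‖⁻¹) := by
        unfold Function.uncurry; fun_prop
      have := lintegral_prod_eval2 hρm (lintegral_rho1 h) hij hme
      refine (le_of_eq this).trans (le_of_eq ?_)
      simp only [norm_sub_rev]
  unfold Pee
  have h4 : Measurable fun y' : E3 => ∫⁻ y, ENNReal.ofReal ‖y' - y‖⁻¹ * rho1 φ y := by
    have h2 : Measurable fun q : E3 × E3 => ENNReal.ofReal ‖q.1 - q.2‖⁻¹ * rho1 φ q.2 :=
      hm2.mul (hρm.comp measurable_snd)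
    exact h2.lintegral_prod_right'
  have h5 : Measurable fun y' : E3 =>
      (∫⁻ y, ENNReal.ofReal ‖y' - y‖⁻¹ * rho1 φ y) * rho1 φ y' := h4.mul hρm
  calc 2⁻¹ * ∑ i : Fin N, ∑ j : Fin N, ∫⁻ x : Conf N, ENNReal.ofReal ‖x i - x j‖⁻¹ *
        dens (prodS N φ) x
      ≤ 2⁻¹ * ∑ _i : Fin N, ∑ _j : Fin N,
          ∫⁻ y', (∫⁻ y, ENNReal.ofReal ‖y' - y‖⁻¹ * rho1 φ y) * rho1 φ y' := by
        gcongr with i _ j _
        exact h2 i j
    _ = 2⁻¹ * ((N : ℝ≥0∞) * ((N : ℝ≥0∞) *
          ∫⁻ y', (∫⁻ y, ENNReal.ofReal ‖y' - y‖⁻¹ * rho1 φ y) * rho1 φ y')) := by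
        simp only [Finset.sum_const, Finset.card_univ, Fintype.card_fin, nsmul_eq_mul]
    _ = 2⁻¹ * ((N : ℝ≥0∞) * ∫⁻ y', ((N : ℝ≥0∞) *
          ∫⁻ y, ENNReal.ofReal ‖y' - y‖⁻¹ * rho1 φ y) * rho1 φ y') := by
        rw [← lintegral_const_mul _ h5]
        simp only [mul_assoc]

/-- energy of a product state -/
theorem energy_prodS_le {z : ℝ} {φ : E3 → ℂ} (h : Trial1 φ) {K : ℕ}
    (R : Fin K → E3) :
    energy z R (prodS N φ) ≤ N * (∫ y, grad1 φ y) + JE z (bgs N φ) R := by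
  rw [energy_eq z R (trial_prodS h), kinetic_prodS h, Aen_prodS h]
  have := Pee_prodS_le (N := N) h
  unfold JE
  linarith

end

end Pool.Agent.Lib_helper90c


end

section

/-!
# Upper bound on the ground state energy
-/

set_option autoImplicit false

open MeasureTheory Set Metric Filter
open scoped ENNReal NNReal Topology

namespace Pool.Agent.Lib_helper90c

theorem lintegral_comp_smul3 {s : ℝ} (hs : 0 < s) {f : E3 → ℝ≥0∞} (hf : Measurable f) :
    ∫⁻ x, f (s • x) = ENNReal.ofReal (s ^ 3)⁻¹ * ∫⁻ x, f x := by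
  have h := Measure.map_addHaar_smul (volume : Measure E3) hs.ne'
  have h2 : ∫⁻ x, f (s • x) = ∫⁻ x, f x ∂(Measure.map (fun x : E3 => s • x) volume) := by
    rw [lintegral_map hf (measurable_const_smul s)]
  rw [h2, h, lintegral_smul_measure, finrank_euclideanSpace_fin, abs_of_pos (by positivity),
    smul_eq_mul]

theorem integral_comp_smul3 {s : ℝ} (hs : 0 < s) (f : E3 → ℝ) :
    ∫ x, f (s • x) = (s ^ 3)⁻¹ * ∫ x, f x := by
  rw [Measure.integral_comp_smul_of_nonneg _ _ _ (hR := hs.le), finrank_euclideanSpace_fin,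
    smul_eq_mul]

/-- scaled one-particle function -/
noncomputable def scl (s : ℝ) (u : E3 → ℂ) (x : E3) : ℂ := (Real.sqrt (s ^ 3) : ℂ) * u (s • x)

theorem normSq_scl {s : ℝ} (hs : 0 < s) (u : E3 → ℂ) (x : E3) :
    ‖scl s u x‖ ^ 2 = s ^ 3 * ‖u (s • x)‖ ^ 2 := by
  unfold scl
  rw [norm_mul, mul_pow, Complex.norm_real, Real.norm_eq_abs, sq_abs,
    Real.sq_sqrt (by positivity)]

theorem grad1_scl {s : ℝ} (hs : 0 < s) {u : E3 → ℂ} (hu : Differentiable ℝ u) (x : E3) :
    grad1 (scl s u) x = s ^ 5 * grad1 u (s • x) := by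
  unfold grad1
  rw [Finset.mul_sum]
  refine Finset.sum_congr rfl fun a _ => ?_
  have h1 : HasFDerivAt (fun x : E3 => u (s • x))
      ((fderiv ℝ u (s • x)).comp (s • ContinuousLinearMap.id ℝ E3)) x :=
    (hu (s • x)).hasFDerivAt.comp x ((hasFDerivAt_id x).const_smul s)
  have h2 : HasFDerivAt (scl s u) ((Real.sqrt (s ^ 3) : ℂ) •
      ((fderiv ℝ u (s • x)).comp (s • ContinuousLinearMap.id ℝ E3))) x := h1.const_mul _
  rw [h2.fderiv]
  have h3 : ((Real.sqrt (s ^ 3) : ℂ) • ((fderiv ℝ u (s • x)).comp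
      (s • ContinuousLinearMap.id ℝ E3))) (EuclideanSpace.single a (1 : ℝ)) =
      (Real.sqrt (s ^ 3) : ℂ) * ((s : ℂ) * fderiv ℝ u (s • x) (EuclideanSpace.single a (1 : ℝ))) := by
    show (Real.sqrt (s ^ 3) : ℂ) • (fderiv ℝ u (s • x)) (s • (EuclideanSpace.single a (1 : ℝ))) = _
    rw [map_smul, smul_eq_mul]
    simp
  rw [h3, norm_mul, norm_mul, mul_pow, mul_pow, Complex.norm_real, Complex.norm_real,
    Real.norm_eq_abs, Real.norm_eq_abs, sq_abs, sq_abs, Real.sq_sqrt (by positivity)]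
  ring

theorem trial1_scl {s : ℝ} (hs : 0 < s) {u : E3 → ℂ} (h : Trial1 u) : Trial1 (scl s u) := by
  refine ⟨?_, ?_, ?_⟩
  · unfold scl
    exact contDiff_const.mul (h.smooth.comp (contDiff_const_smul s))
  · have h1 : HasCompactSupport fun x : E3 => u (s • x) :=
      h.compact.comp_homeomorph (Homeomorph.smulOfNeZero s hs.ne')
    exact h1.mul_left
  · simp only [normSq_scl hs]
    rw [integral_const_mul, integral_comp_smul3 hs (fun x => ‖u x‖ ^ 2), h.normalized]
    field_simp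

theorem integral_grad1_scl {s : ℝ} (hs : 0 < s) {u : E3 → ℂ} (h : Trial1 u) :
    ∫ x, grad1 (scl s u) x = s ^ 2 * ∫ x, grad1 u x := by
  have hd : Differentiable ℝ u := h.smooth.differentiable (by simp)
  simp only [grad1_scl hs hd]
  rw [integral_const_mul, integral_comp_smul3 hs (fun x => grad1 u x)]
  field_simp

theorem bgs_scl {s : ℝ} (hs : 0 < s) {u : E3 → ℂ} (hc : Continuous u) (N : ℕ) :
    bgs N (scl s u) = Measure.map (fun x : E3 => s⁻¹ • x) (bgs N u) := by
  have hcs : Continuous (scl s u) := by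
    unfold scl
    exact continuous_const.mul (hc.comp (continuous_const_smul s))
  apply Measure.ext
  intro A hA
  rw [Measure.map_apply (measurable_const_smul _) hA]
  have e1 : ∀ (φ : E3 → ℂ), Continuous φ → ∀ B, MeasurableSet B →
      bgs N φ B = ∫⁻ x, B.indicator (fun x => ENNReal.ofReal (N * ‖φ x‖ ^ 2)) x := by
    intro φ _ B hB
    unfold bgs bg
    rw [withDensity_apply _ hB, lintegral_indicator hB]
  rw [e1 _ hcs A hA, e1 _ hc _ (measurable_const_smul _ hA)]
  have hm : Measurable (((fun x : E3 => s⁻¹ • x) ⁻¹' A).indicator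
      (fun x => ENNReal.ofReal (N * ‖u x‖ ^ 2))) :=
    (by fun_prop : Measurable fun x => ENNReal.ofReal (N * ‖u x‖ ^ 2)).indicator
      (measurable_const_smul _ hA)
  have h2 := lintegral_comp_smul3 hs hm
  have h3 : ∫⁻ x, A.indicator (fun x => ENNReal.ofReal (N * ‖scl s u x‖ ^ 2)) x =
      ENNReal.ofReal (s ^ 3) * ∫⁻ x, (((fun x : E3 => s⁻¹ • x) ⁻¹' A).indicator
        (fun x => ENNReal.ofReal (N * ‖u x‖ ^ 2))) (s • x) := by
    have hm4 : Measurable fun x : E3 => (((fun x : E3 => s⁻¹ • x) ⁻¹' A).indicator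
        (fun x => ENNReal.ofReal (N * ‖u x‖ ^ 2))) (s • x) := hm.comp (measurable_const_smul s)
    rw [← lintegral_const_mul _ hm4]
    congr 1
    ext x
    by_cases hx : x ∈ A
    · have hx' : s • x ∈ (fun x : E3 => s⁻¹ • x) ⁻¹' A := by
        simp only [Set.mem_preimage, smul_smul, inv_mul_cancel₀ hs.ne', one_smul]
        exact hx
      rw [indicator_of_mem hx, indicator_of_mem hx', normSq_scl hs,
        ← ENNReal.ofReal_mul (by positivity)]
      congr 1; ring
    · have hx' : s • x ∉ (fun x : E3 => s⁻¹ • x) ⁻¹' A := by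
        simp only [Set.mem_preimage, smul_smul, inv_mul_cancel₀ hs.ne', one_smul]
        exact hx
      rw [indicator_of_notMem hx, indicator_of_notMem hx', mul_zero]
  rw [h3, h2, ← mul_assoc, ← ENNReal.ofReal_mul (by positivity),
    mul_inv_cancel₀ (by positivity), ENNReal.ofReal_one, one_mul]

theorem Pot_map {s : ℝ} (hs : 0 < s) (β : Measure E3) (y : E3) :
    Pot (Measure.map (fun x : E3 => s⁻¹ • x) β) (s⁻¹ • y) = s * Pot β y := by
  unfold Pot
  rw [integral_map (measurable_const_smul _).aemeasurable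
    (by fun_prop : Measurable fun x : E3 => ‖s⁻¹ • y - x‖⁻¹).aestronglyMeasurable,
    ← integral_const_mul]
  congr 1
  ext x
  rw [← smul_sub, norm_smul, Real.norm_eq_abs, abs_of_pos (by positivity), mul_inv, inv_inv]

theorem JE_map {z s : ℝ} (hs : 0 < s) {β : Measure E3}
    (hβ' : BM (Measure.map (fun x : E3 => s⁻¹ • x) β)) {K : ℕ} (q : Fin K → E3) :
    JE z (Measure.map (fun x : E3 => s⁻¹ • x) β) (fun i => s⁻¹ • q i) = s * JE z β q := by
  unfold JE
  rw [rep_smul q (inv_pos.2 hs), inv_inv, integral_map (measurable_const_smul _).aemeasurable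
    hβ'.measurable_Pot.aestronglyMeasurable]
  simp only [Pot_map hs, integral_const_mul, ← Finset.mul_sum]
  ring

/-- Upper bound on the energy. -/
theorem upper_E {z : ℝ} (hz : 0 < z) {u : E3 → ℂ} (h : Trial1 u) {ε : ℝ} (hε : 0 < ε) :
    ∃ N0 : ℝ, 0 < N0 ∧ ∀ N : ℕ, N0 ≤ N → ∀ K : ℕ, (K : ℝ) * z = N →
      ∃ (R : Fin K → E3) (ψ : Conf N → ℂ), Function.Injective R ∧ Trial ψ ∧
        energy z R ψ ≤ (N : ℝ) ^ (5 / 3 : ℝ) * (limFun z u + ε) := by
  have hc := h.smooth.continuous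
  obtain ⟨N0, hN0, hup⟩ := upper_J hz (hc.norm.pow 2) (fun x => sq_nonneg _)
    (hasCompactSupport_normSq h.compact) h.normalized hε
  refine ⟨N0, hN0, fun N hN K hK => ?_⟩
  obtain ⟨q, hq, hJ⟩ := hup N hN K (by rw [mul_comm]; exact hK)
  have hNpos : (0 : ℝ) < N := hN0.trans_le hN
  set s : ℝ := (N : ℝ) ^ (1 / 3 : ℝ) with hs
  have hs0 : 0 < s := by positivity
  have ht := trial1_scl hs0 h
  refine ⟨fun i => s⁻¹ • q i, prodS N (scl s u), ?_, trial_prodS ht, ?_⟩
  · intro i j hij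
    exact hq (smul_right_injective E3 (inv_pos.2 hs0).ne' hij)
  · refine (energy_prodS_le ht _).trans ?_
    have hBM := BM_bgs ht N
    have hmap := bgs_scl hs0 hc N
    rw [integral_grad1_scl hs0 h]
    rw [hmap] at hBM ⊢
    rw [JE_map hs0 hBM]
    have hJ' : JE z (bgs N u) q ≤ (N : ℝ) ^ (4 / 3 : ℝ) *
        (estar z * (∫ x, (‖u x‖ ^ 2) ^ (4 / 3 : ℝ)) + ε) := hJ
    have e1 : (N : ℝ) * s ^ 2 = (N : ℝ) ^ (5 / 3 : ℝ) := by
      rw [hs, ← Real.rpow_natCast, ← Real.rpow_mul hNpos.le]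
      nth_rewrite 1 [← Real.rpow_one (N : ℝ)]
      rw [← Real.rpow_add hNpos]
      norm_num
    have e2 : s * (N : ℝ) ^ (4 / 3 : ℝ) = (N : ℝ) ^ (5 / 3 : ℝ) := by
      rw [hs, ← Real.rpow_add hNpos]; norm_num
    unfold limFun
    calc (N : ℝ) * (s ^ 2 * ∫ x, grad1 u x) + s * JE z (bgs N u) q
        ≤ (N : ℝ) * (s ^ 2 * ∫ x, grad1 u x) + s * ((N : ℝ) ^ (4 / 3 : ℝ) *
          (estar z * (∫ x, (‖u x‖ ^ 2) ^ (4 / 3 : ℝ)) + ε)) := by gcongr
      _ = ((N : ℝ) * s ^ 2) * (∫ x, grad1 u x) + (s * (N : ℝ) ^ (4 / 3 : ℝ)) *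
          (estar z * (∫ x, (‖u x‖ ^ 2) ^ (4 / 3 : ℝ)) + ε) := by ring
      _ = _ := by rw [e1, e2]; ring

end Pool.Agent.Lib_helper90c


end

section

/-!
# Conditional one-particle functions
-/

set_option autoImplicit false

open MeasureTheory Set Metric Filter
open scoped ENNReal NNReal Topology

namespace Pool.Agent.Lib_helper90c

section
variable {N : ℕ}

/-- the wave function as a function of particle `i` only -/
def slice (ψ : Conf N → ℂ) (x : Conf N) (i : Fin N) (y : E3) : ℂ := ψ (Function.update x i y)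

theorem contDiff_slice {ψ : Conf N → ℂ} (h : ContDiff ℝ (⊤ : ℕ∞) ψ) (x : Conf N) (i : Fin N) :
    ContDiff ℝ (⊤ : ℕ∞) (slice ψ x i) := by
  unfold slice
  exact h.comp (contDiff_update _ x i)

theorem hasCompactSupport_slice {ψ : Conf N → ℂ} (h : HasCompactSupport ψ) (x : Conf N)
    (i : Fin N) : HasCompactSupport (slice ψ x i) := by
  have hK : IsCompact ((fun x : Conf N => x i) '' tsupport ψ) := h.image (continuous_apply i)
  refine HasCompactSupport.intro hK fun y hy => ?_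
  by_contra hne
  apply hy
  exact ⟨Function.update x i y, subset_tsupport ψ hne, by simp⟩

theorem fderiv_slice {ψ : Conf N → ℂ} (h : Differentiable ℝ ψ) (x : Conf N) (i : Fin N) (y v : E3) :
    fderiv ℝ (slice ψ x i) y v = fderiv ℝ ψ (Function.update x i y) (Pi.single i v) := by
  have h1 := hasFDerivAt_update (𝕜 := ℝ) (E := fun _ : Fin N => E3) x (i := i) y
  have h2 := (h (Function.update x i y)).hasFDerivAt.comp y h1
  have h3 : HasFDerivAt (slice ψ x i) _ y := h2
  rw [h3.fderiv, ContinuousLinearMap.comp_apply]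
  congr 1
  ext k
  by_cases hk : k = i
  · subst hk; simp
  · simp [hk]

theorem grad1_slice {ψ : Conf N → ℂ} (h : Differentiable ℝ ψ) (x : Conf N) (i : Fin N) (y : E3) :
    grad1 (slice ψ x i) y = gradSq ψ i (Function.update x i y) := by
  unfold grad1 gradSq
  simp only [fderiv_slice h]

/-- normalised indicator of the unit ball -/
noncomputable def chi0 (y : E3) : ℝ≥0∞ :=
  (ENNReal.ofReal (vB 1))⁻¹ * (ball (0 : E3) 1).indicator 1 y

theorem measurable_chi0 : Measurable chi0 := by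
  unfold chi0
  exact (measurable_one.indicator measurableSet_ball).const_mul _

theorem lintegral_chi0 : ∫⁻ y, chi0 y = 1 := by
  unfold chi0
  rw [lintegral_const_mul _ (measurable_one.indicator measurableSet_ball),
    lintegral_indicator_one measurableSet_ball, volume_ball_eq 0 zero_le_one,
    ENNReal.inv_mul_cancel (ENNReal.ofReal_pos.2 (vB_pos one_pos)).ne' ENNReal.ofReal_ne_top]

/-- measure on the configurations of the other particles (particle `i` is a dummy variable) -/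
noncomputable def mu (i : Fin N) : Measure (Conf N) :=
  (volume : Measure (Conf N)).withDensity fun x => chi0 (x i)

theorem measurable_slice_comp {F : Conf N → ℝ≥0∞} (hF : Measurable F) (i : Fin N) :
    Measurable fun q : Conf N × E3 => F (Function.update q.1 i q.2) :=
  hF.comp (measurable_update_pair i)

instance (i : Fin N) : SFinite (mu i) := by unfold mu; infer_instance

theorem lintegral_mu (i : Fin N) {F : Conf N → ℝ≥0∞} (hF : Measurable F) :
    ∫⁻ x, F x ∂(mu i) = ∫⁻ x, F x * chi0 (x i) := by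
  unfold mu
  have hm : Measurable fun x : Conf N => chi0 (x i) := measurable_chi0.comp (measurable_pi_apply i)
  rw [lintegral_withDensity_eq_lintegral_mul _ hm hF]
  congr 1
  ext x
  rw [Pi.mul_apply, mul_comm]

/-- Disintegration with respect to particle `i`. -/
theorem lintegral_disint (i : Fin N) {F : Conf N → ℝ≥0∞} (hF : Measurable F) :
    ∫⁻ x, F x = ∫⁻ x, ∫⁻ y, F (Function.update x i y) ∂volume ∂(mu i) := by
  have hm : Measurable fun x : Conf N => ∫⁻ y, F (Function.update x i y) :=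
    (measurable_slice_comp hF i).lintegral_prod_right'
  have hmc : Measurable fun x : Conf N => chi0 (x i) :=
    measurable_chi0.comp (measurable_pi_apply i)
  rw [lintegral_mu i hm]
  refine lintegral_update_eq i hF (hm.mul hmc) fun x => ?_
  simp only [Function.update_idem, Function.update_self]
  rw [lintegral_const_mul _ measurable_chi0, lintegral_chi0, mul_one]

/-- one-particle density of particle `i` -/
noncomputable def rhoi (w : Conf N → ℝ≥0∞) (i : Fin N) (y : E3) : ℝ≥0∞ :=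
  ∫⁻ x, w (Function.update x i y) ∂(mu i)

/-- one-particle density -/
noncomputable def rho (w : Conf N → ℝ≥0∞) (y : E3) : ℝ≥0∞ := ∑ i, rhoi w i y

theorem measurable_rhoi {w : Conf N → ℝ≥0∞} (hw : Measurable w) (i : Fin N) :
    Measurable (rhoi w i) := by
  unfold rhoi
  exact ((measurable_slice_comp hw i).comp measurable_swap).lintegral_prod_right'

theorem measurable_rho {w : Conf N → ℝ≥0∞} (hw : Measurable w) : Measurable (rho w) := by
  unfold rho
  exact Finset.measurable_sum _ fun i _ => measurable_rhoi hw i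

theorem lintegral_eval_rhoi {w : Conf N → ℝ≥0∞} (hw : Measurable w) (i : Fin N) {f : E3 → ℝ≥0∞}
    (hf : Measurable f) : ∫⁻ x : Conf N, f (x i) * w x = ∫⁻ y, f y * rhoi w i y := by
  have hF : Measurable fun x : Conf N => f (x i) * w x := (hf.comp (measurable_pi_apply i)).mul hw
  rw [lintegral_disint i hF]
  simp only [Function.update_self]
  have hjm : Measurable fun q : Conf N × E3 => f q.2 * w (Function.update q.1 i q.2) :=
    (hf.comp measurable_snd).mul (measurable_slice_comp hw i)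
  rw [lintegral_lintegral_swap (f := fun (x : Conf N) (y : E3) =>
    f y * w (Function.update x i y)) hjm.aemeasurable]
  congr 1
  ext y
  have hm : Measurable fun x : Conf N => w (Function.update x i y) :=
    (measurable_slice_comp hw i).comp (measurable_id.prodMk measurable_const)
  rw [lintegral_const_mul _ hm]
  rfl

theorem sum_lintegral_eval {w : Conf N → ℝ≥0∞} (hw : Measurable w) {f : E3 → ℝ≥0∞}
    (hf : Measurable f) : ∑ i, ∫⁻ x : Conf N, f (x i) * w x = ∫⁻ y, f y * rho w y := by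
  simp only [lintegral_eval_rhoi hw _ hf]
  have hm : ∀ i, Measurable fun y => f y * rhoi w i y := fun i => hf.mul (measurable_rhoi hw i)
  rw [← lintegral_finsetSum _ fun i _ => hm i]
  congr 1
  ext y
  rw [rho, Finset.mul_sum]

end

end Pool.Agent.Lib_helper90c


end

section

/-!
# A weighted Poincaré inequality on balls
-/

set_option autoImplicit false

open MeasureTheory Set Metric Filter
open scoped ENNReal NNReal Topology

namespace Pool.Agent.Lib_helper90c

/-- `|f'(x) v|² ≤ |v|² |∇f|²` -/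
theorem norm_fderiv_sq_le (f : E3 → ℂ) (x v : E3) :
    ‖fderiv ℝ f x v‖ ^ 2 ≤ ‖v‖ ^ 2 * grad1 f x := by
  have hv : v = ∑ a : Fin 3, v a • EuclideanSpace.single a (1 : ℝ) := by
    ext k
    simp [Finset.sum_apply, Pi.single_apply]
  have h1 : fderiv ℝ f x v = ∑ a : Fin 3, v a • fderiv ℝ f x (EuclideanSpace.single a (1 : ℝ)) := by
    conv_lhs => rw [hv]
    rw [map_sum]
    simp only [map_smul]
  have h2 : ‖fderiv ℝ f x v‖ ≤
      ∑ a : Fin 3, |v a| * ‖fderiv ℝ f x (EuclideanSpace.single a (1 : ℝ))‖ := by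
    rw [h1]
    refine (norm_sum_le _ _).trans (Finset.sum_le_sum fun a _ => ?_)
    rw [norm_smul, Real.norm_eq_abs]
  have h3 : (∑ a : Fin 3, |v a| * ‖fderiv ℝ f x (EuclideanSpace.single a (1 : ℝ))‖) ^ 2 ≤
      (∑ a : Fin 3, |v a| ^ 2) *
        ∑ a : Fin 3, ‖fderiv ℝ f x (EuclideanSpace.single a (1 : ℝ))‖ ^ 2 :=
    Finset.sum_mul_sq_le_sq_mul_sq _ _ _
  have h4 : ∑ a : Fin 3, |v a| ^ 2 = ‖v‖ ^ 2 := by
    rw [EuclideanSpace.norm_sq_eq]
    simp only [Real.norm_eq_abs]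
  rw [h4] at h3
  exact (pow_le_pow_left₀ (norm_nonneg _) h2 2).trans h3

theorem grad1_nonneg (f : E3 → ℂ) (x : E3) : 0 ≤ grad1 f x := by unfold grad1; positivity

theorem lintegral_rpow_neg_half :
    ∫⁻ t in Ioo (0 : ℝ) 1, ENNReal.ofReal (t ^ (-(1 / 2) : ℝ)) = 2 := by
  have h1 : IntegrableOn (fun t : ℝ => t ^ (-(1 / 2) : ℝ)) (Ioo 0 1) := by
    rw [← integrableOn_Ioc_iff_integrableOn_Ioo,
      ← intervalIntegrable_iff_integrableOn_Ioc_of_le zero_le_one]
    exact intervalIntegral.intervalIntegrable_rpow' (by norm_num)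
  have h2 : ∫ t in Ioo (0 : ℝ) 1, t ^ (-(1 / 2) : ℝ) = 2 := by
    rw [← integral_Ioc_eq_integral_Ioo, ← intervalIntegral.integral_of_le zero_le_one,
      integral_rpow (Or.inl (by norm_num))]
    norm_num
  rw [← ofReal_integral_eq_lintegral_ofReal h1, h2]
  · norm_num
  · rw [EventuallyLE, ae_restrict_iff' measurableSet_Ioo]
    exact Eventually.of_forall fun t ht => Real.rpow_nonneg ht.1.le _

/-- pointwise segment estimate -/
theorem segment_bound {f : E3 → ℂ} (hf : ContDiff ℝ 1 f) (x y : E3) :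
    ENNReal.ofReal (‖f x - f y‖ ^ 2) ≤ 2 * (ENNReal.ofReal (‖x - y‖ ^ 2) *
      ∫⁻ t in Ioo (0 : ℝ) 1, ENNReal.ofReal (t ^ (1 / 2 : ℝ)) *
        ENNReal.ofReal (grad1 f (x + t • (y - x)))) := by
  have hd : Differentiable ℝ f := hf.differentiable (by norm_num)
  have hcf : Continuous (fderiv ℝ f) := hf.continuous_fderiv (by norm_num)
  have hcg : Continuous (grad1 f) := by
    unfold grad1
    exact continuous_finsetSum _ fun a _ => ((hcf.clm_apply continuous_const).norm.pow 2)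
  have hline : Continuous fun t : ℝ => x + t • (y - x) := by fun_prop
  set g : ℝ → ℝ := fun t => Real.sqrt (grad1 f (x + t • (y - x))) with hg
  have hgc : Continuous g := (hcg.comp hline).sqrt
  -- fundamental theorem of calculus
  have hderiv : ∀ t : ℝ, HasDerivAt (fun t : ℝ => f (x + t • (y - x)))
      (fderiv ℝ f (x + t • (y - x)) (y - x)) t := by
    intro t
    have h1 : HasDerivAt (fun t : ℝ => x + t • (y - x)) (y - x) t := by
      have := ((hasDerivAt_id t).smul_const (y - x)).const_add x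
      simpa using this
    exact (hd _).hasFDerivAt.comp_hasDerivAt t h1
  have hftc : ∫ t in (0 : ℝ)..1, fderiv ℝ f (x + t • (y - x)) (y - x) = f y - f x := by
    rw [intervalIntegral.integral_eq_sub_of_hasDerivAt (fun t _ => hderiv t)]
    · simp
    · exact ((hcf.comp hline).clm_apply continuous_const).intervalIntegrable _ _
  have hnorm : ‖f x - f y‖ ≤ ‖x - y‖ * ∫ t in Ioo (0 : ℝ) 1, g t := by
    rw [norm_sub_rev, ← hftc, intervalIntegral.integral_of_le zero_le_one,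
      integral_Ioc_eq_integral_Ioo, ← integral_const_mul]
    have hint : IntegrableOn (fun t => ‖x - y‖ * g t) (Ioo (0 : ℝ) 1) :=
      ((continuous_const.mul hgc).integrableOn_Icc (a := 0) (b := 1)).mono_set Ioo_subset_Icc_self
    refine norm_integral_le_of_norm_le hint (Eventually.of_forall fun t => ?_)
    have h2 := norm_fderiv_sq_le f (x + t • (y - x)) (y - x)
    rw [norm_sub_rev y x] at h2
    have h3 : (‖x - y‖ * g t) ^ 2 = ‖x - y‖ ^ 2 * grad1 f (x + t • (y - x)) := by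
      rw [mul_pow, hg, Real.sq_sqrt (grad1_nonneg _ _)]
    rw [← h3] at h2
    exact (pow_le_pow_iff_left₀ (norm_nonneg _) (mul_nonneg (norm_nonneg _) (Real.sqrt_nonneg _))
      (by norm_num)).1 h2
  -- Cauchy-Schwarz
  have hcs : ENNReal.ofReal (∫ t in Ioo (0 : ℝ) 1, g t) ^ 2 ≤
      2 * ∫⁻ t in Ioo (0 : ℝ) 1, ENNReal.ofReal (t ^ (1 / 2 : ℝ)) *
        ENNReal.ofReal (grad1 f (x + t • (y - x))) := by
    have hgi : IntegrableOn g (Ioo (0 : ℝ) 1) :=
      (hgc.integrableOn_Icc (a := 0) (b := 1)).mono_set Ioo_subset_Icc_self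
    rw [ofReal_integral_eq_lintegral_ofReal hgi (Eventually.of_forall fun t => Real.sqrt_nonneg _)]
    have e1 : ∫⁻ t in Ioo (0 : ℝ) 1, ENNReal.ofReal (g t) =
        ∫⁻ t in Ioo (0 : ℝ) 1, ((fun t : ℝ => ENNReal.ofReal (t ^ (-(1 / 4) : ℝ))) *
          (fun t : ℝ => ENNReal.ofReal (t ^ (1 / 4 : ℝ) * g t))) t := by
      apply setLIntegral_congr_fun measurableSet_Ioo
      intro t ht
      have ht0 : 0 < t := ht.1
      simp only [Pi.mul_apply]
      rw [← ENNReal.ofReal_mul (by positivity), ← mul_assoc, ← Real.rpow_add ht0]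
      norm_num
    rw [e1]
    have hm1 : Measurable fun t : ℝ => ENNReal.ofReal (t ^ (-(1 / 4) : ℝ)) := by fun_prop
    have hm2 : Measurable fun t : ℝ => ENNReal.ofReal (t ^ (1 / 4 : ℝ) * g t) :=
      ((by fun_prop : Measurable fun t : ℝ => t ^ (1 / 4 : ℝ)).mul hgc.measurable).ennreal_ofReal
    have h4 := ENNReal.lintegral_mul_le_Lp_mul_Lq (volume.restrict (Ioo (0 : ℝ) 1))
      (Real.HolderConjugate.two_two) hm1.aemeasurable hm2.aemeasurable
    have h5 := pow_le_pow_left' h4 2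
    refine h5.trans (le_of_eq ?_)
    rw [mul_pow]
    have e2 : ∀ A : ℝ≥0∞, (A ^ (1 / 2 : ℝ)) ^ 2 = A := by
      intro A
      rw [← ENNReal.rpow_natCast, ← ENNReal.rpow_mul]
      norm_num
    rw [e2, e2]
    congr 1
    · rw [← lintegral_rpow_neg_half]
      apply setLIntegral_congr_fun measurableSet_Ioo
      intro t ht
      have ht0 : 0 < t := ht.1
      simp only
      rw [ENNReal.rpow_two, ← ENNReal.ofReal_pow (by positivity), ← Real.rpow_natCast,
        ← Real.rpow_mul ht0.le]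
      norm_num
    · apply setLIntegral_congr_fun measurableSet_Ioo
      intro t ht
      have ht0 : 0 < t := ht.1
      simp only
      rw [ENNReal.rpow_two, ← ENNReal.ofReal_pow (mul_nonneg (by positivity)
        (Real.sqrt_nonneg _)), mul_pow, ← Real.rpow_natCast, ← Real.rpow_mul ht0.le,
        Real.sq_sqrt (grad1_nonneg _ _), ← ENNReal.ofReal_mul (by positivity)]
      norm_num
  calc ENNReal.ofReal (‖f x - f y‖ ^ 2)
      ≤ ENNReal.ofReal ((‖x - y‖ * ∫ t in Ioo (0 : ℝ) 1, g t) ^ 2) :=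
        ENNReal.ofReal_le_ofReal (pow_le_pow_left₀ (norm_nonneg _) hnorm 2)
    _ = ENNReal.ofReal (‖x - y‖ ^ 2) * ENNReal.ofReal (∫ t in Ioo (0 : ℝ) 1, g t) ^ 2 := by
        rw [mul_pow, ENNReal.ofReal_mul (sq_nonneg _), ENNReal.ofReal_pow (p := ∫ t in Ioo (0 : ℝ) 1, g t)
          (integral_nonneg fun t => Real.sqrt_nonneg _)]
    _ ≤ _ := by
        rw [mul_left_comm]
        gcongr

/-- the weight in the change of variables -/
theorem weight_bound {c R v : E3} {r t : ℝ} (hr : 0 < r) (ht0 : 0 < t) (ht1 : t < 1) :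
    ∫⁻ x in ball c r, ENNReal.ofReal ‖x - R‖⁻¹ *
      (ball c r).indicator 1 (t⁻¹ • (v - (1 - t) • x)) ≤
      (ball c r).indicator 1 v * ENNReal.ofReal (8 * Real.pi * t ^ 2 * r ^ 2) := by
  have hpi := Real.pi_pos
  by_cases hv : v ∈ ball c r
  · rw [indicator_of_mem hv, Pi.one_apply, one_mul]
    have hsym : ∀ (c' : E3) (s : ℝ), 0 ≤ s → ∫⁻ x in ball c' s, ENNReal.ofReal ‖x - R‖⁻¹ ≤
        ENNReal.ofReal (2 * Real.pi * s ^ 2) := by
      intro c' s hs
      have h1 := lintegral_ball_inv' c' R hs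
      simp only [norm_sub_rev R] at h1
      rw [h1]
      exact ENNReal.ofReal_le_ofReal (ballPot_le hs (norm_nonneg _))
    by_cases ht : t < 1 / 2
    · have h1t : 0 < 1 - t := by linarith
      set c' : E3 := (1 - t)⁻¹ • (v - t • c) with hc'
      have hsub : ∀ x, t⁻¹ • (v - (1 - t) • x) ∈ ball c r → x ∈ ball c' (2 * t * r) := by
        intro x hx
        rw [mem_ball_iff_norm] at hx ⊢
        have e1 : t⁻¹ • (v - (1 - t) • x) - c = -(t⁻¹ * (1 - t)) • (x - c') := by
          rw [hc']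
          match_scalars <;> field_simp
        rw [e1, norm_smul, norm_neg, Real.norm_eq_abs, abs_of_pos (by positivity)] at hx
        have h2 : ‖x - c'‖ < r * (t * (1 - t)⁻¹) := by
          have : ‖x - c'‖ = (t * (1 - t)⁻¹) * (t⁻¹ * (1 - t) * ‖x - c'‖) := by field_simp
          rw [this, mul_comm r]
          exact mul_lt_mul_of_pos_left hx (by positivity)
        have h3 : (1 - t)⁻¹ ≤ 2 := by
          rw [inv_le_comm₀ h1t (by norm_num)]; norm_num; linarith
        calc ‖x - c'‖ < r * (t * (1 - t)⁻¹) := h2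
          _ ≤ r * (t * 2) := by gcongr
          _ = 2 * t * r := by ring
      calc ∫⁻ x in ball c r, ENNReal.ofReal ‖x - R‖⁻¹ *
            (ball c r).indicator 1 (t⁻¹ • (v - (1 - t) • x))
          ≤ ∫⁻ x in ball c r, (ball c' (2 * t * r)).indicator
              (fun x => ENNReal.ofReal ‖x - R‖⁻¹) x := by
            apply lintegral_mono
            intro x
            by_cases hx : t⁻¹ • (v - (1 - t) • x) ∈ ball c r
            · simp only [indicator_of_mem hx, indicator_of_mem (hsub x hx)]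
              simp
            · simp only [indicator_of_notMem hx]
              simp
        _ ≤ ∫⁻ x, (ball c' (2 * t * r)).indicator (fun x => ENNReal.ofReal ‖x - R‖⁻¹) x :=
            setLIntegral_le_lintegral _ _
        _ = ∫⁻ x in ball c' (2 * t * r), ENNReal.ofReal ‖x - R‖⁻¹ :=
            lintegral_indicator measurableSet_ball _
        _ ≤ ENNReal.ofReal (2 * Real.pi * (2 * t * r) ^ 2) := hsym _ _ (by positivity)
        _ = _ := by congr 1; ring
    · push Not at ht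
      calc ∫⁻ x in ball c r, ENNReal.ofReal ‖x - R‖⁻¹ *
            (ball c r).indicator 1 (t⁻¹ • (v - (1 - t) • x))
          ≤ ∫⁻ x in ball c r, ENNReal.ofReal ‖x - R‖⁻¹ := by
            apply lintegral_mono
            intro x
            by_cases hx : t⁻¹ • (v - (1 - t) • x) ∈ ball c r
            · simp only [indicator_of_mem hx]; simp
            · simp only [indicator_of_notMem hx]; simp
        _ ≤ ENNReal.ofReal (2 * Real.pi * r ^ 2) := hsym _ _ hr.le
        _ ≤ _ := by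
            apply ENNReal.ofReal_le_ofReal
            have h1 : (1 : ℝ) ≤ 4 * t ^ 2 := by nlinarith
            have h2 : 0 ≤ 2 * Real.pi * r ^ 2 := by positivity
            nlinarith
  · rw [indicator_of_notMem hv, zero_mul]
    have hzero : ∀ x ∈ ball c r, ENNReal.ofReal ‖x - R‖⁻¹ *
        (ball c r).indicator (1 : E3 → ℝ≥0∞) (t⁻¹ • (v - (1 - t) • x)) = 0 := by
      intro x hx
      rw [indicator_of_notMem, mul_zero]
      intro hy
      apply hv
      have hconv := (convex_ball c r) hx hy (by linarith : (0:ℝ) ≤ 1 - t) ht0.le (by ring)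
      rw [smul_smul, mul_inv_cancel₀ ht0.ne', one_smul] at hconv
      have : (1 - t) • x + (v - (1 - t) • x) = v := by abel
      rwa [this] at hconv
    rw [setLIntegral_congr_fun measurableSet_ball hzero]
    simp

theorem inner_bound {G : E3 → ℝ≥0∞} (hG : Measurable G) {c R : E3} {r t : ℝ} (hr : 0 < r)
    (ht0 : 0 < t) (ht1 : t < 1) :
    ∫⁻ x in ball c r, ENNReal.ofReal ‖x - R‖⁻¹ * ∫⁻ y in ball c r, G (x + t • (y - x)) ≤
      ENNReal.ofReal (8 * Real.pi * r ^ 2 * t⁻¹) * ∫⁻ v in ball c r, G v := by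
  have hpi := Real.pi_pos
  have hχ : Measurable ((ball c r).indicator (1 : E3 → ℝ≥0∞)) :=
    measurable_one.indicator measurableSet_ball
  have h1 : ∀ x : E3, ∫⁻ y in ball c r, G (x + t • (y - x)) =
      ENNReal.ofReal (t ^ 3)⁻¹ *
        ∫⁻ v, (ball c r).indicator 1 (t⁻¹ • (v - (1 - t) • x)) * G v := by
    intro x
    set F : E3 → ℝ≥0∞ := fun v => (ball c r).indicator 1 (t⁻¹ • (v - (1 - t) • x)) * G v with hF
    have hFm : Measurable F := (hχ.comp (by fun_prop)).mul hG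
    have e1 : ∫⁻ y in ball c r, G (x + t • (y - x)) = ∫⁻ y, F ((1 - t) • x + t • y) := by
      rw [← lintegral_indicator measurableSet_ball]
      congr 1
      ext y
      simp only [hF]
      have e2 : t⁻¹ • ((1 - t) • x + t • y - (1 - t) • x) = y := by
        rw [add_sub_cancel_left, smul_smul, inv_mul_cancel₀ ht0.ne', one_smul]
      have e3 : (1 - t) • x + t • y = x + t • (y - x) := by
        rw [sub_smul, one_smul, smul_sub]; abel
      rw [e2, e3]
      by_cases hy : y ∈ ball c r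
      · rw [indicator_of_mem hy, indicator_of_mem hy]; simp
      · rw [indicator_of_notMem hy, indicator_of_notMem hy]; simp
    rw [e1, lintegral_comp_smul3 ht0 (f := fun u => F ((1 - t) • x + u))
      (hFm.comp (by fun_prop)), lintegral_add_left_eq_self]
  simp only [h1]
  have hjm : Measurable fun q : E3 × E3 => ENNReal.ofReal ‖q.1 - R‖⁻¹ *
      ((ball c r).indicator 1 (t⁻¹ • (q.2 - (1 - t) • q.1)) * G q.2) := by
    have a1 : Measurable fun q : E3 × E3 => ENNReal.ofReal ‖q.1 - R‖⁻¹ := by fun_prop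
    have a2 : Measurable fun q : E3 × E3 => t⁻¹ • (q.2 - (1 - t) • q.1) := by fun_prop
    exact a1.mul ((hχ.comp a2).mul (hG.comp measurable_snd))
  calc ∫⁻ x in ball c r, ENNReal.ofReal ‖x - R‖⁻¹ * (ENNReal.ofReal (t ^ 3)⁻¹ *
        ∫⁻ v, (ball c r).indicator 1 (t⁻¹ • (v - (1 - t) • x)) * G v)
      = ENNReal.ofReal (t ^ 3)⁻¹ * ∫⁻ x in ball c r, ∫⁻ v, ENNReal.ofReal ‖x - R‖⁻¹ *
          ((ball c r).indicator 1 (t⁻¹ • (v - (1 - t) • x)) * G v) := by
        have hm4 : Measurable fun x : E3 => ∫⁻ v, ENNReal.ofReal ‖x - R‖⁻¹ *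
            ((ball c r).indicator 1 (t⁻¹ • (v - (1 - t) • x)) * G v) :=
          hjm.lintegral_prod_right'
        rw [← lintegral_const_mul _ hm4]
        congr 1
        ext x
        have hm5 : Measurable fun v : E3 =>
            (ball c r).indicator 1 (t⁻¹ • (v - (1 - t) • x)) * G v :=
          (hχ.comp (by fun_prop)).mul hG
        rw [lintegral_const_mul _ hm5]
        ring
    _ = ENNReal.ofReal (t ^ 3)⁻¹ * ∫⁻ v, ∫⁻ x in ball c r, ENNReal.ofReal ‖x - R‖⁻¹ *
          ((ball c r).indicator 1 (t⁻¹ • (v - (1 - t) • x)) * G v) := by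
        rw [lintegral_lintegral_swap (f := fun x v : E3 => ENNReal.ofReal ‖x - R‖⁻¹ *
          ((ball c r).indicator 1 (t⁻¹ • (v - (1 - t) • x)) * G v)) hjm.aemeasurable]
    _ ≤ ENNReal.ofReal (t ^ 3)⁻¹ * ∫⁻ v, (ball c r).indicator 1 v *
          ENNReal.ofReal (8 * Real.pi * t ^ 2 * r ^ 2) * G v := by
        gcongr with v
        have hm6 : Measurable fun x : E3 => ENNReal.ofReal ‖x - R‖⁻¹ *
            (ball c r).indicator 1 (t⁻¹ • (v - (1 - t) • x)) :=
          (by fun_prop : Measurable fun x : E3 => ENNReal.ofReal ‖x - R‖⁻¹).mul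
            (hχ.comp (by fun_prop))
        simp only [← mul_assoc]
        rw [lintegral_mul_const _ hm6]
        gcongr
        exact weight_bound hr ht0 ht1
    _ = ENNReal.ofReal (8 * Real.pi * r ^ 2 * t⁻¹) * ∫⁻ v in ball c r, G v := by
        have e1 : ∀ v, (ball c r).indicator 1 v *
            ENNReal.ofReal (8 * Real.pi * t ^ 2 * r ^ 2) * G v =
            ENNReal.ofReal (8 * Real.pi * t ^ 2 * r ^ 2) * (ball c r).indicator G v := by
          intro v
          by_cases hv : v ∈ ball c r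
          · rw [indicator_of_mem hv, indicator_of_mem hv]; simp
          · rw [indicator_of_notMem hv, indicator_of_notMem hv]; simp
        simp only [e1]
        rw [lintegral_const_mul _ (hG.indicator measurableSet_ball),
          lintegral_indicator measurableSet_ball, ← mul_assoc,
          ← ENNReal.ofReal_mul (by positivity)]
        congr 2
        field_simp

/-- Weighted Poincaré inequality on a ball. -/
theorem ball_poinc {f : E3 → ℂ} (hf : ContDiff ℝ 1 f) (c R : E3) {r : ℝ} (hr : 0 < r) :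
    ∫⁻ x in ball c r, ENNReal.ofReal ‖x - R‖⁻¹ *
      ∫⁻ y in ball c r, ENNReal.ofReal (‖f x - f y‖ ^ 2) ≤
      ENNReal.ofReal (128 * Real.pi * r ^ 4) * ∫⁻ v in ball c r, ENNReal.ofReal (grad1 f v) := by
  have hpi := Real.pi_pos
  have hcf : Continuous (fderiv ℝ f) := hf.continuous_fderiv (by norm_num)
  have hcg : Continuous (grad1 f) := by
    unfold grad1
    exact continuous_finsetSum _ fun a _ => ((hcf.clm_apply continuous_const).norm.pow 2)
  set G : E3 → ℝ≥0∞ := fun v => ENNReal.ofReal (grad1 f v) with hGdef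
  have hG : Measurable G := hcg.measurable.ennreal_ofReal
  -- measurability of the joint functions
  have hm3 : Measurable fun q : (E3 × E3) × ℝ => ENNReal.ofReal (q.2 ^ (1 / 2 : ℝ)) *
      G (q.1.1 + q.2 • (q.1.2 - q.1.1)) := by
    have a1 : Measurable fun q : (E3 × E3) × ℝ => ENNReal.ofReal (q.2 ^ (1 / 2 : ℝ)) := by
      fun_prop
    have a2 : Measurable fun q : (E3 × E3) × ℝ => q.1.1 + q.2 • (q.1.2 - q.1.1) := by fun_prop
    exact a1.mul (hG.comp a2)
  have step1 : ∀ x ∈ ball c r, ∀ y ∈ ball c r, ENNReal.ofReal (‖f x - f y‖ ^ 2) ≤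
      ENNReal.ofReal (8 * r ^ 2) * ∫⁻ t in Ioo (0 : ℝ) 1, ENNReal.ofReal (t ^ (1 / 2 : ℝ)) *
        G (x + t • (y - x)) := by
    intro x hx y hy
    refine (segment_bound hf x y).trans ?_
    rw [← mul_assoc]
    gcongr
    have h0 : 2 * ENNReal.ofReal (‖x - y‖ ^ 2) = ENNReal.ofReal (2 * ‖x - y‖ ^ 2) := by
      rw [ENNReal.ofReal_mul (by norm_num)]; norm_num
    rw [h0]
    apply ENNReal.ofReal_le_ofReal
    have h1 : ‖x - y‖ ≤ 2 * r := by
      rw [mem_ball_iff_norm] at hx hy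
      have := norm_sub_le_norm_sub_add_norm_sub x c y
      rw [norm_sub_rev c y] at this
      linarith
    have h2 : ‖x - y‖ ^ 2 ≤ (2 * r) ^ 2 := pow_le_pow_left₀ (norm_nonneg _) h1 2
    linarith
  have step2 : ∀ x ∈ ball c r, ENNReal.ofReal ‖x - R‖⁻¹ *
      ∫⁻ y in ball c r, ENNReal.ofReal (‖f x - f y‖ ^ 2) ≤
      ENNReal.ofReal (8 * r ^ 2) * ∫⁻ t in Ioo (0 : ℝ) 1, ENNReal.ofReal (t ^ (1 / 2 : ℝ)) *
        (ENNReal.ofReal ‖x - R‖⁻¹ * ∫⁻ y in ball c r, G (x + t • (y - x))) := by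
    intro x hx
    have hmx : Measurable fun q : E3 × ℝ => ENNReal.ofReal (q.2 ^ (1 / 2 : ℝ)) *
        G (x + q.2 • (q.1 - x)) := by
      have : Measurable fun q : E3 × ℝ => ((x, q.1), q.2) := by fun_prop
      exact hm3.comp this
    have hmy : Measurable fun y : E3 => ∫⁻ t in Ioo (0 : ℝ) 1,
        ENNReal.ofReal (t ^ (1 / 2 : ℝ)) * G (x + t • (y - x)) := hmx.lintegral_prod_right'
    have h1 : ∫⁻ y in ball c r, ENNReal.ofReal (‖f x - f y‖ ^ 2) ≤
        ENNReal.ofReal (8 * r ^ 2) * ∫⁻ y in ball c r, ∫⁻ t in Ioo (0 : ℝ) 1,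
          ENNReal.ofReal (t ^ (1 / 2 : ℝ)) * G (x + t • (y - x)) := by
      rw [← lintegral_const_mul _ hmy]
      exact setLIntegral_mono' measurableSet_ball (step1 x hx)
    have h2 : ∫⁻ y in ball c r, ∫⁻ t in Ioo (0 : ℝ) 1,
        ENNReal.ofReal (t ^ (1 / 2 : ℝ)) * G (x + t • (y - x)) =
        ∫⁻ t in Ioo (0 : ℝ) 1, ENNReal.ofReal (t ^ (1 / 2 : ℝ)) *
          ∫⁻ y in ball c r, G (x + t • (y - x)) := by
      rw [lintegral_lintegral_swap (f := fun (y : E3) (t : ℝ) =>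
        ENNReal.ofReal (t ^ (1 / 2 : ℝ)) * G (x + t • (y - x))) hmx.aemeasurable]
      congr 1
      ext t
      have hmG : Measurable fun y : E3 => G (x + t • (y - x)) := hG.comp (by fun_prop)
      rw [lintegral_const_mul _ hmG]
    have hmt : Measurable fun t : ℝ => ENNReal.ofReal (t ^ (1 / 2 : ℝ)) *
        ∫⁻ y in ball c r, G (x + t • (y - x)) := by
      have a1 : Measurable fun t : ℝ => ENNReal.ofReal (t ^ (1 / 2 : ℝ)) := by fun_prop
      have a3 : Measurable fun q : ℝ × E3 => G (x + q.1 • (q.2 - x)) :=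
        hG.comp (by fun_prop)
      exact a1.mul a3.lintegral_prod_right'
    calc ENNReal.ofReal ‖x - R‖⁻¹ * ∫⁻ y in ball c r, ENNReal.ofReal (‖f x - f y‖ ^ 2)
        ≤ ENNReal.ofReal ‖x - R‖⁻¹ * (ENNReal.ofReal (8 * r ^ 2) *
          ∫⁻ t in Ioo (0 : ℝ) 1, ENNReal.ofReal (t ^ (1 / 2 : ℝ)) *
            ∫⁻ y in ball c r, G (x + t • (y - x))) := by
          rw [← h2]; gcongr
      _ = ENNReal.ofReal (8 * r ^ 2) * (ENNReal.ofReal ‖x - R‖⁻¹ *
          ∫⁻ t in Ioo (0 : ℝ) 1, ENNReal.ofReal (t ^ (1 / 2 : ℝ)) *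
            ∫⁻ y in ball c r, G (x + t • (y - x))) := by ring
      _ = _ := by
          rw [← lintegral_const_mul _ hmt]
          congr 2
          ext t
          ring
  have hmj : Measurable fun q : E3 × ℝ => ENNReal.ofReal (q.2 ^ (1 / 2 : ℝ)) *
      (ENNReal.ofReal ‖q.1 - R‖⁻¹ * ∫⁻ y in ball c r, G (q.1 + q.2 • (y - q.1))) := by
    have a1 : Measurable fun q : E3 × ℝ => ENNReal.ofReal (q.2 ^ (1 / 2 : ℝ)) := by fun_prop
    have a2 : Measurable fun q : E3 × ℝ => ENNReal.ofReal ‖q.1 - R‖⁻¹ := by fun_prop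
    have a3 : Measurable fun q : (E3 × ℝ) × E3 => G (q.1.1 + q.1.2 • (q.2 - q.1.1)) :=
      hG.comp (by fun_prop)
    exact a1.mul (a2.mul a3.lintegral_prod_right')
  have hmx' : Measurable fun x : E3 => ∫⁻ t in Ioo (0 : ℝ) 1, ENNReal.ofReal (t ^ (1 / 2 : ℝ)) *
      (ENNReal.ofReal ‖x - R‖⁻¹ * ∫⁻ y in ball c r, G (x + t • (y - x))) :=
    hmj.lintegral_prod_right'
  calc ∫⁻ x in ball c r, ENNReal.ofReal ‖x - R‖⁻¹ *
        ∫⁻ y in ball c r, ENNReal.ofReal (‖f x - f y‖ ^ 2)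
      ≤ ∫⁻ x in ball c r, ENNReal.ofReal (8 * r ^ 2) *
          ∫⁻ t in Ioo (0 : ℝ) 1, ENNReal.ofReal (t ^ (1 / 2 : ℝ)) *
            (ENNReal.ofReal ‖x - R‖⁻¹ * ∫⁻ y in ball c r, G (x + t • (y - x))) :=
        setLIntegral_mono' measurableSet_ball step2
    _ = ENNReal.ofReal (8 * r ^ 2) * ∫⁻ x in ball c r,
          ∫⁻ t in Ioo (0 : ℝ) 1, ENNReal.ofReal (t ^ (1 / 2 : ℝ)) *
            (ENNReal.ofReal ‖x - R‖⁻¹ * ∫⁻ y in ball c r, G (x + t • (y - x))) :=
        lintegral_const_mul _ hmx'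
    _ = ENNReal.ofReal (8 * r ^ 2) * ∫⁻ t in Ioo (0 : ℝ) 1, ∫⁻ x in ball c r,
          ENNReal.ofReal (t ^ (1 / 2 : ℝ)) *
            (ENNReal.ofReal ‖x - R‖⁻¹ * ∫⁻ y in ball c r, G (x + t • (y - x))) := by
        rw [lintegral_lintegral_swap (f := fun (x : E3) (t : ℝ) =>
          ENNReal.ofReal (t ^ (1 / 2 : ℝ)) *
            (ENNReal.ofReal ‖x - R‖⁻¹ * ∫⁻ y in ball c r, G (x + t • (y - x))))
          hmj.aemeasurable]
    _ ≤ ENNReal.ofReal (8 * r ^ 2) * ∫⁻ t in Ioo (0 : ℝ) 1,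
          ENNReal.ofReal (8 * Real.pi * r ^ 2) * ENNReal.ofReal (t ^ (-(1 / 2) : ℝ)) *
            ∫⁻ v in ball c r, G v := by
        refine mul_le_mul' le_rfl (setLIntegral_mono' measurableSet_Ioo ?_)
        intro t ht
        have ht0 : 0 < t := ht.1
        have hmx2 : Measurable fun x : E3 => ENNReal.ofReal ‖x - R‖⁻¹ *
            ∫⁻ y in ball c r, G (x + t • (y - x)) := by
          have a2 : Measurable fun x : E3 => ENNReal.ofReal ‖x - R‖⁻¹ := by fun_prop
          have a3 : Measurable fun q : E3 × E3 => G (q.1 + t • (q.2 - q.1)) :=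
            hG.comp (by fun_prop)
          exact a2.mul a3.lintegral_prod_right'
        rw [lintegral_const_mul _ hmx2]
        calc ENNReal.ofReal (t ^ (1 / 2 : ℝ)) * ∫⁻ x in ball c r, ENNReal.ofReal ‖x - R‖⁻¹ *
              ∫⁻ y in ball c r, G (x + t • (y - x))
            ≤ ENNReal.ofReal (t ^ (1 / 2 : ℝ)) *
              (ENNReal.ofReal (8 * Real.pi * r ^ 2 * t⁻¹) * ∫⁻ v in ball c r, G v) := by
              gcongr
              exact inner_bound hG hr ht0 ht.2
          _ = _ := by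
              rw [← mul_assoc, ← ENNReal.ofReal_mul (by positivity),
                ← ENNReal.ofReal_mul (by positivity)]
              congr 2
              have : t ^ (-(1 / 2) : ℝ) = t ^ (1 / 2 : ℝ) * t⁻¹ := by
                rw [← Real.rpow_neg_one t, ← Real.rpow_add ht0]; norm_num
              rw [this]; ring
    _ = ENNReal.ofReal (128 * Real.pi * r ^ 4) * ∫⁻ v in ball c r, G v := by
        have hm7 : Measurable fun t : ℝ => ENNReal.ofReal (8 * Real.pi * r ^ 2) *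
            ENNReal.ofReal (t ^ (-(1 / 2) : ℝ)) := by fun_prop
        have hm8 : Measurable fun t : ℝ => ENNReal.ofReal (t ^ (-(1 / 2) : ℝ)) := by fun_prop
        rw [lintegral_mul_const _ hm7, lintegral_const_mul _ hm8, lintegral_rpow_neg_half,
          ← mul_assoc]
        congr 1
        rw [show (2 : ℝ≥0∞) = ENNReal.ofReal 2 by norm_num, ← ENNReal.ofReal_mul (by positivity),
          ← ENNReal.ofReal_mul (by positivity)]
        congr 1
        ring

end Pool.Agent.Lib_helper90c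


end

section

/-!
# Localisation of the Coulomb energy of the many-body problem into balls
-/

set_option autoImplicit false

open MeasureTheory Set Metric Filter
open scoped ENNReal NNReal Topology

namespace Pool.Agent.Lib_helper90c

section
variable {N K : ℕ}

theorem wk_coul {κ : ℝ} {x y : E3} (h : x ≠ y) : wk κ ‖x - y‖ = ‖x - y‖⁻¹ - Yk κ x y :=
  wk_eq (norm_ne_zero_iff.2 (sub_ne_zero.2 h))

theorem Yk_self (κ : ℝ) (x : E3) : Yk κ x x = 0 := by simp [Yk]

theorem pd_real {κ z : ℝ} (hκ : 0 ≤ κ) (R : Fin K → E3) (hR : Function.Injective R) (x : Conf N)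
    (hx : ∀ i j, i ≠ j → x i ≠ x j) (hxR : ∀ i k, x i ≠ R k) :
    z * (∑ i, ∑ k, ‖x i - R k‖⁻¹) + (1 / 2) * (∑ i, ∑ j, Yk κ (x i) (x j)) +
      z ^ 2 * ((1 / 2) * ∑ k, ∑ l, Yk κ (R k) (R l)) ≤
    z * (∑ i, ∑ k, Yk κ (x i) (R k)) + (1 / 2) * (∑ i, ∑ j, ‖x i - x j‖⁻¹) +
      z ^ 2 * rep R + κ * (N + z ^ 2 * K) / 2 := by
  classical
  have h := pd_wk_points hκ (Sum.elim (fun _ : Fin N => (-1 : ℝ)) (fun _ : Fin K => z))
    (Sum.elim x R)
  simp only [Fintype.sum_sum_type, Sum.elim_inl, Sum.elim_inr, Finset.sum_add_distrib] at h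
  have e1 : ∀ i j : Fin N, wk κ ‖x i - x j‖ =
      ‖x i - x j‖⁻¹ - Yk κ (x i) (x j) + if i = j then κ else 0 := by
    intro i j
    by_cases hij : i = j
    · subst hij
      simp [wk_zero, Yk_self]
    · rw [wk_coul (hx i j hij), if_neg hij, add_zero]
  have e2 : ∀ k l : Fin K, wk κ ‖R k - R l‖ =
      ‖R k - R l‖⁻¹ - Yk κ (R k) (R l) + if k = l then κ else 0 := by
    intro k l
    by_cases hkl : k = l
    · subst hkl
      simp [wk_zero, Yk_self]
    · rw [wk_coul (hR.ne hkl), if_neg hkl, add_zero]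
  have e3 : ∀ (i : Fin N) (k : Fin K), wk κ ‖x i - R k‖ = ‖x i - R k‖⁻¹ - Yk κ (x i) (R k) :=
    fun i k => wk_coul (hxR i k)
  have e4 : ∑ k : Fin K, ∑ i : Fin N, z * -1 * wk κ ‖R k - x i‖ =
      ∑ i : Fin N, ∑ k : Fin K, -1 * z * wk κ ‖x i - R k‖ := by
    rw [Finset.sum_comm]
    refine Finset.sum_congr rfl fun i _ => Finset.sum_congr rfl fun k _ => ?_
    rw [norm_sub_rev]; ring
  rw [e4] at h
  simp only [e1, e2, e3, mul_add, mul_sub, Finset.sum_add_distrib, Finset.sum_sub_distrib,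
    ← Finset.mul_sum, Finset.sum_ite_eq, Finset.mem_univ, if_true, Finset.sum_const,
    Finset.card_univ, Fintype.card_fin, nsmul_eq_mul] at h
  unfold rep
  nlinarith [h]

theorem ae_ne_pair {i j : Fin N} (hij : i ≠ j) : ∀ᵐ x : Conf N, x i ≠ x j := by
  have hm : MeasurableSet {x : Conf N | x i = x j} :=
    measurableSet_eq_fun (measurable_pi_apply i) (measurable_pi_apply j)
  have h0 : volume {x : Conf N | x i = x j} = 0 := by
    rw [← lintegral_indicator_one hm]
    have : ∫⁻ x : Conf N, ({x : Conf N | x i = x j}.indicator 1 x : ℝ≥0∞) =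
        ∫⁻ _x : Conf N, (0 : ℝ≥0∞) := by
      refine lintegral_update_eq i (measurable_one.indicator hm) measurable_const fun x => ?_
      simp only [lintegral_zero]
      have e : ∀ y : E3, ({x : Conf N | x i = x j}.indicator 1 (Function.update x i y) : ℝ≥0∞) =
          ({x j} : Set E3).indicator 1 y := by
        intro y
        have h1 : Function.update x i y ∈ {x : Conf N | x i = x j} ↔ y ∈ ({x j} : Set E3) := by
          simp [Function.update_of_ne hij.symm]
        by_cases hy : y ∈ ({x j} : Set E3)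
        · rw [indicator_of_mem hy, indicator_of_mem (h1.2 hy)]; rfl
        · rw [indicator_of_notMem hy, indicator_of_notMem (fun h => hy (h1.1 h))]
      simp only [e]
      rw [lintegral_indicator_one (measurableSet_singleton _)]
      simp
    rw [this]; simp
  rw [ae_iff]
  simpa using h0

theorem ae_ne_point (i : Fin N) (y0 : E3) : ∀ᵐ x : Conf N, x i ≠ y0 := by
  have hm : MeasurableSet {x : Conf N | x i = y0} :=
    measurableSet_eq_fun (measurable_pi_apply i) measurable_const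
  have h0 : volume {x : Conf N | x i = y0} = 0 := by
    rw [← lintegral_indicator_one hm]
    have : ∫⁻ x : Conf N, ({x : Conf N | x i = y0}.indicator 1 x : ℝ≥0∞) =
        ∫⁻ _x : Conf N, (0 : ℝ≥0∞) := by
      refine lintegral_update_eq i (measurable_one.indicator hm) measurable_const fun x => ?_
      simp only [lintegral_zero]
      have e : ∀ y : E3, ({x : Conf N | x i = y0}.indicator 1 (Function.update x i y) : ℝ≥0∞) =
          ({y0} : Set E3).indicator 1 y := by
        intro y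
        have h1 : Function.update x i y ∈ {x : Conf N | x i = y0} ↔ y ∈ ({y0} : Set E3) := by
          simp
        by_cases hy : y ∈ ({y0} : Set E3)
        · rw [indicator_of_mem hy, indicator_of_mem (h1.2 hy)]; rfl
        · rw [indicator_of_notMem hy, indicator_of_notMem (fun h => hy (h1.1 h))]
      simp only [e]
      rw [lintegral_indicator_one (measurableSet_singleton _)]
      simp
    rw [this]; simp
  rw [ae_iff]
  simpa using h0

/-- Yukawa versions -/
noncomputable def AenY (κ : ℝ) (R : Fin K → E3) (ψ : Conf N → ℂ) : ℝ≥0∞ :=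
  ∑ i, ∑ k, ∫⁻ x, ENNReal.ofReal (Yk κ (x i) (R k)) * dens ψ x

/-- Yukawa repulsion -/
noncomputable def PeeY (κ : ℝ) (ψ : Conf N → ℂ) : ℝ≥0∞ :=
  2⁻¹ * ∑ i, ∑ j, ∫⁻ x, ENNReal.ofReal (Yk κ (x i) (x j)) * dens ψ x

/-- Yukawa nuclear repulsion -/
noncomputable def UY (κ : ℝ) (R : Fin K → E3) : ℝ≥0∞ :=
  ENNReal.ofReal ((1 / 2) * ∑ k, ∑ l, Yk κ (R k) (R l))

theorem measurable_norm_pi (i j : Fin N) : Measurable fun x : Conf N => ‖x i - x j‖ :=
  ((measurable_pi_apply i).sub (measurable_pi_apply j)).norm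

theorem measurable_norm_pt (i : Fin N) (y : E3) : Measurable fun x : Conf N => ‖x i - y‖ :=
  ((measurable_pi_apply i).sub measurable_const).norm

theorem measurable_Yk_pi (κ : ℝ) (i j : Fin N) : Measurable fun x : Conf N => Yk κ (x i) (x j) := by
  unfold Yk
  have h := measurable_norm_pi i j
  exact ((h.const_mul κ).neg.exp).mul h.inv

theorem measurable_Yk_pt (κ : ℝ) (i : Fin N) (y : E3) :
    Measurable fun x : Conf N => Yk κ (x i) y := by
  unfold Yk
  have h := measurable_norm_pt i y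
  exact ((h.const_mul κ).neg.exp).mul h.inv

theorem measurable_inv_pi (i j : Fin N) : Measurable fun x : Conf N => ‖x i - x j‖⁻¹ :=
  ((measurable_pi_apply i).sub (measurable_pi_apply j)).norm.inv

theorem measurable_inv_pt (i : Fin N) (y : E3) : Measurable fun x : Conf N => ‖x i - y‖⁻¹ :=
  ((measurable_pi_apply i).sub measurable_const).norm.inv

theorem lintegral_dens {ψ : Conf N → ℂ} (h : Trial ψ) : ∫⁻ x, dens ψ x = 1 := by
  have hint : Integrable fun x => ‖ψ x‖ ^ 2 := by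
    by_contra hn
    have := h.normalized
    rw [integral_undef hn] at this
    exact zero_ne_one this
  unfold dens
  rw [← ofReal_integral_eq_lintegral_ofReal hint (Eventually.of_forall fun y => sq_nonneg _),
      h.normalized, ENNReal.ofReal_one]

theorem half_ofReal : (2⁻¹ : ℝ≥0∞) = ENNReal.ofReal (1 / 2) := by
  rw [one_div, ENNReal.ofReal_inv_of_pos (by norm_num)]; norm_num

theorem sum_sum_lintegral {α β : Type*} [Fintype α] [Fintype β] {ψ : Conf N → ℂ}
    (hd : Measurable (dens ψ)) (g : α → β → Conf N → ℝ) (hg : ∀ a b, Measurable (g a b))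
    (h0 : ∀ a b x, 0 ≤ g a b x) :
    ∑ a, ∑ b, ∫⁻ x, ENNReal.ofReal (g a b x) * dens ψ x =
      ∫⁻ x, ENNReal.ofReal (∑ a, ∑ b, g a b x) * dens ψ x := by
  have hm : ∀ a b, Measurable fun x => ENNReal.ofReal (g a b x) * dens ψ x := fun a b =>
    (hg a b).ennreal_ofReal.mul hd
  have hm2 : ∀ a, Measurable fun x => ∑ b, ENNReal.ofReal (g a b x) * dens ψ x := fun a =>
    Finset.measurable_sum _ fun b _ => hm a b
  have e1 : ∀ a, ∑ b, ∫⁻ x, ENNReal.ofReal (g a b x) * dens ψ x =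
      ∫⁻ x, ∑ b, ENNReal.ofReal (g a b x) * dens ψ x := fun a =>
    (lintegral_finsetSum _ fun b _ => hm a b).symm
  simp only [e1]
  rw [← lintegral_finsetSum _ fun a _ => hm2 a]
  congr 1
  ext x
  rw [ENNReal.ofReal_sum_of_nonneg fun a _ => Finset.sum_nonneg fun b _ => h0 a b x,
    Finset.sum_mul]
  refine Finset.sum_congr rfl fun a _ => ?_
  rw [ENNReal.ofReal_sum_of_nonneg fun b _ => h0 a b x, Finset.sum_mul]

/-- Comparison of the Coulomb energy with the Yukawa energy. -/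
theorem pd_integrated {κ z : ℝ} (hκ : 0 ≤ κ) (hz : 0 ≤ z) (R : Fin K → E3)
    (hR : Function.Injective R) {ψ : Conf N → ℂ} (h : Trial ψ) :
    ENNReal.ofReal z * Aen R ψ + PeeY κ ψ + ENNReal.ofReal (z ^ 2) * UY κ R ≤
      ENNReal.ofReal z * AenY κ R ψ + Pee ψ + ENNReal.ofReal (z ^ 2) * ENNReal.ofReal (rep R) +
        ENNReal.ofReal (κ * (N + z ^ 2 * K) / 2) := by
  have hd := measurable_dens h.smooth.continuous
  have h1 := lintegral_dens h
  have eA : Aen R ψ = ∫⁻ x, ENNReal.ofReal (∑ i, ∑ k, ‖x i - R k‖⁻¹) * dens ψ x :=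
    sum_sum_lintegral hd (fun i k x => ‖x i - R k‖⁻¹) (fun i k => measurable_inv_pt i (R k))
      (fun _ _ _ => by positivity)
  have eAY : AenY κ R ψ = ∫⁻ x, ENNReal.ofReal (∑ i, ∑ k, Yk κ (x i) (R k)) * dens ψ x :=
    sum_sum_lintegral hd (fun i k x => Yk κ (x i) (R k)) (fun i k => measurable_Yk_pt κ i (R k))
      (fun _ _ _ => Yk_nonneg _ _ _)
  have eP : Pee ψ = 2⁻¹ * ∫⁻ x, ENNReal.ofReal (∑ i, ∑ j, ‖x i - x j‖⁻¹) * dens ψ x := by
    unfold Pee
    rw [sum_sum_lintegral hd (fun (i j : Fin N) (x : Conf N) => ‖x i - x j‖⁻¹)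
      (fun i j => measurable_inv_pi i j) (fun _ _ _ => by positivity)]
  have ePY : PeeY κ ψ = 2⁻¹ * ∫⁻ x, ENNReal.ofReal (∑ i, ∑ j, Yk κ (x i) (x j)) * dens ψ x := by
    unfold PeeY
    rw [sum_sum_lintegral hd (fun (i j : Fin N) (x : Conf N) => Yk κ (x i) (x j))
      (fun i j => measurable_Yk_pi κ i j) (fun _ _ _ => Yk_nonneg _ _ _)]
  have mA : Measurable fun x : Conf N => ENNReal.ofReal (∑ i, ∑ k, ‖x i - R k‖⁻¹) * dens ψ x :=
    (Finset.measurable_sum _ fun i _ => Finset.measurable_sum _ fun k _ =>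
      measurable_inv_pt i (R k)).ennreal_ofReal.mul hd
  have mAY : Measurable fun x : Conf N =>
      ENNReal.ofReal (∑ i, ∑ k, Yk κ (x i) (R k)) * dens ψ x :=
    (Finset.measurable_sum _ fun i _ => Finset.measurable_sum _ fun k _ =>
      measurable_Yk_pt κ i (R k)).ennreal_ofReal.mul hd
  have mP : Measurable fun x : Conf N => ENNReal.ofReal (∑ i, ∑ j, ‖x i - x j‖⁻¹) * dens ψ x :=
    (Finset.measurable_sum _ fun i _ => Finset.measurable_sum _ fun j _ =>
      measurable_inv_pi i j).ennreal_ofReal.mul hd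
  have mPY : Measurable fun x : Conf N =>
      ENNReal.ofReal (∑ i, ∑ j, Yk κ (x i) (x j)) * dens ψ x :=
    (Finset.measurable_sum _ fun i _ => Finset.measurable_sum _ fun j _ =>
      measurable_Yk_pi κ i j).ennreal_ofReal.mul hd
  have eC : ∀ C : ℝ≥0∞, C = ∫⁻ x, C * dens ψ x := by
    intro C; rw [lintegral_const_mul _ hd, h1, mul_one]
  rw [eA, eAY, eP, ePY, ← lintegral_const_mul _ mA, ← lintegral_const_mul _ mAY,
    ← lintegral_const_mul _ mP, ← lintegral_const_mul _ mPY,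
    eC (ENNReal.ofReal (z ^ 2) * UY κ R), eC (ENNReal.ofReal (z ^ 2) * ENNReal.ofReal (rep R)),
    eC (ENNReal.ofReal (κ * (N + z ^ 2 * K) / 2)),
    ← lintegral_add_left (mA.const_mul _), ← lintegral_add_right _ (hd.const_mul _),
    ← lintegral_add_left (mAY.const_mul _), ← lintegral_add_right _ (hd.const_mul _),
    ← lintegral_add_right _ (hd.const_mul _)]
  apply lintegral_mono_ae
  have hae1 : ∀ᵐ x : Conf N, ∀ i j, i ≠ j → x i ≠ x j := by
    rw [ae_all_iff]; intro i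
    rw [ae_all_iff]; intro j
    by_cases hij : i = j
    · exact Eventually.of_forall fun x h => absurd hij h
    · filter_upwards [ae_ne_pair hij] with x hx _ using hx
  have hae2 : ∀ᵐ x : Conf N, ∀ i k, x i ≠ R k := by
    rw [ae_all_iff]; intro i
    rw [ae_all_iff]; intro k
    exact ae_ne_point i (R k)
  filter_upwards [hae1, hae2] with x hx hxR
  have hpd := pd_real hκ (z := z) R hR x hx hxR
  have n1 : 0 ≤ ∑ i, ∑ k, ‖x i - R k‖⁻¹ := by positivity
  have n2 : 0 ≤ ∑ i, ∑ j, Yk κ (x i) (x j) :=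
    Finset.sum_nonneg fun i _ => Finset.sum_nonneg fun j _ => Yk_nonneg _ _ _
  have n3 : 0 ≤ ∑ k, ∑ l, Yk κ (R k) (R l) :=
    Finset.sum_nonneg fun i _ => Finset.sum_nonneg fun j _ => Yk_nonneg _ _ _
  have n4 : 0 ≤ ∑ i, ∑ k, Yk κ (x i) (R k) :=
    Finset.sum_nonneg fun i _ => Finset.sum_nonneg fun j _ => Yk_nonneg _ _ _
  have n5 : 0 ≤ ∑ i, ∑ j, ‖x i - x j‖⁻¹ := by positivity
  have n6 := rep_nonneg R
  have n7 : 0 ≤ κ * (N + z ^ 2 * K) / 2 := by positivity
  unfold UY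
  have key : ENNReal.ofReal z * ENNReal.ofReal (∑ i, ∑ k, ‖x i - R k‖⁻¹) +
      2⁻¹ * ENNReal.ofReal (∑ i, ∑ j, Yk κ (x i) (x j)) +
      ENNReal.ofReal (z ^ 2) * ENNReal.ofReal ((1 / 2) * ∑ k, ∑ l, Yk κ (R k) (R l)) ≤
      ENNReal.ofReal z * ENNReal.ofReal (∑ i, ∑ k, Yk κ (x i) (R k)) +
      2⁻¹ * ENNReal.ofReal (∑ i, ∑ j, ‖x i - x j‖⁻¹) +
      ENNReal.ofReal (z ^ 2) * ENNReal.ofReal (rep R) +
      ENNReal.ofReal (κ * (N + z ^ 2 * K) / 2) := by
    rw [half_ofReal, ← ENNReal.ofReal_mul hz, ← ENNReal.ofReal_mul (by norm_num),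
      ← ENNReal.ofReal_mul (sq_nonneg z), ← ENNReal.ofReal_mul hz,
      ← ENNReal.ofReal_mul (by norm_num), ← ENNReal.ofReal_mul (sq_nonneg z),
      ← ENNReal.ofReal_add (by positivity) (by positivity),
      ← ENNReal.ofReal_add (by positivity) (by positivity),
      ← ENNReal.ofReal_add (by positivity) (by positivity),
      ← ENNReal.ofReal_add (by positivity) (by positivity),
      ← ENNReal.ofReal_add (by positivity) (by positivity)]
    exact ENNReal.ofReal_le_ofReal hpd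
  have := mul_le_mul' key (le_refl (dens ψ x))
  calc _ = (ENNReal.ofReal z * ENNReal.ofReal (∑ i, ∑ k, ‖x i - R k‖⁻¹) +
      2⁻¹ * ENNReal.ofReal (∑ i, ∑ j, Yk κ (x i) (x j)) +
      ENNReal.ofReal (z ^ 2) * ENNReal.ofReal ((1 / 2) * ∑ k, ∑ l, Yk κ (R k) (R l))) *
        dens ψ x := by ring
    _ ≤ _ := this
    _ = _ := by ring

end

end Pool.Agent.Lib_helper90c


end

section

/-!
# Ball quantities and the localisation theorem
-/

set_option autoImplicit false

open MeasureTheory Set Metric Filter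
open scoped ENNReal NNReal Topology

namespace Pool.Agent.Lib_helper90c

section
variable {N K : ℕ}

/-- electron repulsion inside the ball `b` -/
noncomputable def Pb (ψ : Conf N → ℂ) (b : ℝ × E3) : ℝ≥0∞ :=
  2⁻¹ * ∑ i, ∑ j, ∫⁻ x, ib b (x i) * ib b (x j) * ENNReal.ofReal ‖x i - x j‖⁻¹ * dens ψ x

/-- attraction inside the ball `b` -/
noncomputable def AbN (R : Fin K → E3) (ψ : Conf N → ℂ) (b : ℝ × E3) : ℝ≥0∞ :=
  ∑ i, ∑ k, ∫⁻ x, ib b (x i) * ib b (R k) * ENNReal.ofReal ‖x i - R k‖⁻¹ * dens ψ x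

/-- kinetic energy density of particle `i` -/
noncomputable def kd (ψ : Conf N → ℂ) (i : Fin N) (x : Conf N) : ℝ≥0∞ :=
  ENNReal.ofReal (gradSq ψ i x)

/-- kinetic energy inside the ball `b` -/
noncomputable def Tb (ψ : Conf N → ℂ) (b : ℝ × E3) : ℝ≥0∞ :=
  ∑ i, ∫⁻ x, ib b (x i) * kd ψ i x

/-- total kinetic energy -/
noncomputable def kin (ψ : Conf N → ℂ) : ℝ≥0∞ := ∑ i, ∫⁻ x, kd ψ i x

/-- expected number of electrons in the ball `b` -/
noncomputable def nub (ψ : Conf N → ℂ) (b : ℝ × E3) : ℝ≥0∞ :=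
  ∑ i, ∫⁻ x, ib b (x i) * dens ψ x

theorem continuous_gradSq {ψ : Conf N → ℂ} (h : ContDiff ℝ (⊤ : ℕ∞) ψ) (i : Fin N) :
    Continuous (gradSq ψ i) := by
  have h1 : Continuous (fderiv ℝ ψ) := h.continuous_fderiv (by simp)
  unfold gradSq
  exact continuous_finsetSum _ fun a _ => ((h1.clm_apply continuous_const).norm.pow 2)

theorem measurable_kd {ψ : Conf N → ℂ} (h : ContDiff ℝ (⊤ : ℕ∞) ψ) (i : Fin N) :
    Measurable (kd ψ i) := (continuous_gradSq h i).measurable.ennreal_ofReal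

theorem gradSq_nonneg (ψ : Conf N → ℂ) (i : Fin N) (x : Conf N) : 0 ≤ gradSq ψ i x := by
  unfold gradSq; positivity

theorem measurable_ib_pi (i : Fin N) :
    Measurable fun q : (ℝ × E3) × Conf N => ib q.1 (q.2 i) := by
  have h : Measurable fun q : (ℝ × E3) × Conf N => (q.1, q.2 i) :=
    measurable_fst.prodMk ((measurable_pi_apply i).comp measurable_snd)
  have h2 := measurable_ib.comp h
  exact h2

theorem measurable_ib_pt (y : E3) : Measurable fun q : (ℝ × E3) × Conf N => ib q.1 y := by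
  have h : Measurable fun q : (ℝ × E3) × Conf N => q.1 := measurable_fst
  have h2 := (measurable_ib_left y).comp h
  exact h2

theorem measurable_ib_x (b : ℝ × E3) (i : Fin N) : Measurable fun x : Conf N => ib b (x i) :=
  (measurable_ib_right b).comp (measurable_pi_apply i)

/-- swapping the integration over balls and configurations, one particle -/
theorem swap1 (κ : ℝ) (i : Fin N) {F : Conf N → ℝ≥0∞} (hF : Measurable F) {g : ℝ → ℝ≥0∞}
    (hg : Measurable g) :
    ∫⁻ b, g b.1 * (∫⁻ x, ib b (x i) * F x) ∂(bm κ) =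
      ∫⁻ x, (∫⁻ b, g b.1 * ib b (x i) ∂(bm κ)) * F x := by
  have hj : Measurable fun q : (ℝ × E3) × Conf N => g q.1.1 * (ib q.1 (q.2 i) * F q.2) :=
    (hg.comp (measurable_fst.comp measurable_fst)).mul
      ((measurable_ib_pi i).mul (hF.comp measurable_snd))
  have e1 : ∀ b : ℝ × E3, g b.1 * ∫⁻ x, ib b (x i) * F x =
      ∫⁻ x : Conf N, g b.1 * (ib b (x i) * F x) := by
    intro b
    have hm : Measurable fun x : Conf N => ib b (x i) * F x := (measurable_ib_x b i).mul hF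
    rw [lintegral_const_mul _ hm]
  simp only [e1]
  rw [lintegral_lintegral_swap (f := fun (b : ℝ × E3) (x : Conf N) =>
    g b.1 * (ib b (x i) * F x)) hj.aemeasurable]
  congr 1
  ext x
  have hm : Measurable fun b : ℝ × E3 => g b.1 * ib b (x i) :=
    (hg.comp measurable_fst).mul (measurable_ib_left _)
  rw [← lintegral_mul_const _ hm]
  congr 1
  ext b
  ring

theorem lintegral_Tb {κ : ℝ} (hκ : 0 < κ) {ψ : Conf N → ℂ} (h : ContDiff ℝ (⊤ : ℕ∞) ψ) :
    Measurable (Tb ψ) ∧ ∫⁻ b, Tb ψ b ∂(bm κ) = kin ψ := by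
  have hk := measurable_kd h
  have hm : ∀ i, Measurable fun b : ℝ × E3 => ∫⁻ x, ib b (x i) * kd ψ i x := by
    intro i
    have : Measurable fun q : (ℝ × E3) × Conf N => ib q.1 (q.2 i) * kd ψ i q.2 :=
      (measurable_ib_pi i).mul ((hk i).comp measurable_snd)
    exact this.lintegral_prod_right'
  refine ⟨Finset.measurable_sum _ fun i _ => hm i, ?_⟩
  unfold Tb kin
  rw [lintegral_finsetSum _ fun i _ => hm i]
  refine Finset.sum_congr rfl fun i _ => ?_
  have := swap1 κ i (hk i) (g := fun _ => 1) measurable_const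
  simp only [one_mul, mix_one hκ] at this
  exact this

theorem measurable_Pb {ψ : Conf N → ℂ} (hd : Measurable (dens ψ)) : Measurable (Pb ψ) := by
  unfold Pb
  refine Measurable.const_mul ?_ _
  refine Finset.measurable_sum _ fun i _ => Finset.measurable_sum _ fun j _ => ?_
  have : Measurable fun q : (ℝ × E3) × Conf N => ib q.1 (q.2 i) * ib q.1 (q.2 j) *
      ENNReal.ofReal ‖q.2 i - q.2 j‖⁻¹ * dens ψ q.2 :=
    (((measurable_ib_pi i).mul (measurable_ib_pi j)).mul
      ((measurable_inv_pi i j).ennreal_ofReal.comp measurable_snd)).mul (hd.comp measurable_snd)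
  exact this.lintegral_prod_right'

theorem measurable_AbN (R : Fin K → E3) {ψ : Conf N → ℂ} (hd : Measurable (dens ψ)) :
    Measurable (AbN R ψ) := by
  unfold AbN
  refine Finset.measurable_sum _ fun i _ => Finset.measurable_sum _ fun k _ => ?_
  have : Measurable fun q : (ℝ × E3) × Conf N => ib q.1 (q.2 i) * ib q.1 (R k) *
      ENNReal.ofReal ‖q.2 i - R k‖⁻¹ * dens ψ q.2 :=
    (((measurable_ib_pi i).mul (measurable_ib_pt (R k))).mul
      ((measurable_inv_pt i (R k)).ennreal_ofReal.comp measurable_snd)).mul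
        (hd.comp measurable_snd)
  exact this.lintegral_prod_right'

theorem lintegral_Pb {κ : ℝ} (hκ : 0 < κ) {ψ : Conf N → ℂ} (hd : Measurable (dens ψ)) :
    ∫⁻ b, Pb ψ b ∂(bm κ) = PeeY κ ψ := by
  unfold Pb PeeY
  have hj : ∀ i j : Fin N, Measurable fun q : (ℝ × E3) × Conf N => ib q.1 (q.2 i) *
      ib q.1 (q.2 j) * ENNReal.ofReal ‖q.2 i - q.2 j‖⁻¹ * dens ψ q.2 := fun i j =>
    (((measurable_ib_pi i).mul (measurable_ib_pi j)).mul
      ((measurable_inv_pi i j).ennreal_ofReal.comp measurable_snd)).mul (hd.comp measurable_snd)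
  have hm : ∀ i j : Fin N, Measurable fun b : ℝ × E3 => ∫⁻ x, ib b (x i) * ib b (x j) *
      ENNReal.ofReal ‖x i - x j‖⁻¹ * dens ψ x := fun i j => (hj i j).lintegral_prod_right'
  rw [lintegral_const_mul _ (Finset.measurable_sum _ fun i _ => Finset.measurable_sum _
    fun j _ => hm i j), lintegral_finsetSum _ fun i _ => Finset.measurable_sum _ fun j _ => hm i j]
  congr 1
  refine Finset.sum_congr rfl fun i _ => ?_
  rw [lintegral_finsetSum _ fun j _ => hm i j]
  refine Finset.sum_congr rfl fun j _ => ?_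
  rw [lintegral_lintegral_swap (f := fun (b : ℝ × E3) (x : Conf N) => ib b (x i) * ib b (x j) *
      ENNReal.ofReal ‖x i - x j‖⁻¹ * dens ψ x) (hj i j).aemeasurable]
  congr 1
  ext x
  have hmb : Measurable fun b : ℝ × E3 => ib b (x i) * ib b (x j) *
      ENNReal.ofReal ‖x i - x j‖⁻¹ :=
    ((measurable_ib_left _).mul (measurable_ib_left _)).mul_const _
  rw [lintegral_mul_const _ hmb, mix_Yk hκ]

theorem lintegral_AbN {κ : ℝ} (hκ : 0 < κ) (R : Fin K → E3) {ψ : Conf N → ℂ}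
    (hd : Measurable (dens ψ)) : ∫⁻ b, AbN R ψ b ∂(bm κ) = AenY κ R ψ := by
  unfold AbN AenY
  have hj : ∀ (i : Fin N) (k : Fin K), Measurable fun q : (ℝ × E3) × Conf N => ib q.1 (q.2 i) *
      ib q.1 (R k) * ENNReal.ofReal ‖q.2 i - R k‖⁻¹ * dens ψ q.2 := fun i k =>
    (((measurable_ib_pi i).mul (measurable_ib_pt (R k))).mul
      ((measurable_inv_pt i (R k)).ennreal_ofReal.comp measurable_snd)).mul
        (hd.comp measurable_snd)
  have hm : ∀ (i : Fin N) (k : Fin K), Measurable fun b : ℝ × E3 => ∫⁻ x, ib b (x i) *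
      ib b (R k) * ENNReal.ofReal ‖x i - R k‖⁻¹ * dens ψ x :=
    fun i j => (hj i j).lintegral_prod_right'
  rw [lintegral_finsetSum _ fun i _ => Finset.measurable_sum _ fun j _ => hm i j]
  refine Finset.sum_congr rfl fun i _ => ?_
  rw [lintegral_finsetSum _ fun j _ => hm i j]
  refine Finset.sum_congr rfl fun k _ => ?_
  rw [lintegral_lintegral_swap (f := fun (b : ℝ × E3) (x : Conf N) => ib b (x i) * ib b (R k) *
      ENNReal.ofReal ‖x i - R k‖⁻¹ * dens ψ x) (hj i k).aemeasurable]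
  congr 1
  ext x
  have hmb : Measurable fun b : ℝ × E3 => ib b (x i) * ib b (R k) *
      ENNReal.ofReal ‖x i - R k‖⁻¹ :=
    ((measurable_ib_left _).mul (measurable_ib_left _)).mul_const _
  rw [lintegral_mul_const _ hmb, mix_Yk hκ]

theorem PeeY_le {κ : ℝ} (hκ : 0 ≤ κ) (ψ : Conf N → ℂ) : PeeY κ ψ ≤ Pee ψ := by
  unfold PeeY Pee
  gcongr with i _ j _
  exact Yk_le hκ _ _

/-- The localisation theorem. -/
theorem loc_main {κ z : ℝ} (hκ : 0 < κ) (hz : 0 ≤ z) (R : Fin K → E3)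
    (hR : Function.Injective R) {ψ : Conf N → ℂ} (h : Trial ψ) (Err : ℝ × E3 → ℝ≥0∞)
    (hErr : Measurable Err)
    (hb : ∀ᵐ b ∂(bm κ), ENNReal.ofReal z * AbN R ψ b ≤
      Pb ψ b + ENNReal.ofReal (z ^ 2) * Ub R b + Err b) :
    ENNReal.ofReal z * Aen R ψ ≤ Pee ψ + ENNReal.ofReal (z ^ 2) * ENNReal.ofReal (rep R) +
      ENNReal.ofReal (κ * (N + z ^ 2 * K) / 2) + ∫⁻ b, Err b ∂(bm κ) := by
  have hd := measurable_dens h.smooth.continuous
  have h1 := lintegral_mono_ae hb
  rw [lintegral_const_mul _ (measurable_AbN R hd), lintegral_AbN hκ R hd,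
    lintegral_add_right _ hErr, lintegral_add_right _ ((measurable_Ub R).const_mul _),
    lintegral_Pb hκ hd, lintegral_const_mul _ (measurable_Ub R), lintegral_Ub hκ] at h1
  have h2 := pd_integrated hκ.le hz R hR h
  have hUY : ENNReal.ofReal ((1 / 2) * ∑ k, ∑ l, Yk κ (R k) (R l)) = UY κ R := rfl
  rw [hUY] at h1
  set X := PeeY κ ψ + ENNReal.ofReal (z ^ 2) * UY κ R with hX
  have hXfin : X ≠ ∞ := by
    rw [hX]
    refine ENNReal.add_ne_top.2 ⟨?_, ENNReal.mul_ne_top ENNReal.ofReal_ne_top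
      ENNReal.ofReal_ne_top⟩
    exact ((PeeY_le hκ.le ψ).trans_lt (Pee_lt_top h.smooth.continuous h.compact)).ne
  have h3 : ENNReal.ofReal z * Aen R ψ + X ≤
      (Pee ψ + ENNReal.ofReal (z ^ 2) * ENNReal.ofReal (rep R) +
      ENNReal.ofReal (κ * (N + z ^ 2 * K) / 2) + ∫⁻ b, Err b ∂(bm κ)) + X := by
    calc ENNReal.ofReal z * Aen R ψ + X
        = ENNReal.ofReal z * Aen R ψ + PeeY κ ψ + ENNReal.ofReal (z ^ 2) * UY κ R := by
          rw [hX]; ring
      _ ≤ ENNReal.ofReal z * AenY κ R ψ + Pee ψ +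
          ENNReal.ofReal (z ^ 2) * ENNReal.ofReal (rep R) +
          ENNReal.ofReal (κ * (N + z ^ 2 * K) / 2) := h2
      _ ≤ (X + ∫⁻ b, Err b ∂(bm κ)) + Pee ψ +
          ENNReal.ofReal (z ^ 2) * ENNReal.ofReal (rep R) +
          ENNReal.ofReal (κ * (N + z ^ 2 * K) / 2) := by gcongr
      _ = _ := by ring
  exact (ENNReal.add_le_add_iff_right hXfin).1 h3

end

end Pool.Agent.Lib_helper90c


end

section

/-!
# Mean-field estimates in one variable
-/

set_option autoImplicit false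

open MeasureTheory Set Metric Filter
open scoped ENNReal NNReal Topology

namespace Pool.Agent.Lib_helper90c

theorem two_term {δ : ℝ} (hδ : 0 < δ) (a b : ℂ) :
    ENNReal.ofReal (‖a‖ ^ 2) ≤ ENNReal.ofReal (1 + δ) * ENNReal.ofReal (‖b‖ ^ 2) +
      ENNReal.ofReal (1 + δ⁻¹) * ENNReal.ofReal (‖a - b‖ ^ 2) := by
  rw [← ENNReal.ofReal_mul (by positivity), ← ENNReal.ofReal_mul (by positivity),
    ← ENNReal.ofReal_add (by positivity) (by positivity)]
  apply ENNReal.ofReal_le_ofReal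
  have h1 : ‖a‖ ≤ ‖b‖ + ‖a - b‖ := by
    have := norm_add_le b (a - b)
    rwa [add_sub_cancel] at this
  have h2 : ‖a‖ ^ 2 ≤ (‖b‖ + ‖a - b‖) ^ 2 := pow_le_pow_left₀ (norm_nonneg _) h1 2
  have h3 : (‖b‖ + ‖a - b‖) ^ 2 ≤ (1 + δ) * ‖b‖ ^ 2 + (1 + δ⁻¹) * ‖a - b‖ ^ 2 := by
    have h4 : 0 ≤ (δ * ‖b‖ - ‖a - b‖) ^ 2 / δ := by positivity
    have h5 : (δ * ‖b‖ - ‖a - b‖) ^ 2 / δ =
        δ * ‖b‖ ^ 2 - 2 * ‖b‖ * ‖a - b‖ + δ⁻¹ * ‖a - b‖ ^ 2 := by
      field_simp
      ring
    nlinarith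
  exact h2.trans h3

theorem oneU {f : E3 → ℂ} (hf : Continuous f) {w : E3 → ℝ≥0∞} (hw : Measurable w) (c : E3)
    {r δ : ℝ} (hr : 0 < r) (hδ : 0 < δ) :
    ENNReal.ofReal (vB r) * ∫⁻ x in ball c r, w x * ENNReal.ofReal (‖f x‖ ^ 2) ≤
      ENNReal.ofReal (1 + δ) * ((∫⁻ x in ball c r, w x) *
        ∫⁻ y in ball c r, ENNReal.ofReal (‖f y‖ ^ 2)) +
      ENNReal.ofReal (1 + δ⁻¹) * ∫⁻ x in ball c r, w x *
        ∫⁻ y in ball c r, ENNReal.ofReal (‖f x - f y‖ ^ 2) := by
  have hv := volume_ball_eq c hr.le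
  have hm2 : Measurable fun q : E3 × E3 => ENNReal.ofReal (‖f q.1 - f q.2‖ ^ 2) := by fun_prop
  have hmD : Measurable fun x : E3 => ∫⁻ y in ball c r, ENNReal.ofReal (‖f x - f y‖ ^ 2) :=
    hm2.lintegral_prod_right'
  have hmn : Measurable fun y : E3 => ENNReal.ofReal (‖f y‖ ^ 2) := by fun_prop
  have hwn : Measurable fun x => w x * ENNReal.ofReal (‖f x‖ ^ 2) := hw.mul hmn
  have hwD : Measurable fun x => w x * ∫⁻ y in ball c r, ENNReal.ofReal (‖f x - f y‖ ^ 2) :=
    hw.mul hmD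
  rw [← lintegral_const_mul _ hwn]
  calc ∫⁻ x in ball c r, ENNReal.ofReal (vB r) * (w x * ENNReal.ofReal (‖f x‖ ^ 2))
      = ∫⁻ x in ball c r, w x * ∫⁻ _y in ball c r, ENNReal.ofReal (‖f x‖ ^ 2) := by
        congr 1
        ext x
        rw [setLIntegral_const, hv]; ring
    _ ≤ ∫⁻ x in ball c r, w x * ∫⁻ y in ball c r, (ENNReal.ofReal (1 + δ) *
          ENNReal.ofReal (‖f y‖ ^ 2) + ENNReal.ofReal (1 + δ⁻¹) *
          ENNReal.ofReal (‖f x - f y‖ ^ 2)) := by
        gcongr with x y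
        exact two_term hδ _ _
    _ = ∫⁻ x in ball c r, (w x * (ENNReal.ofReal (1 + δ) *
          ∫⁻ y in ball c r, ENNReal.ofReal (‖f y‖ ^ 2)) + ENNReal.ofReal (1 + δ⁻¹) *
          (w x * ∫⁻ y in ball c r, ENNReal.ofReal (‖f x - f y‖ ^ 2))) := by
        congr 1
        ext x
        rw [lintegral_add_left (by fun_prop), lintegral_const_mul _ hmn,
          lintegral_const_mul _ (by fun_prop)]
        ring
    _ = _ := by
        rw [lintegral_add_left (hw.mul_const _), lintegral_mul_const _ hw,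
          lintegral_const_mul _ hwD]
        ring

theorem oneL {f : E3 → ℂ} (hf : Continuous f) {w : E3 → ℝ≥0∞} (hw : Measurable w) (c : E3)
    {r δ : ℝ} (hr : 0 < r) (hδ : 0 < δ) :
    (∫⁻ x in ball c r, w x) * ∫⁻ y in ball c r, ENNReal.ofReal (‖f y‖ ^ 2) ≤
      ENNReal.ofReal (1 + δ) * (ENNReal.ofReal (vB r) *
        ∫⁻ x in ball c r, w x * ENNReal.ofReal (‖f x‖ ^ 2)) +
      ENNReal.ofReal (1 + δ⁻¹) * ∫⁻ x in ball c r, w x *
        ∫⁻ y in ball c r, ENNReal.ofReal (‖f x - f y‖ ^ 2) := by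
  have hv := volume_ball_eq c hr.le
  have hm2 : Measurable fun q : E3 × E3 => ENNReal.ofReal (‖f q.1 - f q.2‖ ^ 2) := by fun_prop
  have hmD : Measurable fun x : E3 => ∫⁻ y in ball c r, ENNReal.ofReal (‖f x - f y‖ ^ 2) :=
    hm2.lintegral_prod_right'
  have hmn : Measurable fun y : E3 => ENNReal.ofReal (‖f y‖ ^ 2) := by fun_prop
  have hwn : Measurable fun x => w x * ENNReal.ofReal (‖f x‖ ^ 2) := hw.mul hmn
  have hwD : Measurable fun x => w x * ∫⁻ y in ball c r, ENNReal.ofReal (‖f x - f y‖ ^ 2) :=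
    hw.mul hmD
  rw [← lintegral_mul_const _ hw]
  calc ∫⁻ x in ball c r, w x * ∫⁻ y in ball c r, ENNReal.ofReal (‖f y‖ ^ 2)
      ≤ ∫⁻ x in ball c r, w x * ∫⁻ y in ball c r, (ENNReal.ofReal (1 + δ) *
          ENNReal.ofReal (‖f x‖ ^ 2) + ENNReal.ofReal (1 + δ⁻¹) *
          ENNReal.ofReal (‖f x - f y‖ ^ 2)) := by
        gcongr with x y
        have := two_term hδ (f y) (f x)
        rwa [norm_sub_rev (f y)] at this
    _ = ∫⁻ x in ball c r, (ENNReal.ofReal (1 + δ) * ENNReal.ofReal (vB r) *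
          (w x * ENNReal.ofReal (‖f x‖ ^ 2)) + ENNReal.ofReal (1 + δ⁻¹) *
          (w x * ∫⁻ y in ball c r, ENNReal.ofReal (‖f x - f y‖ ^ 2))) := by
        congr 1
        ext x
        rw [lintegral_add_left (by fun_prop), setLIntegral_const, hv,
          lintegral_const_mul _ (by fun_prop)]
        ring
    _ = _ := by
        rw [lintegral_add_left (hwn.const_mul _), lintegral_const_mul _ hwn,
          lintegral_const_mul _ hwD]
        ring

theorem lintegral_ball_inv_swap (c R : E3) {r : ℝ} (hr : 0 ≤ r) :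
    ∫⁻ x in ball c r, ENNReal.ofReal ‖x - R‖⁻¹ = ENNReal.ofReal (ballPot r ‖R - c‖) := by
  rw [← lintegral_ball_inv' c R hr]
  simp only [norm_sub_rev]

theorem oneU_C {f : E3 → ℂ} (hf : ContDiff ℝ 1 f) (c R : E3) {r δ : ℝ} (hr : 0 < r)
    (hδ : 0 < δ) :
    ENNReal.ofReal (vB r) * ∫⁻ x in ball c r, ENNReal.ofReal ‖x - R‖⁻¹ *
        ENNReal.ofReal (‖f x‖ ^ 2) ≤
      ENNReal.ofReal ((1 + δ) * ballPot r ‖R - c‖) *
        (∫⁻ y in ball c r, ENNReal.ofReal (‖f y‖ ^ 2)) +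
      ENNReal.ofReal ((1 + δ⁻¹) * (128 * Real.pi * r ^ 4)) *
        ∫⁻ v in ball c r, ENNReal.ofReal (grad1 f v) := by
  have h1 := oneU hf.continuous (w := fun x => ENNReal.ofReal ‖x - R‖⁻¹) (by fun_prop) c hr hδ
  refine h1.trans ?_
  rw [lintegral_ball_inv_swap c R hr.le, ENNReal.ofReal_mul (by positivity),
    ENNReal.ofReal_mul (by positivity), mul_assoc, mul_assoc]
  gcongr
  exact ball_poinc hf c R hr

theorem oneL_C {f : E3 → ℂ} (hf : ContDiff ℝ 1 f) (c R : E3) {r δ : ℝ} (hr : 0 < r)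
    (hδ : 0 < δ) :
    ENNReal.ofReal (ballPot r ‖R - c‖) * (∫⁻ y in ball c r, ENNReal.ofReal (‖f y‖ ^ 2)) ≤
      ENNReal.ofReal ((1 + δ) * vB r) * (∫⁻ x in ball c r, ENNReal.ofReal ‖x - R‖⁻¹ *
        ENNReal.ofReal (‖f x‖ ^ 2)) +
      ENNReal.ofReal ((1 + δ⁻¹) * (128 * Real.pi * r ^ 4)) *
        ∫⁻ v in ball c r, ENNReal.ofReal (grad1 f v) := by
  have h1 := oneL hf.continuous (w := fun x => ENNReal.ofReal ‖x - R‖⁻¹) (by fun_prop) c hr hδ
  rw [lintegral_ball_inv_swap c R hr.le] at h1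
  refine h1.trans ?_
  rw [ENNReal.ofReal_mul (by positivity), ENNReal.ofReal_mul (by positivity), mul_assoc,
    mul_assoc]
  gcongr
  exact ball_poinc hf c R hr

theorem lintegral_ballPot_ball (c : E3) {r : ℝ} (hr : 0 ≤ r) :
    ∫⁻ x in ball c r, ENNReal.ofReal (ballPot r ‖x - c‖) = ENNReal.ofReal (selfE r) := by
  rw [← lintegral_lintegral_ball_inv c hr]
  simp only [lintegral_ball_inv' c _ hr]

theorem osc_bound {f : E3 → ℂ} (hf : ContDiff ℝ 1 f) (c : E3) {r : ℝ} (hr : 0 < r) :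
    ∫⁻ x in ball c r, ∫⁻ y in ball c r, ENNReal.ofReal (‖f x - f y‖ ^ 2) ≤
      ENNReal.ofReal (256 * Real.pi * r ^ 5) * ∫⁻ v in ball c r, ENNReal.ofReal (grad1 f v) := by
  have hpi := Real.pi_pos
  obtain ⟨u, hu⟩ : ∃ u : E3, ‖u‖ = r := ⟨ax r, norm_ax_of_nonneg hr.le⟩
  set R : E3 := c + u with hR
  have hpt : ∀ x ∈ ball c r, (1 : ℝ≥0∞) ≤ ENNReal.ofReal (2 * r) * ENNReal.ofReal ‖x - R‖⁻¹ := by
    intro x hx
    rw [mem_ball_iff_norm] at hx
    have h1 : 0 < ‖x - R‖ := by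
      have h2 := norm_sub_norm_le (R - c) (x - c)
      have h3 : R - c - (x - c) = -(x - R) := by abel
      have h4 : R - c = u := by rw [hR]; abel
      rw [h3, norm_neg, h4, hu] at h2
      linarith
    have h2 : ‖x - R‖ ≤ 2 * r := by
      have h3 : x - R = (x - c) - u := by rw [hR]; abel
      rw [h3]
      have := norm_sub_le (x - c) u
      linarith
    rw [← ENNReal.ofReal_mul (by positivity)]
    rw [ENNReal.one_le_ofReal, ← div_eq_mul_inv, le_div_iff₀ h1]
    linarith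
  have hm2 : Measurable fun q : E3 × E3 => ENNReal.ofReal (‖f q.1 - f q.2‖ ^ 2) := by
    have := hf.continuous
    fun_prop
  have hmD : Measurable fun x : E3 => ∫⁻ y in ball c r, ENNReal.ofReal (‖f x - f y‖ ^ 2) :=
    hm2.lintegral_prod_right'
  have hmw : Measurable fun x : E3 => ENNReal.ofReal ‖x - R‖⁻¹ := by fun_prop
  calc ∫⁻ x in ball c r, ∫⁻ y in ball c r, ENNReal.ofReal (‖f x - f y‖ ^ 2)
      ≤ ∫⁻ x in ball c r, ENNReal.ofReal (2 * r) * (ENNReal.ofReal ‖x - R‖⁻¹ *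
          ∫⁻ y in ball c r, ENNReal.ofReal (‖f x - f y‖ ^ 2)) := by
        apply setLIntegral_mono' measurableSet_ball
        intro x hx
        rw [← mul_assoc]
        exact le_mul_of_one_le_left' (hpt x hx)
    _ = ENNReal.ofReal (2 * r) * ∫⁻ x in ball c r, ENNReal.ofReal ‖x - R‖⁻¹ *
          ∫⁻ y in ball c r, ENNReal.ofReal (‖f x - f y‖ ^ 2) :=
        lintegral_const_mul _ (hmw.mul hmD)
    _ ≤ ENNReal.ofReal (2 * r) * (ENNReal.ofReal (128 * Real.pi * r ^ 4) *
          ∫⁻ v in ball c r, ENNReal.ofReal (grad1 f v)) := by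
        gcongr
        exact ball_poinc hf c R hr
    _ = _ := by
        rw [← mul_assoc, ← ENNReal.ofReal_mul (by positivity)]
        congr 2
        ring

theorem oneL_phi {f : E3 → ℂ} (hf : ContDiff ℝ 1 f) (c : E3) {r δ : ℝ} (hr : 0 < r)
    (hδ : 0 < δ) :
    ENNReal.ofReal (selfE r) * (∫⁻ y in ball c r, ENNReal.ofReal (‖f y‖ ^ 2)) ≤
      ENNReal.ofReal ((1 + δ) * vB r) * (∫⁻ x in ball c r, ENNReal.ofReal (ballPot r ‖x - c‖) *
        ENNReal.ofReal (‖f x‖ ^ 2)) +
      ENNReal.ofReal ((1 + δ⁻¹) * (512 * Real.pi ^ 2 * r ^ 7)) *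
        ∫⁻ v in ball c r, ENNReal.ofReal (grad1 f v) := by
  have hpi := Real.pi_pos
  have hwm : Measurable fun x : E3 => ENNReal.ofReal (ballPot r ‖x - c‖) :=
    ((measurable_ballPot r).comp (by fun_prop : Measurable fun x : E3 => ‖x - c‖)).ennreal_ofReal
  have h1 := oneL hf.continuous hwm c hr hδ
  rw [lintegral_ballPot_ball c hr.le] at h1
  refine h1.trans ?_
  have hm2 : Measurable fun q : E3 × E3 => ENNReal.ofReal (‖f q.1 - f q.2‖ ^ 2) := by
    have := hf.continuous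
    fun_prop
  have hmD : Measurable fun x : E3 => ∫⁻ y in ball c r, ENNReal.ofReal (‖f x - f y‖ ^ 2) :=
    hm2.lintegral_prod_right'
  rw [ENNReal.ofReal_mul (by positivity), ENNReal.ofReal_mul (by positivity), mul_assoc,
    mul_assoc]
  gcongr
  calc ∫⁻ x in ball c r, ENNReal.ofReal (ballPot r ‖x - c‖) *
        ∫⁻ y in ball c r, ENNReal.ofReal (‖f x - f y‖ ^ 2)
      ≤ ∫⁻ x in ball c r, ENNReal.ofReal (2 * Real.pi * r ^ 2) *
        ∫⁻ y in ball c r, ENNReal.ofReal (‖f x - f y‖ ^ 2) := by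
        gcongr with x
        exact ballPot_le hr.le (norm_nonneg _)
    _ = ENNReal.ofReal (2 * Real.pi * r ^ 2) * ∫⁻ x in ball c r,
        ∫⁻ y in ball c r, ENNReal.ofReal (‖f x - f y‖ ^ 2) := lintegral_const_mul _ hmD
    _ ≤ ENNReal.ofReal (2 * Real.pi * r ^ 2) * (ENNReal.ofReal (256 * Real.pi * r ^ 5) *
        ∫⁻ v in ball c r, ENNReal.ofReal (grad1 f v)) := by
        gcongr
        exact osc_bound hf c hr
    _ = _ := by
        rw [← mul_assoc, ← ENNReal.ofReal_mul (by positivity)]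
        congr 2
        ring

section
variable {N : ℕ}

/-- transfer of one-variable inequalities on the ball to the many-body setting -/
theorem transfer (i : Fin N) (b : ℝ × E3) {A F1 F2 : Conf N → ℝ≥0∞} (hAm : Measurable A)
    (hA : ∀ x, ∃ α, ∀ y ∈ ball b.2 b.1, A (Function.update x i y) = α)
    (h1m : Measurable F1) (h2m : Measurable F2)
    (h : ∀ x, ∫⁻ y in ball b.2 b.1, F1 (Function.update x i y) ≤
      ∫⁻ y in ball b.2 b.1, F2 (Function.update x i y)) :
    ∫⁻ x, ib b (x i) * A x * F1 x ≤ ∫⁻ x, ib b (x i) * A x * F2 x := by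
  have hib := measurable_ib_x b i
  refine lintegral_update_le i ((hib.mul hAm).mul h1m) ((hib.mul hAm).mul h2m) fun x => ?_
  obtain ⟨α, hα⟩ := hA x
  have key : ∀ F : Conf N → ℝ≥0∞, Measurable F →
      ∫⁻ y, ib b (Function.update x i y i) * A (Function.update x i y) *
        F (Function.update x i y) = α * ∫⁻ y in ball b.2 b.1, F (Function.update x i y) := by
    intro F hF
    have hmF : Measurable fun y => F (Function.update x i y) := hF.comp (measurable_update x)
    rw [← lintegral_const_mul _ hmF, ← lintegral_indicator measurableSet_ball]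
    congr 1
    ext y
    rw [Function.update_self]
    unfold ib
    by_cases hy : y ∈ ball b.2 b.1
    · rw [indicator_of_mem hy, indicator_of_mem hy, hα y hy]; simp
    · rw [indicator_of_notMem hy, indicator_of_notMem hy]; simp
  rw [key F1 h1m, key F2 h2m]
  exact mul_le_mul' le_rfl (h x)

theorem contDiff_one {ψ : Conf N → ℂ} (h : ContDiff ℝ (⊤ : ℕ∞) ψ) (x : Conf N) (i : Fin N) :
    ContDiff ℝ 1 (slice ψ x i) := (contDiff_slice h x i).of_le (by exact_mod_cast le_top)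

theorem nbU_C {ψ : Conf N → ℂ} (h : ContDiff ℝ (⊤ : ℕ∞) ψ) (i : Fin N) (b : ℝ × E3)
    (hb : 0 < b.1) {δ : ℝ} (hδ : 0 < δ) {A : Conf N → ℝ≥0∞} (hAm : Measurable A)
    (hA : ∀ x, ∃ α, ∀ y ∈ ball b.2 b.1, A (Function.update x i y) = α)
    {Y : Conf N → E3} (hYm : Measurable Y) (hY : ∀ x y, Y (Function.update x i y) = Y x) :
    ∫⁻ x, ib b (x i) * A x * (ENNReal.ofReal (vB b.1) *
        (ENNReal.ofReal ‖x i - Y x‖⁻¹ * dens ψ x)) ≤
      ∫⁻ x, ib b (x i) * A x * (ENNReal.ofReal ((1 + δ) * ballPot b.1 ‖Y x - b.2‖) * dens ψ x +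
        ENNReal.ofReal ((1 + δ⁻¹) * (128 * Real.pi * b.1 ^ 4)) * kd ψ i x) := by
  have hd := measurable_dens h.continuous
  have hk := measurable_kd h i
  have hdiff : Differentiable ℝ ψ := h.differentiable (by simp)
  have hm1 : Measurable fun x : Conf N => ENNReal.ofReal ‖x i - Y x‖⁻¹ :=
    ((measurable_pi_apply i).sub hYm).norm.inv.ennreal_ofReal
  have hm2 : Measurable fun x : Conf N => ENNReal.ofReal ((1 + δ) * ballPot b.1 ‖Y x - b.2‖) :=
    (((measurable_ballPot b.1).comp (hYm.sub_const _).norm).const_mul _).ennreal_ofReal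
  refine transfer i b hAm hA ((hm1.mul hd).const_mul _)
    ((hm2.mul hd).add (hk.const_mul _)) fun x => ?_
  have hdx : ∀ y, dens ψ (Function.update x i y) = ENNReal.ofReal (‖slice ψ x i y‖ ^ 2) :=
    fun y => rfl
  have hkx : ∀ y, kd ψ i (Function.update x i y) = ENNReal.ofReal (grad1 (slice ψ x i) y) :=
    fun y => by rw [grad1_slice hdiff]; rfl
  simp only [hdx, hkx, Function.update_self, hY]
  have hc := contDiff_one h x i
  have hcc := hc.continuous
  have hg : Continuous (grad1 (slice ψ x i)) := continuous_grad1 (contDiff_slice h x i)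
  rw [lintegral_const_mul _ (by fun_prop), lintegral_add_left (by fun_prop),
    lintegral_const_mul _ (by fun_prop), lintegral_const_mul _ (by fun_prop)]
  exact oneU_C hc b.2 (Y x) hb hδ

theorem nbL_C {ψ : Conf N → ℂ} (h : ContDiff ℝ (⊤ : ℕ∞) ψ) (i : Fin N) (b : ℝ × E3)
    (hb : 0 < b.1) {δ : ℝ} (hδ : 0 < δ) {A : Conf N → ℝ≥0∞} (hAm : Measurable A)
    (hA : ∀ x, ∃ α, ∀ y ∈ ball b.2 b.1, A (Function.update x i y) = α)
    {Y : Conf N → E3} (hYm : Measurable Y) (hY : ∀ x y, Y (Function.update x i y) = Y x) :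
    ∫⁻ x, ib b (x i) * A x * (ENNReal.ofReal (ballPot b.1 ‖Y x - b.2‖) * dens ψ x) ≤
      ∫⁻ x, ib b (x i) * A x * (ENNReal.ofReal ((1 + δ) * vB b.1) *
        (ENNReal.ofReal ‖x i - Y x‖⁻¹ * dens ψ x) +
        ENNReal.ofReal ((1 + δ⁻¹) * (128 * Real.pi * b.1 ^ 4)) * kd ψ i x) := by
  have hd := measurable_dens h.continuous
  have hk := measurable_kd h i
  have hdiff : Differentiable ℝ ψ := h.differentiable (by simp)
  have hm1 : Measurable fun x : Conf N => ENNReal.ofReal ‖x i - Y x‖⁻¹ :=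
    ((measurable_pi_apply i).sub hYm).norm.inv.ennreal_ofReal
  have hm2 : Measurable fun x : Conf N => ENNReal.ofReal (ballPot b.1 ‖Y x - b.2‖) :=
    ((measurable_ballPot b.1).comp (hYm.sub_const _).norm).ennreal_ofReal
  refine transfer i b hAm hA (hm2.mul hd)
    (((hm1.mul hd).const_mul _).add (hk.const_mul _)) fun x => ?_
  have hdx : ∀ y, dens ψ (Function.update x i y) = ENNReal.ofReal (‖slice ψ x i y‖ ^ 2) :=
    fun y => rfl
  have hkx : ∀ y, kd ψ i (Function.update x i y) = ENNReal.ofReal (grad1 (slice ψ x i) y) :=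
    fun y => by rw [grad1_slice hdiff]; rfl
  simp only [hdx, hkx, Function.update_self, hY]
  have hc := contDiff_one h x i
  have hcc := hc.continuous
  have hg : Continuous (grad1 (slice ψ x i)) := continuous_grad1 (contDiff_slice h x i)
  rw [lintegral_const_mul _ (by fun_prop), lintegral_add_left (by fun_prop),
    lintegral_const_mul _ (by fun_prop), lintegral_const_mul _ (by fun_prop)]
  exact oneL_C hc b.2 (Y x) hb hδ

theorem nbL_phi {ψ : Conf N → ℂ} (h : ContDiff ℝ (⊤ : ℕ∞) ψ) (i : Fin N) (b : ℝ × E3)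
    (hb : 0 < b.1) {δ : ℝ} (hδ : 0 < δ) {A : Conf N → ℝ≥0∞} (hAm : Measurable A)
    (hA : ∀ x, ∃ α, ∀ y ∈ ball b.2 b.1, A (Function.update x i y) = α) :
    ∫⁻ x, ib b (x i) * A x * (ENNReal.ofReal (selfE b.1) * dens ψ x) ≤
      ∫⁻ x, ib b (x i) * A x * (ENNReal.ofReal ((1 + δ) * vB b.1) *
        (ENNReal.ofReal (ballPot b.1 ‖x i - b.2‖) * dens ψ x) +
        ENNReal.ofReal ((1 + δ⁻¹) * (512 * Real.pi ^ 2 * b.1 ^ 7)) * kd ψ i x) := by
  have hd := measurable_dens h.continuous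
  have hk := measurable_kd h i
  have hdiff : Differentiable ℝ ψ := h.differentiable (by simp)
  have hm2 : Measurable fun x : Conf N => ENNReal.ofReal (ballPot b.1 ‖x i - b.2‖) :=
    ((measurable_ballPot b.1).comp ((measurable_pi_apply i).sub_const _).norm).ennreal_ofReal
  refine transfer i b hAm hA (hd.const_mul _)
    (((hm2.mul hd).const_mul _).add (hk.const_mul _)) fun x => ?_
  have hdx : ∀ y, dens ψ (Function.update x i y) = ENNReal.ofReal (‖slice ψ x i y‖ ^ 2) :=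
    fun y => rfl
  have hkx : ∀ y, kd ψ i (Function.update x i y) = ENNReal.ofReal (grad1 (slice ψ x i) y) :=
    fun y => by rw [grad1_slice hdiff]; rfl
  simp only [hdx, hkx, Function.update_self]
  have hc := contDiff_one h x i
  have hcc := hc.continuous
  have hg : Continuous (grad1 (slice ψ x i)) := continuous_grad1 (contDiff_slice h x i)
  have hbp : Measurable fun y : E3 => ENNReal.ofReal (ballPot b.1 ‖y - b.2‖) *
      ENNReal.ofReal (‖slice ψ x i y‖ ^ 2) :=
    (((measurable_ballPot b.1).comp (by fun_prop : Measurable fun y : E3 =>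
      ‖y - b.2‖)).ennreal_ofReal).mul (by fun_prop)
  rw [lintegral_const_mul _ (by fun_prop), lintegral_add_left (hbp.const_mul _),
    lintegral_const_mul _ hbp, lintegral_const_mul _ (by fun_prop)]
  exact oneL_phi hc b.2 hb hδ

end

end Pool.Agent.Lib_helper90c


end

section

/-!
# Two-body mean-field estimate in a ball
-/

set_option autoImplicit false

open MeasureTheory Set Metric Filter
open scoped ENNReal NNReal Topology

namespace Pool.Agent.Lib_helper90c

section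
variable {N : ℕ}

/-- number of particles in the ball -/
noncomputable def nb (b : ℝ × E3) (x : Conf N) : ℕ :=
  ∑ i, (ball b.2 b.1).indicator (1 : E3 → ℕ) (x i)

theorem measurable_nb (b : ℝ × E3) : Measurable (nb (N := N) b) := by
  unfold nb
  exact Finset.measurable_sum _ fun i _ =>
    (measurable_one.indicator measurableSet_ball).comp (measurable_pi_apply i)

theorem sum_ib_nb (b : ℝ × E3) (x : Conf N) : ∑ i, ib b (x i) = (nb b x : ℝ≥0∞) := by
  unfold nb
  push_cast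
  refine Finset.sum_congr rfl fun i _ => ?_
  unfold ib
  by_cases h : x i ∈ ball b.2 b.1
  · rw [indicator_of_mem h, indicator_of_mem h]; simp
  · rw [indicator_of_notMem h, indicator_of_notMem h]; simp

/-- truncation weight -/
noncomputable def lam (M : ℝ) (n : ℕ) : ℝ := if (n : ℝ) ≤ M then 1 else M / n

theorem lam_nonneg {M : ℝ} (hM : 0 ≤ M) (n : ℕ) : 0 ≤ lam M n := by
  unfold lam; split_ifs <;> positivity

theorem lam_le_one {M : ℝ} (n : ℕ) : lam M n ≤ 1 := by
  unfold lam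
  split_ifs with h
  · exact le_rfl
  · push Not at h
    by_cases hn : (n : ℝ) = 0
    · rw [hn]; simp
    · have hn0 : (0 : ℝ) < n := lt_of_le_of_ne (Nat.cast_nonneg _) (Ne.symm hn)
      rw [div_le_one hn0]; exact h.le

theorem lam_mul_le {M : ℝ} (n : ℕ) (hM : 0 ≤ M) : lam M n * n ≤ M := by
  unfold lam
  split_ifs with h
  · rw [one_mul]; exact h
  · by_cases hn : (n : ℝ) = 0
    · rw [hn]; simp [hM]
    · rw [div_mul_cancel₀ _ hn]

theorem lam_key {M ν : ℝ} (hν0 : 0 ≤ ν) (hν : 2 * ν ≤ M) (n : ℕ) :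
    2 * ν * n ≤ lam M n * ((n : ℝ) ^ 2 - n) + n + ν ^ 2 := by
  unfold lam
  split_ifs with h
  · nlinarith [sq_nonneg ((n : ℝ) - ν)]
  · push Not at h
    have hn0 : (0 : ℝ) < n := lt_of_le_of_lt (by linarith) h
    have e : M / n * ((n : ℝ) ^ 2 - n) = M * n - M := by field_simp
    rw [e]
    nlinarith [sq_nonneg ν]

/-- the weight as a function of the configuration -/
noncomputable def lamx (M : ℝ) (b : ℝ × E3) (x : Conf N) : ℝ≥0∞ := ENNReal.ofReal (lam M (nb b x))

theorem measurable_lamx (M : ℝ) (b : ℝ × E3) : Measurable (lamx (N := N) M b) := by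
  unfold lamx
  have h : Measurable fun n : ℕ => ENNReal.ofReal (lam M n) := measurable_from_top
  exact h.comp (measurable_nb b)

theorem nb_update (b : ℝ × E3) (x : Conf N) (i : Fin N) {y y' : E3} (hy : y ∈ ball b.2 b.1)
    (hy' : y' ∈ ball b.2 b.1) : nb b (Function.update x i y) = nb b (Function.update x i y') := by
  unfold nb
  refine Finset.sum_congr rfl fun k _ => ?_
  by_cases hk : k = i
  · subst hk
    rw [Function.update_self, Function.update_self, indicator_of_mem hy, indicator_of_mem hy']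
    rfl
  · rw [Function.update_of_ne hk, Function.update_of_ne hk]

theorem lamx_const (M : ℝ) (b : ℝ × E3) (hb : 0 < b.1) (x : Conf N) (i : Fin N) :
    ∀ y ∈ ball b.2 b.1, lamx M b (Function.update x i y) = lamx M b (Function.update x i b.2) := by
  intro y hy
  unfold lamx
  rw [nb_update b x i hy (mem_ball_self hb)]

theorem weight_const (M : ℝ) (b : ℝ × E3) (hb : 0 < b.1) {i j : Fin N} (hij : i ≠ j) :
    ∀ x : Conf N, ∃ α, ∀ y ∈ ball b.2 b.1,
      (fun x : Conf N => ib b (x j) * lamx M b x) (Function.update x i y) = α := by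
  intro x
  refine ⟨ib b (x j) * lamx M b (Function.update x i b.2), fun y hy => ?_⟩
  simp only [Function.update_of_ne hij.symm]
  rw [lamx_const M b hb x i y hy]

/-- off-diagonal double sum -/
noncomputable def offS (g : Fin N → Fin N → ℝ≥0∞) : ℝ≥0∞ := ∑ i, ∑ j, if i = j then 0 else g i j

theorem offS_mono {g h : Fin N → Fin N → ℝ≥0∞} (H : ∀ i j, i ≠ j → g i j ≤ h i j) :
    offS g ≤ offS h := by
  unfold offS
  refine Finset.sum_le_sum fun i _ => Finset.sum_le_sum fun j _ => ?_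
  split_ifs with hij
  · exact le_rfl
  · exact H i j hij

theorem offS_comm (g : Fin N → Fin N → ℝ≥0∞) : offS (fun i j => g j i) = offS g := by
  unfold offS
  rw [Finset.sum_comm]
  refine Finset.sum_congr rfl fun i _ => Finset.sum_congr rfl fun j _ => ?_
  by_cases h : i = j
  · subst h; simp
  · rw [if_neg h, if_neg (Ne.symm h)]

theorem offS_add (g h : Fin N → Fin N → ℝ≥0∞) :
    offS (fun i j => g i j + h i j) = offS g + offS h := by
  unfold offS
  simp only [← Finset.sum_add_distrib]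
  refine Finset.sum_congr rfl fun i _ => Finset.sum_congr rfl fun j _ => ?_
  split_ifs <;> simp

theorem offS_mul (a : ℝ≥0∞) (g : Fin N → Fin N → ℝ≥0∞) :
    offS (fun i j => a * g i j) = a * offS g := by
  unfold offS
  simp only [Finset.mul_sum]
  refine Finset.sum_congr rfl fun i _ => Finset.sum_congr rfl fun j _ => ?_
  split_ifs <;> simp

/-- weighted pair quantities -/
noncomputable def nij (M : ℝ) (b : ℝ × E3) (ψ : Conf N → ℂ) (i j : Fin N) : ℝ≥0∞ :=
  ∫⁻ x, ib b (x i) * (ib b (x j) * lamx M b x) * dens ψ x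

noncomputable def qij (M : ℝ) (b : ℝ × E3) (ψ : Conf N → ℂ) (i j : Fin N) : ℝ≥0∞ :=
  ∫⁻ x, ib b (x i) * (ib b (x j) * lamx M b x) * (ENNReal.ofReal ‖x i - x j‖⁻¹ * dens ψ x)

noncomputable def tij (M : ℝ) (b : ℝ × E3) (ψ : Conf N → ℂ) (i j : Fin N) : ℝ≥0∞ :=
  ∫⁻ x, ib b (x i) * (ib b (x j) * lamx M b x) * kd ψ i x

theorem measurable_weight (M : ℝ) (b : ℝ × E3) (j : Fin N) :
    Measurable fun x : Conf N => ib b (x j) * lamx M b x :=
  (measurable_ib_x b j).mul (measurable_lamx M b)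

theorem pair_bound (M : ℝ) {ψ : Conf N → ℂ} (h : ContDiff ℝ (⊤ : ℕ∞) ψ) (b : ℝ × E3)
    (hb : 0 < b.1) {δ : ℝ} (hδ : 0 < δ) {i j : Fin N} (hij : i ≠ j) :
    ENNReal.ofReal (selfE b.1) * nij M b ψ i j ≤
      ENNReal.ofReal (((1 + δ) * vB b.1) ^ 2) * qij M b ψ i j +
      (ENNReal.ofReal ((1 + δ) * vB b.1 * ((1 + δ⁻¹) * (128 * Real.pi * b.1 ^ 4))) *
        tij M b ψ i j +
      ENNReal.ofReal ((1 + δ⁻¹) * (512 * Real.pi ^ 2 * b.1 ^ 7)) * tij M b ψ j i) := by
  have hd := measurable_dens h.continuous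
  have hv := vB_nonneg hb.le
  have hw1 := measurable_weight (N := N) M b j
  have hw2 := measurable_weight (N := N) M b i
  have hi := measurable_ib_x (N := N) b i
  have hj := measurable_ib_x (N := N) b j
  have hm1 : Measurable fun x : Conf N => ENNReal.ofReal ‖x i - x j‖⁻¹ * dens ψ x :=
    (measurable_inv_pi i j).ennreal_ofReal.mul hd
  have hbp : Measurable fun x : Conf N => ENNReal.ofReal (ballPot b.1 ‖x j - b.2‖) * dens ψ x :=
    ((measurable_ballPot b.1).comp ((measurable_pi_apply j).sub_const _).norm).ennreal_ofReal.mul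
      hd
  have s1 := nbL_C h i b hb hδ hw1 (weight_const M b hb hij) (Y := fun x => x j)
    (measurable_pi_apply j) (fun x y => Function.update_of_ne hij.symm _ _)
  have s2 := nbL_phi h j b hb hδ hw2 (weight_const M b hb hij.symm)
  set Φ : ℝ≥0∞ := ∫⁻ x : Conf N, ib b (x i) * (ib b (x j) * lamx M b x) *
    (ENNReal.ofReal (ballPot b.1 ‖x j - b.2‖) * dens ψ x) with hΦ
  have e1 : ∫⁻ x : Conf N, ib b (x i) * (ib b (x j) * lamx M b x) *
      (ENNReal.ofReal ((1 + δ) * vB b.1) * (ENNReal.ofReal ‖x i - x j‖⁻¹ * dens ψ x) +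
        ENNReal.ofReal ((1 + δ⁻¹) * (128 * Real.pi * b.1 ^ 4)) * kd ψ i x) =
      ENNReal.ofReal ((1 + δ) * vB b.1) * qij M b ψ i j +
      ENNReal.ofReal ((1 + δ⁻¹) * (128 * Real.pi * b.1 ^ 4)) * tij M b ψ i j := by
    unfold qij tij
    have mA : Measurable fun x : Conf N => ib b (x i) * (ib b (x j) * lamx M b x) *
        (ENNReal.ofReal ‖x i - x j‖⁻¹ * dens ψ x) := (hi.mul hw1).mul hm1
    have mB : Measurable fun x : Conf N => ib b (x i) * (ib b (x j) * lamx M b x) *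
        kd ψ i x := (hi.mul hw1).mul (measurable_kd h i)
    rw [← lintegral_const_mul _ mA, ← lintegral_const_mul _ mB,
      ← lintegral_add_left (mA.const_mul _)]
    congr 1
    ext x
    ring
  have e2 : ∫⁻ x : Conf N, ib b (x j) * (ib b (x i) * lamx M b x) *
      (ENNReal.ofReal ((1 + δ) * vB b.1) *
        (ENNReal.ofReal (ballPot b.1 ‖x j - b.2‖) * dens ψ x) +
        ENNReal.ofReal ((1 + δ⁻¹) * (512 * Real.pi ^ 2 * b.1 ^ 7)) * kd ψ j x) =
      ENNReal.ofReal ((1 + δ) * vB b.1) * Φ +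
      ENNReal.ofReal ((1 + δ⁻¹) * (512 * Real.pi ^ 2 * b.1 ^ 7)) * tij M b ψ j i := by
    unfold tij
    have mA : Measurable fun x : Conf N => ib b (x i) * (ib b (x j) * lamx M b x) *
        (ENNReal.ofReal (ballPot b.1 ‖x j - b.2‖) * dens ψ x) := (hi.mul hw1).mul hbp
    have mB : Measurable fun x : Conf N => ib b (x j) * (ib b (x i) * lamx M b x) *
        kd ψ j x := (hj.mul hw2).mul (measurable_kd h j)
    rw [hΦ, ← lintegral_const_mul _ mA, ← lintegral_const_mul _ mB,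
      ← lintegral_add_left (mA.const_mul _)]
    congr 1
    ext x
    ring
  have e3 : ∫⁻ x : Conf N, ib b (x j) * (ib b (x i) * lamx M b x) *
      (ENNReal.ofReal (selfE b.1) * dens ψ x) = ENNReal.ofReal (selfE b.1) * nij M b ψ i j := by
    unfold nij
    have mA : Measurable fun x : Conf N => ib b (x i) * (ib b (x j) * lamx M b x) *
        dens ψ x := (hi.mul hw1).mul hd
    rw [← lintegral_const_mul _ mA]
    congr 1
    ext x
    ring
  rw [e1] at s1
  rw [e2, e3] at s2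
  calc ENNReal.ofReal (selfE b.1) * nij M b ψ i j
      ≤ ENNReal.ofReal ((1 + δ) * vB b.1) * Φ +
        ENNReal.ofReal ((1 + δ⁻¹) * (512 * Real.pi ^ 2 * b.1 ^ 7)) * tij M b ψ j i := s2
    _ ≤ ENNReal.ofReal ((1 + δ) * vB b.1) * (ENNReal.ofReal ((1 + δ) * vB b.1) * qij M b ψ i j +
        ENNReal.ofReal ((1 + δ⁻¹) * (128 * Real.pi * b.1 ^ 4)) * tij M b ψ i j) +
        ENNReal.ofReal ((1 + δ⁻¹) * (512 * Real.pi ^ 2 * b.1 ^ 7)) * tij M b ψ j i := by
        gcongr
    _ = _ := by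
        have e4 : ENNReal.ofReal (((1 + δ) * vB b.1) ^ 2) =
            ENNReal.ofReal ((1 + δ) * vB b.1) * ENNReal.ofReal ((1 + δ) * vB b.1) := by
          rw [← ENNReal.ofReal_mul (by positivity), ← sq]
        rw [e4, ENNReal.ofReal_mul (p := (1 + δ) * vB b.1)
            (q := (1 + δ⁻¹) * (128 * Real.pi * b.1 ^ 4)) (by positivity)]
        ring

/-- the pair count -/
theorem offS_ib (b : ℝ × E3) (x : Conf N) :
    offS (fun i j => ib b (x i) * ib b (x j)) + (nb b x : ℝ≥0∞) = (nb b x : ℝ≥0∞) ^ 2 := by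
  rw [← sum_ib_nb, sq, Finset.sum_mul_sum]
  unfold offS
  rw [← Finset.sum_add_distrib]
  refine Finset.sum_congr rfl fun i _ => ?_
  have h1 : ∑ j, ib b (x i) * ib b (x j) =
      ∑ j, ((if i = j then 0 else ib b (x i) * ib b (x j)) +
        (if i = j then ib b (x i) * ib b (x j) else 0)) := by
    refine Finset.sum_congr rfl fun j _ => ?_
    split_ifs <;> simp
  rw [h1, Finset.sum_add_distrib]
  congr 1
  simp only [Finset.sum_ite_eq, Finset.mem_univ, if_true]
  unfold ib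
  by_cases h : x i ∈ ball b.2 b.1
  · rw [indicator_of_mem h]; simp
  · rw [indicator_of_notMem h]; simp

theorem offS_ib_eq (b : ℝ × E3) (x : Conf N) :
    offS (fun i j => ib b (x i) * ib b (x j)) =
      ENNReal.ofReal ((nb b x : ℝ) ^ 2 - nb b x) := by
  have h := offS_ib b x
  have h1 : (0 : ℝ) ≤ (nb b x : ℝ) ^ 2 - nb b x := by
    rcases Nat.eq_zero_or_pos (nb b x) with h0 | h0
    · rw [h0]; simp
    · have : (1 : ℝ) ≤ nb b x := by exact_mod_cast h0
      nlinarith
  have h2 : ENNReal.ofReal ((nb b x : ℝ) ^ 2 - nb b x) + (nb b x : ℝ≥0∞) =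
      (nb b x : ℝ≥0∞) ^ 2 := by
    rw [← ENNReal.ofReal_natCast, ← ENNReal.ofReal_add h1 (Nat.cast_nonneg _),
      ← ENNReal.ofReal_pow (Nat.cast_nonneg _)]
    congr 1; ring
  have h3 := h.trans h2.symm
  exact (ENNReal.add_left_inj (ENNReal.natCast_ne_top _)).1 h3

theorem measurable_offS_ib (b : ℝ × E3) :
    Measurable fun x : Conf N => offS (fun i j => ib b (x i) * ib b (x j)) := by
  unfold offS
  refine Finset.measurable_sum _ fun i _ => Finset.measurable_sum _ fun j _ => ?_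
  by_cases h : i = j
  · simp only [h, if_true]; exact measurable_const
  · simp only [h, if_false]
    exact (measurable_ib_x b i).mul (measurable_ib_x b j)

theorem offS_nij (M : ℝ) (b : ℝ × E3) {ψ : Conf N → ℂ} (hd : Measurable (dens ψ)) :
    offS (nij M b ψ) =
      ∫⁻ x, lamx M b x * offS (fun i j => ib b (x i) * ib b (x j)) * dens ψ x := by
  have hm : ∀ i j : Fin N, Measurable fun x : Conf N =>
      if i = j then 0 else ib b (x i) * (ib b (x j) * lamx M b x) * dens ψ x := by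
    intro i j
    by_cases h : i = j
    · simp only [h, if_true]; exact measurable_const
    · simp only [h, if_false]
      exact ((measurable_ib_x b i).mul (measurable_weight M b j)).mul hd
  have e : ∀ x : Conf N, lamx M b x * offS (fun i j => ib b (x i) * ib b (x j)) * dens ψ x =
      ∑ i, ∑ j, if i = j then 0 else ib b (x i) * (ib b (x j) * lamx M b x) * dens ψ x := by
    intro x
    unfold offS
    simp only [Finset.mul_sum, Finset.sum_mul]
    refine Finset.sum_congr rfl fun i _ => Finset.sum_congr rfl fun j _ => ?_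
    split_ifs
    · simp
    · ring
  simp only [e]
  rw [lintegral_finsetSum _ fun i _ => Finset.measurable_sum _ fun j _ => hm i j]
  unfold offS nij
  refine Finset.sum_congr rfl fun i _ => ?_
  rw [lintegral_finsetSum _ fun j _ => hm i j]
  refine Finset.sum_congr rfl fun j _ => ?_
  by_cases h : i = j
  · simp only [h, if_true]; simp
  · simp only [h, if_false]

/-- lower bound on the weighted number of pairs -/
theorem number_lower {M ν : ℝ} (hν0 : 0 ≤ ν) (hν : 2 * ν ≤ M) (b : ℝ × E3) {ψ : Conf N → ℂ}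
    (h : Trial ψ) (hnu : nub ψ b = ENNReal.ofReal ν) :
    ENNReal.ofReal (ν ^ 2) ≤ offS (nij M b ψ) + ENNReal.ofReal ν := by
  have hd := measurable_dens h.smooth.continuous
  have hM : 0 ≤ M := by linarith
  rw [offS_nij M b hd]
  have hnb : ∀ x : Conf N, (nb b x : ℝ≥0∞) = ∑ i, ib b (x i) := fun x => (sum_ib_nb b x).symm
  have hmi : ∀ i : Fin N, Measurable fun x : Conf N => ib b (x i) * dens ψ x := fun i =>
    (measurable_ib_x b i).mul hd
  have hnu' : ∫⁻ x, (nb b x : ℝ≥0∞) * dens ψ x = ENNReal.ofReal ν := by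
    rw [← hnu]
    unfold nub
    rw [← lintegral_finsetSum _ fun i _ => hmi i]
    congr 1
    ext x
    rw [hnb, Finset.sum_mul]
  have hpt : ∀ x : Conf N, ENNReal.ofReal (2 * ν) * ((nb b x : ℝ≥0∞) * dens ψ x) ≤
      lamx M b x * offS (fun i j => ib b (x i) * ib b (x j)) * dens ψ x +
        ((nb b x : ℝ≥0∞) * dens ψ x + ENNReal.ofReal (ν ^ 2) * dens ψ x) := by
    intro x
    have h1 : (0 : ℝ) ≤ (nb b x : ℝ) ^ 2 - nb b x := by
      rcases Nat.eq_zero_or_pos (nb b x) with h0 | h0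
      · rw [h0]; simp
      · have : (1 : ℝ) ≤ nb b x := by exact_mod_cast h0
        nlinarith
    have hl := lam_nonneg hM (nb b x)
    have key : ENNReal.ofReal (2 * ν) * (nb b x : ℝ≥0∞) ≤
        lamx M b x * offS (fun i j => ib b (x i) * ib b (x j)) + ((nb b x : ℝ≥0∞) +
          ENNReal.ofReal (ν ^ 2)) := by
      rw [offS_ib_eq]
      unfold lamx
      rw [← ENNReal.ofReal_natCast, ← ENNReal.ofReal_mul (by positivity),
        ← ENNReal.ofReal_mul hl, ← ENNReal.ofReal_add (by positivity) (by positivity),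
        ← ENNReal.ofReal_add (by positivity) (by positivity)]
      apply ENNReal.ofReal_le_ofReal
      have := lam_key hν0 hν (nb b x)
      linarith
    calc ENNReal.ofReal (2 * ν) * ((nb b x : ℝ≥0∞) * dens ψ x)
        = (ENNReal.ofReal (2 * ν) * (nb b x : ℝ≥0∞)) * dens ψ x := by ring
      _ ≤ (lamx M b x * offS (fun i j => ib b (x i) * ib b (x j)) + ((nb b x : ℝ≥0∞) +
          ENNReal.ofReal (ν ^ 2))) * dens ψ x := mul_le_mul' key le_rfl
      _ = _ := by ring
  have hmn : Measurable fun x : Conf N => (nb b x : ℝ≥0∞) * dens ψ x := by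
    simp only [hnb]
    exact (Finset.measurable_sum _ fun i _ => measurable_ib_x b i).mul hd
  have h2 := lintegral_mono (μ := volume) hpt
  have hm7 : Measurable fun x : Conf N =>
      lamx M b x * offS (fun i j => ib b (x i) * ib b (x j)) * dens ψ x :=
    ((measurable_lamx M b).mul (measurable_offS_ib b)).mul hd
  rw [lintegral_const_mul _ hmn, lintegral_add_left hm7, lintegral_add_left hmn,
    lintegral_const_mul _ hd, lintegral_dens h, mul_one, hnu'] at h2
  have h3 : ENNReal.ofReal (2 * ν) * ENNReal.ofReal ν =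
      ENNReal.ofReal (ν ^ 2) + ENNReal.ofReal (ν ^ 2) := by
    rw [← ENNReal.ofReal_mul (by positivity), ← ENNReal.ofReal_add (by positivity)
      (by positivity)]
    congr 1; ring
  rw [h3, ← add_assoc] at h2
  exact (ENNReal.add_le_add_iff_right ENNReal.ofReal_ne_top).1 h2

theorem offS_qij_le (M : ℝ) (b : ℝ × E3) (ψ : Conf N → ℂ) :
    offS (qij M b ψ) ≤ 2 * Pb ψ b := by
  unfold Pb
  rw [← mul_assoc, ENNReal.mul_inv_cancel (by norm_num) (by norm_num), one_mul]
  unfold offS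
  refine Finset.sum_le_sum fun i _ => Finset.sum_le_sum fun j _ => ?_
  split_ifs
  · exact zero_le
  · unfold qij
    apply lintegral_mono
    intro x
    have hl : lamx M b x ≤ 1 := by
      unfold lamx
      exact ENNReal.ofReal_le_one.2 (lam_le_one _)
    calc ib b (x i) * (ib b (x j) * lamx M b x) * (ENNReal.ofReal ‖x i - x j‖⁻¹ * dens ψ x)
        ≤ ib b (x i) * (ib b (x j) * 1) * (ENNReal.ofReal ‖x i - x j‖⁻¹ * dens ψ x) := by
          gcongr
      _ = _ := by ring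

theorem offS_tij_le {M : ℝ} (hM : 0 ≤ M) (b : ℝ × E3) {ψ : Conf N → ℂ}
    (h : ContDiff ℝ (⊤ : ℕ∞) ψ) : offS (tij M b ψ) ≤ ENNReal.ofReal M * Tb ψ b := by
  have hk := measurable_kd h
  unfold Tb
  rw [Finset.mul_sum]
  unfold offS
  refine Finset.sum_le_sum fun i _ => ?_
  have hm : ∀ j : Fin N, Measurable fun x : Conf N =>
      ib b (x i) * (ib b (x j) * lamx M b x) * kd ψ i x := fun j =>
    ((measurable_ib_x b i).mul (measurable_weight M b j)).mul (hk i)
  calc ∑ j, (if i = j then 0 else tij M b ψ i j) ≤ ∑ j, tij M b ψ i j := by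
        refine Finset.sum_le_sum fun j _ => ?_
        split_ifs
        · exact zero_le
        · exact le_rfl
    _ = ∫⁻ x, ib b (x i) * ((nb b x : ℝ≥0∞) * lamx M b x) * kd ψ i x := by
        unfold tij
        rw [← lintegral_finsetSum _ fun j _ => hm j]
        congr 1
        ext x
        rw [← sum_ib_nb, Finset.sum_mul, Finset.mul_sum, Finset.sum_mul]
    _ ≤ ∫⁻ x, ENNReal.ofReal M * (ib b (x i) * kd ψ i x) := by
        apply lintegral_mono
        intro x
        have hl : (nb b x : ℝ≥0∞) * lamx M b x ≤ ENNReal.ofReal M := by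
          unfold lamx
          rw [← ENNReal.ofReal_natCast, ← ENNReal.ofReal_mul (Nat.cast_nonneg _)]
          apply ENNReal.ofReal_le_ofReal
          rw [mul_comm]
          exact lam_mul_le _ hM
        calc ib b (x i) * ((nb b x : ℝ≥0∞) * lamx M b x) * kd ψ i x
            ≤ ib b (x i) * ENNReal.ofReal M * kd ψ i x := by gcongr
          _ = _ := by ring
    _ = ENNReal.ofReal M * ∫⁻ x, ib b (x i) * kd ψ i x := by
        have hm2 : Measurable fun x : Conf N => ib b (x i) * kd ψ i x :=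
          (measurable_ib_x b i).mul (hk i)
        rw [lintegral_const_mul _ hm2]

/-- constant of the two-body estimate -/
noncomputable def c2 (δ r : ℝ) : ℝ :=
  (1 + δ) * vB r * ((1 + δ⁻¹) * (128 * Real.pi * r ^ 4)) +
    (1 + δ⁻¹) * (512 * Real.pi ^ 2 * r ^ 7)

/-- The two-body estimate. -/
theorem two_body {M ν δ : ℝ} (hν0 : 0 ≤ ν) (hν : 2 * ν ≤ M) (hδ : 0 < δ) (b : ℝ × E3)
    (hb : 0 < b.1) {ψ : Conf N → ℂ} (h : Trial ψ) (hnu : nub ψ b = ENNReal.ofReal ν) :
    ENNReal.ofReal (selfE b.1 * ν ^ 2) ≤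
      ENNReal.ofReal (((1 + δ) * vB b.1) ^ 2) * (2 * Pb ψ b) +
      ENNReal.ofReal (c2 δ b.1 * M) * Tb ψ b + ENNReal.ofReal (selfE b.1 * ν) := by
  have hd := measurable_dens h.smooth.continuous
  have hM : 0 ≤ M := by linarith
  have hs0 := selfE_nonneg hb.le
  have hv := vB_nonneg hb.le
  have hpi := Real.pi_pos
  set α := ENNReal.ofReal ((1 + δ) * vB b.1 * ((1 + δ⁻¹) * (128 * Real.pi * b.1 ^ 4))) with hα
  set β := ENNReal.ofReal ((1 + δ⁻¹) * (512 * Real.pi ^ 2 * b.1 ^ 7)) with hβ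
  have hsum : ENNReal.ofReal (selfE b.1) * offS (nij M b ψ) ≤
      ENNReal.ofReal (((1 + δ) * vB b.1) ^ 2) * offS (qij M b ψ) +
      (α * offS (tij M b ψ) + β * offS (tij M b ψ)) := by
    calc ENNReal.ofReal (selfE b.1) * offS (nij M b ψ)
        = offS (fun i j => ENNReal.ofReal (selfE b.1) * nij M b ψ i j) := (offS_mul _ _).symm
      _ ≤ offS (fun i j => ENNReal.ofReal (((1 + δ) * vB b.1) ^ 2) * qij M b ψ i j +
          (α * tij M b ψ i j + β * tij M b ψ j i)) :=
          offS_mono fun i j hij => pair_bound M h.smooth b hb hδ hij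
      _ = _ := by
          have hcm : offS (fun i j => tij M b ψ j i) = offS (tij M b ψ) := offS_comm _
          rw [offS_add, offS_add, offS_mul, offS_mul, offS_mul β (fun i j => tij M b ψ j i),
            hcm]
  have hab : α + β = ENNReal.ofReal (c2 δ b.1) := by
    rw [hα, hβ, ← ENNReal.ofReal_add (by positivity) (by positivity)]
    rfl
  have hc2 : 0 ≤ c2 δ b.1 := by unfold c2; positivity
  calc ENNReal.ofReal (selfE b.1 * ν ^ 2)
      = ENNReal.ofReal (selfE b.1) * ENNReal.ofReal (ν ^ 2) := ENNReal.ofReal_mul hs0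
    _ ≤ ENNReal.ofReal (selfE b.1) * (offS (nij M b ψ) + ENNReal.ofReal ν) := by
        gcongr
        exact number_lower hν0 hν b h hnu
    _ = ENNReal.ofReal (selfE b.1) * offS (nij M b ψ) + ENNReal.ofReal (selfE b.1 * ν) := by
        rw [mul_add, ENNReal.ofReal_mul (q := ν) hs0]
    _ ≤ ENNReal.ofReal (((1 + δ) * vB b.1) ^ 2) * offS (qij M b ψ) +
        (α * offS (tij M b ψ) + β * offS (tij M b ψ)) + ENNReal.ofReal (selfE b.1 * ν) := by
        gcongr
    _ = ENNReal.ofReal (((1 + δ) * vB b.1) ^ 2) * offS (qij M b ψ) +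
        ENNReal.ofReal (c2 δ b.1) * offS (tij M b ψ) + ENNReal.ofReal (selfE b.1 * ν) := by
        rw [← add_mul, hab]
    _ ≤ ENNReal.ofReal (((1 + δ) * vB b.1) ^ 2) * (2 * Pb ψ b) +
        ENNReal.ofReal (c2 δ b.1) * (ENNReal.ofReal M * Tb ψ b) +
          ENNReal.ofReal (selfE b.1 * ν) := by
        gcongr
        · exact offS_qij_le M b ψ
        · exact offS_tij_le hM b h.smooth
    _ = _ := by
        rw [ENNReal.ofReal_mul (q := M) hc2]
        ring

end

end Pool.Agent.Lib_helper90c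


end

section

/-!
# The main estimate in one ball
-/

set_option autoImplicit false

open MeasureTheory Set Metric Filter
open scoped ENNReal NNReal Topology

namespace Pool.Agent.Lib_helper90c

section
variable {N K : ℕ}

/-- attraction of the electrons in `b` to a point `y` -/
noncomputable def AkN (ψ : Conf N → ℂ) (b : ℝ × E3) (y : E3) : ℝ≥0∞ :=
  ∑ i, ∫⁻ x, ib b (x i) * (ENNReal.ofReal ‖x i - y‖⁻¹ * dens ψ x)

theorem AbN_eq (R : Fin K → E3) {ψ : Conf N → ℂ} (hd : Measurable (dens ψ)) (b : ℝ × E3) :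
    AbN R ψ b = ∑ k : Sb R b, AkN ψ b (R k) := by
  rw [← sum_ib R b (fun k => AkN ψ b (R k))]
  unfold AbN AkN
  rw [Finset.sum_comm]
  refine Finset.sum_congr rfl fun k _ => ?_
  rw [Finset.mul_sum]
  refine Finset.sum_congr rfl fun i _ => ?_
  have hm : Measurable fun x : Conf N => ib b (x i) * (ENNReal.ofReal ‖x i - R k‖⁻¹ * dens ψ x) :=
    (measurable_ib_x b i).mul (((measurable_pi_apply i).sub_const _).norm.inv.ennreal_ofReal.mul hd)
  rw [← lintegral_const_mul _ hm]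
  congr 1
  ext x
  ring

theorem AkN_le {ψ : Conf N → ℂ} (h : ContDiff ℝ (⊤ : ℕ∞) ψ) (b : ℝ × E3) (hb : 0 < b.1)
    {δ : ℝ} (hδ : 0 < δ) (y : E3) :
    ENNReal.ofReal (vB b.1) * AkN ψ b y ≤
      ENNReal.ofReal ((1 + δ) * ballPot b.1 ‖y - b.2‖) * nub ψ b +
        ENNReal.ofReal ((1 + δ⁻¹) * (128 * Real.pi * b.1 ^ 4)) * Tb ψ b := by
  have hd := measurable_dens h.continuous
  unfold AkN nub Tb
  simp only [Finset.mul_sum]
  rw [← Finset.sum_add_distrib]
  refine Finset.sum_le_sum fun i _ => ?_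
  have h1 := nbU_C h i b hb hδ (A := fun _ => 1) measurable_const (fun x => ⟨1, fun _ _ => rfl⟩)
    (Y := fun _ => y) measurable_const (fun _ _ => rfl)
  simp only [mul_one] at h1
  have hi := measurable_ib_x (N := N) b i
  have hm0 : Measurable fun x : Conf N => ib b (x i) * (ENNReal.ofReal ‖x i - y‖⁻¹ * dens ψ x) :=
    hi.mul (((measurable_pi_apply i).sub_const _).norm.inv.ennreal_ofReal.mul hd)
  have hm1 : Measurable fun x : Conf N => ib b (x i) * dens ψ x := hi.mul hd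
  have hm2 : Measurable fun x : Conf N => ib b (x i) * kd ψ i x := hi.mul (measurable_kd h i)
  rw [← lintegral_const_mul _ hm0, ← lintegral_const_mul _ hm1, ← lintegral_const_mul _ hm2,
    ← lintegral_add_left (hm1.const_mul _)]
  refine le_trans (le_of_eq ?_) (h1.trans (le_of_eq ?_))
  · congr 1; ext x; ring
  · congr 1; ext x; ring

/-- the attraction in terms of the potential of the uniform ball -/
theorem AbN_le_main (R : Fin K → E3) {ψ : Conf N → ℂ} (h : ContDiff ℝ (⊤ : ℕ∞) ψ) (b : ℝ × E3)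
    (hb : 0 < b.1) {δ : ℝ} (hδ : 0 < δ) :
    ENNReal.ofReal (vB b.1) * AbN R ψ b ≤
      ENNReal.ofReal ((1 + δ) * ∑ k : Sb R b, ballPot b.1 ‖R k - b.2‖) * nub ψ b +
        ENNReal.ofReal ((1 + δ⁻¹) * (128 * Real.pi * b.1 ^ 4) * kb R b) * Tb ψ b := by
  have hd := measurable_dens h.continuous
  have hp : ∀ k : Sb R b, 0 ≤ ballPot b.1 ‖R k - b.2‖ := fun k =>
    ballPot_nonneg hb.le (norm_nonneg _)
  rw [AbN_eq R hd b, Finset.mul_sum]
  calc ∑ k : Sb R b, ENNReal.ofReal (vB b.1) * AkN ψ b (R k)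
      ≤ ∑ k : Sb R b, (ENNReal.ofReal ((1 + δ) * ballPot b.1 ‖R k - b.2‖) * nub ψ b +
        ENNReal.ofReal ((1 + δ⁻¹) * (128 * Real.pi * b.1 ^ 4)) * Tb ψ b) :=
        Finset.sum_le_sum fun k _ => AkN_le h b hb hδ (R k)
    _ = _ := by
        rw [Finset.sum_add_distrib, ← Finset.sum_mul, ← ENNReal.ofReal_sum_of_nonneg
          (fun k _ => mul_nonneg (by positivity) (hp k)), ← Finset.mul_sum, Finset.sum_const,
          Finset.card_univ, nsmul_eq_mul]
        congr 1
        rw [ENNReal.ofReal_mul (q := (kb R b : ℝ)) (by positivity), ENNReal.ofReal_natCast]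
        unfold kb
        ring

end

/-- jellium lower bound at density `τ³` -/
theorem jel_scaled {z δ' r0 r τ : ℝ} (hz : 0 < z) (hr0 : 0 < r0) (hδ' : 0 ≤ δ')
    (hlow : ∀ r, r0 ≤ r → ∀ (n : ℕ) (p : Fin n → E3), Function.Injective p →
      (∀ i, p i ∈ ball (0 : E3) r) → (estar z - δ') * vB r ≤ jel z r p)
    {ι : Type} [Fintype ι] (p : ι → E3) (hinj : Function.Injective p)
    (hp : ∀ i, p i ∈ ball (0 : E3) r) (hr : 0 < r) (hτ : 0 ≤ τ) :
    z * τ ^ 3 * ∑ i, ballPot r ‖p i‖ ≤ z ^ 2 * rep p + τ ^ 6 * selfE r / 2 +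
      (δ' - estar z) * τ ^ 4 * vB r + (2 * Real.pi * z + 4 * Real.pi ^ 2 * r0 ^ 3) *
        (τ ^ 3 * r ^ 2) := by
  have he := estar_nonpos hz
  have hrep := rep_nonneg p
  have hs := selfE_nonneg hr.le
  have hv := vB_nonneg hr.le
  have hpi := Real.pi_pos
  have hde : 0 ≤ δ' - estar z := by linarith
  rcases hτ.eq_or_lt with h0 | h0
  · rw [← h0]
    have : 0 ≤ z ^ 2 * rep p := by positivity
    simpa using this
  · have hsc : jel z (τ * r) (fun i => τ • p i) =
        z ^ 2 * (τ⁻¹ * rep p) - z * (τ ^ 2 * ∑ i, ballPot r ‖p i‖) + τ ^ 5 * selfE r / 2 := by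
      unfold jel
      rw [rep_smul p h0]
      have h1 : ∀ i, ballPot (τ * r) ‖τ • p i‖ = τ ^ 2 * ballPot r ‖p i‖ := by
        intro i
        rw [norm_smul, Real.norm_eq_abs, abs_of_pos h0, ballPot_scale h0]
      have h2 : selfE (τ * r) = τ ^ 5 * selfE r := by unfold selfE; ring
      simp only [h1, h2, ← Finset.mul_sum]
    have hmul : τ * jel z (τ * r) (fun i => τ • p i) =
        z ^ 2 * rep p - z * τ ^ 3 * ∑ i, ballPot r ‖p i‖ + τ ^ 6 * selfE r / 2 := by
      rw [hsc]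
      field_simp
    have hinj' : Function.Injective fun i => τ • p i := fun i j hij =>
      hinj (smul_right_injective E3 h0.ne' hij)
    have hp' : ∀ i, τ • p i ∈ ball (0 : E3) (τ * r) := by
      intro i
      have := hp i
      rw [mem_ball_zero_iff] at this ⊢
      rw [norm_smul, Real.norm_eq_abs, abs_of_pos h0]
      exact mul_lt_mul_of_pos_left this h0
    rcases le_or_gt r0 (τ * r) with hc | hc
    · have h3 := jel_Fin (hlow (τ * r) hc) (fun i => τ • p i) hinj' hp'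
      have h4 := mul_le_mul_of_nonneg_left h3 h0.le
      rw [hmul] at h4
      have h5 : τ * ((estar z - δ') * vB (τ * r)) = -((δ' - estar z) * τ ^ 4 * vB r) := by
        unfold vB; ring
      rw [h5] at h4
      have h6 : 0 ≤ (2 * Real.pi * z + 4 * Real.pi ^ 2 * r0 ^ 3) * (τ ^ 3 * r ^ 2) := by positivity
      linarith
    · have h3 := jel_ge_lowT hz.le (mul_pos h0 hr) (fun i => τ • p i) hinj' hp'
      have h4 := mul_le_mul_of_nonneg_left h3 h0.le
      rw [hmul] at h4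
      have h5 : τ * -lowT z (τ * r) = -(2 * Real.pi * z * (τ ^ 3 * r ^ 2) +
          4 * Real.pi ^ 2 * (τ * r) ^ 3 * (τ ^ 3 * r ^ 2)) := by
        unfold lowT; ring
      rw [h5] at h4
      have h6 : (τ * r) ^ 3 ≤ r0 ^ 3 := pow_le_pow_left₀ (by positivity) hc.le 3
      have h7 : 4 * Real.pi ^ 2 * (τ * r) ^ 3 * (τ ^ 3 * r ^ 2) ≤
          4 * Real.pi ^ 2 * r0 ^ 3 * (τ ^ 3 * r ^ 2) := by gcongr
      have h8 : 0 ≤ (δ' - estar z) * τ ^ 4 * vB r := by positivity
      linarith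

theorem c2_le {M r : ℝ} (hM : 1 ≤ M) (hr : 0 < r) :
    c2 (1 / M) r ≤ 2 * (480 * M * r) * (vB r) ^ 2 := by
  have hM0 : 0 < M := by linarith
  have hpi := Real.pi_pos
  have e1 : (1 / M)⁻¹ = M := by rw [one_div, inv_inv]
  have h1 : (1 : ℝ) + 1 / M ≤ 2 := by
    have : 1 / M ≤ 1 := by rw [div_le_one hM0]; exact hM
    linarith
  unfold c2
  rw [e1]
  have hv := vB_nonneg hr.le
  calc (1 + 1 / M) * vB r * ((1 + M) * (128 * Real.pi * r ^ 4)) +
        (1 + M) * (512 * Real.pi ^ 2 * r ^ 7)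
      ≤ 2 * vB r * ((2 * M) * (128 * Real.pi * r ^ 4)) +
        (2 * M) * (512 * Real.pi ^ 2 * r ^ 7) := by
        gcongr <;> linarith
    _ = 2 * (480 * M * r) * (vB r) ^ 2 := by
        unfold vB
        ring

/-- electron repulsion part -/
theorem rep_alg {M r ν P t : ℝ} (hM : 1 ≤ M) (hr : 0 < r) (hν : 0 ≤ ν) (hνM : 2 * ν ≤ M)
    (hP : 0 ≤ P) (ht : 0 ≤ t)
    (h2 : selfE r * ν ^ 2 ≤ ((1 + 1 / M) * vB r) ^ 2 * (2 * P) + c2 (1 / M) r * M * t +
      selfE r * ν) :
    (ν / vB r) ^ 2 * selfE r / 2 ≤ P + 480 * M ^ 2 * r * t + 6 / 5 * (ν / r) := by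
  have hM0 : 0 < M := by linarith
  have hpi := Real.pi_pos
  have hv := vB_pos hr
  have hc := c2_le hM hr
  set D : ℝ := (1 + 1 / M) ^ 2 with hD
  have hD1 : 1 ≤ D := by
    rw [hD]
    have h0 : (0 : ℝ) ≤ 1 / M := by positivity
    exact one_le_pow₀ (by linarith)
  have hs : selfE r = 6 / (5 * r) * (vB r) ^ 2 := by
    unfold selfE vB
    field_simp
    ring
  have hv2 : 0 < vB r ^ 2 := by positivity
  -- divide by v²
  have h3 : 6 / (5 * r) * ν ^ 2 ≤ D * (2 * P) + 2 * (480 * M * r) * M * t + 6 / (5 * r) * ν := by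
    have h4 : 6 / (5 * r) * ν ^ 2 * vB r ^ 2 ≤
        (D * (2 * P) + 2 * (480 * M * r) * M * t + 6 / (5 * r) * ν) * vB r ^ 2 := by
      have h5 : c2 (1 / M) r * M * t ≤ 2 * (480 * M * r) * (vB r) ^ 2 * M * t := by gcongr
      rw [hs, mul_pow] at h2
      rw [hD]
      linarith
    exact le_of_mul_le_mul_right h4 hv2
  have e1 : (ν / vB r) ^ 2 * selfE r / 2 = 3 / 5 * (ν ^ 2 / r) := by
    rw [hs]; field_simp; ring
  have e2 : 6 / (5 * r) * ν ^ 2 = 6 / 5 * (ν ^ 2 / r) := by field_simp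
  have e3 : 6 / (5 * r) * ν = 6 / 5 * (ν / r) := by field_simp
  rw [e2, e3] at h3
  rw [e1]
  set X := ν ^ 2 / r with hX
  set Y := ν / r with hY
  have hX0 : 0 ≤ X := by positivity
  have hY0 : 0 ≤ Y := by positivity
  have hXY : 2 * X ≤ M * Y := by
    have : M * Y - 2 * X = (M - 2 * ν) * Y := by rw [hX, hY]; ring
    have h6 : 0 ≤ (M - 2 * ν) * Y := mul_nonneg (by linarith) hY0
    linarith
  have hDe : D = 1 + 2 / M + 1 / M ^ 2 := by rw [hD]; field_simp; ring
  set T := 480 * M ^ 2 * r * t with hT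
  have hT0 : 0 ≤ T := by positivity
  have e4 : 2 * (480 * M * r) * M * t = 2 * T := by rw [hT]; ring
  rw [e4] at h3
  -- 6/5 X ≤ D 2P + 2T + 6/5 Y ; X ≤ M Y /2; D ≤ 1 + 2/M+1/M²
  -- 1/D ≥ 1 - 2/M
  have h7 : (1 - 2 / M) * D ≤ 1 := by
    rw [hDe]
    have : (1 - 2 / M) * (1 + 2 / M + 1 / M ^ 2) = 1 - 3 / M ^ 2 - 2 / M ^ 3 := by
      field_simp; ring
    rw [this]
    have q1 : (0 : ℝ) ≤ 3 / M ^ 2 := by positivity
    have q2 : (0 : ℝ) ≤ 2 / M ^ 3 := by positivity
    linarith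
  have h8 : 2 / M * X ≤ Y := by
    rw [div_mul_eq_mul_div, div_le_iff₀ hM0]; linarith
  rcases le_or_gt (1 - 2 / M) 0 with hneg | hpos
  · -- then X ≤ (2/M) X ≤ Y
    have h20 : 1 * X ≤ 2 / M * X := mul_le_mul_of_nonneg_right (by linarith) hX0
    linarith
  · have h9 := mul_le_mul_of_nonneg_left h3 hpos.le
    have h10 : (1 - 2 / M) * D * (2 * P) ≤ 1 * (2 * P) :=
      mul_le_mul_of_nonneg_right h7 (by linarith)
    have hq : (1 - 2 / M) ≤ 1 := by
      have : (0 : ℝ) ≤ 2 / M := by positivity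
      linarith
    have h11 : (1 - 2 / M) * (2 * T) ≤ 1 * (2 * T) :=
      mul_le_mul_of_nonneg_right hq (by linarith)
    have h12 : (1 - 2 / M) * (6 / 5 * Y) ≤ 1 * (6 / 5 * Y) :=
      mul_le_mul_of_nonneg_right hq (by linarith)
    have h13 : (1 - 2 / M) * (D * (2 * P) + 2 * T + 6 / 5 * Y) =
        (1 - 2 / M) * D * (2 * P) + (1 - 2 / M) * (2 * T) + (1 - 2 / M) * (6 / 5 * Y) := by ring
    have h14 : (1 - 2 / M) * (6 / 5 * X) = 6 / 5 * X - 6 / 5 * (2 / M * X) := by ring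
    rw [h13, h14] at h9
    linarith

theorem main_alg {z C0 r M ν P t a U Φ k E τ : ℝ} (hz : 0 < z) (hM : 1 ≤ M) (hr : 0 < r)
    (hν : 0 ≤ ν) (hνM : 2 * ν ≤ M) (hP : 0 ≤ P) (ht : 0 ≤ t) (hk0 : 0 ≤ k) (hk : k ≤ M)
    (hΦ : Φ ≤ k * (2 * Real.pi * r ^ 2)) (hτ : τ ^ 3 * vB r = ν) (hτ0 : 0 ≤ τ)
    (h1 : vB r * a ≤ (1 + 1 / M) * Φ * ν + (1 + (1 / M)⁻¹) * (128 * Real.pi * r ^ 4) * k * t)
    (h2 : selfE r * ν ^ 2 ≤ ((1 + 1 / M) * vB r) ^ 2 * (2 * P) + c2 (1 / M) r * M * t +
      selfE r * ν)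
    (h3 : z * τ ^ 3 * Φ ≤ z ^ 2 * U + τ ^ 6 * selfE r / 2 + E + C0 * (τ ^ 3 * r ^ 2)) :
    z * a ≤ P + z ^ 2 * U + (192 * z + 480) * M ^ 2 * r * t + E +
      (3 / (4 * Real.pi) * C0 + 3 / 2 * z + 6 / 5) * (ν / r) := by
  have hM0 : 0 < M := by linarith
  have hpi := Real.pi_pos
  have hv := vB_pos hr
  have hrep := rep_alg hM hr hν hνM hP ht h2
  have hτν : τ ^ 3 = ν / vB r := by rw [← hτ]; field_simp
  have e6 : τ ^ 6 = (ν / vB r) ^ 2 := by rw [← hτν]; ring
  rw [← e6] at hrep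
  have e7 : τ ^ 3 * r ^ 2 = 3 / (4 * Real.pi) * (ν / r) := by
    rw [hτν]; unfold vB; field_simp
  have e1 : (1 / M)⁻¹ = M := by rw [one_div, inv_inv]
  rw [e1] at h1
  have hτ3 : 0 ≤ τ ^ 3 := by positivity
  -- z a ≤ (1+1/M) z τ³ Φ + 192 z M² r t
  have hA : z * a ≤ (1 + 1 / M) * (z * τ ^ 3 * Φ) + 192 * z * M ^ 2 * r * t := by
    have h4 : (1 + M) * (128 * Real.pi * r ^ 4) * k * t ≤
        (2 * M) * (128 * Real.pi * r ^ 4) * M * t := by
      gcongr; linarith
    have h5 : vB r * (z * a) ≤ vB r * ((1 + 1 / M) * (z * τ ^ 3 * Φ) + 192 * z * M ^ 2 * r * t) := by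
      have q1 : vB r * (z * a) = z * (vB r * a) := by ring
      have q2 : vB r * ((1 + 1 / M) * (z * τ ^ 3 * Φ) + 192 * z * M ^ 2 * r * t) =
          z * ((1 + 1 / M) * Φ * ν + (2 * M) * (128 * Real.pi * r ^ 4) * M * t) := by
        rw [← hτ]; unfold vB; ring
      rw [q1, q2]
      exact mul_le_mul_of_nonneg_left (by linarith) hz.le
    exact le_of_mul_le_mul_left h5 hv
  have hB : 1 / M * (z * τ ^ 3 * Φ) ≤ 3 / 2 * z * (ν / r) := by
    calc 1 / M * (z * τ ^ 3 * Φ) ≤ 1 / M * (z * τ ^ 3 * (M * (2 * Real.pi * r ^ 2))) := by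
          gcongr
          exact hΦ.trans (by gcongr)
      _ = z * (2 * Real.pi) * (τ ^ 3 * r ^ 2) := by field_simp
      _ = 3 / 2 * z * (ν / r) := by rw [e7]; field_simp; norm_num
  rw [e7] at h3
  have e8 : (1 + 1 / M) * (z * τ ^ 3 * Φ) = z * τ ^ 3 * Φ + 1 / M * (z * τ ^ 3 * Φ) := by ring
  rw [e8] at hA
  have e9 : (192 * z + 480) * M ^ 2 * r * t = 192 * z * M ^ 2 * r * t + 480 * M ^ 2 * r * t := by
    ring
  have e10 : (3 / (4 * Real.pi) * C0 + 3 / 2 * z + 6 / 5) * (ν / r) =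
      C0 * (3 / (4 * Real.pi) * (ν / r)) + 3 / 2 * z * (ν / r) + 6 / 5 * (ν / r) := by ring
  rw [e9, e10]
  linarith

/-- constant in front of `ν/r` -/
noncomputable def cN (z r0 : ℝ) : ℝ :=
  3 / (4 * Real.pi) * (2 * Real.pi * z + 4 * Real.pi ^ 2 * r0 ^ 3) + 3 / 2 * z + 6 / 5

theorem cN_nonneg {z r0 : ℝ} (hz : 0 ≤ z) (hr0 : 0 ≤ r0) : 0 ≤ cN z r0 := by
  unfold cN; positivity

/-- The main estimate in one ball. -/
theorem main_ball {N K : ℕ} {z δ' r0 M : ℝ} (hz : 0 < z) (hr0 : 0 < r0) (hδ' : 0 ≤ δ')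
    (hlow : ∀ r, r0 ≤ r → ∀ (n : ℕ) (p : Fin n → E3), Function.Injective p →
      (∀ i, p i ∈ ball (0 : E3) r) → (estar z - δ') * vB r ≤ jel z r p)
    (hM : 1 ≤ M) (R : Fin K → E3) (hR : Function.Injective R) {ψ : Conf N → ℂ} (h : Trial ψ)
    (b : ℝ × E3) (hb : 0 < b.1) {ν τ : ℝ} (hν0 : 0 ≤ ν) (hνM : 2 * ν ≤ M)
    (hnu : nub ψ b = ENNReal.ofReal ν) (hk : (kb R b : ℝ) ≤ M) (hτ0 : 0 ≤ τ)
    (hτ : τ ^ 3 * vB b.1 = ν) :
    ENNReal.ofReal z * AbN R ψ b ≤ Pb ψ b + ENNReal.ofReal (z ^ 2) * Ub R b +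
      (ENNReal.ofReal ((192 * z + 480) * M ^ 2 * b.1) * Tb ψ b +
      ENNReal.ofReal ((δ' - estar z) * (τ ^ 4 * vB b.1)) +
      ENNReal.ofReal (cN z r0 * (ν / b.1))) := by
  have hpi := Real.pi_pos
  have hM0 : 0 < M := by linarith
  have hv := vB_pos hb
  have hs := selfE_nonneg hb.le
  have he := estar_nonpos hz
  have hcN := cN_nonneg hz.le hr0.le
  have hcf : 0 < (192 * z + 480) * M ^ 2 * b.1 := by positivity
  by_cases hPt : Pb ψ b = ∞
  · rw [hPt]; simp
  by_cases hTt : Tb ψ b = ∞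
  · rw [hTt, ENNReal.mul_top (ENNReal.ofReal_pos.2 hcf).ne']; simp
  set P := (Pb ψ b).toReal with hP
  set t := (Tb ψ b).toReal with ht
  have hPe : Pb ψ b = ENNReal.ofReal P := (ENNReal.ofReal_toReal hPt).symm
  have hTe : Tb ψ b = ENNReal.ofReal t := (ENNReal.ofReal_toReal hTt).symm
  have hP0 : 0 ≤ P := ENNReal.toReal_nonneg
  have ht0 : 0 ≤ t := ENNReal.toReal_nonneg
  set Φ : ℝ := ∑ k : Sb R b, ballPot b.1 ‖R k - b.2‖ with hΦ
  have hΦ0 : 0 ≤ Φ := Finset.sum_nonneg fun k _ => ballPot_nonneg hb.le (norm_nonneg _)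
  have hΦle : Φ ≤ (kb R b : ℝ) * (2 * Real.pi * b.1 ^ 2) := by
    calc Φ ≤ ∑ _k : Sb R b, 2 * Real.pi * b.1 ^ 2 :=
          Finset.sum_le_sum fun i _ => ballPot_le hb.le (norm_nonneg _)
      _ = _ := by rw [Finset.sum_const, Finset.card_univ, nsmul_eq_mul]; rfl
  have hδ : (0 : ℝ) < 1 / M := by positivity
  have hA := AbN_le_main R h.smooth b hb hδ
  rw [hnu, hTe, ← ENNReal.ofReal_mul (by positivity), ← ENNReal.ofReal_mul (by positivity),
    ← ENNReal.ofReal_add (by positivity) (by positivity)] at hA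
  have hAt : AbN R ψ b ≠ ∞ := by
    intro hcon
    rw [hcon, ENNReal.mul_top (ENNReal.ofReal_pos.2 hv).ne'] at hA
    exact absurd hA (by simp)
  set a := (AbN R ψ b).toReal with ha
  have hAe : AbN R ψ b = ENNReal.ofReal a := (ENNReal.ofReal_toReal hAt).symm
  rw [hAe, ← ENNReal.ofReal_mul hv.le, ENNReal.ofReal_le_ofReal_iff (by positivity)] at hA
  have h2 := two_body hν0 hνM hδ b hb h hnu
  have hc2 : 0 ≤ c2 (1 / M) b.1 := by unfold c2; positivity
  have e2 : (2 : ℝ≥0∞) * Pb ψ b = ENNReal.ofReal (2 * P) := by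
    rw [hPe, ENNReal.ofReal_mul (by norm_num)]; norm_num
  rw [e2, hTe, ← ENNReal.ofReal_mul (by positivity), ← ENNReal.ofReal_mul (by positivity),
    ← ENNReal.ofReal_add (by positivity) (by positivity),
    ← ENNReal.ofReal_add (by positivity) (by positivity),
    ENNReal.ofReal_le_ofReal_iff (by positivity)] at h2
  have h3 := jel_scaled hz hr0 hδ' hlow (fun k : Sb R b => R k - b.2)
    (fun i j hij => Subtype.ext (hR (sub_left_injective hij)))
    (fun i => by
      have := i.2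
      rw [mem_ball_iff_norm] at this
      rwa [mem_ball_zero_iff]) hb hτ0
  have hrep : rep (fun i : Sb R b => R i - b.2) = rep (fun i : Sb R b => R i) := by
    unfold rep; simp only [sub_sub_sub_cancel_right]
  rw [hrep] at h3
  have hU := Ub_eq R b
  have hU0 := rep_nonneg (fun i : Sb R b => R i)
  rw [← hΦ] at hA h3
  have h4 := main_alg (C0 := 2 * Real.pi * z + 4 * Real.pi ^ 2 * r0 ^ 3) (a := a) (P := P)
    (t := t) (Φ := Φ) (E := (δ' - estar z) * τ ^ 4 * vB b.1) hz hM hb hν0 hνM hP0 ht0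
    (Nat.cast_nonneg _) hk hΦle hτ hτ0 hA h2 h3
  have hde : 0 ≤ δ' - estar z := by linarith
  rw [hAe, hPe, hTe, hU, ← ENNReal.ofReal_mul hz.le, ← ENNReal.ofReal_mul (sq_nonneg z),
    ← ENNReal.ofReal_mul hcf.le, ← ENNReal.ofReal_add hP0 (by positivity),
    ← ENNReal.ofReal_add (by positivity) (by positivity),
    ← ENNReal.ofReal_add (by positivity) (by positivity),
    ← ENNReal.ofReal_add (by positivity) (by positivity)]
  apply ENNReal.ofReal_le_ofReal
  refine h4.trans (le_of_eq ?_)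
  unfold cN
  ring

end Pool.Agent.Lib_helper90c


end

section

/-!
# Crude estimates in one ball
-/

set_option autoImplicit false

open MeasureTheory Set Metric Filter
open scoped ENNReal NNReal Topology

namespace Pool.Agent.Lib_helper90c

/-- Hölder with exponents `3/2` and `3` -/
theorem holder3 {A : Set E3} {w ρ : E3 → ℝ≥0∞} (hw : Measurable w) (hρ : Measurable ρ) :
    ∫⁻ x in A, w x * ρ x ≤
      (∫⁻ x in A, w x ^ (3 / 2 : ℝ)) ^ (2 / 3 : ℝ) * (∫⁻ x in A, ρ x ^ 3) ^ (1 / 3 : ℝ) := by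
  have hpq : (3 / 2 : ℝ).HolderConjugate 3 := by
    rw [Real.holderConjugate_iff]; norm_num
  have h := ENNReal.lintegral_mul_le_Lp_mul_Lq (volume.restrict A) hpq hw.aemeasurable
    hρ.aemeasurable
  have e1 : (1 : ℝ) / (3 / 2) = 2 / 3 := by norm_num
  rw [e1] at h
  have e2 : ∀ x, ρ x ^ (3 : ℝ) = ρ x ^ 3 := fun x => by
    rw [← ENNReal.rpow_natCast]; norm_num
  simp only [e2, Pi.mul_apply] at h
  exact h

/-- `∫_{B(0,2)} |x|^{-3/2}` -/
noncomputable def cH : ℝ≥0∞ := ∫⁻ x in ball (0 : E3) 2, (ENNReal.ofReal ‖x‖⁻¹) ^ (3 / 2 : ℝ)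

theorem cH_ne_top : cH ≠ ∞ := by
  have h : IntegrableOn (fun x : E3 => (fun t : ℝ => (t⁻¹) ^ (3 / 2 : ℝ)) ‖x‖) (ball (0 : E3) 2)
      volume := by
    refine (integrableOn_fun_norm_addHaar (E := E3) volume
      (f := fun t : ℝ => (t⁻¹) ^ (3 / 2 : ℝ)) (r := 2)).2 ?_
    have h1 : IntegrableOn (fun y : ℝ => y ^ (1 / 2 : ℝ)) (Ioo 0 2) := by
      rw [intervalIntegral.integrableOn_Ioo_rpow_iff (by norm_num)]
      norm_num
    refine h1.congr_fun ?_ measurableSet_Ioo
    intro y hy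
    have hy0 : 0 < y := hy.1
    simp only [finrank_euclideanSpace_fin, smul_eq_mul]
    rw [Real.inv_rpow hy0.le, ← Real.rpow_neg hy0.le, ← Real.rpow_natCast y (3 - 1),
      ← Real.rpow_add hy0]
    norm_num
  have h2 := h.lintegral_lt_top
  unfold cH
  refine ne_of_lt (lt_of_le_of_lt (le_of_eq ?_) h2)
  congr 1
  ext x
  rw [ENNReal.ofReal_rpow_of_nonneg (by positivity) (by norm_num)]

theorem lintegral_inv_ball_zero {r : ℝ} (hr : 0 < r) :
    ∫⁻ x in ball (0 : E3) (2 * r), (ENNReal.ofReal ‖x‖⁻¹) ^ (3 / 2 : ℝ) =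
      ENNReal.ofReal (r ^ (3 / 2 : ℝ)) * cH := by
  have hm : Measurable fun x : E3 => (ENNReal.ofReal ‖x‖⁻¹) ^ (3 / 2 : ℝ) := by fun_prop
  have hmi : Measurable ((ball (0 : E3) (2 * r)).indicator fun x : E3 =>
      (ENNReal.ofReal ‖x‖⁻¹) ^ (3 / 2 : ℝ)) := hm.indicator measurableSet_ball
  have h := lintegral_comp_smul3 hr hmi
  rw [lintegral_indicator measurableSet_ball] at h
  have h2 : ∫⁻ x : E3, (ball (0 : E3) (2 * r)).indicator (fun x : E3 =>
      (ENNReal.ofReal ‖x‖⁻¹) ^ (3 / 2 : ℝ)) (r • x) = ENNReal.ofReal ((r ^ (3 / 2 : ℝ))⁻¹) * cH := by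
    unfold cH
    rw [← lintegral_indicator measurableSet_ball, ← lintegral_const_mul _
      (hm.indicator measurableSet_ball)]
    congr 1
    ext x
    by_cases hx : x ∈ ball (0 : E3) 2
    · have hx' : r • x ∈ ball (0 : E3) (2 * r) := by
        rw [mem_ball_zero_iff] at hx ⊢
        rw [norm_smul, Real.norm_eq_abs, abs_of_pos hr]
        nlinarith
      rw [indicator_of_mem hx, indicator_of_mem hx', norm_smul, Real.norm_eq_abs, abs_of_pos hr,
        ENNReal.ofReal_rpow_of_nonneg (by positivity) (by norm_num),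
        ENNReal.ofReal_rpow_of_nonneg (by positivity) (by norm_num),
        ← ENNReal.ofReal_mul (by positivity)]
      congr 1
      rw [mul_inv, Real.mul_rpow (by positivity) (by positivity), Real.inv_rpow hr.le]
    · have hx' : r • x ∉ ball (0 : E3) (2 * r) := by
        rw [mem_ball_zero_iff] at hx ⊢
        rw [norm_smul, Real.norm_eq_abs, abs_of_pos hr]
        intro hcon
        exact hx (by nlinarith)
      rw [indicator_of_notMem hx, indicator_of_notMem hx', mul_zero]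
  rw [h2] at h
  have h3 : ENNReal.ofReal (r ^ 3) * (ENNReal.ofReal ((r ^ (3 / 2 : ℝ))⁻¹) * cH) =
      ∫⁻ x in ball (0 : E3) (2 * r), (ENNReal.ofReal ‖x‖⁻¹) ^ (3 / 2 : ℝ) := by
    rw [h, ← mul_assoc, ← ENNReal.ofReal_mul (by positivity),
      mul_inv_cancel₀ (by positivity), ENNReal.ofReal_one, one_mul]
  rw [← h3, ← mul_assoc, ← ENNReal.ofReal_mul (by positivity)]
  congr 2
  rw [← Real.rpow_neg hr.le, ← Real.rpow_natCast r 3, ← Real.rpow_add hr]
  norm_num

theorem lintegral_inv_ball {r : ℝ} (hr : 0 < r) (c : E3) {y : E3} (hy : y ∈ ball c r) :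
    ∫⁻ x in ball c r, (ENNReal.ofReal ‖x - y‖⁻¹) ^ (3 / 2 : ℝ) ≤
      ENNReal.ofReal (r ^ (3 / 2 : ℝ)) * cH := by
  rw [← lintegral_inv_ball_zero hr]
  have hsub : ball c r ⊆ (fun x : E3 => x - y) ⁻¹' ball (0 : E3) (2 * r) := by
    intro x hx
    rw [mem_preimage, mem_ball_zero_iff]
    rw [mem_ball_iff_norm] at hx hy
    have := norm_sub_le_norm_sub_add_norm_sub x c y
    rw [norm_sub_rev c] at this
    linarith
  calc ∫⁻ x in ball c r, (ENNReal.ofReal ‖x - y‖⁻¹) ^ (3 / 2 : ℝ)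
      ≤ ∫⁻ x in (fun x : E3 => x - y) ⁻¹' ball (0 : E3) (2 * r),
        (ENNReal.ofReal ‖x - y‖⁻¹) ^ (3 / 2 : ℝ) := lintegral_mono_set hsub
    _ = ∫⁻ x in ball (0 : E3) (2 * r), (ENNReal.ofReal ‖x‖⁻¹) ^ (3 / 2 : ℝ) := by
        have hm : Measurable fun x : E3 => (ENNReal.ofReal ‖x‖⁻¹) ^ (3 / 2 : ℝ) := by fun_prop
        exact (measurePreserving_sub_right volume y).setLIntegral_comp_preimage
          measurableSet_ball hm

/-- constant in the Hölder bound -/
noncomputable def c1 : ℝ := (cH ^ (2 / 3 : ℝ)).toReal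

theorem c1_nonneg : 0 ≤ c1 := ENNReal.toReal_nonneg

theorem ofReal_c1 : ENNReal.ofReal c1 = cH ^ (2 / 3 : ℝ) :=
  ENNReal.ofReal_toReal (ENNReal.rpow_ne_top_of_nonneg (by norm_num) cH_ne_top)

section
variable {N K : ℕ}

/-- `∫_B ρ³` -/
noncomputable def X3 (ψ : Conf N → ℂ) (b : ℝ × E3) : ℝ≥0∞ :=
  ∫⁻ y in ball b.2 b.1, rho (dens ψ) y ^ 3

theorem ib_mul_eq (b : ℝ × E3) (f : E3 → ℝ≥0∞) (y : E3) :
    ib b y * f y = (ball b.2 b.1).indicator f y := by
  unfold ib
  by_cases h : y ∈ ball b.2 b.1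
  · rw [indicator_of_mem h, indicator_of_mem h]; simp
  · rw [indicator_of_notMem h, indicator_of_notMem h, zero_mul]

theorem lintegral_ib_mul (b : ℝ × E3) (f : E3 → ℝ≥0∞) :
    ∫⁻ y, ib b y * f y = ∫⁻ y in ball b.2 b.1, f y := by
  simp only [ib_mul_eq]
  rw [lintegral_indicator measurableSet_ball]

theorem nub_eq {ψ : Conf N → ℂ} (hd : Measurable (dens ψ)) (b : ℝ × E3) :
    nub ψ b = ∫⁻ y in ball b.2 b.1, rho (dens ψ) y := by
  rw [← lintegral_ib_mul]
  unfold nub
  exact sum_lintegral_eval hd (measurable_ib_right b)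

theorem AkN_eq {ψ : Conf N → ℂ} (hd : Measurable (dens ψ)) (b : ℝ × E3) (y : E3) :
    AkN ψ b y = ∫⁻ x in ball b.2 b.1, ENNReal.ofReal ‖x - y‖⁻¹ * rho (dens ψ) x := by
  rw [← lintegral_ib_mul]
  unfold AkN
  have hm : Measurable fun x : E3 => ib b x * ENNReal.ofReal ‖x - y‖⁻¹ :=
    (measurable_ib_right b).mul (by fun_prop)
  have h := sum_lintegral_eval hd hm
  have e1 : ∀ i, ∫⁻ x : Conf N, ib b (x i) * (ENNReal.ofReal ‖x i - y‖⁻¹ * dens ψ x) =
      ∫⁻ x : Conf N, ib b (x i) * ENNReal.ofReal ‖x i - y‖⁻¹ * dens ψ x := by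
    intro i
    simp only [mul_assoc]
  simp only [e1]
  rw [h]
  simp only [mul_assoc]

theorem AkN_holder {ψ : Conf N → ℂ} (hd : Measurable (dens ψ)) (b : ℝ × E3) (hb : 0 < b.1)
    {y : E3} (hy : y ∈ ball b.2 b.1) :
    AkN ψ b y ≤ ENNReal.ofReal (c1 * b.1) * (X3 ψ b) ^ (1 / 3 : ℝ) := by
  rw [AkN_eq hd]
  refine (holder3 (by fun_prop) (measurable_rho hd)).trans ?_
  unfold X3
  refine mul_le_mul' ?_ le_rfl
  have h := lintegral_inv_ball hb b.2 hy
  refine (ENNReal.rpow_le_rpow h (by norm_num)).trans (le_of_eq ?_)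
  rw [ENNReal.mul_rpow_of_nonneg _ _ (by norm_num), ENNReal.ofReal_rpow_of_nonneg (by positivity)
    (by norm_num), ← Real.rpow_mul hb.le, ← ofReal_c1, mul_comm c1, ENNReal.ofReal_mul hb.le]
  norm_num

/-- another constant -/
noncomputable def c3 : ℝ := (4 * Real.pi / 3) ^ (2 / 3 : ℝ)

theorem c3_nonneg : 0 ≤ c3 := by unfold c3; positivity

theorem nub_holder {ψ : Conf N → ℂ} (hd : Measurable (dens ψ)) (b : ℝ × E3) (hb : 0 < b.1) :
    nub ψ b ≤ ENNReal.ofReal (c3 * b.1 ^ 2) * (X3 ψ b) ^ (1 / 3 : ℝ) := by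
  rw [nub_eq hd]
  have h := holder3 (A := ball b.2 b.1) (w := fun _ => 1) measurable_const (measurable_rho hd)
  simp only [one_mul, ENNReal.one_rpow, lintegral_one, Measure.restrict_apply_univ] at h
  refine h.trans (mul_le_mul' (le_of_eq ?_) le_rfl)
  rw [volume_ball_eq _ hb.le, ENNReal.ofReal_rpow_of_nonneg (vB_nonneg hb.le) (by norm_num)]
  congr 1
  unfold vB c3
  rw [Real.mul_rpow (by positivity) (by positivity), ← Real.rpow_natCast b.1 3,
    ← Real.rpow_mul hb.le, ← Real.rpow_natCast b.1 2]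
  norm_num

theorem AbN_holder (R : Fin K → E3) {ψ : Conf N → ℂ} (hd : Measurable (dens ψ)) (b : ℝ × E3)
    (hb : 0 < b.1) :
    AbN R ψ b ≤ (kb R b : ℝ≥0∞) * (ENNReal.ofReal (c1 * b.1) * (X3 ψ b) ^ (1 / 3 : ℝ)) := by
  rw [AbN_eq R hd b]
  calc ∑ k : Sb R b, AkN ψ b (R k)
      ≤ ∑ _k : Sb R b, ENNReal.ofReal (c1 * b.1) * (X3 ψ b) ^ (1 / 3 : ℝ) :=
        Finset.sum_le_sum fun k _ => AkN_holder hd b hb k.2
    _ = _ := by rw [Finset.sum_const, Finset.card_univ, nsmul_eq_mul]; rfl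

end

/-- constant of the crude estimate -/
noncomputable def cF1 (z : ℝ) : ℝ := z ^ 2 / 4 + 2 * c1 ^ 2

theorem cF1_nonneg (z : ℝ) : 0 ≤ cF1 z := by unfold cF1; positivity

theorem alg_F1 {z u : ℝ} (hu : 0 ≤ u) {k : ℝ} (hk : 1 ≤ k) :
    z * (k * (c1 * u)) ≤ z ^ 2 * (k * (k - 1) / 4) + cF1 z * (k + u ^ 3) := by
  have h1 : z * (k * (c1 * u)) ≤ z ^ 2 * k ^ 2 / 8 + 2 * c1 ^ 2 * u ^ 2 := by
    nlinarith only [sq_nonneg (z * k - 4 * c1 * u)]
  have h2 : u ^ 2 ≤ k + u ^ 3 := by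
    rcases le_total u 1 with h | h
    · have : u ^ 2 ≤ 1 := by nlinarith
      have h3 : 0 ≤ u ^ 3 := by positivity
      linarith
    · have : u ^ 2 ≤ u ^ 3 := pow_le_pow_right₀ h (by norm_num)
      linarith
  have h3 : z ^ 2 * k ^ 2 / 8 ≤ z ^ 2 * (k * (k - 1) / 4) + z ^ 2 / 4 * k := by
    have h4 : z ^ 2 * (k * (k - 1) / 4) + z ^ 2 / 4 * k - z ^ 2 * k ^ 2 / 8 = z ^ 2 * k ^ 2 / 8 := by
      ring
    have h5 : 0 ≤ z ^ 2 * k ^ 2 / 8 := by positivity
    linarith
  have h4 : 2 * c1 ^ 2 * u ^ 2 ≤ 2 * c1 ^ 2 * (k + u ^ 3) :=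
    mul_le_mul_of_nonneg_left h2 (by positivity)
  have h5 : 0 ≤ z ^ 2 / 4 * u ^ 3 := by positivity
  unfold cF1
  nlinarith only [h1, h3, h4, h5]

/-- constant of the dense estimate -/
noncomputable def cF2 (z : ℝ) : ℝ := 64 * c1 ^ 3 / z + 4 * z * c1 * c3 ^ 2

theorem cF2_nonneg {z : ℝ} (hz : 0 < z) : 0 ≤ cF2 z := by
  have := c1_nonneg
  unfold cF2; positivity

theorem alg_F2 {z u M ν : ℝ} (hz : 0 < z) (hM : 2 ≤ M) (hu : 0 ≤ u) {k : ℝ} (hk : 1 ≤ k)
    (hν : ν ≤ c3 * u) (h : M < k ∨ M < 2 * ν) :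
    z * (k * (c1 * u)) ≤ z ^ 2 * (k * (k - 1) / 4) + cF2 z / M * u ^ 3 := by
  have hM0 : 0 < M := by linarith
  have hc1 := c1_nonneg
  have hc3 := c3_nonneg
  have hu3 : 0 ≤ u ^ 3 := by positivity
  rcases le_or_gt k M with hkM | hkM
  · have hν2 : M < 2 * ν := by
      rcases h with h | h
      · exact absurd h (not_lt.2 hkM)
      · exact h
    have h1 : M ≤ 2 * (c3 * u) := by linarith
    have h2 : M ^ 2 ≤ 4 * c3 ^ 2 * u ^ 2 := by
      have := pow_le_pow_left₀ hM0.le h1 2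
      nlinarith
    -- z k c1 u ≤ z c1 M u ≤ (4 z c1 c3²/M) u³
    have h3 : z * (k * (c1 * u)) ≤ z * (M * (c1 * u)) := by gcongr
    have h4 : z * (M * (c1 * u)) ≤ 4 * z * c1 * c3 ^ 2 / M * u ^ 3 := by
      rw [div_mul_eq_mul_div, le_div_iff₀ hM0]
      have h5 : z * (M * (c1 * u)) * M = (z * c1 * u) * M ^ 2 := by ring
      have h6 : 4 * z * c1 * c3 ^ 2 * u ^ 3 = (z * c1 * u) * (4 * c3 ^ 2 * u ^ 2) := by ring
      rw [h5, h6]
      exact mul_le_mul_of_nonneg_left h2 (by positivity)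
    have h7 : 0 ≤ z ^ 2 * (k * (k - 1) / 4) := by
      have : 0 ≤ k - 1 := by linarith
      positivity
    have h8 : cF2 z / M * u ^ 3 = 64 * c1 ^ 3 / z / M * u ^ 3 +
        4 * z * c1 * c3 ^ 2 / M * u ^ 3 := by unfold cF2; ring
    have h9 : 0 ≤ 64 * c1 ^ 3 / z / M * u ^ 3 := by positivity
    rw [h8]
    linarith
  · -- k > M ≥ 2
    have hk2 : 2 ≤ k := by linarith
    have h1 : z ^ 2 * k ^ 2 / 8 ≤ z ^ 2 * (k * (k - 1) / 4) := by
      have h4 : z ^ 2 * (k * (k - 1) / 4) - z ^ 2 * k ^ 2 / 8 = z ^ 2 * k * (k - 2) / 8 := by ring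
      have h5 : 0 ≤ z ^ 2 * k * (k - 2) / 8 := by
        have : 0 ≤ k - 2 := by linarith
        positivity
      linarith
    have h8 : cF2 z / M * u ^ 3 = 64 * c1 ^ 3 / z / M * u ^ 3 +
        4 * z * c1 * c3 ^ 2 / M * u ^ 3 := by unfold cF2; ring
    have h9 : 0 ≤ 4 * z * c1 * c3 ^ 2 / M * u ^ 3 := by positivity
    have h9' : 0 ≤ 64 * c1 ^ 3 / z / M * u ^ 3 := by positivity
    rcases le_or_gt (8 * c1 * u) (z * k) with hc | hc
    · -- z k c1 u ≤ z² k²/8
      have h10 : z * (k * (c1 * u)) ≤ z ^ 2 * k ^ 2 / 8 := by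
        have : z * k * (8 * c1 * u) ≤ z * k * (z * k) :=
          mul_le_mul_of_nonneg_left hc (by positivity)
        nlinarith only [this]
      rw [h8]
      linarith
    · have h10 : z * M ≤ 8 * c1 * u := by
        have : z * M ≤ z * k := by gcongr
        linarith
      have h11 : z * (k * (c1 * u)) ≤ 8 * c1 ^ 2 * u ^ 2 := by
        have : c1 * u * (z * k) ≤ c1 * u * (8 * c1 * u) :=
          mul_le_mul_of_nonneg_left hc.le (by positivity)
        nlinarith only [this]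
      have h12 : 8 * c1 ^ 2 * u ^ 2 ≤ 64 * c1 ^ 3 / z / M * u ^ 3 := by
        rw [div_div, div_mul_eq_mul_div, le_div_iff₀ (by positivity)]
        have : 8 * c1 ^ 2 * u ^ 2 * (z * M) ≤ 8 * c1 ^ 2 * u ^ 2 * (8 * c1 * u) :=
          mul_le_mul_of_nonneg_left h10 (by positivity)
        linarith
      have h13 : 0 ≤ z ^ 2 * k ^ 2 / 8 := by positivity
      rw [h8]
      linarith

section
variable {N K : ℕ}

theorem Ub_lower {r : ℝ} (R : Fin K → E3) (hR : Function.Injective R) (c : E3) (hr : 0 < r) :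
    ENNReal.ofReal ((kb R (r, c) : ℝ) * ((kb R (r, c) : ℝ) - 1) / (4 * r)) ≤ Ub R (r, c) := by
  rw [Ub_eq]
  apply ENNReal.ofReal_le_ofReal
  exact rep_lower (fun i : Sb R (r, c) => R i)
    (fun i j hij => Subtype.ext (hR hij)) c hr (fun i => i.2)

/-- general form of the crude estimates -/
theorem crude_gen {z cA cB : ℝ} (hz : 0 < z) (hcA : 0 ≤ cA) (hcB : 0 ≤ cB) (R : Fin K → E3)
    (hR : Function.Injective R)
    {ψ : Conf N → ℂ} (hd : Measurable (dens ψ)) (b : ℝ × E3) (hb : 0 < b.1)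
    (hX : X3 ψ b ≠ ∞)
    (H : ∀ u : ℝ, 0 ≤ u → u ^ 3 = b.1 ^ 6 * (X3 ψ b).toReal →
      nub ψ b ≤ ENNReal.ofReal (c3 * u) → 1 ≤ (kb R b : ℝ) →
      z * (kb R b * (c1 * u)) ≤ z ^ 2 * ((kb R b : ℝ) * (kb R b - 1) / 4) +
        (cA * kb R b + cB * u ^ 3)) :
    ENNReal.ofReal z * AbN R ψ b ≤ ENNReal.ofReal (z ^ 2) * Ub R b +
      (ENNReal.ofReal (cA * b.1⁻¹) * kb R b + ENNReal.ofReal (cB * b.1 ^ 5) * X3 ψ b) := by
  rcases Nat.eq_zero_or_pos (kb R b) with h0 | h0
  · have h1 := AbN_holder R hd b hb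
    rw [h0, Nat.cast_zero, zero_mul] at h1
    rw [le_antisymm h1 zero_le, mul_zero]
    exact zero_le
  have hk1 : (1 : ℝ) ≤ (kb R b : ℝ) := by exact_mod_cast h0
  set X := (X3 ψ b).toReal with hXdef
  have hX0 : 0 ≤ X := ENNReal.toReal_nonneg
  have hXe : X3 ψ b = ENNReal.ofReal X := (ENNReal.ofReal_toReal hX).symm
  set u : ℝ := b.1 ^ 2 * X ^ (1 / 3 : ℝ) with hu
  have hu0 : 0 ≤ u := by positivity
  have hu3 : u ^ 3 = b.1 ^ 6 * X := by
    have e : (X ^ (1 / 3 : ℝ)) ^ 3 = X := by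
      rw [← Real.rpow_natCast, ← Real.rpow_mul hX0]; norm_num
    rw [hu, mul_pow, e]
    ring
  have hXr : (X3 ψ b) ^ (1 / 3 : ℝ) = ENNReal.ofReal (X ^ (1 / 3 : ℝ)) := by
    rw [hXe, ENNReal.ofReal_rpow_of_nonneg hX0 (by norm_num)]
  have hA := AbN_holder R hd b hb
  have hc1 := c1_nonneg
  have hc3 := c3_nonneg
  rw [hXr, ← ENNReal.ofReal_mul (by positivity), ← ENNReal.ofReal_natCast,
    ← ENNReal.ofReal_mul (Nat.cast_nonneg _)] at hA
  have hN := nub_holder hd b hb
  rw [hXr, ← ENNReal.ofReal_mul (by positivity)] at hN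
  have hN' : nub ψ b ≤ ENNReal.ofReal (c3 * u) := by
    refine hN.trans (le_of_eq ?_)
    congr 1
    rw [hu]; ring
  have key := H u hu0 hu3 hN' hk1
  have hU : ENNReal.ofReal ((kb R b : ℝ) * ((kb R b : ℝ) - 1) / (4 * b.1)) ≤ Ub R b :=
    Ub_lower R hR b.2 hb
  have hkk : 0 ≤ (kb R b : ℝ) * ((kb R b : ℝ) - 1) := by
    have : (0 : ℝ) ≤ kb R b - 1 := by linarith
    positivity
  calc ENNReal.ofReal z * AbN R ψ b
      ≤ ENNReal.ofReal z * ENNReal.ofReal (kb R b * (c1 * b.1 * X ^ (1 / 3 : ℝ))) := by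
        gcongr
    _ = ENNReal.ofReal (b.1⁻¹ * (z * (kb R b * (c1 * u)))) := by
        rw [← ENNReal.ofReal_mul hz.le]
        congr 1
        rw [hu]
        field_simp
    _ ≤ ENNReal.ofReal (b.1⁻¹ * (z ^ 2 * ((kb R b : ℝ) * (kb R b - 1) / 4) +
        (cA * kb R b + cB * u ^ 3))) := by
        apply ENNReal.ofReal_le_ofReal
        exact mul_le_mul_of_nonneg_left key (by positivity)
    _ = ENNReal.ofReal (z ^ 2) * ENNReal.ofReal ((kb R b : ℝ) * ((kb R b : ℝ) - 1) / (4 * b.1)) +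
        (ENNReal.ofReal (cA * b.1⁻¹) * kb R b + ENNReal.ofReal (cB * b.1 ^ 5) * X3 ψ b) := by
        rw [hXe, ← ENNReal.ofReal_natCast, ← ENNReal.ofReal_mul (sq_nonneg z),
          ← ENNReal.ofReal_mul (by positivity), ← ENNReal.ofReal_mul (by positivity),
          ← ENNReal.ofReal_add (by positivity) (by positivity),
          ← ENNReal.ofReal_add (by positivity) (by positivity)]
        congr 1
        rw [hu3]
        field_simp
    _ ≤ _ := by gcongr

/-- crude estimate, all balls -/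
theorem crude_ball {z : ℝ} (hz : 0 < z) (R : Fin K → E3) (hR : Function.Injective R)
    {ψ : Conf N → ℂ} (hd : Measurable (dens ψ)) (b : ℝ × E3) (hb : 0 < b.1)
    (hX : X3 ψ b ≠ ∞) :
    ENNReal.ofReal z * AbN R ψ b ≤ ENNReal.ofReal (z ^ 2) * Ub R b +
      (ENNReal.ofReal (cF1 z * b.1⁻¹) * kb R b +
        ENNReal.ofReal (cF1 z * b.1 ^ 5) * X3 ψ b) := by
  refine crude_gen hz (cF1_nonneg z) (cF1_nonneg z) R hR hd b hb hX fun u hu _ _ hk => ?_
  have := alg_F1 (z := z) hu hk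
  linarith

/-- estimate for balls with many particles -/
theorem dense_ball {z M ν : ℝ} (hz : 0 < z) (hM : 2 ≤ M) (R : Fin K → E3)
    (hR : Function.Injective R)
    {ψ : Conf N → ℂ} (hd : Measurable (dens ψ)) (b : ℝ × E3) (hb : 0 < b.1)
    (hX : X3 ψ b ≠ ∞) (hnu : nub ψ b = ENNReal.ofReal ν) (h : M < kb R b ∨ M < 2 * ν) :
    ENNReal.ofReal z * AbN R ψ b ≤ ENNReal.ofReal (z ^ 2) * Ub R b +
      ENNReal.ofReal (cF2 z / M * b.1 ^ 5) * X3 ψ b := by
  have hM0 : 0 < M := by linarith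
  have hcF := cF2_nonneg hz
  have := crude_gen (cA := 0) (cB := cF2 z / M) hz le_rfl (by positivity) R hR hd b hb hX
    fun u hu _ hν hk => by
      have hν' : ν ≤ c3 * u := by
        rw [hnu] at hν
        by_contra hcon
        push Not at hcon
        have h0 : 0 ≤ c3 * u := mul_nonneg c3_nonneg hu
        have := (ENNReal.ofReal_lt_ofReal_iff (by linarith)).2 hcon
        exact absurd hν (not_le.2 this)
      have := alg_F2 hz hM hu hk hν' h
      linarith
  simpa using this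

end

end Pool.Agent.Lib_helper90c


end
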