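import Mathlib
import Pool.Agent.BMLM.C03

/-! Parts: Lib_helper90c.Weighted, Lib_helper90c.Totals, Lib_helper90c.SobN, Lib_helper90c.GN, Lib_helper90c.LowerE, Lib_helper90c.Final, Lib_helper90c.Limit, Lib_helper90c.H1Moll, Lib_helper90c.H1Weak, Lib_helper90c.H1Approx, Lib_helper90c.H1Energy, Lib_helper90c.H1Limit -/

section

/-!
# Weighted integrals over balls
-/

set_option autoImplicit false

open MeasureTheory Set Metric Filter
open scoped ENNReal NNReal Topology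

namespace Pool.Agent.Lib_helper90c

theorem lintegral_bm_pt (κ : ℝ) {g : ℝ → ℝ≥0∞} (hg : Measurable g) (x : E3) :
    ∫⁻ b, g b.1 * ib b x ∂(bm κ) =
      ∫⁻ r in Ioi (0 : ℝ), ENNReal.ofReal (om κ r) * (g r * ENNReal.ofReal (vB r)) := by
  have hm : Measurable fun b : ℝ × E3 => g b.1 * ib b x :=
    (hg.comp measurable_fst).mul (measurable_ib_left x)
  rw [lintegral_bm κ _ hm]
  refine setLIntegral_congr_fun measurableSet_Ioi fun r hr => ?_
  have hr0 : (0 : ℝ) < r := hr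
  have h1 : Measurable fun c : E3 => ib (r, c) x := by
    have h : Measurable fun c : E3 => (r, c) := measurable_prodMk_left
    exact (measurable_ib_left x).comp h
  have h2 : ∫⁻ c : E3, ib (r, c) x = ENNReal.ofReal (vB r) := by
    have h3 := lintegral_ib_ib r x x
    rw [inter_self, volume_ball_eq x hr0.le] at h3
    rw [← h3]
    congr 1
    ext c
    unfold ib
    by_cases h : x ∈ ball (r, c).2 (r, c).1
    · rw [indicator_of_mem h]; simp
    · rw [indicator_of_notMem h]; simp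
  simp only
  rw [lintegral_const_mul _ h1, h2]

theorem lintegral_bm_ball (κ : ℝ) {g : ℝ → ℝ≥0∞} (hg : Measurable g) {f : E3 → ℝ≥0∞}
    (hf : Measurable f) :
    ∫⁻ b, g b.1 * (∫⁻ y in ball b.2 b.1, f y) ∂(bm κ) =
      (∫⁻ r in Ioi (0 : ℝ), ENNReal.ofReal (om κ r) * (g r * ENNReal.ofReal (vB r))) *
        ∫⁻ y, f y := by
  have hj : Measurable fun q : (ℝ × E3) × E3 => g q.1.1 * (ib q.1 q.2 * f q.2) :=
    (hg.comp (measurable_fst.comp measurable_fst)).mul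
      (measurable_ib.mul (hf.comp measurable_snd))
  have e1 : ∀ b : ℝ × E3, g b.1 * ∫⁻ y in ball b.2 b.1, f y =
      ∫⁻ y : E3, g b.1 * (ib b y * f y) := by
    intro b
    have hm : Measurable fun y : E3 => ib b y * f y := (measurable_ib_right b).mul hf
    rw [lintegral_const_mul _ hm, lintegral_ib_mul]
  simp only [e1]
  rw [lintegral_lintegral_swap (f := fun (b : ℝ × E3) (y : E3) =>
    g b.1 * (ib b y * f y)) hj.aemeasurable]
  have e2 : ∀ y : E3, ∫⁻ b, g b.1 * (ib b y * f y) ∂(bm κ) =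
      (∫⁻ r in Ioi (0 : ℝ), ENNReal.ofReal (om κ r) * (g r * ENNReal.ofReal (vB r))) * f y := by
    intro y
    have hm : Measurable fun b : ℝ × E3 => g b.1 * ib b y :=
      (hg.comp measurable_fst).mul (measurable_ib_left _)
    rw [← lintegral_bm_pt κ hg y, ← lintegral_mul_const _ hm]
    congr 1
    ext b
    ring
  simp only [e2]
  rw [lintegral_const_mul _ hf]

theorem measurable_ball_lintegral {f : E3 → ℝ≥0∞} (hf : Measurable f) :
    Measurable fun b : ℝ × E3 => ∫⁻ y in ball b.2 b.1, f y := by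
  have h : (fun b : ℝ × E3 => ∫⁻ y in ball b.2 b.1, f y) = fun b => ∫⁻ y, ib b y * f y := by
    ext b
    rw [lintegral_ib_mul]
  rw [h]
  have hj : Measurable fun q : (ℝ × E3) × E3 => ib q.1 q.2 * f q.2 :=
    measurable_ib.mul (hf.comp measurable_snd)
  exact hj.lintegral_prod_right'

theorem om_moment_pow {κ : ℝ} (hκ : 0 < κ) {A : ℝ} (hA : 0 ≤ A) (m : ℕ) :
    ∫⁻ r in Ioi (0 : ℝ), ENNReal.ofReal (om κ r) * (ENNReal.ofReal (A * r ^ m) *
      ENNReal.ofReal (vB r)) =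
      ENNReal.ofReal (A * (4 * Real.pi / 3 * mC (m + 1)) * (κ / κ ^ (m + 1))) := by
  have h1 : ∀ r ∈ Ioi (0 : ℝ), ENNReal.ofReal (om κ r) * (ENNReal.ofReal (A * r ^ m) *
      ENNReal.ofReal (vB r)) = ENNReal.ofReal (A * (4 * Real.pi / 3)) *
        (ENNReal.ofReal (om κ r) * ENNReal.ofReal (r ^ ((m + 1) + 2))) := by
    intro r hr
    have hr0 : (0 : ℝ) < r := hr
    have e : ENNReal.ofReal (A * r ^ m) * ENNReal.ofReal (vB r) =
        ENNReal.ofReal (A * (4 * Real.pi / 3)) * ENNReal.ofReal (r ^ ((m + 1) + 2)) := by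
      rw [← ENNReal.ofReal_mul (by positivity), ← ENNReal.ofReal_mul (by positivity)]
      congr 1
      unfold vB
      ring
    rw [e]
    ring
  have hm := measurable_om κ
  rw [setLIntegral_congr_fun measurableSet_Ioi h1, lintegral_const_mul _ (by fun_prop),
    lintegral_om_pow hκ, ← ENNReal.ofReal_mul (by positivity)]
  congr 1
  ring

theorem om_moment_inv {κ : ℝ} (hκ : 0 < κ) {A : ℝ} (hA : 0 ≤ A) :
    ∫⁻ r in Ioi (0 : ℝ), ENNReal.ofReal (om κ r) * (ENNReal.ofReal (A * r⁻¹) *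
      ENNReal.ofReal (vB r)) = ENNReal.ofReal (A * (4 * Real.pi / 3 * mC 0) * κ) := by
  have h1 : ∀ r ∈ Ioi (0 : ℝ), ENNReal.ofReal (om κ r) * (ENNReal.ofReal (A * r⁻¹) *
      ENNReal.ofReal (vB r)) = ENNReal.ofReal (A * (4 * Real.pi / 3)) *
        (ENNReal.ofReal (om κ r) * ENNReal.ofReal (r ^ (0 + 2))) := by
    intro r hr
    have hr0 : (0 : ℝ) < r := hr
    have e : ENNReal.ofReal (A * r⁻¹) * ENNReal.ofReal (vB r) =
        ENNReal.ofReal (A * (4 * Real.pi / 3)) * ENNReal.ofReal (r ^ (0 + 2)) := by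
      rw [← ENNReal.ofReal_mul (by positivity), ← ENNReal.ofReal_mul (by positivity)]
      congr 1
      unfold vB
      field_simp
    rw [e]
    ring
  have hm := measurable_om κ
  rw [setLIntegral_congr_fun measurableSet_Ioi h1, lintegral_const_mul _ (by fun_prop),
    lintegral_om_pow hκ, ← ENNReal.ofReal_mul (by positivity)]
  congr 1
  rw [pow_zero]
  ring

section
variable {N K : ℕ}

theorem lintegral_bm_kb (κ : ℝ) {g : ℝ → ℝ≥0∞} (hg : Measurable g) (R : Fin K → E3) :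
    Measurable (fun b : ℝ × E3 => (kb R b : ℝ≥0∞)) ∧
    ∫⁻ b, g b.1 * (kb R b : ℝ≥0∞) ∂(bm κ) =
      (∫⁻ r in Ioi (0 : ℝ), ENNReal.ofReal (om κ r) * (g r * ENNReal.ofReal (vB r))) * K := by
  have hm : ∀ k : Fin K, Measurable fun b : ℝ × E3 => ib b (R k) := fun k => measurable_ib_left _
  have hm2 : ∀ k : Fin K, Measurable fun b : ℝ × E3 => g b.1 * ib b (R k) := fun k =>
    (hg.comp measurable_fst).mul (hm k)
  refine ⟨?_, ?_⟩
  · simp only [← sum_ib_one]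
    exact Finset.measurable_sum _ fun k _ => hm k
  · simp only [← sum_ib_one, Finset.mul_sum]
    rw [lintegral_finsetSum _ fun k _ => hm2 k]
    simp only [lintegral_bm_pt κ hg]
    rw [Finset.sum_const, Finset.card_univ, Fintype.card_fin, nsmul_eq_mul, mul_comm]

theorem lintegral_rho {ψ : Conf N → ℂ} (h : Trial ψ) : ∫⁻ y, rho (dens ψ) y = N := by
  have hd := measurable_dens h.smooth.continuous
  have h1 := sum_lintegral_eval hd (f := fun _ => 1) measurable_const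
  simp only [one_mul, lintegral_dens h] at h1
  rw [← h1]
  simp

end

end Pool.Agent.Lib_helper90c


end

section

/-!
# Integrated crude and fine estimates
-/

set_option autoImplicit false

open MeasureTheory Set Metric Filter
open scoped ENNReal NNReal Topology

namespace Pool.Agent.Lib_helper90c

section
variable {N K : ℕ}

/-- `∫ ρ³` -/
noncomputable def R3 (ψ : Conf N → ℂ) : ℝ≥0∞ := ∫⁻ y, rho (dens ψ) y ^ 3

/-- `∫ ρ^{4/3}` -/
noncomputable def R43 (ψ : Conf N → ℂ) : ℝ≥0∞ := ∫⁻ y, rho (dens ψ) y ^ (4 / 3 : ℝ)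

/-- `∫_B ρ^{4/3}` -/
noncomputable def X43 (ψ : Conf N → ℂ) (b : ℝ × E3) : ℝ≥0∞ :=
  ∫⁻ y in ball b.2 b.1, rho (dens ψ) y ^ (4 / 3 : ℝ)

theorem X3_le (ψ : Conf N → ℂ) (b : ℝ × E3) : X3 ψ b ≤ R3 ψ :=
  setLIntegral_le_lintegral _ _

theorem jensen43 {ψ : Conf N → ℂ} (hd : Measurable (dens ψ)) (b : ℝ × E3) (hb : 0 < b.1)
    {ν τ : ℝ} (hnu : nub ψ b = ENNReal.ofReal ν) (hτ0 : 0 ≤ τ) (hτ : τ ^ 3 * vB b.1 = ν) :
    ENNReal.ofReal (τ ^ 4 * vB b.1) ≤ X43 ψ b := by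
  have hv := vB_pos hb
  have hρ := measurable_rho hd
  have hpq : (4 / 3 : ℝ).HolderConjugate 4 := by
    rw [Real.holderConjugate_iff]; norm_num
  have h := ENNReal.lintegral_mul_le_Lp_mul_Lq (volume.restrict (ball b.2 b.1)) hpq
    (f := rho (dens ψ)) (g := fun _ => 1) hρ.aemeasurable measurable_const.aemeasurable
  simp only [Pi.mul_apply, mul_one, ENNReal.one_rpow, lintegral_one,
    Measure.restrict_apply_univ] at h
  rw [← nub_eq hd, hnu, volume_ball_eq _ hb.le] at h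
  have e1 : (1 : ℝ) / (4 / 3) = 3 / 4 := by norm_num
  rw [e1] at h
  have h2 := ENNReal.rpow_le_rpow h (show (0 : ℝ) ≤ 4 / 3 by norm_num)
  rw [ENNReal.mul_rpow_of_nonneg _ _ (by norm_num), ← ENNReal.rpow_mul, ← ENNReal.rpow_mul] at h2
  have e2 : (3 / 4 : ℝ) * (4 / 3) = 1 := by norm_num
  have e3 : (1 / 4 : ℝ) * (4 / 3) = 1 / 3 := by norm_num
  rw [e2, e3, ENNReal.rpow_one, ← hτ, ENNReal.ofReal_rpow_of_nonneg (by positivity)
    (by norm_num), ENNReal.ofReal_rpow_of_nonneg hv.le (by norm_num)] at h2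
  have e4 : (τ ^ 3 * vB b.1) ^ (4 / 3 : ℝ) = τ ^ 4 * vB b.1 * vB b.1 ^ (1 / 3 : ℝ) := by
    rw [Real.mul_rpow (by positivity) hv.le, ← Real.rpow_natCast τ 3, ← Real.rpow_mul hτ0,
      mul_assoc]
    congr 1
    · rw [← Real.rpow_natCast τ 4]; norm_num
    · nth_rewrite 2 [← Real.rpow_one (vB b.1)]
      rw [← Real.rpow_add hv]; norm_num
  rw [e4, ENNReal.ofReal_mul (by positivity)] at h2
  have hne : ENNReal.ofReal (vB b.1 ^ (1 / 3 : ℝ)) ≠ 0 :=
    (ENNReal.ofReal_pos.2 (by positivity)).ne'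
  exact (ENNReal.mul_le_mul_iff_left hne ENNReal.ofReal_ne_top).1 h2

theorem crude_total {κ z : ℝ} (hκ : 0 < κ) (hz : 0 < z) (R : Fin K → E3)
    (hR : Function.Injective R) {ψ : Conf N → ℂ} (h : Trial ψ) (hX : R3 ψ ≠ ∞) :
    ENNReal.ofReal z * Aen R ψ ≤ Pee ψ + ENNReal.ofReal (z ^ 2) * ENNReal.ofReal (rep R) +
      ENNReal.ofReal (κ * (N + z ^ 2 * K) / 2) +
      (ENNReal.ofReal (cF1 z * (4 * Real.pi / 3 * mC 0) * κ) * K +
        ENNReal.ofReal (cF1 z * (4 * Real.pi / 3 * mC 6) * (κ / κ ^ 6)) * R3 ψ) := by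
  have hd := measurable_dens h.smooth.continuous
  have hρ3 : Measurable fun y => rho (dens ψ) y ^ 3 := (measurable_rho hd).pow_const 3
  have hc := cF1_nonneg z
  have hg1 : Measurable fun r : ℝ => ENNReal.ofReal (cF1 z * r⁻¹) :=
    (measurable_inv.const_mul _).ennreal_ofReal
  have hg2 : Measurable fun r : ℝ => ENNReal.ofReal (cF1 z * r ^ 5) := by fun_prop
  have hk := lintegral_bm_kb κ hg1 R
  have hX3 := lintegral_bm_ball κ hg2 hρ3
  have hmk : Measurable fun b : ℝ × E3 => ENNReal.ofReal (cF1 z * b.1⁻¹) * (kb R b : ℝ≥0∞) :=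
    (hg1.comp measurable_fst).mul hk.1
  have hmX : Measurable fun b : ℝ × E3 => ENNReal.ofReal (cF1 z * b.1 ^ 5) * X3 ψ b :=
    (hg2.comp measurable_fst).mul (measurable_ball_lintegral hρ3)
  have h1 := loc_main hκ hz.le R hR h
    (fun b => ENNReal.ofReal (cF1 z * b.1⁻¹) * kb R b +
        ENNReal.ofReal (cF1 z * b.1 ^ 5) * X3 ψ b) (hmk.add hmX) (by
      filter_upwards [ae_bm_pos κ] with b hb
      refine (crude_ball hz R hR hd b hb (ne_top_of_le_ne_top hX (X3_le ψ b))).trans ?_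
      gcongr
      exact le_add_self)
  rw [lintegral_add_left hmk, hk.2, om_moment_inv hκ hc] at h1
  have e : ∫⁻ b, ENNReal.ofReal (cF1 z * b.1 ^ 5) * X3 ψ b ∂(bm κ) =
      ENNReal.ofReal (cF1 z * (4 * Real.pi / 3 * mC 6) * (κ / κ ^ 6)) * R3 ψ := by
    unfold X3 R3
    rw [hX3, om_moment_pow hκ hc 5]
  rw [e] at h1
  exact h1

/-- fine estimate in all balls -/
theorem fine_ball {z δ' r0 M Rm : ℝ} (hz : 0 < z) (hr0 : 0 < r0) (hδ' : 0 ≤ δ')
    (hlow : ∀ r, r0 ≤ r → ∀ (n : ℕ) (p : Fin n → E3), Function.Injective p →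
      (∀ i, p i ∈ ball (0 : E3) r) → (estar z - δ') * vB r ≤ jel z r p)
    (hM : 2 ≤ M) (hRm : 0 < Rm) (R : Fin K → E3) (hR : Function.Injective R) {ψ : Conf N → ℂ}
    (h : Trial ψ) (hX : R3 ψ ≠ ∞) (b : ℝ × E3) (hb : 0 < b.1) :
    ENNReal.ofReal z * AbN R ψ b ≤ Pb ψ b + ENNReal.ofReal (z ^ 2) * Ub R b +
      (ENNReal.ofReal ((192 * z + 480) * M ^ 2 * Rm) * Tb ψ b +
        (ENNReal.ofReal (δ' - estar z) * X43 ψ b +
        (ENNReal.ofReal (cN z r0 * b.1⁻¹) * nub ψ b +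
        (ENNReal.ofReal (cF2 z / M * b.1 ^ 5) * X3 ψ b +
        (ENNReal.ofReal (cF1 z * Rm⁻¹) * kb R b +
        ENNReal.ofReal (cF1 z * Rm⁻¹ * b.1 ^ 6) * X3 ψ b))))) := by
  have hd := measurable_dens h.smooth.continuous
  have hXb : X3 ψ b ≠ ∞ := ne_top_of_le_ne_top hX (X3_le ψ b)
  have hc1 := cF1_nonneg z
  have hc2 := cF2_nonneg hz
  have hcN := cN_nonneg hz.le hr0.le
  have he := estar_nonpos hz
  have hM0 : 0 < M := by linarith
  rcases le_or_gt b.1 Rm with hbR | hbR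
  · -- finite number
    have hnf : nub ψ b ≠ ∞ := by
      refine ne_top_of_le_ne_top (ENNReal.natCast_ne_top N) ?_
      rw [nub_eq hd, ← lintegral_rho h]
      exact setLIntegral_le_lintegral _ _
    set ν := (nub ψ b).toReal with hν
    have hν0 : 0 ≤ ν := ENNReal.toReal_nonneg
    have hnu : nub ψ b = ENNReal.ofReal ν := (ENNReal.ofReal_toReal hnf).symm
    by_cases hdense : M < (kb R b : ℝ) ∨ M < 2 * ν
    · refine (dense_ball hz hM R hR hd b hb hXb hnu hdense).trans ?_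
      calc ENNReal.ofReal (z ^ 2) * Ub R b + ENNReal.ofReal (cF2 z / M * b.1 ^ 5) * X3 ψ b
          ≤ (Pb ψ b + ENNReal.ofReal (z ^ 2) * Ub R b) +
            (ENNReal.ofReal ((192 * z + 480) * M ^ 2 * Rm) * Tb ψ b +
            (ENNReal.ofReal (δ' - estar z) * X43 ψ b +
            (ENNReal.ofReal (cN z r0 * b.1⁻¹) * nub ψ b +
            ENNReal.ofReal (cF2 z / M * b.1 ^ 5) * X3 ψ b))) := by
            gcongr
            · exact le_add_self
            · exact le_add_left (le_add_left le_add_self)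
        _ ≤ _ := by
            gcongr
            exact le_self_add
    · push Not at hdense
      obtain ⟨hk, hν2⟩ := hdense
      have hv := vB_pos hb
      set τ : ℝ := (ν / vB b.1) ^ (1 / 3 : ℝ) with hτ
      have hτ0 : 0 ≤ τ := by positivity
      have hτ3 : τ ^ 3 * vB b.1 = ν := by
        have : τ ^ 3 = ν / vB b.1 := by
          rw [hτ, ← Real.rpow_natCast, ← Real.rpow_mul (by positivity)]; norm_num
        rw [this]; field_simp
      have h1 := main_ball hz hr0 hδ' hlow (by linarith) R hR h b hb hν0 hν2 hnu hk hτ0 hτ3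
      refine h1.trans ?_
      have hJ := jensen43 hd b hb hnu hτ0 hτ3
      have hde : 0 ≤ δ' - estar z := by linarith
      have e1 : ENNReal.ofReal ((δ' - estar z) * (τ ^ 4 * vB b.1)) ≤
          ENNReal.ofReal (δ' - estar z) * X43 ψ b := by
        rw [ENNReal.ofReal_mul hde]
        gcongr
      have e2 : ENNReal.ofReal (cN z r0 * (ν / b.1)) =
          ENNReal.ofReal (cN z r0 * b.1⁻¹) * nub ψ b := by
        rw [hnu, ← ENNReal.ofReal_mul (by positivity)]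
        congr 1
        field_simp
      have e3 : ENNReal.ofReal ((192 * z + 480) * M ^ 2 * b.1) * Tb ψ b ≤
          ENNReal.ofReal ((192 * z + 480) * M ^ 2 * Rm) * Tb ψ b := by
        gcongr
      rw [e2]
      refine add_le_add le_rfl ?_
      rw [add_assoc]
      exact add_le_add e3 (add_le_add e1 le_self_add)
  · -- tail
    refine (crude_ball hz R hR hd b hb hXb).trans ?_
    have e1 : ENNReal.ofReal (cF1 z * b.1⁻¹) ≤ ENNReal.ofReal (cF1 z * Rm⁻¹) := by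
      gcongr
    have e2 : ENNReal.ofReal (cF1 z * b.1 ^ 5) ≤ ENNReal.ofReal (cF1 z * Rm⁻¹ * b.1 ^ 6) := by
      apply ENNReal.ofReal_le_ofReal
      rw [mul_assoc]
      refine mul_le_mul_of_nonneg_left ?_ hc1
      rw [inv_mul_eq_div, le_div_iff₀ hRm]
      have : b.1 ^ 6 = b.1 ^ 5 * b.1 := by ring
      rw [this]
      gcongr
    calc ENNReal.ofReal (z ^ 2) * Ub R b +
          (ENNReal.ofReal (cF1 z * b.1⁻¹) * kb R b + ENNReal.ofReal (cF1 z * b.1 ^ 5) * X3 ψ b)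
        ≤ (Pb ψ b + ENNReal.ofReal (z ^ 2) * Ub R b) +
          (ENNReal.ofReal (cF1 z * Rm⁻¹) * kb R b +
            ENNReal.ofReal (cF1 z * Rm⁻¹ * b.1 ^ 6) * X3 ψ b) := by
          gcongr
          exact le_add_self
      _ ≤ _ := add_le_add le_rfl (le_add_left (le_add_left (le_add_left
          (le_add_left le_rfl))))

theorem fine_total {κ z δ' r0 M Rm : ℝ} (hκ : 0 < κ) (hz : 0 < z) (hr0 : 0 < r0) (hδ' : 0 ≤ δ')
    (hlow : ∀ r, r0 ≤ r → ∀ (n : ℕ) (p : Fin n → E3), Function.Injective p →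
      (∀ i, p i ∈ ball (0 : E3) r) → (estar z - δ') * vB r ≤ jel z r p)
    (hM : 2 ≤ M) (hRm : 0 < Rm) (R : Fin K → E3) (hR : Function.Injective R) {ψ : Conf N → ℂ}
    (h : Trial ψ) (hX : R3 ψ ≠ ∞) :
    ENNReal.ofReal z * Aen R ψ ≤ Pee ψ + ENNReal.ofReal (z ^ 2) * ENNReal.ofReal (rep R) +
      ENNReal.ofReal (κ * (N + z ^ 2 * K) / 2) +
      (ENNReal.ofReal ((192 * z + 480) * M ^ 2 * Rm) * kin ψ +
        (ENNReal.ofReal (δ' - estar z) * R43 ψ +
        (ENNReal.ofReal (cN z r0 * (4 * Real.pi / 3 * mC 0) * κ) * N +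
        (ENNReal.ofReal (cF2 z / M * (4 * Real.pi / 3 * mC 6) * (κ / κ ^ 6)) * R3 ψ +
        (ENNReal.ofReal (cF1 z * Rm⁻¹) * K +
        ENNReal.ofReal (cF1 z * Rm⁻¹ * (4 * Real.pi / 3 * mC 7) * (κ / κ ^ 7)) * R3 ψ))))) := by
  have hd := measurable_dens h.smooth.continuous
  have hρ := measurable_rho hd
  have hρ3 : Measurable fun y => rho (dens ψ) y ^ 3 := hρ.pow_const 3
  have hρ43 : Measurable fun y => rho (dens ψ) y ^ (4 / 3 : ℝ) := hρ.pow_const _
  have hc1 := cF1_nonneg z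
  have hc2 := cF2_nonneg hz
  have hcN := cN_nonneg hz.le hr0.le
  have hM0 : 0 < M := by linarith
  -- measurability
  have hT := lintegral_Tb hκ h.smooth
  have hg3 : Measurable fun r : ℝ => ENNReal.ofReal (cN z r0 * r⁻¹) :=
    (measurable_inv.const_mul _).ennreal_ofReal
  have hg4 : Measurable fun r : ℝ => ENNReal.ofReal (cF2 z / M * r ^ 5) := by fun_prop
  have hg6 : Measurable fun r : ℝ => ENNReal.ofReal (cF1 z * Rm⁻¹ * r ^ 6) := by fun_prop
  have hk := lintegral_bm_kb κ (g := fun _ => 1) measurable_const R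
  have m1 : Measurable fun b : ℝ × E3 =>
      ENNReal.ofReal ((192 * z + 480) * M ^ 2 * Rm) * Tb ψ b := hT.1.const_mul _
  have m2 : Measurable fun b : ℝ × E3 => ENNReal.ofReal (δ' - estar z) * X43 ψ b :=
    (measurable_ball_lintegral hρ43).const_mul _
  have m3 : Measurable fun b : ℝ × E3 => ENNReal.ofReal (cN z r0 * b.1⁻¹) * nub ψ b := by
    simp only [nub_eq hd]
    exact (hg3.comp measurable_fst).mul (measurable_ball_lintegral hρ)
  have m4 : Measurable fun b : ℝ × E3 => ENNReal.ofReal (cF2 z / M * b.1 ^ 5) * X3 ψ b :=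
    (hg4.comp measurable_fst).mul (measurable_ball_lintegral hρ3)
  have m5 : Measurable fun b : ℝ × E3 => ENNReal.ofReal (cF1 z * Rm⁻¹) * (kb R b : ℝ≥0∞) :=
    hk.1.const_mul _
  have m6 : Measurable fun b : ℝ × E3 => ENNReal.ofReal (cF1 z * Rm⁻¹ * b.1 ^ 6) * X3 ψ b :=
    (hg6.comp measurable_fst).mul (measurable_ball_lintegral hρ3)
  have h1 := loc_main hκ hz.le R hR h _
    (m1.add (m2.add (m3.add (m4.add (m5.add m6))))) (by
      filter_upwards [ae_bm_pos κ] with b hb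
      exact fine_ball hz hr0 hδ' hlow hM hRm R hR h hX b hb)
  simp only [Pi.add_apply] at h1
  rw [lintegral_add_left m1, lintegral_add_left m2, lintegral_add_left m3, lintegral_add_left m4,
    lintegral_add_left m5, lintegral_const_mul _ hT.1, hT.2] at h1
  have i2 : ∫⁻ b, ENNReal.ofReal (δ' - estar z) * X43 ψ b ∂(bm κ) =
      ENNReal.ofReal (δ' - estar z) * R43 ψ := by
    unfold X43 R43
    rw [lintegral_const_mul _ (measurable_ball_lintegral hρ43)]
    congr 1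
    have := lintegral_bm_ball κ (g := fun _ => 1) measurable_const hρ43
    simp only [one_mul] at this
    rw [this]
    have h2 := lintegral_om_vB hκ (A := 1) zero_le_one
    simp only [one_mul] at h2
    rw [h2, ENNReal.ofReal_one, one_mul]
  have i3 : ∫⁻ b, ENNReal.ofReal (cN z r0 * b.1⁻¹) * nub ψ b ∂(bm κ) =
      ENNReal.ofReal (cN z r0 * (4 * Real.pi / 3 * mC 0) * κ) * N := by
    simp only [nub_eq hd]
    have := lintegral_bm_ball κ hg3 hρ
    rw [this, om_moment_inv hκ hcN, lintegral_rho h]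
  have i4 : ∫⁻ b, ENNReal.ofReal (cF2 z / M * b.1 ^ 5) * X3 ψ b ∂(bm κ) =
      ENNReal.ofReal (cF2 z / M * (4 * Real.pi / 3 * mC 6) * (κ / κ ^ 6)) * R3 ψ := by
    unfold X3 R3
    rw [lintegral_bm_ball κ hg4 hρ3, om_moment_pow hκ (by positivity) 5]
  have i5 : ∫⁻ b, ENNReal.ofReal (cF1 z * Rm⁻¹) * (kb R b : ℝ≥0∞) ∂(bm κ) =
      ENNReal.ofReal (cF1 z * Rm⁻¹) * K := by
    rw [lintegral_const_mul _ hk.1]
    congr 1
    have h2 := hk.2
    simp only [one_mul] at h2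
    rw [h2]
    have h3 := lintegral_om_vB hκ (A := 1) zero_le_one
    simp only [one_mul] at h3
    rw [h3, ENNReal.ofReal_one, one_mul]
  have i6 : ∫⁻ b, ENNReal.ofReal (cF1 z * Rm⁻¹ * b.1 ^ 6) * X3 ψ b ∂(bm κ) =
      ENNReal.ofReal (cF1 z * Rm⁻¹ * (4 * Real.pi / 3 * mC 7) * (κ / κ ^ 7)) * R3 ψ := by
    unfold X3 R3
    rw [lintegral_bm_ball κ hg6 hρ3, om_moment_pow hκ (by positivity) 6]
  rw [i2, i3, i4, i5, i6] at h1
  exact h1

end

end Pool.Agent.Lib_helper90c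


end

section

/-!
# Sobolev inequality and duality for the one-particle density
-/

set_option autoImplicit false

open MeasureTheory Set Metric Filter
open scoped ENNReal NNReal Topology

namespace Pool.Agent.Lib_helper90c

theorem norm_fderiv_le_grad1 (u : E3 → ℂ) (x : E3) : ‖fderiv ℝ u x‖ ^ 2 ≤ grad1 u x := by
  have h0 := grad1_nonneg u x
  have h1 : ‖fderiv ℝ u x‖ ≤ Real.sqrt (grad1 u x) := by
    apply ContinuousLinearMap.opNorm_le_bound _ (Real.sqrt_nonneg _)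
    intro v
    have h2 := norm_fderiv_sq_le u x v
    have h3 : ‖fderiv ℝ u x v‖ ^ 2 ≤ (Real.sqrt (grad1 u x) * ‖v‖) ^ 2 := by
      rw [mul_pow, Real.sq_sqrt h0, mul_comm]; exact h2
    exact (pow_le_pow_iff_left₀ (norm_nonneg _) (by positivity) two_ne_zero).1 h3
  calc ‖fderiv ℝ u x‖ ^ 2 ≤ (Real.sqrt (grad1 u x)) ^ 2 :=
        pow_le_pow_left₀ (norm_nonneg _) h1 2
    _ = grad1 u x := Real.sq_sqrt h0

/-- Sobolev inequality -/
theorem sobolev1 : ∃ S : ℝ, 0 < S ∧ ∀ u : E3 → ℂ, ContDiff ℝ 1 u → HasCompactSupport u →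
    (∫⁻ y, ENNReal.ofReal (‖u y‖ ^ 2) ^ 3) ^ (1 / 3 : ℝ) ≤
      ENNReal.ofReal S * ∫⁻ y, ENNReal.ofReal (grad1 u y) := by
  set C : ℝ≥0 := SNormLESNormFDerivOfEqConst ℂ (volume : Measure E3) 2 with hC
  refine ⟨(C : ℝ) ^ 2 + 1, by positivity, fun u hu hs => ?_⟩
  have h := eLpNorm_le_eLpNorm_fderiv_of_eq (volume : Measure E3) hu hs (p := 2) (p' := 6)
    (by norm_num) (by rw [finrank_euclideanSpace_fin]; norm_num)
    (by rw [finrank_euclideanSpace_fin]; norm_num)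
  rw [eLpNorm_nnreal_eq_lintegral (by norm_num), eLpNorm_nnreal_eq_lintegral (by norm_num)] at h
  have h2 := pow_le_pow_left' h 2
  have e1 : ((∫⁻ x, ‖u x‖ₑ ^ ((6 : ℝ≥0) : ℝ)) ^ (1 / ((6 : ℝ≥0) : ℝ))) ^ 2 =
      (∫⁻ y, ENNReal.ofReal (‖u y‖ ^ 2) ^ 3) ^ (1 / 3 : ℝ) := by
    rw [← ENNReal.rpow_natCast, ← ENNReal.rpow_mul]
    have e2 : ∀ y, ‖u y‖ₑ ^ ((6 : ℝ≥0) : ℝ) = ENNReal.ofReal (‖u y‖ ^ 2) ^ 3 := by
      intro y
      rw [← ofReal_norm, ENNReal.ofReal_pow (norm_nonneg _), ← pow_mul,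
        ← ENNReal.rpow_natCast]
      norm_num
    simp only [e2]
    congr 1
    norm_num
  have e3 : ((∫⁻ x, ‖fderiv ℝ u x‖ₑ ^ ((2 : ℝ≥0) : ℝ)) ^ (1 / ((2 : ℝ≥0) : ℝ))) ^ 2 ≤
      ∫⁻ y, ENNReal.ofReal (grad1 u y) := by
    rw [← ENNReal.rpow_natCast, ← ENNReal.rpow_mul]
    have e4 : (1 / ((2 : ℝ≥0) : ℝ)) * ((2 : ℕ) : ℝ) = 1 := by norm_num
    rw [e4, ENNReal.rpow_one]
    apply lintegral_mono
    intro y
    have e5 : ‖fderiv ℝ u y‖ₑ ^ ((2 : ℝ≥0) : ℝ) = ENNReal.ofReal (‖fderiv ℝ u y‖ ^ 2) := by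
      rw [← ofReal_norm, ENNReal.ofReal_pow (norm_nonneg _), ← ENNReal.rpow_natCast]
      norm_num
    simp only [e5]
    exact ENNReal.ofReal_le_ofReal (norm_fderiv_le_grad1 u y)
  rw [e1, mul_pow] at h2
  have e6 : (C : ℝ≥0∞) ^ 2 ≤ ENNReal.ofReal ((C : ℝ) ^ 2 + 1) := by
    have e7 : (C : ℝ≥0∞) ^ 2 = ENNReal.ofReal ((C : ℝ) ^ 2) := by
      rw [ENNReal.ofReal_pow C.coe_nonneg, ENNReal.ofReal_coe_nnreal]
    rw [e7]
    exact ENNReal.ofReal_le_ofReal (by linarith)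
  exact h2.trans (mul_le_mul' e6 e3)

section
variable {N : ℕ}

theorem rhoi_aux {w : Conf N → ℝ≥0∞} {D D1 : E3 → ℝ≥0∞} {m c : ℝ≥0∞} (i : Fin N) (y : E3)
    (hb : ∀ x, w x ≤ m * prodD D x) (hDD1 : ∀ y, D y ≤ D1 y)
    (hchi : ∀ y, chi0 y ≤ c * D1 y) (x : Conf N) :
    w (Function.update x i y) * chi0 (x i) ≤ (m * c * D y) * prodD D1 x := by
  have h1 := hb (Function.update x i y)
  rw [prodD_update] at h1
  have h2 : ∏ k ∈ Finset.univ.erase i, D (x k) ≤ ∏ k ∈ Finset.univ.erase i, D1 (x k) :=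
    Finset.prod_le_prod' fun k _ => hDD1 (x k)
  have h3 : w (Function.update x i y) ≤
      m * (D y * ∏ k ∈ Finset.univ.erase i, D1 (x k)) :=
    h1.trans (mul_le_mul' le_rfl (mul_le_mul' le_rfl h2))
  refine (mul_le_mul' h3 (hchi (x i))).trans (le_of_eq ?_)
  rw [prodD_split D1 i x]
  ring

theorem rhoi_le {w : Conf N → ℝ≥0∞} (hd : Measurable (w)) {D D1 : E3 → ℝ≥0∞}
    (hD1m : Measurable D1) {m c : ℝ≥0∞} (i : Fin N) (y : E3)
    (hb : ∀ x, w x ≤ m * prodD D x) (hDD1 : ∀ y, D y ≤ D1 y)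
    (hchi : ∀ y, chi0 y ≤ c * D1 y) :
    rhoi (w) i y ≤ (m * c * D y) * ∫⁻ x : Conf N, prodD D1 x := by
  have hm : Measurable fun x : Conf N => w (Function.update x i y) :=
    (measurable_slice_comp hd i).comp (measurable_id.prodMk measurable_const)
  unfold rhoi
  rw [lintegral_mu i hm, ← lintegral_const_mul _ (measurable_prodD hD1m)]
  exact lintegral_mono (rhoi_aux i y hb hDD1 hchi)

theorem lintegral_prodD_lt (r1 : ℝ) (hr1 : 0 ≤ r1) :
    ∫⁻ x : Conf N, prodD ((ball (0 : E3) r1).indicator 1) x ≠ ∞ := by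
  have h1 : ∫⁻ x : Conf N, prodD ((ball (0 : E3) r1).indicator 1) x ≤
      volume (closedBall (0 : Conf N) r1) := by
    rw [← lintegral_indicator_one isClosed_closedBall.measurableSet]
    apply lintegral_mono
    intro x
    unfold prodD
    by_cases hx : x ∈ closedBall (0 : Conf N) r1
    · rw [indicator_of_mem hx]
      simp only [Pi.one_apply]
      apply Finset.prod_le_one'
      intro k _
      exact indicator_le_self' (fun _ _ => zero_le) (x k)
    · have h2 : ∃ k, x k ∉ ball (0 : E3) r1 := by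
        by_contra hcon
        push Not at hcon
        apply hx
        rw [mem_closedBall_zero_iff, pi_norm_le_iff_of_nonneg hr1]
        intro k
        exact (mem_ball_zero_iff.1 (hcon k)).le
      obtain ⟨k, hk⟩ := h2
      rw [Finset.prod_eq_zero (Finset.mem_univ k) (indicator_of_notMem hk _)]
      exact zero_le
  exact ne_top_of_le_ne_top measure_closedBall_lt_top.ne h1

theorem exists_rho_bound {ψ : Conf N → ℂ} (hc : Continuous ψ) (hs : HasCompactSupport ψ) :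
    ∃ (C : ℝ≥0∞) (r : ℝ), C ≠ ∞ ∧ 0 < r ∧ ∀ y, rho (dens ψ) y ≤
      C * (ball (0 : E3) r).indicator 1 y := by
  obtain ⟨M, ρ0, hρ0, hb⟩ := exists_bound hc hs
  set D : E3 → ℝ≥0∞ := (ball (0 : E3) ρ0).indicator 1 with hD
  set r1 : ℝ := max ρ0 1 with hr1
  set D1 : E3 → ℝ≥0∞ := (ball (0 : E3) r1).indicator 1 with hD1
  have hD1m : Measurable D1 := measurable_one.indicator measurableSet_ball
  have hDD1 : ∀ y, D y ≤ D1 y := by
    intro y
    exact indicator_le_indicator_of_subset (ball_subset_ball (le_max_left _ _))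
      (fun _ => zero_le) y
  set c : ℝ≥0∞ := (ENNReal.ofReal (vB 1))⁻¹ with hcdef
  have hcne : c ≠ ∞ := ENNReal.inv_ne_top.2 (ENNReal.ofReal_pos.2 (vB_pos one_pos)).ne'
  have hchi : ∀ y, chi0 y ≤ c * D1 y := by
    intro y
    unfold chi0
    gcongr
    exact indicator_le_indicator_of_subset (ball_subset_ball (le_max_right _ _))
      (fun _ => zero_le) y
  set I : ℝ≥0∞ := ∫⁻ x : Conf N, prodD D1 x with hI
  have hIne : I ≠ ∞ := lintegral_prodD_lt r1 (by positivity)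
  have hi : ∀ (i : Fin N) (y : E3), rhoi (dens ψ) i y ≤ ENNReal.ofReal M * c * I * D y := by
    intro i y
    refine (rhoi_le (measurable_dens hc) hD1m i y hb hDD1 hchi).trans (le_of_eq ?_)
    rw [hI]; ring
  refine ⟨N * (ENNReal.ofReal M * c * I), ρ0, ?_, hρ0, fun y => ?_⟩
  · exact ENNReal.mul_ne_top (ENNReal.natCast_ne_top N) (ENNReal.mul_ne_top
      (ENNReal.mul_ne_top ENNReal.ofReal_ne_top hcne) hIne)
  · unfold rho
    calc ∑ i, rhoi (dens ψ) i y ≤ ∑ _i : Fin N, ENNReal.ofReal M * c * I * D y :=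
          Finset.sum_le_sum fun i _ => hi i y
      _ = _ := by
          rw [Finset.sum_const, Finset.card_univ, Fintype.card_fin, nsmul_eq_mul]; ring

theorem R3_ne_top {ψ : Conf N → ℂ} (hc : Continuous ψ) (hs : HasCompactSupport ψ) :
    R3 ψ ≠ ∞ := by
  obtain ⟨C, r, hC, hr, hb⟩ := exists_rho_bound hc hs
  have h : R3 ψ ≤ ∫⁻ y, C ^ 3 * (ball (0 : E3) r).indicator 1 y := by
    apply lintegral_mono
    intro y
    refine (pow_le_pow_left' (hb y) 3).trans ?_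
    rw [mul_pow]
    refine mul_le_mul' le_rfl ?_
    by_cases hy : y ∈ ball (0 : E3) r
    · rw [indicator_of_mem hy]; simp
    · rw [indicator_of_notMem hy]; simp
  refine ne_top_of_le_ne_top ?_ h
  rw [lintegral_const_mul _ (measurable_one.indicator measurableSet_ball),
    lintegral_indicator_one measurableSet_ball]
  exact ENNReal.mul_ne_top (ENNReal.pow_ne_top hC) measure_ball_lt_top.ne

theorem R43_ne_top {ψ : Conf N → ℂ} (hc : Continuous ψ) (hs : HasCompactSupport ψ) :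
    R43 ψ ≠ ∞ := by
  obtain ⟨C, r, hC, hr, hb⟩ := exists_rho_bound hc hs
  have h : R43 ψ ≤ ∫⁻ y, C ^ (4 / 3 : ℝ) * (ball (0 : E3) r).indicator 1 y := by
    apply lintegral_mono
    intro y
    refine (ENNReal.rpow_le_rpow (hb y) (by norm_num)).trans ?_
    rw [ENNReal.mul_rpow_of_nonneg _ _ (by norm_num)]
    refine mul_le_mul' le_rfl ?_
    by_cases hy : y ∈ ball (0 : E3) r
    · rw [indicator_of_mem hy]; simp
    · rw [indicator_of_notMem hy]; simp
  refine ne_top_of_le_ne_top ?_ h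
  rw [lintegral_const_mul _ (measurable_one.indicator measurableSet_ball),
    lintegral_indicator_one measurableSet_ball]
  exact ENNReal.mul_ne_top (ENNReal.rpow_ne_top_of_nonneg (by norm_num) hC)
    measure_ball_lt_top.ne

/-- duality for the one-particle density -/
theorem dual_bound {p q : ℝ} (hpq : p.HolderConjugate q) {w : Conf N → ℝ≥0∞} (hw : Measurable w)
    {g : E3 → ℝ≥0∞} (hg : Measurable g) :
    ∫⁻ y, g y * rho w y ≤ (∫⁻ y, g y ^ q) ^ (1 / q) *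
      ∑ i, ∫⁻ x, (∫⁻ y, w (Function.update x i y) ^ p) ^ (1 / p) ∂(mu i) := by
  rw [← sum_lintegral_eval hw hg, Finset.mul_sum]
  refine Finset.sum_le_sum fun i _ => ?_
  have hm : Measurable fun x : Conf N => g (x i) * w x := (hg.comp (measurable_pi_apply i)).mul hw
  have hmi : Measurable fun x : Conf N => (∫⁻ y, w (Function.update x i y) ^ p) ^ (1 / p) := by
    have : Measurable fun x : Conf N => ∫⁻ y, w (Function.update x i y) ^ p :=
      ((measurable_slice_comp hw i).pow_const p).lintegral_prod_right'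
    exact this.pow_const _
  rw [lintegral_disint i hm, ← lintegral_const_mul _ hmi]
  apply lintegral_mono
  intro x
  simp only [Function.update_self]
  have hwx : Measurable fun y => w (Function.update x i y) := hw.comp (measurable_update x)
  have h := ENNReal.lintegral_mul_le_Lp_mul_Lq (volume : Measure E3) hpq hwx.aemeasurable
    hg.aemeasurable
  simp only [Pi.mul_apply] at h
  rw [mul_comm]
  refine le_trans (le_of_eq ?_) h
  congr 1
  ext y
  ring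

end

end Pool.Agent.Lib_helper90c


end

section

/-!
# Gagliardo–Nirenberg inequality with the sharp constant of the limiting functional
-/

set_option autoImplicit false

open MeasureTheory Set Metric Filter
open scoped ENNReal NNReal Topology

namespace Pool.Agent.Lib_helper90c

section oneparticle

theorem integrable_grad1' {u : E3 → ℂ} (h : ContDiff ℝ (⊤ : ℕ∞) u) (hs : HasCompactSupport u) :
    Integrable (grad1 u) := by
  apply (continuous_grad1 h).integrable_of_hasCompactSupport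
  have h1 : HasCompactSupport (fderiv ℝ u) := hs.fderiv ℝ
  refine h1.mono ?_
  intro x hx
  by_contra hn
  apply hx
  unfold grad1
  have : fderiv ℝ u x = 0 := by
    by_contra h; exact hn h
  simp [this]

theorem integrable_normSq {u : E3 → ℂ} (h : ContDiff ℝ (⊤ : ℕ∞) u) (hs : HasCompactSupport u) :
    Integrable (fun x => ‖u x‖ ^ 2) :=
  (h.continuous.norm.pow 2).integrable_of_hasCompactSupport (hasCompactSupport_normSq hs)

theorem integrable_q {u : E3 → ℂ} (h : ContDiff ℝ (⊤ : ℕ∞) u) (hs : HasCompactSupport u) :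
    Integrable (fun x => (‖u x‖ ^ 2) ^ (4 / 3 : ℝ)) := by
  refine Continuous.integrable_of_hasCompactSupport ?_ ?_
  · exact (h.continuous.norm.pow 2).rpow_const fun x => Or.inr (by norm_num)
  · refine (hasCompactSupport_normSq hs).mono ?_
    intro x hx
    by_contra hn
    apply hx
    have : ‖u x‖ ^ 2 = 0 := by by_contra h; exact hn h
    show (‖u x‖ ^ 2) ^ (4 / 3 : ℝ) = 0
    rw [this, Real.zero_rpow (by norm_num)]

theorem lintegral_g {u : E3 → ℂ} (h : ContDiff ℝ (⊤ : ℕ∞) u) (hs : HasCompactSupport u) :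
    ∫⁻ y, ENNReal.ofReal (grad1 u y) = ENNReal.ofReal (∫ y, grad1 u y) := by
  rw [ofReal_integral_eq_lintegral_ofReal (integrable_grad1' h hs)
    (Eventually.of_forall fun x => grad1_nonneg u x)]

theorem lintegral_m {u : E3 → ℂ} (h : ContDiff ℝ (⊤ : ℕ∞) u) (hs : HasCompactSupport u) :
    ∫⁻ y, ENNReal.ofReal (‖u y‖ ^ 2) = ENNReal.ofReal (∫ y, ‖u y‖ ^ 2) := by
  rw [ofReal_integral_eq_lintegral_ofReal (integrable_normSq h hs)
    (Eventually.of_forall fun x => sq_nonneg _)]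

theorem lintegral_q {u : E3 → ℂ} (h : ContDiff ℝ (⊤ : ℕ∞) u) (hs : HasCompactSupport u) :
    ∫⁻ y, ENNReal.ofReal (‖u y‖ ^ 2) ^ (4 / 3 : ℝ) =
      ENNReal.ofReal (∫ y, (‖u y‖ ^ 2) ^ (4 / 3 : ℝ)) := by
  rw [ofReal_integral_eq_lintegral_ofReal (integrable_q h hs)
    (Eventually.of_forall fun x => by positivity)]
  congr 1
  ext y
  rw [ENNReal.ofReal_rpow_of_nonneg (by positivity) (by norm_num)]

/-- crude Gagliardo–Nirenberg -/
theorem gn_crude {S : ℝ} (hS : 0 < S) (hsob : ∀ u : E3 → ℂ, ContDiff ℝ 1 u → HasCompactSupport u →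
    (∫⁻ y, ENNReal.ofReal (‖u y‖ ^ 2) ^ 3) ^ (1 / 3 : ℝ) ≤
      ENNReal.ofReal S * ∫⁻ y, ENNReal.ofReal (grad1 u y)) {u : E3 → ℂ} (h : Trial1 u) :
    (∫ y, (‖u y‖ ^ 2) ^ (4 / 3 : ℝ)) ^ 2 ≤ S * ∫ y, grad1 u y := by
  set w : E3 → ℝ≥0∞ := fun y => ENNReal.ofReal (‖u y‖ ^ 2) with hw
  have hwm : Measurable w := (h.smooth.continuous.norm.pow 2).measurable.ennreal_ofReal
  have hpq : (6 / 5 : ℝ).HolderConjugate 6 := by
    rw [Real.holderConjugate_iff]; norm_num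
  have h1 := ENNReal.lintegral_mul_le_Lp_mul_Lq (volume : Measure E3) hpq
    (f := fun y => w y ^ (5 / 6 : ℝ)) (g := fun y => w y ^ (1 / 2 : ℝ))
    (hwm.pow_const _).aemeasurable (hwm.pow_const _).aemeasurable
  have e1 : ∀ y, w y ^ (5 / 6 : ℝ) * w y ^ (1 / 2 : ℝ) = w y ^ (4 / 3 : ℝ) := by
    intro y
    rw [← ENNReal.rpow_add_of_nonneg _ _ (by norm_num) (by norm_num)]
    norm_num
  have e2 : ∀ y, (w y ^ (5 / 6 : ℝ)) ^ (6 / 5 : ℝ) = w y := by
    intro y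
    rw [← ENNReal.rpow_mul]; norm_num
  have e3 : ∀ y, (w y ^ (1 / 2 : ℝ)) ^ (6 : ℝ) = w y ^ 3 := by
    intro y
    rw [← ENNReal.rpow_mul, ← ENNReal.rpow_natCast]; norm_num
  simp only [Pi.mul_apply, e1, e2, e3] at h1
  have hm := lintegral_m h.smooth h.compact
  rw [h.normalized, ENNReal.ofReal_one] at hm
  have hq := lintegral_q h.smooth h.compact
  have hg := lintegral_g h.smooth h.compact
  have hs := hsob u (h.smooth.of_le (by exact_mod_cast le_top)) h.compact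
  rw [hm, hq, ENNReal.one_rpow, one_mul] at h1
  rw [hg, ← ENNReal.ofReal_mul hS.le] at hs
  have hQ0 : 0 ≤ ∫ y, (‖u y‖ ^ 2) ^ (4 / 3 : ℝ) := integral_nonneg fun y => by positivity
  have hG0 : 0 ≤ ∫ y, grad1 u y := integral_nonneg fun y => grad1_nonneg u y
  have h2 : (ENNReal.ofReal (∫ y, (‖u y‖ ^ 2) ^ (4 / 3 : ℝ))) ^ 2 ≤
      ENNReal.ofReal (S * ∫ y, grad1 u y) := by
    refine le_trans (pow_le_pow_left' h1 2) (le_trans (le_of_eq ?_) hs)
    have e6 : (1 / 6 : ℝ) * ((2 : ℕ) : ℝ) = 1 / 3 := by norm_num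
    rw [← ENNReal.rpow_natCast, ← ENNReal.rpow_mul, e6]
  rw [← ENNReal.ofReal_pow hQ0, ENNReal.ofReal_le_ofReal_iff (by positivity)] at h2
  exact h2

theorem limFun_bddBelow (z : ℝ) : BddBelow {E : ℝ | ∃ u : E3 → ℂ, Trial1 u ∧ E = limFun z u} := by
  obtain ⟨S, hS, hsob⟩ := sobolev1
  refine ⟨-(estar z ^ 2 * S / 4), ?_⟩
  rintro E ⟨u, hu, rfl⟩
  have h := gn_crude hS hsob hu
  unfold limFun
  set Q := ∫ y, (‖u y‖ ^ 2) ^ (4 / 3 : ℝ) with hQ
  set G := ∫ y, grad1 u y with hG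
  have h1 : Q ^ 2 / S ≤ G := by rw [div_le_iff₀ hS]; linarith
  have h2 : Q ^ 2 / S + estar z * Q + estar z ^ 2 * S / 4 =
      (Q + estar z * S / 2) ^ 2 / S := by field_simp; ring
  have h3 : 0 ≤ (Q + estar z * S / 2) ^ 2 / S := by positivity
  linarith

theorem limE_le (z : ℝ) {u : E3 → ℂ} (h : Trial1 u) : limE z ≤ limFun z u :=
  csInf_le (limFun_bddBelow z) ⟨u, h, rfl⟩

theorem limFun_scl (z : ℝ) {s : ℝ} (hs : 0 < s) {u : E3 → ℂ} (h : Trial1 u) :
    limFun z (scl s u) = s ^ 2 * (∫ x, grad1 u x) +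
      s * (estar z * ∫ x, (‖u x‖ ^ 2) ^ (4 / 3 : ℝ)) := by
  unfold limFun
  rw [integral_grad1_scl hs h]
  have e1 : ∀ x, (‖scl s u x‖ ^ 2) ^ (4 / 3 : ℝ) = s ^ 4 * (‖u (s • x)‖ ^ 2) ^ (4 / 3 : ℝ) := by
    intro x
    rw [normSq_scl hs, Real.mul_rpow (by positivity) (by positivity), ← Real.rpow_natCast s 3,
      ← Real.rpow_mul hs.le, ← Real.rpow_natCast s 4]
    norm_num
  simp only [e1]
  rw [integral_const_mul, integral_comp_smul3 hs (fun x => (‖u x‖ ^ 2) ^ (4 / 3 : ℝ))]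
  field_simp

theorem exists_trial1 : ∃ u : E3 → ℂ, Trial1 u := by
  let f : ContDiffBump (0 : E3) := ⟨1, 2, by norm_num, by norm_num⟩
  have hf : ContDiff ℝ (⊤ : ℕ∞) (f : E3 → ℝ) := f.contDiff
  have hfs : HasCompactSupport (f : E3 → ℝ) := f.hasCompactSupport
  have hint : Integrable fun x => (f x) ^ 2 :=
    (hf.continuous.pow 2).integrable_of_hasCompactSupport (by
      refine hfs.mono fun x hx => ?_
      by_contra hn
      apply hx
      have : f x = 0 := by by_contra h; exact hn h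
      simp [this])
  have hpos : 0 < ∫ x, (f x) ^ 2 := by
    rw [integral_pos_iff_support_of_nonneg (fun x => sq_nonneg _) hint]
    have hsub : ball (0 : E3) 1 ⊆ Function.support fun x => (f x) ^ 2 := by
      intro x hx
      have : f x = 1 := f.one_of_mem_closedBall (ball_subset_closedBall hx)
      rw [Function.mem_support, this]
      norm_num
    refine lt_of_lt_of_le ?_ (measure_mono hsub)
    exact measure_ball_pos _ _ one_pos
  set c : ℝ := ∫ x, (f x) ^ 2 with hc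
  refine ⟨fun x => ((Real.sqrt c)⁻¹ : ℂ) * ((f x : ℝ) : ℂ), ?_, ?_, ?_⟩
  · exact contDiff_const.mul (Complex.ofRealCLM.contDiff.comp hf)
  · refine hfs.mono fun x hx => ?_
    by_contra hn
    apply hx
    have : f x = 0 := by by_contra h; exact hn h
    simp [this]
  · have e : ∀ x, ‖((Real.sqrt c)⁻¹ : ℂ) * ((f x : ℝ) : ℂ)‖ ^ 2 = c⁻¹ * (f x) ^ 2 := by
      intro x
      rw [norm_mul, mul_pow, norm_inv, Complex.norm_real, Complex.norm_real, Real.norm_eq_abs,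
        Real.norm_eq_abs, sq_abs, inv_pow, sq_abs, Real.sq_sqrt hpos.le]
    simp only [e]
    rw [integral_const_mul, ← hc, inv_mul_cancel₀ hpos.ne']

theorem limE_nonpos (z : ℝ) : limE z ≤ 0 := by
  obtain ⟨u, hu⟩ := exists_trial1
  set G := ∫ x, grad1 u x with hG
  set Q := estar z * ∫ x, (‖u x‖ ^ 2) ^ (4 / 3 : ℝ) with hQ
  have h1 : ∀ s : ℝ, 0 < s → limE z ≤ s ^ 2 * G + s * Q := by
    intro s hs
    have := limE_le z (trial1_scl hs hu)
    rw [limFun_scl z hs hu] at this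
    exact this
  have h2 : Tendsto (fun s : ℝ => s ^ 2 * G + s * Q) (𝓝[>] 0) (𝓝 (0 ^ 2 * G + 0 * Q)) := by
    apply Tendsto.mono_left _ nhdsWithin_le_nhds
    exact Continuous.tendsto (by fun_prop) 0
  have h3 : (0 : ℝ) ^ 2 * G + 0 * Q = 0 := by ring
  rw [h3] at h2
  exact ge_of_tendsto h2 (by filter_upwards [self_mem_nhdsWithin] with s hs using h1 s hs)

/-- sharp inequality, normalised functions -/
theorem gn_sharp1 {z : ℝ} (hz : 0 < z) {u : E3 → ℂ} (h : Trial1 u) :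
    ((-estar z) * ∫ y, (‖u y‖ ^ 2) ^ (4 / 3 : ℝ)) ^ 2 ≤ 4 * (-limE z) * ∫ y, grad1 u y := by
  set G := ∫ x, grad1 u x with hG
  set Q := ∫ x, (‖u x‖ ^ 2) ^ (4 / 3 : ℝ) with hQ
  have he := estar_nonpos hz
  have hL := limE_nonpos z
  have hQ0 : 0 ≤ Q := integral_nonneg fun y => by positivity
  have hG0 : 0 ≤ G := integral_nonneg fun y => grad1_nonneg u y
  have h1 : ∀ s : ℝ, 0 ≤ G * (s * s) + (-((-estar z) * Q)) * s + (-limE z) := by
    intro s
    rcases le_or_gt s 0 with hs | hs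
    · have : 0 ≤ (-estar z) * Q := mul_nonneg (by linarith) hQ0
      have h4 : 0 ≤ (-((-estar z) * Q)) * s := by nlinarith
      have h5 : 0 ≤ G * (s * s) := mul_nonneg hG0 (mul_self_nonneg s)
      linarith
    · have h3 := limE_le z (trial1_scl hs h)
      rw [limFun_scl z hs h] at h3
      have e : G * (s * s) + (-((-estar z) * Q)) * s = s ^ 2 * G + s * (estar z * Q) := by ring
      rw [e]
      linarith
  have h2 := discrim_le_zero h1
  unfold discrim at h2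
  nlinarith only [h2]

/-- sharp inequality, general functions -/
theorem gn_sharp {z : ℝ} (hz : 0 < z) {u : E3 → ℂ} (h : ContDiff ℝ (⊤ : ℕ∞) u)
    (hs : HasCompactSupport u) :
    (ENNReal.ofReal (-estar z) * ∫⁻ y, ENNReal.ofReal (‖u y‖ ^ 2) ^ (4 / 3 : ℝ)) ^ 2 ≤
      ENNReal.ofReal (4 * (-limE z)) * (∫⁻ y, ENNReal.ofReal (grad1 u y)) *
        (∫⁻ y, ENNReal.ofReal (‖u y‖ ^ 2)) ^ (5 / 3 : ℝ) := by
  have he := estar_nonpos hz
  have hL := limE_nonpos z
  rw [lintegral_q h hs, lintegral_g h hs, lintegral_m h hs]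
  set m := ∫ y, ‖u y‖ ^ 2 with hm
  set G := ∫ x, grad1 u x with hG
  set Q := ∫ x, (‖u x‖ ^ 2) ^ (4 / 3 : ℝ) with hQ
  have hQ0 : 0 ≤ Q := integral_nonneg fun y => by positivity
  have hG0 : 0 ≤ G := integral_nonneg fun y => grad1_nonneg u y
  have hm0 : 0 ≤ m := integral_nonneg fun y => sq_nonneg _
  rcases hm0.eq_or_lt with h0 | h0
  · -- u = 0
    have hu : ∀ x, ‖u x‖ ^ 2 = 0 := by
      have h1 := (integral_eq_zero_iff_of_nonneg (fun x => sq_nonneg (‖u x‖))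
        (integrable_normSq h hs)).1 h0.symm
      have h2 := (h.continuous.norm.pow 2).ae_eq_iff_eq (volume : Measure E3)
        (g := fun _ => (0 : ℝ)) continuous_const
      have h3 := h2.1 h1
      intro x
      exact congrFun h3 x
    have hQz : Q = 0 := by
      rw [hQ]
      simp only [hu]
      rw [Real.zero_rpow (by norm_num)]
      simp
    rw [hQz]
    simp
  · set c : ℝ := (Real.sqrt m)⁻¹ with hc
    have hsm : 0 < Real.sqrt m := Real.sqrt_pos.2 h0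
    have hc2 : c ^ 2 = m⁻¹ := by rw [hc, inv_pow, Real.sq_sqrt h0.le]
    set v : E3 → ℂ := fun x => (c : ℂ) * u x with hv
    have hvn : ∀ x, ‖v x‖ ^ 2 = m⁻¹ * ‖u x‖ ^ 2 := by
      intro x
      rw [hv]
      simp only
      rw [norm_mul, mul_pow, Complex.norm_real, Real.norm_eq_abs, sq_abs, hc2]
    have hvg : ∀ x, grad1 v x = m⁻¹ * grad1 u x := by
      intro x
      have hd : Differentiable ℝ u := h.differentiable (by simp)
      unfold grad1
      rw [Finset.mul_sum]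
      refine Finset.sum_congr rfl fun a _ => ?_
      have h2 : HasFDerivAt v ((c : ℂ) • fderiv ℝ u x) x := (hd x).hasFDerivAt.const_mul _
      rw [h2.fderiv]
      show ‖(c : ℂ) • (fderiv ℝ u x) (EuclideanSpace.single a (1 : ℝ))‖ ^ 2 = _
      rw [norm_smul, mul_pow, Complex.norm_real, Real.norm_eq_abs, sq_abs, hc2]
    have hvt : Trial1 v := by
      refine ⟨contDiff_const.mul h, hs.mul_left, ?_⟩
      simp only [hvn]
      rw [integral_const_mul, ← hm, inv_mul_cancel₀ h0.ne']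
    have h1 := gn_sharp1 hz hvt
    have e1 : ∫ y, (‖v y‖ ^ 2) ^ (4 / 3 : ℝ) = (m⁻¹) ^ (4 / 3 : ℝ) * Q := by
      have : ∀ y, (‖v y‖ ^ 2) ^ (4 / 3 : ℝ) = (m⁻¹) ^ (4 / 3 : ℝ) * (‖u y‖ ^ 2) ^ (4 / 3 : ℝ) := by
        intro y
        rw [hvn, Real.mul_rpow (by positivity) (by positivity)]
      simp only [this]
      rw [integral_const_mul]
    have e2 : ∫ y, grad1 v y = m⁻¹ * G := by
      simp only [hvg]
      rw [integral_const_mul]
    rw [e1, e2] at h1
    have hmp : 0 < m ^ (4 / 3 : ℝ) := by positivity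
    have e3 : (m⁻¹) ^ (4 / 3 : ℝ) = (m ^ (4 / 3 : ℝ))⁻¹ := Real.inv_rpow h0.le _
    have e4 : (m ^ (4 / 3 : ℝ)) ^ 2 = m ^ (5 / 3 : ℝ) * m := by
      rw [← Real.rpow_natCast, ← Real.rpow_mul h0.le]
      nth_rewrite 3 [← Real.rpow_one m]
      rw [← Real.rpow_add h0]
      norm_num
    have h2 : ((-estar z) * Q) ^ 2 ≤ 4 * (-limE z) * G * m ^ (5 / 3 : ℝ) := by
      have h3 : ((-estar z) * Q) ^ 2 = (m ^ (4 / 3 : ℝ)) ^ 2 *
          ((-estar z) * ((m⁻¹) ^ (4 / 3 : ℝ) * Q)) ^ 2 := by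
        rw [e3]; field_simp
      rw [h3]
      calc (m ^ (4 / 3 : ℝ)) ^ 2 * ((-estar z) * ((m⁻¹) ^ (4 / 3 : ℝ) * Q)) ^ 2
          ≤ (m ^ (4 / 3 : ℝ)) ^ 2 * (4 * (-limE z) * (m⁻¹ * G)) :=
            mul_le_mul_of_nonneg_left h1 (by positivity)
        _ = 4 * (-limE z) * G * m ^ (5 / 3 : ℝ) := by
            rw [e4]; field_simp
    have hE0 : 0 ≤ -estar z := by linarith
    have hL0 : 0 ≤ -limE z := by linarith
    rw [← ENNReal.ofReal_mul hE0, ← ENNReal.ofReal_pow (by positivity),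
      ENNReal.ofReal_rpow_of_nonneg hm0 (by norm_num), ← ENNReal.ofReal_mul (by positivity),
      ← ENNReal.ofReal_mul (by positivity)]
    exact ENNReal.ofReal_le_ofReal h2

end oneparticle

section manybody
variable {N : ℕ}

/-- kinetic energy as an iterated integral -/
theorem kin_eq {ψ : Conf N → ℂ} (h : Trial ψ) :
    kin ψ = ∑ i, ∫⁻ x, ∫⁻ y, kd ψ i (Function.update x i y) ∂volume ∂(mu i) := by
  unfold kin
  refine Finset.sum_congr rfl fun i _ => ?_
  exact lintegral_disint i (measurable_kd h.smooth i)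

theorem num_eq {ψ : Conf N → ℂ} (h : Trial ψ) :
    (N : ℝ≥0∞) = ∑ i, ∫⁻ x, ∫⁻ y, dens ψ (Function.update x i y) ∂volume ∂(mu i) := by
  have hd := measurable_dens h.smooth.continuous
  have : ∀ i : Fin N, ∫⁻ x, ∫⁻ y, dens ψ (Function.update x i y) ∂volume ∂(mu i) = 1 := by
    intro i
    rw [← lintegral_disint i hd]
    exact lintegral_dens h
  simp only [this]
  simp

theorem measurable_kslice {ψ : Conf N → ℂ} (h : Trial ψ) (i : Fin N) :
    Measurable fun x : Conf N => ∫⁻ y, kd ψ i (Function.update x i y) :=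
  (measurable_slice_comp (measurable_kd h.smooth i) i).lintegral_prod_right'

theorem measurable_dslice {ψ : Conf N → ℂ} (h : Trial ψ) (i : Fin N) :
    Measurable fun x : Conf N => ∫⁻ y, dens ψ (Function.update x i y) :=
  (measurable_slice_comp (measurable_dens h.smooth.continuous) i).lintegral_prod_right'

theorem kd_slice {ψ : Conf N → ℂ} (h : Trial ψ) (i : Fin N) (x : Conf N) (y : E3) :
    kd ψ i (Function.update x i y) = ENNReal.ofReal (grad1 (slice ψ x i) y) := by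
  rw [grad1_slice (h.smooth.differentiable (by simp))]; rfl

theorem dens_slice (ψ : Conf N → ℂ) (i : Fin N) (x : Conf N) (y : E3) :
    dens ψ (Function.update x i y) = ENNReal.ofReal (‖slice ψ x i y‖ ^ 2) := rfl

/-- Sobolev inequality for the one-particle density -/
theorem R3_le {S : ℝ} (hsob : ∀ u : E3 → ℂ, ContDiff ℝ 1 u → HasCompactSupport u →
    (∫⁻ y, ENNReal.ofReal (‖u y‖ ^ 2) ^ 3) ^ (1 / 3 : ℝ) ≤
      ENNReal.ofReal S * ∫⁻ y, ENNReal.ofReal (grad1 u y)) {ψ : Conf N → ℂ} (h : Trial ψ) :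
    R3 ψ ≤ (ENNReal.ofReal S * kin ψ) ^ 3 := by
  have hd := measurable_dens h.smooth.continuous
  have hρ := measurable_rho hd
  have hfin := R3_ne_top h.smooth.continuous h.compact
  by_cases h0 : R3 ψ = 0
  · rw [h0]; exact zero_le
  have hpq : (3 : ℝ).HolderConjugate (3 / 2) := by
    rw [Real.holderConjugate_iff]; norm_num
  have h1 := dual_bound hpq hd (g := fun y => rho (dens ψ) y ^ 2) (hρ.pow_const 2)
  have e1 : ∀ y, rho (dens ψ) y ^ 2 * rho (dens ψ) y = rho (dens ψ) y ^ 3 := fun y => by ring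
  have e2 : ∀ y, (rho (dens ψ) y ^ 2) ^ (3 / 2 : ℝ) = rho (dens ψ) y ^ 3 := by
    intro y
    rw [← ENNReal.rpow_natCast, ← ENNReal.rpow_mul, ← ENNReal.rpow_natCast]
    norm_num
  simp only [e1, e2] at h1
  have h2 : ∑ i, ∫⁻ x, (∫⁻ y, dens ψ (Function.update x i y) ^ (3 : ℝ)) ^ (1 / 3 : ℝ) ∂(mu i) ≤
      ENNReal.ofReal S * kin ψ := by
    rw [kin_eq h, Finset.mul_sum]
    refine Finset.sum_le_sum fun i _ => ?_
    rw [← lintegral_const_mul _ (measurable_kslice h i)]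
    apply lintegral_mono
    intro x
    have hs := hsob (slice ψ x i) ((contDiff_slice h.smooth x i).of_le
      (by exact_mod_cast le_top)) (hasCompactSupport_slice h.compact x i)
    have e3 : ∀ y, dens ψ (Function.update x i y) ^ (3 : ℝ) =
        ENNReal.ofReal (‖slice ψ x i y‖ ^ 2) ^ 3 := by
      intro y
      rw [dens_slice, ← ENNReal.rpow_natCast]; norm_num
    simp only [e3, kd_slice h]
    exact hs
  have h3 : R3 ψ ≤ (R3 ψ) ^ (2 / 3 : ℝ) * (ENNReal.ofReal S * kin ψ) := by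
    have e4 : (1 : ℝ) / (3 / 2) = 2 / 3 := by norm_num
    rw [e4] at h1
    exact h1.trans (mul_le_mul' le_rfl h2)
  have hne : (R3 ψ) ^ (2 / 3 : ℝ) ≠ 0 := by
    rw [Ne, ENNReal.rpow_eq_zero_iff]
    rintro (⟨h4, _⟩ | ⟨h4, _⟩)
    · exact h0 h4
    · exact hfin h4
  have hnt : (R3 ψ) ^ (2 / 3 : ℝ) ≠ ∞ := ENNReal.rpow_ne_top_of_nonneg (by norm_num) hfin
  have h4 : (R3 ψ) ^ (1 / 3 : ℝ) ≤ ENNReal.ofReal S * kin ψ := by
    have e5 : R3 ψ = (R3 ψ) ^ (2 / 3 : ℝ) * (R3 ψ) ^ (1 / 3 : ℝ) := by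
      rw [← ENNReal.rpow_add _ _ h0 hfin]
      norm_num
    have h5 : (R3 ψ) ^ (2 / 3 : ℝ) * (R3 ψ) ^ (1 / 3 : ℝ) ≤
        (R3 ψ) ^ (2 / 3 : ℝ) * (ENNReal.ofReal S * kin ψ) := by
      rw [← e5]; exact h3
    exact (ENNReal.mul_le_mul_iff_right hne hnt).1 h5
  calc R3 ψ = ((R3 ψ) ^ (1 / 3 : ℝ)) ^ 3 := by
        rw [← ENNReal.rpow_natCast, ← ENNReal.rpow_mul]; norm_num
    _ ≤ _ := pow_le_pow_left' h4 3

/-- Gagliardo–Nirenberg inequality for the one-particle density -/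
theorem R43_le {z : ℝ} (hz : 0 < z) {ψ : Conf N → ℂ} (h : Trial ψ) :
    ENNReal.ofReal (-estar z) * R43 ψ ≤
      ENNReal.ofReal (4 * (-limE z)) ^ (1 / 2 : ℝ) * (kin ψ) ^ (1 / 2 : ℝ) *
        (N : ℝ≥0∞) ^ (5 / 6 : ℝ) := by
  have hd := measurable_dens h.smooth.continuous
  have hρ := measurable_rho hd
  have hfin := R43_ne_top h.smooth.continuous h.compact
  by_cases h0 : R43 ψ = 0
  · rw [h0, mul_zero]; exact zero_le
  set E := ENNReal.ofReal (-estar z) with hE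
  set A := ENNReal.ofReal (4 * (-limE z)) with hA
  have hpq : (4 / 3 : ℝ).HolderConjugate 4 := by
    rw [Real.holderConjugate_iff]; norm_num
  have h1 := dual_bound hpq hd (g := fun y => rho (dens ψ) y ^ (1 / 3 : ℝ)) (hρ.pow_const _)
  have e1 : ∀ y, rho (dens ψ) y ^ (1 / 3 : ℝ) * rho (dens ψ) y =
      rho (dens ψ) y ^ (4 / 3 : ℝ) := by
    intro y
    nth_rewrite 2 [← ENNReal.rpow_one (rho (dens ψ) y)]
    rw [← ENNReal.rpow_add_of_nonneg _ _ (by norm_num) (by norm_num)]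
    norm_num
  have e2 : ∀ y, (rho (dens ψ) y ^ (1 / 3 : ℝ)) ^ (4 : ℝ) = rho (dens ψ) y ^ (4 / 3 : ℝ) := by
    intro y
    rw [← ENNReal.rpow_mul]
    norm_num
  simp only [e1, e2] at h1
  have e3 : (1 : ℝ) / (4 / 3) = 3 / 4 := by norm_num
  rw [e3] at h1
  set Z := ∑ i, ∫⁻ x, (∫⁻ y, dens ψ (Function.update x i y) ^ (4 / 3 : ℝ)) ^ (3 / 4 : ℝ) ∂(mu i)
    with hZ
  -- pointwise
  have hpt : ∀ (i : Fin N) (x : Conf N),
      E ^ (3 / 4 : ℝ) * (∫⁻ y, dens ψ (Function.update x i y) ^ (4 / 3 : ℝ)) ^ (3 / 4 : ℝ) ≤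
      A ^ (3 / 8 : ℝ) * ((∫⁻ y, kd ψ i (Function.update x i y)) ^ (3 / 8 : ℝ) *
        (∫⁻ y, dens ψ (Function.update x i y)) ^ (5 / 8 : ℝ)) := by
    intro i x
    have hs := gn_sharp hz (contDiff_slice h.smooth x i) (hasCompactSupport_slice h.compact x i)
    simp only [dens_slice, kd_slice h]
    have h2 := ENNReal.rpow_le_rpow hs (show (0 : ℝ) ≤ 3 / 8 by norm_num)
    rw [ENNReal.mul_rpow_of_nonneg _ _ (by norm_num : (0 : ℝ) ≤ 3 / 8),
      ENNReal.mul_rpow_of_nonneg _ _ (by norm_num : (0 : ℝ) ≤ 3 / 8), ← ENNReal.rpow_mul,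
      ← ENNReal.rpow_natCast, ← ENNReal.rpow_mul,
      ENNReal.mul_rpow_of_nonneg _ _ (by norm_num)] at h2
    have e4 : ((2 : ℕ) : ℝ) * (3 / 8) = 3 / 4 := by norm_num
    have e5 : (5 / 3 : ℝ) * (3 / 8) = 5 / 8 := by norm_num
    rw [e4, e5] at h2
    refine h2.trans (le_of_eq ?_)
    rw [mul_assoc]
  -- integrate
  have hmk := measurable_kslice h
  have hmd := measurable_dslice h
  have hsum : E ^ (3 / 4 : ℝ) * Z ≤ A ^ (3 / 8 : ℝ) *
      ((kin ψ) ^ (3 / 8 : ℝ) * (N : ℝ≥0∞) ^ (5 / 8 : ℝ)) := by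
    have hpq2 : (8 / 3 : ℝ).HolderConjugate (8 / 5) := by
      rw [Real.holderConjugate_iff]; norm_num
    have step1 : ∀ i : Fin N, E ^ (3 / 4 : ℝ) *
        ∫⁻ x, (∫⁻ y, dens ψ (Function.update x i y) ^ (4 / 3 : ℝ)) ^ (3 / 4 : ℝ) ∂(mu i) ≤
        A ^ (3 / 8 : ℝ) *
          ((∫⁻ x, ∫⁻ y, kd ψ i (Function.update x i y) ∂volume ∂(mu i)) ^ (3 / 8 : ℝ) *
          (∫⁻ x, ∫⁻ y, dens ψ (Function.update x i y) ∂volume ∂(mu i)) ^ (5 / 8 : ℝ)) := by
      intro i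
      have hmq : Measurable fun x : Conf N =>
          (∫⁻ y, dens ψ (Function.update x i y) ^ (4 / 3 : ℝ)) ^ (3 / 4 : ℝ) := by
        have : Measurable fun x : Conf N =>
            ∫⁻ y, dens ψ (Function.update x i y) ^ (4 / 3 : ℝ) :=
          ((measurable_slice_comp hd i).pow_const _).lintegral_prod_right'
        exact this.pow_const _
      have hmkd : Measurable fun x : Conf N =>
          (∫⁻ y, kd ψ i (Function.update x i y)) ^ (3 / 8 : ℝ) *
          (∫⁻ y, dens ψ (Function.update x i y)) ^ (5 / 8 : ℝ) :=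
        ((hmk i).pow_const _).mul ((hmd i).pow_const _)
      rw [← lintegral_const_mul _ hmq]
      refine (lintegral_mono (hpt i)).trans ?_
      rw [lintegral_const_mul _ hmkd]
      refine mul_le_mul' le_rfl ?_
      have hh := ENNReal.lintegral_mul_le_Lp_mul_Lq (mu i) hpq2
        ((hmk i).pow_const (3 / 8 : ℝ)).aemeasurable ((hmd i).pow_const (5 / 8 : ℝ)).aemeasurable
      simp only [Pi.mul_apply, ← ENNReal.rpow_mul] at hh
      have e6 : (3 / 8 : ℝ) * (8 / 3) = 1 := by norm_num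
      have e7 : (5 / 8 : ℝ) * (8 / 5) = 1 := by norm_num
      have e8 : (1 : ℝ) / (8 / 3) = 3 / 8 := by norm_num
      have e9 : (1 : ℝ) / (8 / 5) = 5 / 8 := by norm_num
      simp only [e6, e7, e8, e9, ENNReal.rpow_one] at hh
      exact hh
    calc E ^ (3 / 4 : ℝ) * Z
        = ∑ i, E ^ (3 / 4 : ℝ) * ∫⁻ x,
          (∫⁻ y, dens ψ (Function.update x i y) ^ (4 / 3 : ℝ)) ^ (3 / 4 : ℝ) ∂(mu i) := by
          rw [hZ, Finset.mul_sum]
      _ ≤ ∑ i : Fin N, A ^ (3 / 8 : ℝ) *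
          ((∫⁻ x, ∫⁻ y, kd ψ i (Function.update x i y) ∂volume ∂(mu i)) ^ (3 / 8 : ℝ) *
          (∫⁻ x, ∫⁻ y, dens ψ (Function.update x i y) ∂volume ∂(mu i)) ^ (5 / 8 : ℝ)) :=
          Finset.sum_le_sum fun i _ => step1 i
      _ ≤ A ^ (3 / 8 : ℝ) * ((kin ψ) ^ (3 / 8 : ℝ) * (N : ℝ≥0∞) ^ (5 / 8 : ℝ)) := by
          rw [← Finset.mul_sum]
          refine mul_le_mul' le_rfl ?_
          have hh := ENNReal.inner_le_Lp_mul_Lq Finset.univ
            (fun i : Fin N => (∫⁻ x, ∫⁻ y, kd ψ i (Function.update x i y) ∂volume ∂(mu i)) ^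
              (3 / 8 : ℝ))
            (fun i : Fin N => (∫⁻ x, ∫⁻ y, dens ψ (Function.update x i y) ∂volume ∂(mu i)) ^
              (5 / 8 : ℝ)) hpq2
          simp only [← ENNReal.rpow_mul] at hh
          have e6 : (3 / 8 : ℝ) * (8 / 3) = 1 := by norm_num
          have e7 : (5 / 8 : ℝ) * (8 / 5) = 1 := by norm_num
          have e8 : (1 : ℝ) / (8 / 3) = 3 / 8 := by norm_num
          have e9 : (1 : ℝ) / (8 / 5) = 5 / 8 := by norm_num
          simp only [e6, e7, e8, e9, ENNReal.rpow_one] at hh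
          rw [← kin_eq h, ← num_eq h] at hh
          exact hh
  -- conclude
  have hne : (R43 ψ) ^ (1 / 4 : ℝ) ≠ 0 := by
    rw [Ne, ENNReal.rpow_eq_zero_iff]
    rintro (⟨h4, _⟩ | ⟨h4, _⟩)
    · exact h0 h4
    · exact hfin h4
  have hnt : (R43 ψ) ^ (1 / 4 : ℝ) ≠ ∞ := ENNReal.rpow_ne_top_of_nonneg (by norm_num) hfin
  have h4 : (R43 ψ) ^ (3 / 4 : ℝ) ≤ Z := by
    have e5 : R43 ψ = (R43 ψ) ^ (1 / 4 : ℝ) * (R43 ψ) ^ (3 / 4 : ℝ) := by
      rw [← ENNReal.rpow_add _ _ h0 hfin]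
      norm_num
    have h5 : (R43 ψ) ^ (1 / 4 : ℝ) * (R43 ψ) ^ (3 / 4 : ℝ) ≤ (R43 ψ) ^ (1 / 4 : ℝ) * Z := by
      rw [← e5]; exact h1
    exact (ENNReal.mul_le_mul_iff_right hne hnt).1 h5
  have h6 : (E * R43 ψ) ^ (3 / 4 : ℝ) ≤ A ^ (3 / 8 : ℝ) *
      ((kin ψ) ^ (3 / 8 : ℝ) * (N : ℝ≥0∞) ^ (5 / 8 : ℝ)) := by
    rw [ENNReal.mul_rpow_of_nonneg _ _ (by norm_num)]
    exact (mul_le_mul' le_rfl h4).trans hsum
  have h7 := ENNReal.rpow_le_rpow h6 (show (0 : ℝ) ≤ 4 / 3 by norm_num)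
  rw [ENNReal.mul_rpow_of_nonneg _ _ (by norm_num : (0 : ℝ) ≤ 4 / 3),
    ENNReal.mul_rpow_of_nonneg _ _ (by norm_num : (0 : ℝ) ≤ 4 / 3), ← ENNReal.rpow_mul,
    ← ENNReal.rpow_mul, ← ENNReal.rpow_mul, ← ENNReal.rpow_mul] at h7
  have e6 : (3 / 4 : ℝ) * (4 / 3) = 1 := by norm_num
  have e7 : (3 / 8 : ℝ) * (4 / 3) = 1 / 2 := by norm_num
  have e8 : (5 / 8 : ℝ) * (4 / 3) = 5 / 6 := by norm_num
  rw [e6, e7, e8, ENNReal.rpow_one, ← mul_assoc] at h7
  exact h7

end manybody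

end Pool.Agent.Lib_helper90c


end

section

/-!
# The lower bound
-/

set_option autoImplicit false

open MeasureTheory Set Metric Filter
open scoped ENNReal NNReal Topology

namespace Pool.Agent.Lib_helper90c

section
variable {N K : ℕ}

theorem kinetic_nonneg (ψ : Conf N → ℂ) : 0 ≤ kinetic ψ :=
  integral_nonneg fun x => Finset.sum_nonneg fun i _ => gradSq_nonneg ψ i x

theorem kin_eq_ofReal {ψ : Conf N → ℂ} (h : Trial ψ) : kin ψ = ENNReal.ofReal (kinetic ψ) := by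
  have hci := continuous_gradSq h.smooth
  have hc : Continuous fun x => ∑ i, gradSq ψ i x := continuous_finsetSum _ fun i _ => hci i
  have hcs : HasCompactSupport fun x => ∑ i, gradSq ψ i x := by
    have h1 : HasCompactSupport (fderiv ℝ ψ) := h.compact.fderiv ℝ
    refine h1.mono ?_
    intro x hx
    by_contra hn
    apply hx
    have h2 : fderiv ℝ ψ x = 0 := by by_contra h; exact hn h
    unfold gradSq
    simp [h2]
  have hint : Integrable fun x => ∑ i, gradSq ψ i x := hc.integrable_of_hasCompactSupport hcs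
  unfold kinetic
  rw [ofReal_integral_eq_lintegral_ofReal hint (Eventually.of_forall fun x =>
    Finset.sum_nonneg fun i _ => gradSq_nonneg ψ i x)]
  have e : ∀ x, ENNReal.ofReal (∑ i, gradSq ψ i x) = ∑ i, kd ψ i x := fun x =>
    ENNReal.ofReal_sum_of_nonneg fun i _ => gradSq_nonneg ψ i x
  simp only [e]
  rw [lintegral_finsetSum _ fun i _ => measurable_kd h.smooth i]
  rfl

/-- crude estimate in real numbers -/
theorem crude_real {κ z S : ℝ} (hκ : 0 < κ) (hz : 0 < z) (hS : 0 < S)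
    (hsob : ∀ u : E3 → ℂ, ContDiff ℝ 1 u → HasCompactSupport u →
    (∫⁻ y, ENNReal.ofReal (‖u y‖ ^ 2) ^ 3) ^ (1 / 3 : ℝ) ≤
      ENNReal.ofReal S * ∫⁻ y, ENNReal.ofReal (grad1 u y)) (R : Fin K → E3)
    (hR : Function.Injective R) {ψ : Conf N → ℂ} (h : Trial ψ) :
    kinetic ψ - (κ * (N + z ^ 2 * K) / 2 + (cF1 z * (4 * Real.pi / 3 * mC 0) * κ * K +
      cF1 z * (4 * Real.pi / 3 * mC 6) * (κ / κ ^ 6) * (S * kinetic ψ) ^ 3)) ≤ energy z R ψ := by
  have hc := h.smooth.continuous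
  have hfin := R3_ne_top hc h.compact
  have hT0 := kinetic_nonneg ψ
  have hcF := cF1_nonneg z
  have hpi := Real.pi_pos
  have hm0 := mC_pos 0
  have hm6 := mC_pos 6
  have h1 := crude_total hκ hz R hR h hfin
  have h2 := R3_le hsob h
  rw [kin_eq_ofReal h, ← ENNReal.ofReal_mul hS.le, ← ENNReal.ofReal_pow (by positivity)] at h2
  have hA := Aen_lt_top R hc h.compact
  have hP := Pee_lt_top hc h.compact
  have hrep := rep_nonneg R
  have h3 : ENNReal.ofReal z * Aen R ψ ≤ Pee ψ + ENNReal.ofReal (z ^ 2) * ENNReal.ofReal (rep R) +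
      ENNReal.ofReal (κ * (N + z ^ 2 * K) / 2) +
      (ENNReal.ofReal (cF1 z * (4 * Real.pi / 3 * mC 0) * κ) * K +
        ENNReal.ofReal (cF1 z * (4 * Real.pi / 3 * mC 6) * (κ / κ ^ 6)) *
          ENNReal.ofReal ((S * kinetic ψ) ^ 3)) := h1.trans (by gcongr)
  rw [energy_eq z R h]
  set a := (Aen R ψ).toReal with ha
  set P := (Pee ψ).toReal with hPd
  have hAe : Aen R ψ = ENNReal.ofReal a := (ENNReal.ofReal_toReal hA.ne).symm
  have hPe : Pee ψ = ENNReal.ofReal P := (ENNReal.ofReal_toReal hP.ne).symm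
  have hP0 : 0 ≤ P := ENNReal.toReal_nonneg
  rw [hAe, hPe, ← ENNReal.ofReal_natCast K, ← ENNReal.ofReal_mul hz.le,
    ← ENNReal.ofReal_mul (sq_nonneg z), ← ENNReal.ofReal_mul (by positivity),
    ← ENNReal.ofReal_mul (by positivity),
    ← ENNReal.ofReal_add (by positivity) (by positivity),
    ← ENNReal.ofReal_add (by positivity) (by positivity),
    ← ENNReal.ofReal_add (by positivity) (by positivity),
    ← ENNReal.ofReal_add (by positivity) (by positivity),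
    ENNReal.ofReal_le_ofReal_iff (by positivity)] at h3
  linarith

/-- pointwise bound `ρ^{4/3} ≤ x² ρ + x^{-10} ρ³` -/
theorem pow43_le {x : ℝ} (hx : 0 < x) (t : ℝ≥0∞) :
    t ^ (4 / 3 : ℝ) ≤ ENNReal.ofReal (x ^ 2) * t + ENNReal.ofReal ((x ^ 10)⁻¹) * t ^ 3 := by
  by_cases ht : t = ∞
  · rw [ht, ENNReal.mul_top (ENNReal.ofReal_pos.2 (by positivity)).ne']
    simp
  set s : ℝ := (t.toReal) ^ (1 / 3 : ℝ) with hs
  have hs0 : 0 ≤ s := by positivity
  have ht0 : 0 ≤ t.toReal := ENNReal.toReal_nonneg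
  have hs3 : s ^ 3 = t.toReal := by
    rw [hs, ← Real.rpow_natCast, ← Real.rpow_mul ht0]; norm_num
  have hte : t = ENNReal.ofReal (s ^ 3) := by rw [hs3, ENNReal.ofReal_toReal ht]
  rw [hte, ENNReal.ofReal_rpow_of_nonneg (by positivity) (by norm_num),
    ← ENNReal.ofReal_pow (by positivity), ← ENNReal.ofReal_mul (by positivity),
    ← ENNReal.ofReal_mul (by positivity), ← ENNReal.ofReal_add (by positivity) (by positivity)]
  apply ENNReal.ofReal_le_ofReal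
  have e1 : (s ^ 3) ^ (4 / 3 : ℝ) = s ^ 4 := by
    rw [← Real.rpow_natCast, ← Real.rpow_mul hs0, ← Real.rpow_natCast]; norm_num
  rw [e1]
  rcases le_or_gt s (x ^ 2) with h | h
  · have h1 : s ^ 4 ≤ x ^ 2 * s ^ 3 := by
      have : s ^ 4 = s * s ^ 3 := by ring
      rw [this]; gcongr
    have h2 : 0 ≤ (x ^ 10)⁻¹ * (s ^ 3) ^ 3 := by positivity
    linarith
  · have h1 : x ^ 10 ≤ s ^ 5 := by
      have : x ^ 10 = (x ^ 2) ^ 5 := by ring
      rw [this]; gcongr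
    have h2 : s ^ 4 ≤ (x ^ 10)⁻¹ * (s ^ 3) ^ 3 := by
      rw [inv_mul_eq_div, le_div_iff₀ (by positivity)]
      calc s ^ 4 * x ^ 10 ≤ s ^ 4 * s ^ 5 := by gcongr
        _ = (s ^ 3) ^ 3 := by ring
    have h3 : 0 ≤ x ^ 2 * s ^ 3 := by positivity
    linarith

theorem R43_crude {x : ℝ} (hx : 0 < x) {ψ : Conf N → ℂ} (h : Trial ψ) :
    R43 ψ ≤ ENNReal.ofReal (x ^ 2) * N + ENNReal.ofReal ((x ^ 10)⁻¹) * R3 ψ := by
  have hd := measurable_dens h.smooth.continuous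
  have hρ := measurable_rho hd
  have hρ3 : Measurable fun y => rho (dens ψ) y ^ 3 := hρ.pow_const 3
  unfold R43 R3
  rw [← lintegral_rho h, ← lintegral_const_mul _ hρ, ← lintegral_const_mul _ hρ3,
    ← lintegral_add_left (hρ.const_mul _)]
  exact lintegral_mono fun y => pow43_le hx _

/-- GN inequality in real numbers -/
theorem R43_real {z x : ℝ} (hz : 0 < z) (hx : 0 < x) (hN : x ^ 3 = N) {ψ : Conf N → ℂ}
    (h : Trial ψ) :
    (-estar z) * (R43 ψ).toReal ≤ kinetic ψ + (-limE z) * x ^ 5 := by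
  have he := estar_nonpos hz
  have hL := limE_nonpos z
  have hT0 := kinetic_nonneg ψ
  have hfin := R43_ne_top h.smooth.continuous h.compact
  have h1 := R43_le hz h
  set q := (R43 ψ).toReal with hq
  have hqe : R43 ψ = ENNReal.ofReal q := (ENNReal.ofReal_toReal hfin).symm
  have hq0 : 0 ≤ q := ENNReal.toReal_nonneg
  have hL0 : 0 ≤ -limE z := by linarith
  have hE0 : 0 ≤ -estar z := by linarith
  rw [kin_eq_ofReal h, hqe, ← ENNReal.ofReal_natCast N, ← hN, ← ENNReal.ofReal_mul hE0,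
    ENNReal.ofReal_rpow_of_nonneg (by positivity) (by norm_num),
    ENNReal.ofReal_rpow_of_nonneg (by positivity) (by norm_num),
    ENNReal.ofReal_rpow_of_nonneg (by positivity) (by norm_num),
    ← ENNReal.ofReal_mul (by positivity), ← ENNReal.ofReal_mul (by positivity),
    ENNReal.ofReal_le_ofReal_iff (by positivity)] at h1
  refine h1.trans ?_
  rw [← Real.sqrt_eq_rpow, ← Real.sqrt_eq_rpow]
  have e1 : (x ^ 3) ^ (5 / 6 : ℝ) = Real.sqrt (x ^ 5) := by
    rw [Real.sqrt_eq_rpow, ← Real.rpow_natCast, ← Real.rpow_mul hx.le, ← Real.rpow_natCast x 5,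
      ← Real.rpow_mul hx.le]
    norm_num
  rw [e1]
  have e2 : Real.sqrt (4 * -limE z) * Real.sqrt (kinetic ψ) * Real.sqrt (x ^ 5) =
      2 * (Real.sqrt (kinetic ψ) * Real.sqrt ((-limE z) * x ^ 5)) := by
    rw [Real.sqrt_mul (by norm_num), Real.sqrt_mul hL0]
    have : Real.sqrt 4 = 2 := by
      rw [show (4 : ℝ) = 2 ^ 2 by norm_num, Real.sqrt_sq (by norm_num)]
    rw [this]; ring
  rw [e2]
  have h3 := Real.sq_sqrt hT0
  have h4 := Real.sq_sqrt (show 0 ≤ (-limE z) * x ^ 5 by positivity)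
  nlinarith only [h3, h4, sq_nonneg (Real.sqrt (kinetic ψ) - Real.sqrt ((-limE z) * x ^ 5))]

/-- fine estimate in real numbers -/
theorem fine_real {κ z S δ' r0 M Rm x : ℝ} (hκ : 0 < κ) (hz : 0 < z) (hr0 : 0 < r0)
    (hδ' : 0 ≤ δ')
    (hlow : ∀ r, r0 ≤ r → ∀ (n : ℕ) (p : Fin n → E3), Function.Injective p →
      (∀ i, p i ∈ ball (0 : E3) r) → (estar z - δ') * vB r ≤ jel z r p)
    (hM : 2 ≤ M) (hRm : 0 < Rm) (hx : 0 < x) (hN : x ^ 3 = N) (hS : 0 < S)
    (hsob : ∀ u : E3 → ℂ, ContDiff ℝ 1 u → HasCompactSupport u →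
    (∫⁻ y, ENNReal.ofReal (‖u y‖ ^ 2) ^ 3) ^ (1 / 3 : ℝ) ≤
      ENNReal.ofReal S * ∫⁻ y, ENNReal.ofReal (grad1 u y)) (R : Fin K → E3)
    (hR : Function.Injective R) {ψ : Conf N → ℂ} (h : Trial ψ) :
    limE z * x ^ 5 - (κ * (N + z ^ 2 * K) / 2 + ((192 * z + 480) * M ^ 2 * Rm * kinetic ψ +
      (δ' * (x ^ 2 * N + (x ^ 10)⁻¹ * (S * kinetic ψ) ^ 3) +
      (cN z r0 * (4 * Real.pi / 3 * mC 0) * κ * N +
      (cF2 z / M * (4 * Real.pi / 3 * mC 6) * (κ / κ ^ 6) * (S * kinetic ψ) ^ 3 +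
      (cF1 z * Rm⁻¹ * K +
      cF1 z * Rm⁻¹ * (4 * Real.pi / 3 * mC 7) * (κ / κ ^ 7) * (S * kinetic ψ) ^ 3)))))) ≤
      energy z R ψ := by
  have hc := h.smooth.continuous
  have hfin := R3_ne_top hc h.compact
  have hfin43 := R43_ne_top hc h.compact
  have hT0 := kinetic_nonneg ψ
  have hcF := cF1_nonneg z
  have hcF2 := cF2_nonneg hz
  have hcN := cN_nonneg hz.le hr0.le
  have he := estar_nonpos hz
  have hM0 : 0 < M := by linarith
  have hpi := Real.pi_pos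
  have hm0 := mC_pos 0
  have hm6 := mC_pos 6
  have hm7 := mC_pos 7
  have h1 := fine_total hκ hz hr0 hδ' hlow hM hRm R hR h hfin
  have h2 := R3_le hsob h
  have h43 := R43_crude hx h
  have hGN := R43_real hz hx hN h
  rw [kin_eq_ofReal h, ← ENNReal.ofReal_mul hS.le, ← ENNReal.ofReal_pow (by positivity)] at h2
  have hA := Aen_lt_top R hc h.compact
  have hP := Pee_lt_top hc h.compact
  have hrep := rep_nonneg R
  set q := (R43 ψ).toReal with hq
  have hqe : R43 ψ = ENNReal.ofReal q := (ENNReal.ofReal_toReal hfin43).symm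
  have hq0 : 0 ≤ q := ENNReal.toReal_nonneg
  set X := (R3 ψ).toReal with hX
  have hXe : R3 ψ = ENNReal.ofReal X := (ENNReal.ofReal_toReal hfin).symm
  have hX0 : 0 ≤ X := ENNReal.toReal_nonneg
  set a := (Aen R ψ).toReal with ha
  set P := (Pee ψ).toReal with hPd
  have hAe : Aen R ψ = ENNReal.ofReal a := (ENNReal.ofReal_toReal hA.ne).symm
  have hPe : Pee ψ = ENNReal.ofReal P := (ENNReal.ofReal_toReal hP.ne).symm
  have hP0 : 0 ≤ P := ENNReal.toReal_nonneg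
  have hde : 0 ≤ δ' - estar z := by linarith
  rw [hXe, ENNReal.ofReal_le_ofReal_iff (by positivity)] at h2
  rw [hqe, hXe, ← ENNReal.ofReal_natCast N, ← ENNReal.ofReal_mul (by positivity),
    ← ENNReal.ofReal_mul (by positivity), ← ENNReal.ofReal_add (by positivity) (by positivity),
    ENNReal.ofReal_le_ofReal_iff (by positivity)] at h43
  rw [hAe, hPe, kin_eq_ofReal h, hqe, hXe, ← ENNReal.ofReal_natCast K, ← ENNReal.ofReal_natCast N,
    ← ENNReal.ofReal_mul hz.le,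
    ← ENNReal.ofReal_mul (sq_nonneg z), ← ENNReal.ofReal_mul (by positivity),
    ← ENNReal.ofReal_mul hde, ← ENNReal.ofReal_mul (by positivity),
    ← ENNReal.ofReal_mul (by positivity), ← ENNReal.ofReal_mul (by positivity),
    ← ENNReal.ofReal_mul (by positivity),
    ← ENNReal.ofReal_add (by positivity) (by positivity),
    ← ENNReal.ofReal_add (by positivity) (by positivity),
    ← ENNReal.ofReal_add (by positivity) (by positivity),
    ← ENNReal.ofReal_add (by positivity) (by positivity),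
    ← ENNReal.ofReal_add (by positivity) (by positivity),
    ← ENNReal.ofReal_add (by positivity) (by positivity),
    ← ENNReal.ofReal_add (by positivity) (by positivity),
    ← ENNReal.ofReal_add (by positivity) (by positivity),
    ENNReal.ofReal_le_ofReal_iff (by positivity)] at h1
  rw [energy_eq z R h]
  have g1 : δ' * q ≤ δ' * (x ^ 2 * N + (x ^ 10)⁻¹ * (S * kinetic ψ) ^ 3) := by
    refine mul_le_mul_of_nonneg_left (h43.trans ?_) hδ'
    gcongr
  have g2 : cF2 z / M * (4 * Real.pi / 3 * mC 6) * (κ / κ ^ 6) * X ≤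
      cF2 z / M * (4 * Real.pi / 3 * mC 6) * (κ / κ ^ 6) * (S * kinetic ψ) ^ 3 := by
    gcongr
  have g3 : cF1 z * Rm⁻¹ * (4 * Real.pi / 3 * mC 7) * (κ / κ ^ 7) * X ≤
      cF1 z * Rm⁻¹ * (4 * Real.pi / 3 * mC 7) * (κ / κ ^ 7) * (S * kinetic ψ) ^ 3 := by
    gcongr
  have g4 : (δ' - estar z) * q = δ' * q + (-estar z) * q := by ring
  rw [g4] at h1
  linarith

end

end Pool.Agent.Lib_helper90c


end

section

/-!
# The limit theorem
-/

set_option autoImplicit false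

open MeasureTheory Set Metric Filter
open scoped ENNReal NNReal Topology

namespace Pool.Agent.Lib_helper90c

/-- algebra of the crude bound -/
theorem crude_alg {C T x κ E a1 a2 a3 : ℝ} (hx : 0 < x) (hκ : 0 < κ) (hT : 0 ≤ T)
    (hκ2 : κ ^ 2 * x = T + x ^ 5) (ha1 : 0 ≤ a1) (ha2 : 0 ≤ a2) (ha3 : 0 ≤ a3)
    (hC : C = a1 + a2 + a3)
    (h : T - (a1 * (κ * x ^ 3) + (a2 * (κ * x ^ 3) + a3 * (κ / κ ^ 6 * T ^ 3))) ≤ E) :
    T ≤ 2 * E + (1 + 4 * C ^ 2) * x ^ 5 := by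
  have h1 : κ / κ ^ 6 * T ^ 3 ≤ κ * x ^ 3 := by
    have h2 : T ^ 3 ≤ (κ ^ 2 * x) ^ 3 := by
      apply pow_le_pow_left₀ hT
      rw [hκ2]
      have : 0 < x ^ 5 := by positivity
      linarith
    calc κ / κ ^ 6 * T ^ 3 ≤ κ / κ ^ 6 * (κ ^ 2 * x) ^ 3 := by gcongr
      _ = κ * x ^ 3 := by field_simp
  have h3 : a3 * (κ / κ ^ 6 * T ^ 3) ≤ a3 * (κ * x ^ 3) := mul_le_mul_of_nonneg_left h1 ha3
  have h4 : T - C * (κ * x ^ 3) ≤ E := by
    rw [hC]
    linarith
  have h5 : 0 ≤ C * (κ * x ^ 3) := by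
    have : 0 ≤ C := by rw [hC]; positivity
    positivity
  have h7 : 2 * (C * (κ * x ^ 3)) ≤ κ ^ 2 * x / 2 + 2 * C ^ 2 * x ^ 5 := by
    have : κ ^ 2 * x / 2 + 2 * C ^ 2 * x ^ 5 - 2 * (C * (κ * x ^ 3)) =
        x / 2 * (κ - 2 * C * x ^ 2) ^ 2 := by ring
    have h6 : 0 ≤ x / 2 * (κ - 2 * C * x ^ 2) ^ 2 := by positivity
    linarith
  have h8 : (1 + 4 * C ^ 2) * x ^ 5 = x ^ 5 + 2 * (2 * C ^ 2 * x ^ 5) := by ring
  rw [h8]
  linarith

/-- bound on the kinetic energy in terms of the energy -/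
theorem kinetic_bound {z : ℝ} (hz : 0 < z) : ∃ B : ℝ, 0 < B ∧ ∀ (N K : ℕ) (x : ℝ), 0 < x →
    x ^ 3 = N → (K : ℝ) * z = N → ∀ (R : Fin K → E3) (ψ : Conf N → ℂ), Function.Injective R →
    Trial ψ → kinetic ψ ≤ 2 * energy z R ψ + B * x ^ 5 := by
  obtain ⟨S, hS, hsob⟩ := sobolev1
  have hcF := cF1_nonneg z
  have hpi := Real.pi_pos
  have hm0 := mC_pos 0
  have hm6 := mC_pos 6
  set a1 : ℝ := (1 + z) / 2 with ha1
  set a2 : ℝ := cF1 z * (4 * Real.pi / 3 * mC 0) / z with ha2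
  set a3 : ℝ := cF1 z * (4 * Real.pi / 3 * mC 6) * S ^ 3 with ha3
  refine ⟨1 + 4 * (a1 + a2 + a3) ^ 2, by positivity, fun N K x hx hN hK R ψ hR h => ?_⟩
  have hT := kinetic_nonneg ψ
  set T := kinetic ψ with hTdef
  set κ : ℝ := Real.sqrt ((T + x ^ 5) / x) with hκdef
  have hpos : 0 < (T + x ^ 5) / x := by positivity
  have hκ : 0 < κ := Real.sqrt_pos.2 hpos
  have hκ2 : κ ^ 2 * x = T + x ^ 5 := by
    rw [hκdef, Real.sq_sqrt hpos.le]; field_simp
  have h1 := crude_real hκ hz hS hsob R hR h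
  rw [← hTdef] at h1
  have hKz : (K : ℝ) = x ^ 3 / z := by rw [hN, ← hK]; field_simp
  refine crude_alg hx hκ hT hκ2 (by positivity) (by positivity) (by positivity) rfl ?_
  refine le_trans (le_of_eq ?_) h1
  rw [hKz, ← hN, ha1, ha2, ha3]
  field_simp

/-- algebra of the fine bound -/
theorem fine_alg {z ε B S T x L M W δ' cn c0 c6 c7 f1 f2 : ℝ} (hz : 0 < z) (hε : 0 < ε)
    (hB : 0 < B) (hS : 0 < S) (hx : 1 ≤ x) (hL : 1 ≤ L) (hM : 2 ≤ M) (hW : 1 ≤ W) (hT : 0 ≤ T)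
    (hTB : T ≤ B * x ^ 5) (hδ : 0 ≤ δ') (hc6 : 0 ≤ c6)
    (hc7 : 0 ≤ c7) (hf1 : 0 ≤ f1) (hf2 : 0 ≤ f2)
    (g1 : 7 * (1 + z) ≤ ε * (2 * L))
    (g2 : 7 * ((192 * z + 480) * B * M ^ 2 * W * L) ≤ ε * x)
    (g3 : 7 * (δ' * (1 + S ^ 3 * B ^ 3)) ≤ ε)
    (g4 : 7 * (cn * c0) ≤ ε * L)
    (g5 : 7 * (f2 * c6 * L ^ 5 * (S ^ 3 * B ^ 3)) ≤ ε * M)
    (g6 : 7 * f1 ≤ ε * (z * W))
    (g7 : 7 * (f1 * c7 * L ^ 5 * (S ^ 3 * B ^ 3)) ≤ ε * W) :
    (x ^ 2 / L) * (x ^ 3 + z ^ 2 * (x ^ 3 / z)) / 2 +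
      ((192 * z + 480) * M ^ 2 * (W * L / x ^ 2) * T +
      (δ' * (x ^ 2 * x ^ 3 + (x ^ 10)⁻¹ * (S * T) ^ 3) +
      (cn * c0 * (x ^ 2 / L) * x ^ 3 +
      (f2 / M * c6 * ((x ^ 2 / L) / (x ^ 2 / L) ^ 6) * (S * T) ^ 3 +
      (f1 * (W * L / x ^ 2)⁻¹ * (x ^ 3 / z) +
      f1 * (W * L / x ^ 2)⁻¹ * c7 * ((x ^ 2 / L) / (x ^ 2 / L) ^ 7) * (S * T) ^ 3))))) ≤
      ε * x ^ 5 := by
  have hx0 : 0 < x := by linarith
  have hL0 : 0 < L := by linarith
  have hM0 : 0 < M := by linarith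
  have hW0 : 0 < W := by linarith
  have hY : (S * T) ^ 3 ≤ S ^ 3 * B ^ 3 * x ^ 15 := by
    calc (S * T) ^ 3 ≤ (S * (B * x ^ 5)) ^ 3 := by gcongr
      _ = S ^ 3 * B ^ 3 * x ^ 15 := by ring
  have hY0 : 0 ≤ (S * T) ^ 3 := by positivity
  have t1 : (x ^ 2 / L) * (x ^ 3 + z ^ 2 * (x ^ 3 / z)) / 2 ≤ ε / 7 * x ^ 5 := by
    have e : (x ^ 2 / L) * (x ^ 3 + z ^ 2 * (x ^ 3 / z)) / 2 = (1 + z) / (2 * L) * x ^ 5 := by
      field_simp
    rw [e]
    refine mul_le_mul_of_nonneg_right ?_ (by positivity)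
    rw [div_le_div_iff₀ (by positivity) (by norm_num)]
    linarith
  have t2 : (192 * z + 480) * M ^ 2 * (W * L / x ^ 2) * T ≤ ε / 7 * x ^ 5 := by
    calc (192 * z + 480) * M ^ 2 * (W * L / x ^ 2) * T
        ≤ (192 * z + 480) * M ^ 2 * (W * L / x ^ 2) * (B * x ^ 5) := by gcongr
      _ = ((192 * z + 480) * B * M ^ 2 * W * L) * x ^ 3 := by field_simp
      _ ≤ (ε / 7 * x) * x ^ 3 := by
          refine mul_le_mul_of_nonneg_right ?_ (by positivity)
          linarith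
      _ = ε / 7 * x ^ 4 := by ring
      _ ≤ ε / 7 * x ^ 5 := by
          refine mul_le_mul_of_nonneg_left ?_ (by positivity)
          exact pow_le_pow_right₀ hx (by norm_num)
  have t3 : δ' * (x ^ 2 * x ^ 3 + (x ^ 10)⁻¹ * (S * T) ^ 3) ≤ ε / 7 * x ^ 5 := by
    calc δ' * (x ^ 2 * x ^ 3 + (x ^ 10)⁻¹ * (S * T) ^ 3)
        ≤ δ' * (x ^ 2 * x ^ 3 + (x ^ 10)⁻¹ * (S ^ 3 * B ^ 3 * x ^ 15)) := by gcongr
      _ = (δ' * (1 + S ^ 3 * B ^ 3)) * x ^ 5 := by field_simp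
      _ ≤ ε / 7 * x ^ 5 := by
          refine mul_le_mul_of_nonneg_right ?_ (by positivity)
          linarith
  have t4 : cn * c0 * (x ^ 2 / L) * x ^ 3 ≤ ε / 7 * x ^ 5 := by
    have e : cn * c0 * (x ^ 2 / L) * x ^ 3 = (cn * c0) / L * x ^ 5 := by ring
    rw [e]
    refine mul_le_mul_of_nonneg_right ?_ (by positivity)
    rw [div_le_div_iff₀ (by positivity) (by norm_num)]
    linarith
  have t5 : f2 / M * c6 * ((x ^ 2 / L) / (x ^ 2 / L) ^ 6) * (S * T) ^ 3 ≤ ε / 7 * x ^ 5 := by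
    calc f2 / M * c6 * ((x ^ 2 / L) / (x ^ 2 / L) ^ 6) * (S * T) ^ 3
        ≤ f2 / M * c6 * ((x ^ 2 / L) / (x ^ 2 / L) ^ 6) * (S ^ 3 * B ^ 3 * x ^ 15) := by gcongr
      _ = (f2 * c6 * L ^ 5 * (S ^ 3 * B ^ 3)) / M * x ^ 5 := by field_simp
      _ ≤ ε / 7 * x ^ 5 := by
          refine mul_le_mul_of_nonneg_right ?_ (by positivity)
          rw [div_le_div_iff₀ (by positivity) (by norm_num)]
          linarith
  have t6 : f1 * (W * L / x ^ 2)⁻¹ * (x ^ 3 / z) ≤ ε / 7 * x ^ 5 := by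
    have e : f1 * (W * L / x ^ 2)⁻¹ * (x ^ 3 / z) = f1 / (z * W * L) * x ^ 5 := by field_simp
    rw [e]
    refine mul_le_mul_of_nonneg_right ?_ (by positivity)
    rw [div_le_div_iff₀ (by positivity) (by norm_num)]
    have h1 : ε * (z * W) * 1 ≤ ε * (z * W) * L := by gcongr
    linarith
  have t7 : f1 * (W * L / x ^ 2)⁻¹ * c7 * ((x ^ 2 / L) / (x ^ 2 / L) ^ 7) * (S * T) ^ 3 ≤
      ε / 7 * x ^ 5 := by
    calc f1 * (W * L / x ^ 2)⁻¹ * c7 * ((x ^ 2 / L) / (x ^ 2 / L) ^ 7) * (S * T) ^ 3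
        ≤ f1 * (W * L / x ^ 2)⁻¹ * c7 * ((x ^ 2 / L) / (x ^ 2 / L) ^ 7) *
          (S ^ 3 * B ^ 3 * x ^ 15) := by gcongr
      _ = (f1 * c7 * L ^ 5 * (S ^ 3 * B ^ 3)) / W * x ^ 5 := by field_simp
      _ ≤ ε / 7 * x ^ 5 := by
          refine mul_le_mul_of_nonneg_right ?_ (by positivity)
          rw [div_le_div_iff₀ (by positivity) (by norm_num)]
          linarith
  linarith

theorem exists_ge (ε a : ℝ) (hε : 0 < ε) (m : ℝ) : ∃ L : ℝ, m ≤ L ∧ a ≤ ε * L := by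
  refine ⟨max m (a / ε), le_max_left _ _, ?_⟩
  calc a = ε * (a / ε) := by field_simp
    _ ≤ ε * max m (a / ε) := mul_le_mul_of_nonneg_left (le_max_right _ _) hε.le

/-- choice of the parameters -/
theorem exists_params {z ε B S cn c0 c6 c7 f1 f2 : ℝ} (hz : 0 < z) (hε : 0 < ε) :
    ∃ L M W x0 : ℝ, 1 ≤ L ∧ 2 ≤ M ∧ 1 ≤ W ∧ 1 ≤ x0 ∧
    7 * (1 + z) ≤ ε * (2 * L) ∧
    7 * ((192 * z + 480) * B * M ^ 2 * W * L) ≤ ε * x0 ∧
    7 * (cn * c0) ≤ ε * L ∧
    7 * (f2 * c6 * L ^ 5 * (S ^ 3 * B ^ 3)) ≤ ε * M ∧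
    7 * f1 ≤ ε * (z * W) ∧
    7 * (f1 * c7 * L ^ 5 * (S ^ 3 * B ^ 3)) ≤ ε * W := by
  obtain ⟨L1, hL1, hL1'⟩ := exists_ge ε (7 * (1 + z)) hε 1
  obtain ⟨L, hL, hL'⟩ := exists_ge ε (7 * (cn * c0)) hε L1
  obtain ⟨M, hM, hM'⟩ := exists_ge ε (7 * (f2 * c6 * L ^ 5 * (S ^ 3 * B ^ 3))) hε 2
  obtain ⟨W1, hW1, hW1'⟩ := exists_ge (ε * z) (7 * f1) (by positivity) 1
  obtain ⟨W, hW, hW'⟩ := exists_ge ε (7 * (f1 * c7 * L ^ 5 * (S ^ 3 * B ^ 3))) hε W1
  obtain ⟨x0, hx0, hx0'⟩ := exists_ge ε (7 * ((192 * z + 480) * B * M ^ 2 * W * L)) hε 1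
  refine ⟨L, M, W, x0, hL1.trans hL, hM, hW1.trans hW, hx0, ?_, hx0', hL', hM', ?_, hW'⟩
  · have h1 : ε * L1 ≤ ε * L := mul_le_mul_of_nonneg_left hL hε.le
    have h2 : 0 ≤ ε * L := mul_nonneg hε.le (by linarith)
    linarith
  · have h1 : ε * z * W1 ≤ ε * z * W := mul_le_mul_of_nonneg_left hW (by positivity)
    linarith

/-- Lower bound on the energy. -/
theorem lower_E {z ε : ℝ} (hz : 0 < z) (hε : 0 < ε) :
    ∃ x0 : ℝ, 0 < x0 ∧ ∀ (N K : ℕ) (x : ℝ), x0 ≤ x → x ^ 3 = N → (K : ℝ) * z = N →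
      ∀ (R : Fin K → E3) (ψ : Conf N → ℂ), Function.Injective R → Trial ψ →
        (limE z - ε) * x ^ 5 ≤ energy z R ψ := by
  obtain ⟨B, hB, hkin⟩ := kinetic_bound hz
  obtain ⟨S, hS, hsob⟩ := sobolev1
  have hcF := cF1_nonneg z
  have hcF2 := cF2_nonneg hz
  have hpi := Real.pi_pos
  have hm0 := mC_pos 0
  have hm6 := mC_pos 6
  have hm7 := mC_pos 7
  have hL0 := limE_nonpos z
  obtain ⟨δ', hδ'0, hδ'⟩ : ∃ δ' : ℝ, 0 < δ' ∧ 7 * (δ' * (1 + S ^ 3 * B ^ 3)) ≤ ε := by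
    refine ⟨ε / (7 * (1 + S ^ 3 * B ^ 3)), by positivity, le_of_eq ?_⟩
    field_simp
  obtain ⟨r0, hr0, hlow⟩ := estar_lower hz hδ'0
  have hcN := cN_nonneg hz.le hr0.le
  obtain ⟨L, M, W, x0, hL1, hM2, hW1, hx01, g1, g2, g4, g5, g6, g7⟩ :=
    exists_params (B := B) (S := S) (cn := cN z r0) (c0 := 4 * Real.pi / 3 * mC 0)
      (c6 := 4 * Real.pi / 3 * mC 6) (c7 := 4 * Real.pi / 3 * mC 7) (f1 := cF1 z) (f2 := cF2 z)
      hz hε
  have hLpos : 0 < L := by linarith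
  have hWpos : 0 < W := by linarith
  refine ⟨x0, by linarith, fun N K x hx hN hK R ψ hR h => ?_⟩
  by_contra hcon
  push Not at hcon
  have hx1 : 1 ≤ x := hx01.trans hx
  have hxpos : 0 < x := by linarith
  have hx5 : 0 < x ^ 5 := by positivity
  have hneg : energy z R ψ ≤ 0 := by
    have : (limE z - ε) * x ^ 5 ≤ 0 := mul_nonpos_of_nonpos_of_nonneg (by linarith) hx5.le
    linarith
  have hTB : kinetic ψ ≤ B * x ^ 5 := by
    have := hkin N K x hxpos hN hK R ψ hR h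
    linarith
  have hT0 := kinetic_nonneg ψ
  have hκ : 0 < x ^ 2 / L := by positivity
  have hRm : 0 < W * L / x ^ 2 := by positivity
  have hKz : (K : ℝ) = x ^ 3 / z := by rw [hN, ← hK]; field_simp
  have g2' : 7 * ((192 * z + 480) * B * M ^ 2 * W * L) ≤ ε * x :=
    g2.trans (mul_le_mul_of_nonneg_left hx hε.le)
  have hfine := fine_real hκ hz hr0 hδ'0.le hlow hM2 hRm hxpos hN hS hsob R hR h
  have halg := fine_alg (T := kinetic ψ) (cn := cN z r0) (c0 := 4 * Real.pi / 3 * mC 0)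
    (c6 := 4 * Real.pi / 3 * mC 6) (c7 := 4 * Real.pi / 3 * mC 7)
    (f1 := cF1 z) (f2 := cF2 z) (δ' := δ') hz hε hB hS hx1 hL1 hM2 hW1 hT0 hTB hδ'0.le
    (by positivity) (by positivity) hcF hcF2 g1 g2' hδ' g4 g5 g6 g7
  rw [hKz, ← hN] at hfine
  have e : (limE z - ε) * x ^ 5 = limE z * x ^ 5 - ε * x ^ 5 := by ring
  rw [e] at hcon
  linarith

end Pool.Agent.Lib_helper90c


end

section

/-!
# Existence of the limit
-/

set_option autoImplicit false

open MeasureTheory Set Metric Filter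
open scoped ENNReal NNReal Topology

namespace Pool.Agent.Lib_helper90c

/-- the set of energies -/
def enSet (z : ℝ) (N : ℕ) : Set ℝ :=
  {E : ℝ | ∃ (K : ℕ) (R : Fin K → E3) (ψ : Conf N → ℂ), (K : ℝ) * z = N ∧
    Function.Injective R ∧ Trial ψ ∧ E = energy z R ψ}

theorem enSet_bddBelow {z : ℝ} (hz : 0 < z) {N : ℕ} (hN : 0 < N) : BddBelow (enSet z N) := by
  obtain ⟨B, hB, hk⟩ := kinetic_bound hz
  have hN' : (0 : ℝ) < N := by exact_mod_cast hN
  set x : ℝ := (N : ℝ) ^ (1 / 3 : ℝ) with hx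
  have hx0 : 0 < x := by positivity
  have hx3 : x ^ 3 = N := by
    rw [hx, ← Real.rpow_natCast, ← Real.rpow_mul hN'.le]; norm_num
  refine ⟨-(B * x ^ 5 / 2), ?_⟩
  rintro E ⟨K, R, ψ, hK, hR, hψ, rfl⟩
  have h1 := hk N K x hx0 hx3 hK R ψ hR hψ
  have h2 := kinetic_nonneg ψ
  linarith

theorem limit_exists {z : ℝ} (hz : 0 < z) :
    Tendsto (fun N : ℕ => groundEnergy z N / (N : ℝ) ^ (5 / 3 : ℝ))
      (atTop ⊓ 𝓟 {N : ℕ | ∃ K : ℕ, (K : ℝ) * z = N}) (𝓝 (limE z)) := by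
  rw [Metric.tendsto_nhds]
  intro ε hε
  -- upper bound
  have hlt : sInf {E : ℝ | ∃ u : E3 → ℂ, Trial1 u ∧ E = limFun z u} < limE z + ε / 4 := by
    have : limE z = sInf {E : ℝ | ∃ u : E3 → ℂ, Trial1 u ∧ E = limFun z u} := rfl
    rw [← this]; linarith
  obtain ⟨u0, hu0⟩ := exists_trial1
  have hne : {E : ℝ | ∃ u : E3 → ℂ, Trial1 u ∧ E = limFun z u}.Nonempty :=
    ⟨limFun z u0, u0, hu0, rfl⟩
  obtain ⟨E, ⟨u, hu, rfl⟩, hEu⟩ := exists_lt_of_csInf_lt hne hlt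
  obtain ⟨N0, hN0, hup⟩ := upper_E hz hu (ε := ε / 4) (by linarith)
  obtain ⟨x0, hx0, hlow⟩ := lower_E hz (ε := ε / 2) (by linarith)
  have hev1 : ∀ᶠ N : ℕ in atTop, N0 ≤ (N : ℝ) :=
    tendsto_natCast_atTop_atTop.eventually_ge_atTop N0
  have hev2 : ∀ᶠ N : ℕ in atTop, x0 ^ 3 ≤ (N : ℝ) :=
    tendsto_natCast_atTop_atTop.eventually_ge_atTop (x0 ^ 3)
  have hev3 : ∀ᶠ N : ℕ in atTop, 0 < N := eventually_gt_atTop 0
  rw [eventually_inf_principal]
  filter_upwards [hev1, hev2, hev3] with N h1 h2 h3 hadm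
  obtain ⟨K, hK⟩ := hadm
  have hN' : (0 : ℝ) < N := by exact_mod_cast h3
  set x : ℝ := (N : ℝ) ^ (1 / 3 : ℝ) with hx
  have hxpos : 0 < x := by positivity
  have hx3 : x ^ 3 = N := by
    rw [hx, ← Real.rpow_natCast, ← Real.rpow_mul hN'.le]; norm_num
  have hx5 : (N : ℝ) ^ (5 / 3 : ℝ) = x ^ 5 := by
    rw [hx, ← Real.rpow_natCast, ← Real.rpow_mul hN'.le]; norm_num
  have hxx0 : x0 ≤ x := by
    rw [← hx3] at h2
    exact (pow_le_pow_iff_left₀ hx0.le hxpos.le (by norm_num)).1 h2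
  have hp : 0 < x ^ 5 := by positivity
  have hbdd := enSet_bddBelow hz h3
  obtain ⟨R, ψ, hR, hψ, hE⟩ := hup N h1 K hK
  have hmem : energy z R ψ ∈ enSet z N := ⟨K, R, ψ, hK, hR, hψ, rfl⟩
  have hU : groundEnergy z N ≤ x ^ 5 * (limFun z u + ε / 4) := by
    rw [← hx5]
    exact (csInf_le hbdd hmem).trans hE
  have hL : (limE z - ε / 2) * x ^ 5 ≤ groundEnergy z N := by
    refine le_csInf ⟨_, hmem⟩ ?_
    rintro E ⟨K', R', ψ', hK', hR', hψ', rfl⟩
    exact hlow N K' x hxx0 hx3 hK' R' ψ' hR' hψ'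
  rw [hx5, Real.dist_eq, abs_lt]
  constructor
  · have : limE z - ε / 2 ≤ groundEnergy z N / x ^ 5 := by
      rw [le_div_iff₀ hp]; exact hL
    linarith
  · have : groundEnergy z N / x ^ 5 ≤ limFun z u + ε / 4 := by
      rw [div_le_iff₀ hp, mul_comm]; exact hU
    linarith

end Pool.Agent.Lib_helper90c


end

section

/-!
# Mollification in `L²`
-/

set_option autoImplicit false

open MeasureTheory Set Metric Filter
open scoped ENNReal NNReal Topology Convolution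

namespace Pool.Agent.Lib_helper90c

section
variable {V : Type} [NormedAddCommGroup V] [NormedSpace ℝ V] [FiniteDimensional ℝ V]
  [MeasurableSpace V] [BorelSpace V] {μ : Measure V} [μ.IsAddHaarMeasure]

theorem sq_eLpNorm_two {α : Type} [MeasurableSpace α] {ν : Measure α} (g : α → ℂ) :
    (eLpNorm g 2 ν) ^ 2 = ∫⁻ x, ‖g x‖ₑ ^ 2 ∂ν := by
  have h := eLpNorm_nnreal_pow_eq_lintegral (f := g) (μ := ν) (p := 2) (by norm_num)
  have e1 : eLpNorm g ((2 : ℝ≥0) : ℝ≥0∞) ν ^ ((2 : ℝ≥0) : ℝ) = (eLpNorm g 2 ν) ^ 2 := by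
    rw [← ENNReal.rpow_natCast]; norm_num
  rw [e1] at h
  rw [h]
  congr 1
  ext x
  rw [← ENNReal.rpow_natCast]
  norm_num

/-- continuity of translations in `L²` -/
theorem translate_L2 {f : V → ℂ} (hf : MemLp f 2 μ) {ε : ℝ} (hε : 0 < ε) :
    ∃ r > 0, ∀ t : V, ‖t‖ < r → ∫⁻ x, ‖f (x - t) - f x‖ₑ ^ 2 ∂μ ≤ ENNReal.ofReal ε := by
  let g : V → C(V, V) := fun t => ⟨fun x => x - t, by fun_prop⟩
  have hg : Continuous g := by
    let G : C(V × V, V) := ⟨fun q => q.2 - q.1, by fun_prop⟩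
    have : g = fun t => G.curry t := by
      ext t x; rfl
    rw [this]
    exact G.curry.continuous
  have hgm : ∀ t, MeasurePreserving (g t) μ μ := fun t => measurePreserving_sub_right μ t
  have hcont : Continuous fun t => Lp.compMeasurePreserving (g t) (hgm t) (hf.toLp f) :=
    Continuous.compMeasurePreservingLp (f := fun _ : V => hf.toLp f) continuous_const hg hgm
      (by norm_num)
  have h0 := (hcont.tendsto 0)
  rw [Metric.tendsto_nhds] at h0
  have h1 := h0 (Real.sqrt ε) (Real.sqrt_pos.2 hε)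
  rw [Metric.eventually_nhds_iff] at h1
  obtain ⟨r, hr, h⟩ := h1
  refine ⟨r, hr, fun t ht => ?_⟩
  have h2 := h (y := t) (by rwa [dist_zero_right])
  rw [dist_eq_norm, Lp.toLp_compMeasurePreserving, Lp.toLp_compMeasurePreserving,
    ← MemLp.toLp_sub, Lp.norm_toLp] at h2
  have h3 : ∫⁻ x, ‖f (x - t) - f x‖ₑ ^ 2 ∂μ =
      (eLpNorm ((f ∘ (g t)) - (f ∘ (g 0))) 2 μ) ^ 2 := by
    rw [sq_eLpNorm_two]
    congr 1
    ext x
    simp [g]
  rw [h3]
  have hfin : eLpNorm ((f ∘ (g t)) - (f ∘ (g 0))) 2 μ ≠ ∞ :=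
    ((hf.comp_measurePreserving (hgm t)).sub (hf.comp_measurePreserving (hgm 0))).2.ne
  have h4 : eLpNorm ((f ∘ (g t)) - (f ∘ (g 0))) 2 μ ≤ ENNReal.ofReal (Real.sqrt ε) := by
    rw [← ENNReal.ofReal_toReal hfin]
    exact ENNReal.ofReal_le_ofReal h2.le
  calc (eLpNorm ((f ∘ (g t)) - (f ∘ (g 0))) 2 μ) ^ 2 ≤ ENNReal.ofReal (Real.sqrt ε) ^ 2 :=
        pow_le_pow_left' h4 2
    _ = ENNReal.ofReal ε := by
        rw [← ENNReal.ofReal_pow (Real.sqrt_nonneg _), Real.sq_sqrt hε.le]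

/-- Cauchy–Schwarz for a probability density -/
theorem cs_density {α : Type} [MeasurableSpace α] {ν : Measure α} {w F : α → ℝ≥0∞}
    (hw : Measurable w) (hF : Measurable F) (h1 : ∫⁻ t, w t ∂ν = 1) :
    (∫⁻ t, w t * F t ∂ν) ^ 2 ≤ ∫⁻ t, w t * F t ^ 2 ∂ν := by
  have hpq : (2 : ℝ).HolderConjugate 2 := by
    rw [Real.holderConjugate_iff]; norm_num
  have h := ENNReal.lintegral_mul_le_Lp_mul_Lq ν hpq (f := fun t => w t ^ (1 / 2 : ℝ))
    (g := fun t => w t ^ (1 / 2 : ℝ) * F t) (hw.pow_const _).aemeasurable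
    ((hw.pow_const _).mul hF).aemeasurable
  have e1 : ∀ t, w t ^ (1 / 2 : ℝ) * (w t ^ (1 / 2 : ℝ) * F t) = w t * F t := by
    intro t
    rw [← mul_assoc, ← ENNReal.rpow_add_of_nonneg _ _ (by norm_num) (by norm_num)]
    norm_num
  have e2 : ∀ t, (w t ^ (1 / 2 : ℝ)) ^ (2 : ℝ) = w t := by
    intro t
    rw [← ENNReal.rpow_mul]; norm_num
  have e3 : ∀ t, (w t ^ (1 / 2 : ℝ) * F t) ^ (2 : ℝ) = w t * F t ^ 2 := by
    intro t
    rw [ENNReal.mul_rpow_of_nonneg _ _ (by norm_num), e2, ← ENNReal.rpow_natCast]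
    norm_num
  simp only [Pi.mul_apply, e1, e2, e3, h1, ENNReal.one_rpow, one_mul] at h
  calc (∫⁻ t, w t * F t ∂ν) ^ 2 ≤ ((∫⁻ t, w t * F t ^ 2 ∂ν) ^ (1 / 2 : ℝ)) ^ 2 :=
        pow_le_pow_left' h 2
    _ = ∫⁻ t, w t * F t ^ 2 ∂ν := by
        rw [← ENNReal.rpow_natCast, ← ENNReal.rpow_mul]; norm_num

theorem mollify_L2 {f : V → ℂ} (hfm : Measurable f) (hf : MemLp f 2 μ) {ε r : ℝ}
    (hr : ∀ t : V, ‖t‖ < r → ∫⁻ x, ‖f (x - t) - f x‖ₑ ^ 2 ∂μ ≤ ENNReal.ofReal ε)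
    (φ : ContDiffBump (0 : V)) (hφ : φ.rOut < r) :
    ∫⁻ x, ‖(φ.normed μ ⋆[ContinuousLinearMap.lsmul ℝ ℝ, μ] f) x - f x‖ₑ ^ 2 ∂μ ≤
      ENNReal.ofReal ε := by
  have hloc : LocallyIntegrable f μ := hf.locallyIntegrable (by norm_num)
  have hηc : Continuous (φ.normed μ) := φ.contDiff_normed (n := 0).continuous
  have hηs : HasCompactSupport (φ.normed μ) := φ.hasCompactSupport_normed
  have hη0 : ∀ t, 0 ≤ φ.normed μ t := fun t => φ.nonneg_normed t
  set w : V → ℝ≥0∞ := fun t => ENNReal.ofReal (φ.normed μ t) with hw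
  have hwm : Measurable w := hηc.measurable.ennreal_ofReal
  have hw1 : ∫⁻ t, w t ∂μ = 1 := by
    rw [hw, ← ofReal_integral_eq_lintegral_ofReal φ.integrable_normed
      (Eventually.of_forall hη0), φ.integral_normed, ENNReal.ofReal_one]
  have hpt : ∀ x, ‖(φ.normed μ ⋆[ContinuousLinearMap.lsmul ℝ ℝ, μ] f) x - f x‖ₑ ≤
      ∫⁻ t, w t * ‖f (x - t) - f x‖ₑ ∂μ := by
    intro x
    have hex : Integrable (fun t => φ.normed μ t • f (x - t)) μ :=
      (hηs.convolutionExists_left (ContinuousLinearMap.lsmul ℝ ℝ) hηc hloc x)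
    have hex2 : Integrable (fun t => φ.normed μ t • f x) μ := φ.integrable_normed.smul_const _
    have e1 : (φ.normed μ ⋆[ContinuousLinearMap.lsmul ℝ ℝ, μ] f) x - f x =
        ∫ t, φ.normed μ t • (f (x - t) - f x) ∂μ := by
      have e2 : ∫ t, φ.normed μ t • f x ∂μ = f x := by
        rw [integral_smul_const, φ.integral_normed, one_smul]
      rw [convolution_def]
      simp only [ContinuousLinearMap.lsmul_apply, smul_sub]
      rw [integral_sub hex hex2, e2]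
    rw [e1]
    refine (enorm_integral_le_lintegral_enorm _).trans (le_of_eq ?_)
    congr 1
    ext t
    rw [enorm_smul, hw]
    simp only
    rw [Real.enorm_of_nonneg (hη0 t)]
  have hm2 : Measurable fun q : V × V => ‖f (q.1 - q.2) - f q.1‖ₑ :=
    ((hfm.comp (measurable_fst.sub measurable_snd)).sub (hfm.comp measurable_fst)).enorm
  calc ∫⁻ x, ‖(φ.normed μ ⋆[ContinuousLinearMap.lsmul ℝ ℝ, μ] f) x - f x‖ₑ ^ 2 ∂μ
      ≤ ∫⁻ x, (∫⁻ t, w t * ‖f (x - t) - f x‖ₑ ∂μ) ^ 2 ∂μ :=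
        lintegral_mono fun x => pow_le_pow_left' (hpt x) 2
    _ ≤ ∫⁻ x, ∫⁻ t, w t * ‖f (x - t) - f x‖ₑ ^ 2 ∂μ ∂μ := by
        apply lintegral_mono
        intro x
        exact cs_density hwm (hm2.comp (measurable_const.prodMk measurable_id)) hw1
    _ = ∫⁻ t, ∫⁻ x, w t * ‖f (x - t) - f x‖ₑ ^ 2 ∂μ ∂μ := by
        rw [lintegral_lintegral_swap]
        exact ((hwm.comp measurable_snd).mul (hm2.pow_const 2)).aemeasurable
    _ = ∫⁻ t, w t * ∫⁻ x, ‖f (x - t) - f x‖ₑ ^ 2 ∂μ ∂μ := by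
        congr 1
        ext t
        rw [lintegral_const_mul]
        exact (hm2.comp (measurable_id.prodMk measurable_const)).pow_const 2
    _ ≤ ∫⁻ t, w t * ENNReal.ofReal ε ∂μ := by
        apply lintegral_mono
        intro t
        by_cases ht : ‖t‖ < r
        · exact mul_le_mul' le_rfl (hr t ht)
        · have : φ.normed μ t = 0 := by
            have h2 : t ∉ Function.support (φ.normed μ) := by
              rw [φ.support_normed_eq, mem_ball_zero_iff]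
              intro h3
              exact ht (h3.trans hφ)
            simpa using h2
          simp only [hw, this, ENNReal.ofReal_zero, zero_mul]
          exact le_rfl
    _ = ENNReal.ofReal ε := by
        rw [lintegral_mul_const _ hwm, hw1, one_mul]

end

end Pool.Agent.Lib_helper90c


end

section

/-!
# Weak derivatives and mollification
-/

set_option autoImplicit false

open MeasureTheory Set Metric Filter
open scoped ENNReal NNReal Topology Convolution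

namespace Pool.Agent.Lib_helper90c

/-- `g` is the weak derivative of `ψ` in the direction `v` -/
def WeakD {V : Type} [NormedAddCommGroup V] [NormedSpace ℝ V] [MeasureSpace V]
    (ψ g : V → ℂ) (v : V) : Prop :=
  ∀ φ : V → ℂ, ContDiff ℝ (⊤ : ℕ∞) φ → HasCompactSupport φ →
    ∫ x, ψ x * fderiv ℝ φ x v = -∫ x, g x * φ x

section
variable {V : Type} [NormedAddCommGroup V] [NormedSpace ℝ V] [FiniteDimensional ℝ V]
  [MeasureSpace V] [BorelSpace V] [(volume : Measure V).IsAddHaarMeasure]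

omit [FiniteDimensional ℝ V] [BorelSpace V] [(volume : Measure V).IsAddHaarMeasure] in
theorem weakD_congr {ψ ψ' g g' : V → ℂ} {v : V} (h : WeakD ψ g v)
    (h1 : ψ =ᵐ[volume] ψ') (h2 : g =ᵐ[volume] g') : WeakD ψ' g' v := by
  intro φ hφ hs
  have e1 : ∫ x, ψ' x * fderiv ℝ φ x v = ∫ x, ψ x * fderiv ℝ φ x v := by
    apply integral_congr_ae
    filter_upwards [h1] with x hx
    rw [hx]
  have e2 : ∫ x, g' x * φ x = ∫ x, g x * φ x := by
    apply integral_congr_ae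
    filter_upwards [h2] with x hx
    rw [hx]
  rw [e1, e2]
  exact h φ hφ hs

/-- classical derivatives of compactly supported smooth functions are weak derivatives -/
theorem weakD_classical {u : V → ℂ} (hu : ContDiff ℝ (⊤ : ℕ∞) u) (hs : HasCompactSupport u)
    (v : V) : WeakD u (fun x => fderiv ℝ u x v) v := by
  intro φ hφ hφs
  have hcu : Continuous fun x => fderiv ℝ u x v :=
    (hu.continuous_fderiv (by simp)).clm_apply continuous_const
  have hcφ : Continuous fun x => fderiv ℝ φ x v :=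
    (hφ.continuous_fderiv (by simp)).clm_apply continuous_const
  have hsu : HasCompactSupport fun x => fderiv ℝ u x v := by
    refine (hs.fderiv ℝ).mono fun x hx => ?_
    by_contra hn
    apply hx
    have : fderiv ℝ u x = 0 := by by_contra h; exact hn h
    simp [this]
  refine integral_mul_fderiv_eq_neg_fderiv_mul_of_integrable ?_ ?_ ?_
    (fun x _ => (hu.differentiable (by simp)) x) (fun x _ => (hφ.differentiable (by simp)) x)
  · exact (hcu.mul hφ.continuous).integrable_of_hasCompactSupport hsu.mul_right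
  · exact (hu.continuous.mul hcφ).integrable_of_hasCompactSupport hs.mul_right
  · exact (hu.continuous.mul hφ.continuous).integrable_of_hasCompactSupport hs.mul_right

theorem conv_fderiv {f : V → ℂ} {v : V} (hf : LocallyIntegrable f volume)
    {η : V → ℝ} (hηd : ContDiff ℝ (⊤ : ℕ∞) η) (hηs : HasCompactSupport η) (x : V) :
    fderiv ℝ (η ⋆[ContinuousLinearMap.lsmul ℝ ℝ, volume] f) x v =
      ∫ t, (fderiv ℝ η t v) • f (x - t) := by
  have hη1 : ContDiff ℝ 1 η := hηd.of_le (by exact_mod_cast le_top)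
  have h1 := (hηs.hasFDerivAt_convolution_left (ContinuousLinearMap.lsmul ℝ ℝ) hη1 hf x)
  rw [h1.fderiv, convolution_def]
  have hcη : Continuous (fderiv ℝ η) := hηd.continuous_fderiv (by simp)
  have hsη : HasCompactSupport (fderiv ℝ η) := hηs.fderiv ℝ
  have hint : Integrable (fun t => ((ContinuousLinearMap.lsmul ℝ ℝ (E := ℂ)).precompL V)
      (fderiv ℝ η t) (f (x - t))) volume :=
    hsη.convolutionExists_left _ hcη hf x
  rw [ContinuousLinearMap.integral_apply hint]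
  have e1 : ∀ t, ((ContinuousLinearMap.lsmul ℝ ℝ (E := ℂ)).precompL V) (fderiv ℝ η t) (f (x - t)) v =
      (fderiv ℝ η t v) • f (x - t) := fun t => rfl
  exact integral_congr_ae (Eventually.of_forall e1)

omit [FiniteDimensional ℝ V] [MeasureSpace V] [BorelSpace V]
  [(volume : Measure V).IsAddHaarMeasure] in
theorem fderiv_test {η : V → ℝ} (hηd : ContDiff ℝ (⊤ : ℕ∞) η) (x y v : V) :
    fderiv ℝ (fun y => ((η (x - y) : ℝ) : ℂ)) y v = -((fderiv ℝ η (x - y) v : ℝ) : ℂ) := by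
  have hd : HasFDerivAt η (fderiv ℝ η (x - y)) (x - y) :=
    ((hηd.differentiable (by simp)) (x - y)).hasFDerivAt
  have h4 : HasFDerivAt (fun y => x - y) (-(ContinuousLinearMap.id ℝ V)) y :=
    (hasFDerivAt_id (𝕜 := ℝ) y).const_sub x
  have h5 : HasFDerivAt (fun y => η (x - y))
      ((fderiv ℝ η (x - y)).comp (-(ContinuousLinearMap.id ℝ V))) y := hd.comp y h4
  have h6 : HasFDerivAt (fun y => ((η (x - y) : ℝ) : ℂ)) (Complex.ofRealCLM.comp
      ((fderiv ℝ η (x - y)).comp (-(ContinuousLinearMap.id ℝ V)))) y :=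
    Complex.ofRealCLM.hasFDerivAt.comp y h5
  rw [h6.fderiv]
  simp

/-- mollification turns weak derivatives into classical ones -/
theorem moll_fderiv {f g : V → ℂ} {v : V} (hf : LocallyIntegrable f volume)
    (hw : WeakD f g v) {η : V → ℝ} (hηd : ContDiff ℝ (⊤ : ℕ∞) η) (hηs : HasCompactSupport η)
    (x : V) :
    fderiv ℝ (η ⋆[ContinuousLinearMap.lsmul ℝ ℝ, volume] f) x v =
      (η ⋆[ContinuousLinearMap.lsmul ℝ ℝ, volume] g) x := by
  rw [conv_fderiv hf hηd hηs x]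
  have hφd : ContDiff ℝ (⊤ : ℕ∞) (fun y => ((η (x - y) : ℝ) : ℂ)) :=
    Complex.ofRealCLM.contDiff.comp (hηd.comp (contDiff_const.sub contDiff_id))
  have hφs : HasCompactSupport (fun y => ((η (x - y) : ℝ) : ℂ)) := by
    have h2 : HasCompactSupport fun y => η (x - y) :=
      hηs.comp_homeomorph (Homeomorph.subLeft x)
    refine h2.mono fun y hy => ?_
    by_contra hn
    apply hy
    have : η (x - y) = 0 := by by_contra h; exact hn h
    simp [this]
  have h3 := hw _ hφd hφs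
  have e3 : ∫ y, f y * fderiv ℝ (fun y => ((η (x - y) : ℝ) : ℂ)) y v =
      -∫ y, (fderiv ℝ η (x - y) v) • f y := by
    rw [← integral_neg]
    congr 1
    ext y
    rw [fderiv_test hηd, Complex.real_smul]
    ring
  rw [e3, neg_inj] at h3
  have e4 : ∫ t, (fderiv ℝ η t v) • f (x - t) = ∫ y, (fderiv ℝ η (x - y) v) • f y := by
    have h5 := integral_sub_left_eq_self (fun y => (fderiv ℝ η (x - y) v) • f y)
      (volume : Measure V) x
    simp only [sub_sub_cancel] at h5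
    exact h5
  have e5 : (η ⋆[ContinuousLinearMap.lsmul ℝ ℝ, volume] g) x =
      ∫ y, g y * ((η (x - y) : ℝ) : ℂ) := by
    have h5 := integral_sub_left_eq_self (fun y => g y * ((η (x - y) : ℝ) : ℂ))
      (volume : Measure V) x
    simp only [sub_sub_cancel] at h5
    rw [convolution_def, ← h5]
    congr 1
    ext t
    rw [ContinuousLinearMap.lsmul_apply, Complex.real_smul]
    ring
  rw [e4, h3, e5]

end

end Pool.Agent.Lib_helper90c


end

section

/-!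
# Density of smooth compactly supported functions in `H¹`
-/

set_option autoImplicit false
set_option linter.unusedSectionVars false

open MeasureTheory Set Metric Filter
open scoped ENNReal NNReal Topology Convolution

namespace Pool.Agent.Lib_helper90c

theorem enorm_add_sq_le (a b : ℂ) : ‖a + b‖ₑ ^ 2 ≤ 2 * ‖a‖ₑ ^ 2 + 2 * ‖b‖ₑ ^ 2 := by
  have h : ‖a + b‖ ^ 2 ≤ 2 * ‖a‖ ^ 2 + 2 * ‖b‖ ^ 2 := by
    have h1 := norm_add_le a b
    have h2 : ‖a + b‖ ^ 2 ≤ (‖a‖ + ‖b‖) ^ 2 := pow_le_pow_left₀ (norm_nonneg _) h1 2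
    nlinarith [sq_nonneg (‖a‖ - ‖b‖)]
  have e : ∀ c : ℂ, ‖c‖ₑ ^ 2 = ENNReal.ofReal (‖c‖ ^ 2) := by
    intro c
    rw [← ofReal_norm, ENNReal.ofReal_pow (norm_nonneg _)]
  have e2 : ∀ c : ℂ, 2 * ‖c‖ₑ ^ 2 = ENNReal.ofReal (2 * ‖c‖ ^ 2) := by
    intro c
    rw [e, ENNReal.ofReal_mul (by norm_num)]; norm_num
  rw [e, e2, e2, ← ENNReal.ofReal_add (by positivity) (by positivity)]
  exact ENNReal.ofReal_le_ofReal h

theorem n2_add_le {α : Type} [MeasurableSpace α] {ν : Measure α} {f g : α → ℂ}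
    (hf : AEStronglyMeasurable f ν) :
    ∫⁻ x, ‖f x + g x‖ₑ ^ 2 ∂ν ≤ 2 * (∫⁻ x, ‖f x‖ₑ ^ 2 ∂ν) + 2 * (∫⁻ x, ‖g x‖ₑ ^ 2 ∂ν) := by
  have hm : AEMeasurable (fun x => ‖f x‖ₑ ^ 2) ν := hf.enorm.pow_const 2
  calc ∫⁻ x, ‖f x + g x‖ₑ ^ 2 ∂ν ≤ ∫⁻ x, (2 * ‖f x‖ₑ ^ 2 + 2 * ‖g x‖ₑ ^ 2) ∂ν :=
        lintegral_mono fun x => enorm_add_sq_le _ _
    _ = _ := by
        rw [lintegral_add_left' (hm.const_mul 2), lintegral_const_mul' _ _ (by norm_num),
          lintegral_const_mul' _ _ (by norm_num)]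

theorem memLp_iff_n2 {α : Type} [MeasurableSpace α] {ν : Measure α} {f : α → ℂ}
    (hf : AEStronglyMeasurable f ν) : MemLp f 2 ν ↔ ∫⁻ x, ‖f x‖ₑ ^ 2 ∂ν ≠ ∞ := by
  rw [← sq_eLpNorm_two]
  constructor
  · intro h
    exact ENNReal.pow_ne_top h.2.ne
  · intro h
    refine ⟨hf, lt_top_iff_ne_top.2 fun hcon => h ?_⟩
    rw [hcon]; simp

section
variable {V : Type} [NormedAddCommGroup V] [NormedSpace ℝ V] [FiniteDimensional ℝ V]
  [MeasureSpace V] [BorelSpace V] [(volume : Measure V).IsAddHaarMeasure]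

/-- a fixed bump function -/
noncomputable def bump0 (V : Type) [NormedAddCommGroup V] : ContDiffBump (0 : V) :=
  ⟨1, 2, one_pos, one_lt_two⟩

/-- cutoff functions -/
noncomputable def cut [HasContDiffBump V] (n : ℕ) (x : V) : ℝ :=
  bump0 V (((n : ℝ) + 1)⁻¹ • x)

omit [FiniteDimensional ℝ V] [MeasureSpace V] [BorelSpace V]
  [(volume : Measure V).IsAddHaarMeasure] in
theorem cut_mem [HasContDiffBump V] (n : ℕ) (x : V) : 0 ≤ cut n x ∧ cut n x ≤ 1 :=
  ⟨(bump0 V).nonneg, (bump0 V).le_one⟩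

omit [FiniteDimensional ℝ V] [MeasureSpace V] [BorelSpace V]
  [(volume : Measure V).IsAddHaarMeasure] in
theorem cut_eventually [HasContDiffBump V] (x : V) : ∀ᶠ n : ℕ in atTop, cut n x = 1 := by
  have h : ∀ᶠ n : ℕ in atTop, ‖x‖ ≤ (n : ℝ) :=
    tendsto_natCast_atTop_atTop.eventually_ge_atTop ‖x‖
  filter_upwards [h] with n hn
  apply (bump0 V).one_of_mem_closedBall
  rw [mem_closedBall_zero_iff, norm_smul, norm_inv, Real.norm_eq_abs,
    abs_of_pos (by positivity : (0 : ℝ) < (n : ℝ) + 1), inv_mul_eq_div,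
    div_le_iff₀ (by positivity)]
  show ‖x‖ ≤ 1 * ((n : ℝ) + 1)
  linarith

theorem cut_contDiff (n : ℕ) : ContDiff ℝ (⊤ : ℕ∞) (cut (V := V) n) := by
  unfold cut
  exact (bump0 V).contDiff.comp (contDiff_const_smul _)

theorem cut_compact (n : ℕ) : HasCompactSupport (cut (V := V) n) := by
  unfold cut
  exact (bump0 V).hasCompactSupport.comp_homeomorph
    (Homeomorph.smulOfNeZero (((n : ℝ) + 1)⁻¹) (by positivity))

theorem cut_fderiv : ∃ C : ℝ, 0 ≤ C ∧ ∀ (n : ℕ) (x v : V),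
    |fderiv ℝ (cut (V := V) n) x v| ≤ C / (n + 1) * ‖v‖ := by
  have hd : ContDiff ℝ (⊤ : ℕ∞) (bump0 V) := (bump0 V).contDiff
  have hs : HasCompactSupport (bump0 V) := (bump0 V).hasCompactSupport
  have hc : Continuous (fderiv ℝ (bump0 V)) := hd.continuous_fderiv (by simp)
  obtain ⟨C, hC⟩ := hc.bounded_above_of_compact_support (hs.fderiv ℝ)
  have hC0 : 0 ≤ C := (norm_nonneg _).trans (hC 0)
  refine ⟨C, hC0, fun n x v => ?_⟩
  have hpos : (0 : ℝ) < (n : ℝ) + 1 := by positivity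
  have h1 : HasFDerivAt (fun x : V => ((n : ℝ) + 1)⁻¹ • x)
      (((n : ℝ) + 1)⁻¹ • ContinuousLinearMap.id ℝ V) x := (hasFDerivAt_id x).const_smul _
  have h2 : HasFDerivAt (cut (V := V) n) ((fderiv ℝ (bump0 V) (((n : ℝ) + 1)⁻¹ • x)).comp
      (((n : ℝ) + 1)⁻¹ • ContinuousLinearMap.id ℝ V)) x :=
    ((hd.differentiable (by simp)) _).hasFDerivAt.comp x h1
  rw [h2.fderiv]
  have h3 : ((fderiv ℝ (bump0 V) (((n : ℝ) + 1)⁻¹ • x)).comp
      (((n : ℝ) + 1)⁻¹ • ContinuousLinearMap.id ℝ V)) v =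
      ((n : ℝ) + 1)⁻¹ * fderiv ℝ (bump0 V) (((n : ℝ) + 1)⁻¹ • x) v := by
    simp
  rw [h3, abs_mul, abs_of_pos (inv_pos.2 hpos)]
  have h4 : |fderiv ℝ (bump0 V) (((n : ℝ) + 1)⁻¹ • x) v| ≤ C * ‖v‖ := by
    rw [← Real.norm_eq_abs]
    exact ((fderiv ℝ (bump0 V) _).le_opNorm v).trans (by gcongr; exact hC _)
  calc ((n : ℝ) + 1)⁻¹ * |fderiv ℝ (bump0 V) (((n : ℝ) + 1)⁻¹ • x) v|
      ≤ ((n : ℝ) + 1)⁻¹ * (C * ‖v‖) := by gcongr
    _ = C / (n + 1) * ‖v‖ := by ring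

theorem cut_tendsto {f : V → ℂ} (hf : MemLp f 2) :
    Tendsto (fun n : ℕ => ∫⁻ x, ‖((cut n x - 1 : ℝ) : ℂ) * f x‖ₑ ^ 2) atTop (𝓝 0) := by
  have hfin : ∫⁻ x, ‖f x‖ₑ ^ 2 ≠ ∞ := (memLp_iff_n2 hf.1).1 hf
  have h := tendsto_lintegral_of_dominated_convergence' (μ := (volume : Measure V))
    (F := fun (n : ℕ) x => ‖((cut n x - 1 : ℝ) : ℂ) * f x‖ₑ ^ 2) (f := fun _ => 0)
    (fun x => ‖f x‖ₑ ^ 2) ?_ ?_ hfin ?_
  · simpa using h
  · intro n
    have hc : Continuous fun x : V => ((cut n x - 1 : ℝ) : ℂ) :=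
      Complex.continuous_ofReal.comp ((cut_contDiff n).continuous.sub continuous_const)
    exact (hc.aestronglyMeasurable.mul hf.1).enorm.pow_const 2
  · intro n
    refine Eventually.of_forall fun x => ?_
    refine pow_le_pow_left' ?_ 2
    rw [enorm_mul]
    have h1 : ‖((cut n x - 1 : ℝ) : ℂ)‖ₑ ≤ 1 := by
      rw [← ofReal_norm, Complex.norm_real, Real.norm_eq_abs]
      have := cut_mem n x
      rw [ENNReal.ofReal_le_one, abs_le]
      constructor <;> linarith [this.1, this.2]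
    calc ‖((cut n x - 1 : ℝ) : ℂ)‖ₑ * ‖f x‖ₑ ≤ 1 * ‖f x‖ₑ := by gcongr
      _ = ‖f x‖ₑ := one_mul _
  · refine Eventually.of_forall fun x => ?_
    apply tendsto_const_nhds.congr'
    filter_upwards [cut_eventually x] with n hn
    rw [hn]
    simp

/-- Mollification: a smooth `H¹` approximation -/
theorem h1_smooth {ι : Type} [Fintype ι] {ψ : V → ℂ} {G : ι → V → ℂ} {v : ι → V}
    (hψm : Measurable ψ) (hψ : MemLp ψ 2) (hGm : ∀ i, Measurable (G i))
    (hG : ∀ i, MemLp (G i) 2) (hw : ∀ i, WeakD ψ (G i) (v i)) {ε : ℝ} (hε : 0 < ε) :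
    ∃ m : V → ℂ, ContDiff ℝ (⊤ : ℕ∞) m ∧ ∫⁻ x, ‖m x - ψ x‖ₑ ^ 2 ≤ ENNReal.ofReal ε ∧
      ∀ i, ∫⁻ x, ‖fderiv ℝ m x (v i) - G i x‖ₑ ^ 2 ≤ ENNReal.ofReal ε := by
  obtain ⟨r0, hr0, h0⟩ := translate_L2 hψ hε
  choose r hr h using fun i => translate_L2 (hG i) hε
  obtain ⟨s, hs, hs1, hs2⟩ : ∃ s > 0, s < r0 ∧ ∀ i, s < r i := by
    by_cases hι : Nonempty ι
    · obtain ⟨i0, hi0⟩ := Finite.exists_min r
      refine ⟨min r0 (r i0) / 2, by have := hr i0; positivity, ?_, fun i => ?_⟩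
      · have h1 : min r0 (r i0) ≤ r0 := min_le_left _ _
        linarith
      · have h1 : min r0 (r i0) ≤ r i := (min_le_right _ _).trans (hi0 i)
        have := hr i
        have h2 : 0 < min r0 (r i0) := lt_min hr0 (hr i0)
        linarith
    · exact ⟨r0 / 2, by positivity, by linarith, fun i => absurd ⟨i⟩ hι⟩
  let φ : ContDiffBump (0 : V) := ⟨s / 2, s, by positivity, by linarith⟩
  have hφr : φ.rOut = s := rfl
  have hηd : ContDiff ℝ (⊤ : ℕ∞) (φ.normed (volume : Measure V)) := φ.contDiff_normed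
  have hηs : HasCompactSupport (φ.normed (volume : Measure V)) := φ.hasCompactSupport_normed
  have hloc : LocallyIntegrable ψ volume := hψ.locallyIntegrable (by norm_num)
  refine ⟨φ.normed volume ⋆[ContinuousLinearMap.lsmul ℝ ℝ, volume] ψ, ?_, ?_, ?_⟩
  · exact hηs.contDiff_convolution_left (ContinuousLinearMap.lsmul ℝ ℝ) hηd hloc
  · exact mollify_L2 hψm hψ h0 φ (by rw [hφr]; exact hs1)
  · intro i
    have e : ∀ x, fderiv ℝ (φ.normed volume ⋆[ContinuousLinearMap.lsmul ℝ ℝ, volume] ψ) x (v i) =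
        (φ.normed volume ⋆[ContinuousLinearMap.lsmul ℝ ℝ, volume] G i) x := fun x =>
      moll_fderiv hloc (hw i) hηd hηs x
    simp only [e]
    exact mollify_L2 (hGm i) (hG i) (h i) φ (by rw [hφr]; exact hs2 i)

/-- smooth compactly supported functions are dense in `H¹` -/
theorem h1_approx {ι : Type} [Fintype ι] {ψ : V → ℂ} {G : ι → V → ℂ} {v : ι → V}
    (hψm : Measurable ψ) (hψ : MemLp ψ 2) (hGm : ∀ i, Measurable (G i))
    (hG : ∀ i, MemLp (G i) 2) (hw : ∀ i, WeakD ψ (G i) (v i)) {ε : ℝ} (hε : 0 < ε) :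
    ∃ u : V → ℂ, ContDiff ℝ (⊤ : ℕ∞) u ∧ HasCompactSupport u ∧
      ∫⁻ x, ‖u x - ψ x‖ₑ ^ 2 ≤ ENNReal.ofReal ε ∧
      ∀ i, ∫⁻ x, ‖fderiv ℝ u x (v i) - G i x‖ₑ ^ 2 ≤ ENNReal.ofReal ε := by
  obtain ⟨m, hm, hm1, hm2⟩ := h1_smooth hψm hψ hGm hG hw (ε := ε / 16) (by positivity)
  have hcm := hm.continuous
  have hcd : ∀ i, Continuous fun x => fderiv ℝ m x (v i) := fun i =>
    (hm.continuous_fderiv (by simp)).clm_apply continuous_const
  -- `m` and its derivatives are in `L²`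
  have hmL : MemLp m 2 := by
    rw [memLp_iff_n2 hcm.aestronglyMeasurable]
    have h1 := n2_add_le (f := fun x => m x - ψ x) (g := ψ) (ν := (volume : Measure V))
      (hcm.aestronglyMeasurable.sub hψ.1)
    simp only [sub_add_cancel] at h1
    refine ne_top_of_le_ne_top ?_ h1
    refine ENNReal.add_ne_top.2 ⟨ENNReal.mul_ne_top (by norm_num)
      (ne_top_of_le_ne_top ENNReal.ofReal_ne_top hm1), ENNReal.mul_ne_top (by norm_num)
      ((memLp_iff_n2 hψ.1).1 hψ)⟩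
  have hdL : ∀ i, MemLp (fun x => fderiv ℝ m x (v i)) 2 := by
    intro i
    rw [memLp_iff_n2 (hcd i).aestronglyMeasurable]
    have h1 := n2_add_le (f := fun x => fderiv ℝ m x (v i) - G i x) (g := G i)
      (ν := (volume : Measure V)) ((hcd i).aestronglyMeasurable.sub (hG i).1)
    simp only [sub_add_cancel] at h1
    refine ne_top_of_le_ne_top ?_ h1
    refine ENNReal.add_ne_top.2 ⟨ENNReal.mul_ne_top (by norm_num)
      (ne_top_of_le_ne_top ENNReal.ofReal_ne_top (hm2 i)), ENNReal.mul_ne_top (by norm_num)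
      ((memLp_iff_n2 (hG i).1).1 (hG i))⟩
  obtain ⟨C, hC0, hC⟩ := cut_fderiv (V := V)
  have hε16 : (0 : ℝ≥0∞) < ENNReal.ofReal (ε / 16) := ENNReal.ofReal_pos.2 (by positivity)
  -- choose `n`
  have ev1 : ∀ᶠ n : ℕ in atTop, ∫⁻ x, ‖((cut n x - 1 : ℝ) : ℂ) * m x‖ₑ ^ 2 ≤
      ENNReal.ofReal (ε / 16) :=
    ((tendsto_order.1 (cut_tendsto hmL)).2 _ hε16).mono fun n hn => hn.le
  have ev2 : ∀ᶠ n : ℕ in atTop, ∀ i,
      ∫⁻ x, ‖((cut n x - 1 : ℝ) : ℂ) * fderiv ℝ m x (v i)‖ₑ ^ 2 ≤ ENNReal.ofReal (ε / 16) :=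
    eventually_all.2 fun i =>
      ((tendsto_order.1 (cut_tendsto (hdL i))).2 _ hε16).mono fun n hn => hn.le
  have ev3 : ∀ᶠ n : ℕ in atTop, ∀ i,
      ∫⁻ x, ‖((fderiv ℝ (cut (V := V) n) x (v i) : ℝ) : ℂ) * m x‖ₑ ^ 2 ≤
        ENNReal.ofReal (ε / 16) := by
    refine eventually_all.2 fun i => ?_
    have hfin : ∫⁻ x, ‖m x‖ₑ ^ 2 ≠ ∞ := (memLp_iff_n2 hmL.1).1 hmL
    set A : ℝ := (∫⁻ x, ‖m x‖ₑ ^ 2).toReal with hA
    have hA0 : 0 ≤ A := ENNReal.toReal_nonneg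
    have hAe : ∫⁻ x, ‖m x‖ₑ ^ 2 = ENNReal.ofReal A := (ENNReal.ofReal_toReal hfin).symm
    have hlim : Tendsto (fun n : ℕ => (C / ((n : ℝ) + 1) * ‖v i‖) ^ 2 * A) atTop (𝓝 0) := by
      have h1 : Tendsto (fun n : ℕ => C / ((n : ℝ) + 1)) atTop (𝓝 0) :=
        tendsto_const_nhds.div_atTop (tendsto_natCast_atTop_atTop.atTop_add tendsto_const_nhds)
      have h2 := ((h1.mul_const ‖v i‖).pow 2).mul_const A
      simpa using h2
    have hev := (tendsto_order.1 hlim).2 (ε / 16) (by positivity)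
    filter_upwards [hev] with n hn
    calc ∫⁻ x, ‖((fderiv ℝ (cut (V := V) n) x (v i) : ℝ) : ℂ) * m x‖ₑ ^ 2
        ≤ ∫⁻ x, ENNReal.ofReal ((C / ((n : ℝ) + 1) * ‖v i‖) ^ 2) * ‖m x‖ₑ ^ 2 := by
          apply lintegral_mono
          intro x
          simp only
          rw [enorm_mul, mul_pow]
          refine mul_le_mul' ?_ le_rfl
          rw [← ofReal_norm, Complex.norm_real, Real.norm_eq_abs,
            ← ENNReal.ofReal_pow (abs_nonneg _)]
          apply ENNReal.ofReal_le_ofReal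
          exact pow_le_pow_left₀ (abs_nonneg _) (hC n x (v i)) 2
      _ = ENNReal.ofReal ((C / ((n : ℝ) + 1) * ‖v i‖) ^ 2 * A) := by
          rw [lintegral_const_mul' _ _ ENNReal.ofReal_ne_top, hAe,
            ← ENNReal.ofReal_mul (by positivity)]
      _ ≤ ENNReal.ofReal (ε / 16) := ENNReal.ofReal_le_ofReal hn.le
  obtain ⟨n, hn1, hn2, hn3⟩ := (ev1.and (ev2.and ev3)).exists
  have hcut := cut_contDiff (V := V) n
  have hcutc : Continuous fun x : V => ((cut n x : ℝ) : ℂ) :=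
    Complex.continuous_ofReal.comp hcut.continuous
  have hcut1 : Continuous fun x : V => ((cut n x - 1 : ℝ) : ℂ) :=
    Complex.continuous_ofReal.comp (hcut.continuous.sub continuous_const)
  have hcutC : ContDiff ℝ (⊤ : ℕ∞) fun x : V => ((cut n x : ℝ) : ℂ) :=
    Complex.ofRealCLM.contDiff.comp hcut
  refine ⟨fun x => ((cut n x : ℝ) : ℂ) * m x, hcutC.mul hm, ?_, ?_, ?_⟩
  · refine HasCompactSupport.mul_right ?_
    refine (cut_compact (V := V) n).mono fun x hx => ?_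
    by_contra hcon
    apply hx
    have : cut n x = 0 := by by_contra h; exact hcon h
    simp [this]
  · have e : ∀ x, ((cut n x : ℝ) : ℂ) * m x - ψ x =
        ((cut n x - 1 : ℝ) : ℂ) * m x + (m x - ψ x) := by
      intro x; push_cast; ring
    simp only [e]
    have h1 := n2_add_le (f := fun x => ((cut n x - 1 : ℝ) : ℂ) * m x)
      (g := fun x => m x - ψ x) (ν := (volume : Measure V))
      (hcut1.mul hcm).aestronglyMeasurable
    refine h1.trans ?_
    calc 2 * (∫⁻ x, ‖((cut n x - 1 : ℝ) : ℂ) * m x‖ₑ ^ 2) + 2 * (∫⁻ x, ‖m x - ψ x‖ₑ ^ 2)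
        ≤ 2 * ENNReal.ofReal (ε / 16) + 2 * ENNReal.ofReal (ε / 16) := by gcongr
      _ = ENNReal.ofReal (4 * (ε / 16)) := by
          rw [ENNReal.ofReal_mul (by norm_num)]
          rw [← add_mul]; norm_num
      _ ≤ ENNReal.ofReal ε := ENNReal.ofReal_le_ofReal (by linarith)
  · intro i
    have hd : ∀ x, fderiv ℝ (fun x => ((cut n x : ℝ) : ℂ) * m x) x (v i) =
        ((cut n x : ℝ) : ℂ) * fderiv ℝ m x (v i) +
          ((fderiv ℝ (cut (V := V) n) x (v i) : ℝ) : ℂ) * m x := by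
      intro x
      have h1 : HasFDerivAt (fun x => ((cut n x : ℝ) : ℂ))
          (Complex.ofRealCLM.comp (fderiv ℝ (cut (V := V) n) x)) x :=
        Complex.ofRealCLM.hasFDerivAt.comp x
          ((hcut.differentiable (by simp)) x).hasFDerivAt
      have h2 : HasFDerivAt (fun x => ((cut n x : ℝ) : ℂ) * m x)
          (((cut n x : ℝ) : ℂ) • fderiv ℝ m x +
            m x • (Complex.ofRealCLM.comp (fderiv ℝ (cut (V := V) n) x))) x :=
        h1.mul ((hm.differentiable (by simp)) x).hasFDerivAt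
      rw [h2.fderiv]
      simp only [add_apply, smul_apply,
        ContinuousLinearMap.comp_apply, Complex.ofRealCLM_apply, smul_eq_mul]
      ring
    have e : ∀ x, fderiv ℝ (fun x => ((cut n x : ℝ) : ℂ) * m x) x (v i) - G i x =
        ((cut n x - 1 : ℝ) : ℂ) * fderiv ℝ m x (v i) +
          (((fderiv ℝ (cut (V := V) n) x (v i) : ℝ) : ℂ) * m x +
          (fderiv ℝ m x (v i) - G i x)) := by
      intro x; rw [hd]; push_cast; ring
    simp only [e]
    have hcf : Continuous fun x : V => ((fderiv ℝ (cut (V := V) n) x (v i) : ℝ) : ℂ) :=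
      Complex.continuous_ofReal.comp ((hcut.continuous_fderiv (by simp)).clm_apply
        continuous_const)
    have h1 := n2_add_le (f := fun x => ((cut n x - 1 : ℝ) : ℂ) * fderiv ℝ m x (v i))
      (g := fun x => ((fderiv ℝ (cut (V := V) n) x (v i) : ℝ) : ℂ) * m x +
          (fderiv ℝ m x (v i) - G i x)) (ν := (volume : Measure V))
      (hcut1.mul (hcd i)).aestronglyMeasurable
    have h2 := n2_add_le (f := fun x => ((fderiv ℝ (cut (V := V) n) x (v i) : ℝ) : ℂ) * m x)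
      (g := fun x => fderiv ℝ m x (v i) - G i x) (ν := (volume : Measure V))
      (hcf.mul hcm).aestronglyMeasurable
    refine h1.trans ?_
    calc 2 * (∫⁻ x, ‖((cut n x - 1 : ℝ) : ℂ) * fderiv ℝ m x (v i)‖ₑ ^ 2) +
          2 * (∫⁻ x, ‖((fderiv ℝ (cut (V := V) n) x (v i) : ℝ) : ℂ) * m x +
          (fderiv ℝ m x (v i) - G i x)‖ₑ ^ 2)
        ≤ 2 * ENNReal.ofReal (ε / 16) +
          2 * (2 * ENNReal.ofReal (ε / 16) + 2 * ENNReal.ofReal (ε / 16)) := by
          refine add_le_add (mul_le_mul' le_rfl (hn2 i)) (mul_le_mul' le_rfl (h2.trans ?_))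
          exact add_le_add (mul_le_mul' le_rfl (hn3 i)) (mul_le_mul' le_rfl (hm2 i))
      _ = ENNReal.ofReal (10 * (ε / 16)) := by
          rw [ENNReal.ofReal_mul (by norm_num)]
          have : ENNReal.ofReal 10 = 10 := by norm_num
          rw [this]
          ring
      _ ≤ ENNReal.ofReal ε := ENNReal.ofReal_le_ofReal (by linarith)

end

end Pool.Agent.Lib_helper90c


end

section

/-!
# Coulomb energies of `H¹` functions
-/

set_option autoImplicit false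
set_option linter.unusedSectionVars false

open MeasureTheory Set Metric Filter
open scoped ENNReal NNReal Topology

namespace Pool.Agent.Lib_helper90c

theorem enorm_sq_eq (c : ℂ) : ‖c‖ₑ ^ 2 = ENNReal.ofReal (‖c‖ ^ 2) := by
  rw [← ofReal_norm, ENNReal.ofReal_pow (norm_nonneg _)]

/-- Coulomb uncertainty inequality, one particle -/
theorem coul_one {S : ℝ} (hsob : ∀ u : E3 → ℂ, ContDiff ℝ 1 u → HasCompactSupport u →
    (∫⁻ y, ENNReal.ofReal (‖u y‖ ^ 2) ^ 3) ^ (1 / 3 : ℝ) ≤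
      ENNReal.ofReal S * ∫⁻ y, ENNReal.ofReal (grad1 u y)) {f : E3 → ℂ} (hf : ContDiff ℝ 1 f)
    (hs : HasCompactSupport f) (c : E3) :
    ∫⁻ y, ENNReal.ofReal ‖y - c‖⁻¹ * ENNReal.ofReal (‖f y‖ ^ 2) ≤
      ENNReal.ofReal (c1 * S) * (∫⁻ y, ENNReal.ofReal (grad1 f y)) +
        ∫⁻ y, ENNReal.ofReal (‖f y‖ ^ 2) := by
  have hwm : Measurable fun y => ENNReal.ofReal (‖f y‖ ^ 2) := by
    have := hf.continuous; fun_prop
  have hkm : Measurable fun y : E3 => ENNReal.ofReal ‖y - c‖⁻¹ := by fun_prop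
  have hB : MeasurableSet (ball c 1) := measurableSet_ball
  rw [← lintegral_add_compl _ hB]
  refine add_le_add ?_ ?_
  · refine (holder3 hkm hwm).trans ?_
    have h1 := lintegral_inv_ball one_pos c (mem_ball_self one_pos)
    rw [Real.one_rpow, ENNReal.ofReal_one, one_mul] at h1
    have h2 : (∫⁻ x in ball c 1, ENNReal.ofReal (‖f x‖ ^ 2) ^ 3) ^ (1 / 3 : ℝ) ≤
        ENNReal.ofReal S * ∫⁻ y, ENNReal.ofReal (grad1 f y) :=
      (ENNReal.rpow_le_rpow (setLIntegral_le_lintegral _ _) (by norm_num)).trans (hsob f hf hs)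
    calc (∫⁻ x in ball c 1, ENNReal.ofReal ‖x - c‖⁻¹ ^ (3 / 2 : ℝ)) ^ (2 / 3 : ℝ) *
          (∫⁻ x in ball c 1, ENNReal.ofReal (‖f x‖ ^ 2) ^ 3) ^ (1 / 3 : ℝ)
        ≤ cH ^ (2 / 3 : ℝ) * (ENNReal.ofReal S * ∫⁻ y, ENNReal.ofReal (grad1 f y)) :=
          mul_le_mul' (ENNReal.rpow_le_rpow h1 (by norm_num)) h2
      _ = _ := by
          rw [← ofReal_c1, ← mul_assoc, ← ENNReal.ofReal_mul c1_nonneg]
  · calc ∫⁻ y in (ball c 1)ᶜ, ENNReal.ofReal ‖y - c‖⁻¹ * ENNReal.ofReal (‖f y‖ ^ 2)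
        ≤ ∫⁻ y in (ball c 1)ᶜ, ENNReal.ofReal (‖f y‖ ^ 2) := by
          apply setLIntegral_mono' hB.compl
          intro y hy
          have h1 : ENNReal.ofReal ‖y - c‖⁻¹ ≤ 1 := by
            rw [ENNReal.ofReal_le_one]
            apply inv_le_one_of_one_le₀
            rw [mem_compl_iff, mem_ball_iff_norm, not_lt] at hy
            exact hy
          calc _ ≤ 1 * ENNReal.ofReal (‖f y‖ ^ 2) := by gcongr
            _ = _ := one_mul _
      _ ≤ _ := setLIntegral_le_lintegral _ _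

section
variable {N : ℕ}

/-- Coulomb uncertainty inequality, many particles -/
theorem coul_many {S : ℝ} (hsob : ∀ u : E3 → ℂ, ContDiff ℝ 1 u → HasCompactSupport u →
    (∫⁻ y, ENNReal.ofReal (‖u y‖ ^ 2) ^ 3) ^ (1 / 3 : ℝ) ≤
      ENNReal.ofReal S * ∫⁻ y, ENNReal.ofReal (grad1 u y)) {u : Conf N → ℂ}
    (hu : ContDiff ℝ (⊤ : ℕ∞) u) (hs : HasCompactSupport u) (i : Fin N) {Y : Conf N → E3}
    (hYm : Measurable Y) (hY : ∀ x y, Y (Function.update x i y) = Y x) :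
    ∫⁻ x, ENNReal.ofReal ‖x i - Y x‖⁻¹ * dens u x ≤
      ENNReal.ofReal (c1 * S) * (∫⁻ x, kd u i x) + ∫⁻ x, dens u x := by
  have hd := measurable_dens hu.continuous
  have hk := measurable_kd hu i
  have hm1 : Measurable fun x : Conf N => ENNReal.ofReal ‖x i - Y x‖⁻¹ :=
    ((measurable_pi_apply i).sub hYm).norm.inv.ennreal_ofReal
  rw [← lintegral_const_mul _ hk, ← lintegral_add_left (hk.const_mul _)]
  refine lintegral_update_le i (hm1.mul hd) ((hk.const_mul _).add hd) fun x => ?_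
  have hdx : ∀ y, dens u (Function.update x i y) = ENNReal.ofReal (‖slice u x i y‖ ^ 2) :=
    fun y => rfl
  have hkx : ∀ y, kd u i (Function.update x i y) = ENNReal.ofReal (grad1 (slice u x i) y) :=
    fun y => by rw [grad1_slice (hu.differentiable (by simp))]; rfl
  simp only [hdx, hkx, Function.update_self, hY]
  have hc := contDiff_one hu x i
  have hcc := hc.continuous
  have hg : Continuous (grad1 (slice u x i)) := continuous_grad1 (contDiff_slice hu x i)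
  have hgm : Measurable fun y => ENNReal.ofReal (grad1 (slice u x i) y) :=
    hg.measurable.ennreal_ofReal
  rw [lintegral_add_left (hgm.const_mul _), lintegral_const_mul _ hgm]
  exact coul_one hsob hc (hasCompactSupport_slice hs x i) (Y x)

/-- general formula for the Coulomb energy -/
theorem integral_coul' {ψ : Conf N → ℂ} {k : Conf N → ℝ} (hk : Measurable k) (hk0 : ∀ x, 0 ≤ k x)
    (hm : Measurable ψ) (hfin : ∫⁻ x, ENNReal.ofReal (k x) * dens ψ x < ∞) :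
    Integrable (fun x => k x * ‖ψ x‖ ^ 2) ∧
      ∫ x, k x * ‖ψ x‖ ^ 2 = (∫⁻ x, ENNReal.ofReal (k x) * dens ψ x).toReal := by
  have e : ∀ x, ENNReal.ofReal (k x * ‖ψ x‖ ^ 2) = ENNReal.ofReal (k x) * dens ψ x := by
    intro x; unfold dens; rw [ENNReal.ofReal_mul (hk0 x)]
  have hm : Measurable fun x => k x * ‖ψ x‖ ^ 2 := hk.mul (hm.norm.pow_const 2)
  have h1 : ∫⁻ x, ENNReal.ofReal (k x * ‖ψ x‖ ^ 2) < ∞ := by simp only [e]; exact hfin
  constructor
  · refine ⟨hm.aestronglyMeasurable, ?_⟩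
    rw [hasFiniteIntegral_iff_ofReal (Eventually.of_forall fun x =>
      mul_nonneg (hk0 x) (sq_nonneg _))]
    exact h1
  · rw [integral_eq_lintegral_of_nonneg_ae (Eventually.of_forall fun x =>
      mul_nonneg (hk0 x) (sq_nonneg _)) hm.aestronglyMeasurable]
    simp only [e]

theorem coulomb_eq (z : ℝ) {K : ℕ} (R : Fin K → E3) {ψ : Conf N → ℂ} (hm : Measurable ψ)
    (hf1 : ∀ i j : Fin N, ∫⁻ x, ENNReal.ofReal ‖x i - x j‖⁻¹ * dens ψ x < ∞)
    (hf2 : ∀ (i : Fin N) (k : Fin K), ∫⁻ x, ENNReal.ofReal ‖x i - R k‖⁻¹ * dens ψ x < ∞)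
    (hn : Integrable fun x : Conf N => ‖ψ x‖ ^ 2) :
    Integrable (fun x => coulomb z R x * ‖ψ x‖ ^ 2) ∧ ∫ x, coulomb z R x * ‖ψ x‖ ^ 2 =
      (Pee ψ).toReal - z * (Aen R ψ).toReal + z ^ 2 * rep R * ∫ x, ‖ψ x‖ ^ 2 := by
  have hm2 : ∀ i j : Fin N, Measurable fun x : Conf N => ‖x i - x j‖⁻¹ := by
    intro i j
    exact ((measurable_pi_apply i).sub (measurable_pi_apply j)).norm.inv
  have hm1 : ∀ (i : Fin N) (y : E3), Measurable fun x : Conf N => ‖x i - y‖⁻¹ := by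
    intro i y
    exact ((measurable_pi_apply i).sub measurable_const).norm.inv
  have hee : ∀ i j : Fin N, _ := fun i j =>
    integral_coul' (hm2 i j) (fun x => by positivity) hm (hf1 i j)
  have hen : ∀ (i : Fin N) (k : Fin K), _ := fun i k =>
    integral_coul' (hm1 i (R k)) (fun x => by positivity) hm (hf2 i k)
  have hcoul : ∀ x : Conf N, coulomb z R x * ‖ψ x‖ ^ 2 =
      (1 / 2) * (∑ i, ∑ j, ‖x i - x j‖⁻¹ * ‖ψ x‖ ^ 2) -
        z * (∑ i, ∑ k, ‖x i - R k‖⁻¹ * ‖ψ x‖ ^ 2) + z ^ 2 * rep R * ‖ψ x‖ ^ 2 := by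
    intro x
    unfold coulomb
    rw [rep_eq_Ioi, rep_eq_Ioi]
    unfold rep
    simp only [← Finset.sum_mul]
    ring
  simp only [hcoul]
  have i1 : Integrable fun x : Conf N => (1 / 2) * (∑ i, ∑ j, ‖x i - x j‖⁻¹ * ‖ψ x‖ ^ 2) :=
    (integrable_finsetSum _ fun i _ => integrable_finsetSum _ fun j _ => (hee i j).1).const_mul _
  have i2 : Integrable fun x : Conf N => z * (∑ i, ∑ k, ‖x i - R k‖⁻¹ * ‖ψ x‖ ^ 2) :=
    (integrable_finsetSum _ fun i _ => integrable_finsetSum _ fun j _ => (hen i j).1).const_mul _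
  have i3 : Integrable fun x : Conf N => z ^ 2 * rep R * ‖ψ x‖ ^ 2 := hn.const_mul _
  have i12 : Integrable fun x : Conf N => (1 / 2) * (∑ i, ∑ j, ‖x i - x j‖⁻¹ * ‖ψ x‖ ^ 2) -
      z * (∑ i, ∑ k, ‖x i - R k‖⁻¹ * ‖ψ x‖ ^ 2) := i1.sub i2
  refine ⟨i12.add i3, ?_⟩
  rw [integral_add i12 i3, integral_sub i1 i2, integral_const_mul, integral_const_mul,
    integral_const_mul,
    integral_finsetSum _ fun i _ => integrable_finsetSum _ fun j _ => (hee i j).1,
    integral_finsetSum _ fun i _ => integrable_finsetSum _ fun j _ => (hen i j).1]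
  have e1 : ∑ i, ∫ x : Conf N, ∑ j, ‖x i - x j‖⁻¹ * ‖ψ x‖ ^ 2 =
      ∑ i, ∑ j, (∫⁻ x : Conf N, ENNReal.ofReal ‖x i - x j‖⁻¹ * dens ψ x).toReal := by
    refine Finset.sum_congr rfl fun i _ => ?_
    rw [integral_finsetSum _ fun j _ => (hee i j).1]
    exact Finset.sum_congr rfl fun j _ => (hee i j).2
  have e2 : ∑ i, ∫ x : Conf N, ∑ k, ‖x i - R k‖⁻¹ * ‖ψ x‖ ^ 2 =
      ∑ i, ∑ k, (∫⁻ x : Conf N, ENNReal.ofReal ‖x i - R k‖⁻¹ * dens ψ x).toReal := by
    refine Finset.sum_congr rfl fun i _ => ?_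
    rw [integral_finsetSum _ fun j _ => (hen i j).1]
    exact Finset.sum_congr rfl fun j _ => (hen i j).2
  have e3 : (Pee ψ).toReal = (1 / 2) *
      ∑ i, ∑ j, (∫⁻ x : Conf N, ENNReal.ofReal ‖x i - x j‖⁻¹ * dens ψ x).toReal := by
    unfold Pee
    rw [ENNReal.toReal_mul, ENNReal.toReal_inv]
    congr 1
    · norm_num
    · rw [ENNReal.toReal_sum fun i _ => (ENNReal.sum_lt_top.2 fun j _ => hf1 i j).ne]
      refine Finset.sum_congr rfl fun i _ => ?_
      rw [ENNReal.toReal_sum fun j _ => (hf1 i j).ne]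
  have e4 : (Aen R ψ).toReal =
      ∑ i, ∑ k, (∫⁻ x : Conf N, ENNReal.ofReal ‖x i - R k‖⁻¹ * dens ψ x).toReal := by
    unfold Aen
    rw [ENNReal.toReal_sum fun i _ => (ENNReal.sum_lt_top.2 fun j _ => hf2 i j).ne]
    refine Finset.sum_congr rfl fun i _ => ?_
    rw [ENNReal.toReal_sum fun j _ => (hf2 i j).ne]
  rw [e1, e2, e3, e4]

/-- scaling of the energies -/
theorem dens_smul (c : ℝ) (u : Conf N → ℂ) (x : Conf N) :
    dens (fun x => (c : ℂ) * u x) x = ENNReal.ofReal (c ^ 2) * dens u x := by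
  unfold dens
  rw [norm_mul, mul_pow, Complex.norm_real, Real.norm_eq_abs, sq_abs,
    ENNReal.ofReal_mul (sq_nonneg _)]

theorem kd_smul (c : ℝ) {u : Conf N → ℂ} (hu : Differentiable ℝ u) (i : Fin N) (x : Conf N) :
    kd (fun x => (c : ℂ) * u x) i x = ENNReal.ofReal (c ^ 2) * kd u i x := by
  unfold kd gradSq
  rw [← ENNReal.ofReal_mul (sq_nonneg _), Finset.mul_sum]
  congr 1
  refine Finset.sum_congr rfl fun a _ => ?_
  have h2 : HasFDerivAt (fun x => (c : ℂ) * u x) ((c : ℂ) • fderiv ℝ u x) x :=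
    (hu x).hasFDerivAt.const_mul _
  rw [h2.fderiv]
  show ‖(c : ℂ) • (fderiv ℝ u x) (Pi.single i (EuclideanSpace.single a (1 : ℝ)))‖ ^ 2 = _
  rw [norm_smul, mul_pow, Complex.norm_real, Real.norm_eq_abs, sq_abs]

theorem Pee_smul (c : ℝ) {u : Conf N → ℂ} (hu : Continuous u) :
    Pee (fun x => (c : ℂ) * u x) = ENNReal.ofReal (c ^ 2) * Pee u := by
  have hd := measurable_dens hu
  unfold Pee
  simp only [dens_smul]
  have e : ∀ i j : Fin N, ∫⁻ x : Conf N, ENNReal.ofReal ‖x i - x j‖⁻¹ *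
      (ENNReal.ofReal (c ^ 2) * dens u x) =
      ENNReal.ofReal (c ^ 2) * ∫⁻ x : Conf N, ENNReal.ofReal ‖x i - x j‖⁻¹ * dens u x := by
    intro i j
    have hm : Measurable fun x : Conf N => ENNReal.ofReal ‖x i - x j‖⁻¹ * dens u x :=
      (measurable_inv_pi i j).ennreal_ofReal.mul hd
    rw [← lintegral_const_mul _ hm]
    congr 1; ext x; ring
  simp only [e, ← Finset.mul_sum]
  ring

theorem Aen_smul (c : ℝ) {K : ℕ} (R : Fin K → E3) {u : Conf N → ℂ} (hu : Continuous u) :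
    Aen R (fun x => (c : ℂ) * u x) = ENNReal.ofReal (c ^ 2) * Aen R u := by
  have hd := measurable_dens hu
  unfold Aen
  simp only [dens_smul]
  have e : ∀ (i : Fin N) (k : Fin K), ∫⁻ x : Conf N, ENNReal.ofReal ‖x i - R k‖⁻¹ *
      (ENNReal.ofReal (c ^ 2) * dens u x) =
      ENNReal.ofReal (c ^ 2) * ∫⁻ x : Conf N, ENNReal.ofReal ‖x i - R k‖⁻¹ * dens u x := by
    intro i k
    have hm : Measurable fun x : Conf N => ENNReal.ofReal ‖x i - R k‖⁻¹ * dens u x :=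
      (measurable_inv_pt i (R k)).ennreal_ofReal.mul hd
    rw [← lintegral_const_mul _ hm]
    congr 1; ext x; ring
  simp only [e, ← Finset.mul_sum]

/-- The variational inequality for unnormalised functions. -/
theorem energy_ge_gen {z g : ℝ} {K : ℕ} (R : Fin K → E3)
    (hg : ∀ ψ : Conf N → ℂ, Trial ψ → g ≤ energy z R ψ) {u : Conf N → ℂ}
    (hu : ContDiff ℝ (⊤ : ℕ∞) u) (hs : HasCompactSupport u) :
    g * (∫⁻ x, dens u x).toReal ≤ (kin u).toReal + (Pee u).toReal - z * (Aen R u).toReal +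
      z ^ 2 * rep R * (∫⁻ x, dens u x).toReal := by
  have hint : Integrable fun x : Conf N => ‖u x‖ ^ 2 :=
    (hu.continuous.norm.pow 2).integrable_of_hasCompactSupport (by
      refine hs.mono fun x hx => ?_
      by_contra hn
      apply hx
      have : u x = 0 := by by_contra h; exact hn h
      simp [this])
  have hse : ∫⁻ x, dens u x = ENNReal.ofReal (∫ x, ‖u x‖ ^ 2) := by
    rw [ofReal_integral_eq_lintegral_ofReal hint (Eventually.of_forall fun x => sq_nonneg _)]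
    rfl
  set s : ℝ := ∫ x, ‖u x‖ ^ 2 with hsd
  have hs0 : 0 ≤ s := integral_nonneg fun x => sq_nonneg _
  rw [hse, ENNReal.toReal_ofReal hs0]
  rcases hs0.eq_or_lt with h0 | h0
  · have hu0 : u = 0 := by
      have h1 := (integral_eq_zero_iff_of_nonneg (fun x => sq_nonneg (‖u x‖)) hint).1 h0.symm
      have h2 := (hu.continuous.norm.pow 2).ae_eq_iff_eq (volume : Measure (Conf N))
        (g := fun _ => (0 : ℝ)) continuous_const
      have h3 := h2.1 h1
      ext x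
      have h4 := congrFun h3 x
      simpa using h4
    have hdens : ∀ x, dens u x = 0 := by
      intro x; unfold dens; rw [hu0]; simp
    have hA : Aen R u = 0 := by unfold Aen; simp [hdens]
    rw [← h0, hA]
    simp only [mul_zero, ENNReal.toReal_zero, sub_zero, add_zero]
    positivity
  · set c : ℝ := (Real.sqrt s)⁻¹ with hc
    have hsq : 0 < Real.sqrt s := Real.sqrt_pos.2 h0
    have hc2 : c ^ 2 = s⁻¹ := by rw [hc, inv_pow, Real.sq_sqrt h0.le]
    have hv : Trial (fun x => (c : ℂ) * u x) := by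
      refine ⟨contDiff_const.mul hu, hs.mul_left, ?_⟩
      have e : ∀ x, ‖(c : ℂ) * u x‖ ^ 2 = s⁻¹ * ‖u x‖ ^ 2 := by
        intro x
        rw [norm_mul, mul_pow, Complex.norm_real, Real.norm_eq_abs, sq_abs, hc2]
      simp only [e]
      rw [integral_const_mul, ← hsd, inv_mul_cancel₀ h0.ne']
    have h1 := hg _ hv
    rw [energy_eq z R hv] at h1
    have hk : kinetic (fun x => (c : ℂ) * u x) = s⁻¹ * (kin u).toReal := by
      have h2 : (kin (fun x => (c : ℂ) * u x)).toReal = kinetic (fun x => (c : ℂ) * u x) := by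
        rw [kin_eq_ofReal hv, ENNReal.toReal_ofReal (kinetic_nonneg _)]
      rw [← h2]
      unfold kin
      simp only [kd_smul c (hu.differentiable (by simp))]
      have e : ∀ i : Fin N, ∫⁻ x, ENNReal.ofReal (c ^ 2) * kd u i x =
          ENNReal.ofReal (c ^ 2) * ∫⁻ x, kd u i x := fun i =>
        lintegral_const_mul _ (measurable_kd hu i)
      simp only [e, ← Finset.mul_sum]
      rw [ENNReal.toReal_mul, ENNReal.toReal_ofReal (sq_nonneg _), hc2]
    rw [hk, Pee_smul c hu.continuous, Aen_smul c R hu.continuous, ENNReal.toReal_mul,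
      ENNReal.toReal_mul, ENNReal.toReal_ofReal (sq_nonneg _), hc2] at h1
    have h3 := mul_le_mul_of_nonneg_right h1 h0.le
    have e : (s⁻¹ * (kin u).toReal + s⁻¹ * (Pee u).toReal - z * (s⁻¹ * (Aen R u).toReal) +
        z ^ 2 * rep R) * s = (kin u).toReal + (Pee u).toReal - z * (Aen R u).toReal +
        z ^ 2 * rep R * s := by field_simp
    rw [e] at h3
    exact h3

end

end Pool.Agent.Lib_helper90c


end

section

/-!
# The energy of `H¹` functions is bounded below by the infimum over smooth functions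
-/

set_option autoImplicit false
set_option linter.unusedSectionVars false

open MeasureTheory Set Metric Filter
open scoped ENNReal NNReal Topology

namespace Pool.Agent.Lib_helper90c

theorem n2_tendsto {α : Type} [MeasurableSpace α] {ν : Measure α} {f : α → ℂ} {F : ℕ → α → ℂ}
    (hF : ∀ n, AEStronglyMeasurable (F n) ν) (hf : AEStronglyMeasurable f ν)
    (hfin : ∫⁻ x, ‖f x‖ₑ ^ 2 ∂ν ≠ ∞)
    (h : Tendsto (fun n => ∫⁻ x, ‖F n x - f x‖ₑ ^ 2 ∂ν) atTop (𝓝 0)) :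
    Tendsto (fun n => ∫⁻ x, ‖F n x‖ₑ ^ 2 ∂ν) atTop (𝓝 (∫⁻ x, ‖f x‖ₑ ^ 2 ∂ν)) := by
  have hfL : MemLp f 2 ν := (memLp_iff_n2 hf).2 hfin
  have e : ∀ g : α → ℂ, ∫⁻ x, ‖g x‖ₑ ^ 2 ∂ν = (eLpNorm g 2 ν) ^ 2 := fun g =>
    (sq_eLpNorm_two g).symm
  have hd : Tendsto (fun n => eLpNorm (F n - f) 2 ν) atTop (𝓝 0) := by
    have h1 : ∀ n, eLpNorm (F n - f) 2 ν = (∫⁻ x, ‖F n x - f x‖ₑ ^ 2 ∂ν) ^ (1 / 2 : ℝ) := by
      intro n
      have : ∫⁻ x, ‖F n x - f x‖ₑ ^ 2 ∂ν = (eLpNorm (F n - f) 2 ν) ^ 2 := e (F n - f)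
      rw [this, ← ENNReal.rpow_natCast, ← ENNReal.rpow_mul]
      norm_num
    simp only [h1]
    have h2 := (ENNReal.continuous_rpow_const (y := (1 / 2 : ℝ))).tendsto (0 : ℝ≥0∞)
    rw [ENNReal.zero_rpow_of_pos (by norm_num)] at h2
    exact h2.comp h
  simp only [e]
  refine (ENNReal.continuous_pow 2).tendsto _ |>.comp ?_
  have hup : ∀ n, eLpNorm (F n) 2 ν ≤ eLpNorm f 2 ν + eLpNorm (F n - f) 2 ν := by
    intro n
    have := eLpNorm_add_le hf ((hF n).sub hf) (p := 2) (by norm_num)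
    simpa using this
  have hlo : ∀ n, eLpNorm f 2 ν - eLpNorm (F n - f) 2 ν ≤ eLpNorm (F n) 2 ν := by
    intro n
    rw [tsub_le_iff_right]
    have := eLpNorm_add_le (hF n) (hf.sub (hF n)) (p := 2) (by norm_num)
    rw [eLpNorm_sub_comm] at this
    simpa using this
  have t1 : Tendsto (fun n => eLpNorm f 2 ν + eLpNorm (F n - f) 2 ν) atTop
      (𝓝 (eLpNorm f 2 ν)) := by
    simpa using hd.const_add (eLpNorm f 2 ν)
  have t2 : Tendsto (fun n => eLpNorm f 2 ν - eLpNorm (F n - f) 2 ν) atTop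
      (𝓝 (eLpNorm f 2 ν)) := by
    have := ENNReal.Tendsto.sub (tendsto_const_nhds (x := eLpNorm f 2 ν)) hd (Or.inl hfL.2.ne)
    simpa using this
  exact tendsto_of_tendsto_of_tendsto_of_le_of_le t2 t1 hlo hup

/-- weighted version -/
theorem n2_tendsto_weight {α : Type} [MeasurableSpace α] {ν : Measure α} {k : α → ℝ≥0∞}
    (hk : Measurable k) {f : α → ℂ} {F : ℕ → α → ℂ}
    (hF : ∀ n, Measurable (F n)) (hf : Measurable f)
    (hfin : ∫⁻ x, k x * ‖f x‖ₑ ^ 2 ∂ν ≠ ∞)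
    (h : Tendsto (fun n => ∫⁻ x, k x * ‖F n x - f x‖ₑ ^ 2 ∂ν) atTop (𝓝 0)) :
    Tendsto (fun n => ∫⁻ x, k x * ‖F n x‖ₑ ^ 2 ∂ν) atTop (𝓝 (∫⁻ x, k x * ‖f x‖ₑ ^ 2 ∂ν)) := by
  have e : ∀ g : α → ℂ, Measurable g → ∫⁻ x, k x * ‖g x‖ₑ ^ 2 ∂ν =
      ∫⁻ x, ‖g x‖ₑ ^ 2 ∂(ν.withDensity k) := by
    intro g hg
    rw [lintegral_withDensity_eq_lintegral_mul _ hk (hg.enorm.pow_const 2)]
    rfl
  have e2 : ∀ n, ∫⁻ x, k x * ‖F n x - f x‖ₑ ^ 2 ∂ν =
      ∫⁻ x, ‖F n x - f x‖ₑ ^ 2 ∂(ν.withDensity k) := fun n => e _ ((hF n).sub hf)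
  simp only [e2] at h
  rw [e f hf] at hfin ⊢
  have e3 : ∀ n, ∫⁻ x, k x * ‖F n x‖ₑ ^ 2 ∂ν =
      ∫⁻ x, ‖F n x‖ₑ ^ 2 ∂(ν.withDensity k) := fun n => e _ (hF n)
  simp only [e3]
  exact n2_tendsto (fun n => (hF n).aestronglyMeasurable) hf.aestronglyMeasurable hfin h

section
variable {N : ℕ}

/-- direction of the coordinate `a` of particle `i` -/
noncomputable def dirV (q : Fin N × Fin 3) : Conf N :=
  Pi.single q.1 (EuclideanSpace.single q.2 (1 : ℝ))

theorem kd_eq {u : Conf N → ℂ} (i : Fin N) (x : Conf N) :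
    kd u i x = ∑ a : Fin 3, ‖fderiv ℝ u x (dirV (i, a))‖ₑ ^ 2 := by
  unfold kd gradSq
  rw [ENNReal.ofReal_sum_of_nonneg fun a _ => sq_nonneg _]
  refine Finset.sum_congr rfl fun a _ => ?_
  rw [enorm_sq_eq]
  rfl

theorem lintegral_kd {u : Conf N → ℂ} (hu : ContDiff ℝ (⊤ : ℕ∞) u) (i : Fin N) :
    ∫⁻ x, kd u i x = ∑ a : Fin 3, ∫⁻ x, ‖fderiv ℝ u x (dirV (i, a))‖ₑ ^ 2 := by
  simp only [kd_eq]
  rw [lintegral_finsetSum]
  intro a _
  have : Continuous fun x => fderiv ℝ u x (dirV (i, a)) :=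
    (hu.continuous_fderiv (by simp)).clm_apply continuous_const
  exact this.measurable.enorm.pow_const 2

/-- weighted distance of an approximating sequence -/
theorem weight_dist {S : ℝ} (hS : 0 < S)
    (hsob : ∀ u : E3 → ℂ, ContDiff ℝ 1 u → HasCompactSupport u →
    (∫⁻ y, ENNReal.ofReal (‖u y‖ ^ 2) ^ 3) ^ (1 / 3 : ℝ) ≤
      ENNReal.ofReal S * ∫⁻ y, ENNReal.ofReal (grad1 u y)) {ψ : Conf N → ℂ}
    {G : Fin N × Fin 3 → Conf N → ℂ} (hψ : AEStronglyMeasurable ψ volume)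
    (hG : ∀ q, AEStronglyMeasurable (G q) volume) {u : ℕ → Conf N → ℂ}
    (hu : ∀ n, ContDiff ℝ (⊤ : ℕ∞) (u n)) (hs : ∀ n, HasCompactSupport (u n))
    (h1 : ∀ n : ℕ, ∫⁻ x, ‖u n x - ψ x‖ₑ ^ 2 ≤ ENNReal.ofReal (1 / ((n : ℝ) + 1)))
    (h2 : ∀ (n : ℕ) q, ∫⁻ x, ‖fderiv ℝ (u n) x (dirV q) - G q x‖ₑ ^ 2 ≤
      ENNReal.ofReal (1 / ((n : ℝ) + 1)))
    {ns : ℕ → ℕ} (hns : StrictMono ns)
    (hae : ∀ᵐ x : Conf N, Tendsto (fun k => u (ns k) x) atTop (𝓝 (ψ x)))
    (i : Fin N) {Y : Conf N → E3}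
    (hYm : Measurable Y) (hY : ∀ x y, Y (Function.update x i y) = Y x) (n : ℕ) :
    ∫⁻ x, ENNReal.ofReal ‖x i - Y x‖⁻¹ * ‖u n x - ψ x‖ₑ ^ 2 ≤
      ENNReal.ofReal ((3 * (c1 * S) + 1) * (4 * (1 / ((n : ℝ) + 1)))) := by
  have hc1 := c1_nonneg
  set δ : ℝ := 1 / ((n : ℝ) + 1) with hδ
  have hδ0 : 0 < δ := by positivity
  have hkm : Measurable fun x : Conf N => ENNReal.ofReal ‖x i - Y x‖⁻¹ :=
    ((measurable_pi_apply i).sub hYm).norm.inv.ennreal_ofReal
  -- the differences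
  have hdiff : ∀ k, n ≤ k → ∫⁻ x, ENNReal.ofReal ‖x i - Y x‖⁻¹ *
      ‖u n x - u (ns k) x‖ₑ ^ 2 ≤ ENNReal.ofReal ((3 * (c1 * S) + 1) * (4 * δ)) := by
    intro k hk
    have hnk : n ≤ ns k := hk.trans hns.le_apply
    have hδk : 1 / ((ns k : ℝ) + 1) ≤ δ := by
      rw [hδ]
      have : (n : ℝ) ≤ ns k := by exact_mod_cast hnk
      gcongr
    have hw : ContDiff ℝ (⊤ : ℕ∞) (fun x => u n x - u (ns k) x) := (hu n).sub (hu (ns k))
    have hws : HasCompactSupport (fun x => u n x - u (ns k) x) := (hs n).sub (hs (ns k))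
    have h3 := coul_many hsob hw hws i hYm hY
    have e1 : ∀ x, dens (fun x => u n x - u (ns k) x) x = ‖u n x - u (ns k) x‖ₑ ^ 2 := by
      intro x; rw [enorm_sq_eq]; rfl
    simp only [e1] at h3
    refine h3.trans ?_
    have b1 : ∫⁻ x, ‖u n x - u (ns k) x‖ₑ ^ 2 ≤ ENNReal.ofReal (4 * δ) := by
      have h4 := n2_add_le (f := fun x => u n x - ψ x) (g := fun x => ψ x - u (ns k) x)
        (ν := (volume : Measure (Conf N))) ((hu n).continuous.aestronglyMeasurable.sub hψ)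
      simp only [sub_add_sub_cancel] at h4
      refine h4.trans ?_
      have h5 : ∫⁻ x, ‖ψ x - u (ns k) x‖ₑ ^ 2 ≤ ENNReal.ofReal δ := by
        have e2 : ∀ x, ‖ψ x - u (ns k) x‖ₑ = ‖u (ns k) x - ψ x‖ₑ := fun x => enorm_sub_rev _ _
        simp only [e2]
        exact (h1 (ns k)).trans (ENNReal.ofReal_le_ofReal hδk)
      calc 2 * (∫⁻ x, ‖u n x - ψ x‖ₑ ^ 2) + 2 * (∫⁻ x, ‖ψ x - u (ns k) x‖ₑ ^ 2)
          ≤ 2 * ENNReal.ofReal δ + 2 * ENNReal.ofReal δ :=
            add_le_add (mul_le_mul' le_rfl (h1 n)) (mul_le_mul' le_rfl h5)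
        _ = ENNReal.ofReal (4 * δ) := by
            rw [ENNReal.ofReal_mul (by norm_num), ← add_mul]; norm_num
    have b2 : ∫⁻ x, kd (fun x => u n x - u (ns k) x) i x ≤ ENNReal.ofReal (3 * (4 * δ)) := by
      rw [lintegral_kd hw]
      calc ∑ a : Fin 3, ∫⁻ x, ‖fderiv ℝ (fun x => u n x - u (ns k) x) x (dirV (i, a))‖ₑ ^ 2
          ≤ ∑ _a : Fin 3, ENNReal.ofReal (4 * δ) := by
            refine Finset.sum_le_sum fun a _ => ?_
            have hfd : ∀ x, fderiv ℝ (fun x => u n x - u (ns k) x) x (dirV (i, a)) =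
                (fderiv ℝ (u n) x (dirV (i, a)) - G (i, a) x) +
                  (G (i, a) x - fderiv ℝ (u (ns k)) x (dirV (i, a))) := by
              intro x
              rw [fderiv_fun_sub (((hu n).differentiable (by simp)) x)
                (((hu (ns k)).differentiable (by simp)) x)]
              simp
            simp only [hfd]
            have hcn : Continuous fun x => fderiv ℝ (u n) x (dirV (i, a)) :=
              ((hu n).continuous_fderiv (by simp)).clm_apply continuous_const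
            have h4 := n2_add_le (f := fun x => fderiv ℝ (u n) x (dirV (i, a)) - G (i, a) x)
              (g := fun x => G (i, a) x - fderiv ℝ (u (ns k)) x (dirV (i, a)))
              (ν := (volume : Measure (Conf N))) (hcn.aestronglyMeasurable.sub (hG _))
            refine h4.trans ?_
            have h5 : ∫⁻ x, ‖G (i, a) x - fderiv ℝ (u (ns k)) x (dirV (i, a))‖ₑ ^ 2 ≤
                ENNReal.ofReal δ := by
              have e2 : ∀ x, ‖G (i, a) x - fderiv ℝ (u (ns k)) x (dirV (i, a))‖ₑ =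
                  ‖fderiv ℝ (u (ns k)) x (dirV (i, a)) - G (i, a) x‖ₑ :=
                fun x => enorm_sub_rev _ _
              simp only [e2]
              exact (h2 (ns k) _).trans (ENNReal.ofReal_le_ofReal hδk)
            calc 2 * (∫⁻ x, ‖fderiv ℝ (u n) x (dirV (i, a)) - G (i, a) x‖ₑ ^ 2) +
                  2 * (∫⁻ x, ‖G (i, a) x - fderiv ℝ (u (ns k)) x (dirV (i, a))‖ₑ ^ 2)
                ≤ 2 * ENNReal.ofReal δ + 2 * ENNReal.ofReal δ :=
                  add_le_add (mul_le_mul' le_rfl (h2 n _)) (mul_le_mul' le_rfl h5)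
              _ = ENNReal.ofReal (4 * δ) := by
                  rw [ENNReal.ofReal_mul (by norm_num), ← add_mul]; norm_num
        _ = ENNReal.ofReal (3 * (4 * δ)) := by
            rw [Finset.sum_const, Finset.card_univ, Fintype.card_fin, nsmul_eq_mul,
              ENNReal.ofReal_mul (p := 3) (by norm_num)]
            norm_num
    calc ENNReal.ofReal (c1 * S) * (∫⁻ x, kd (fun x => u n x - u (ns k) x) i x) +
          ∫⁻ x, ‖u n x - u (ns k) x‖ₑ ^ 2
        ≤ ENNReal.ofReal (c1 * S) * ENNReal.ofReal (3 * (4 * δ)) + ENNReal.ofReal (4 * δ) := by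
          gcongr
      _ = _ := by
          rw [← ENNReal.ofReal_mul (by positivity), ← ENNReal.ofReal_add (by positivity)
            (by positivity)]
          congr 1; ring
  -- Fatou
  have hmk : ∀ k, Measurable fun x : Conf N => ENNReal.ofReal ‖x i - Y x‖⁻¹ *
      ‖u n x - u (ns k) x‖ₑ ^ 2 := fun k =>
    hkm.mul (((hu n).continuous.sub (hu (ns k)).continuous).measurable.enorm.pow_const 2)
  have hF := lintegral_liminf_le (u := atTop) hmk (μ := (volume : Measure (Conf N)))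
  have hpt : ∀ᵐ x : Conf N, ENNReal.ofReal ‖x i - Y x‖⁻¹ * ‖u n x - ψ x‖ₑ ^ 2 =
      liminf (fun k => ENNReal.ofReal ‖x i - Y x‖⁻¹ * ‖u n x - u (ns k) x‖ₑ ^ 2) atTop := by
    filter_upwards [hae] with x hx
    symm
    apply Tendsto.liminf_eq
    have h3 : Tendsto (fun k => ‖u n x - u (ns k) x‖ₑ ^ 2) atTop (𝓝 (‖u n x - ψ x‖ₑ ^ 2)) :=
      (ENNReal.continuous_pow 2).tendsto _ |>.comp ((hx.const_sub (u n x)).enorm)
    exact ENNReal.Tendsto.const_mul h3 (Or.inr ENNReal.ofReal_ne_top)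
  rw [lintegral_congr_ae hpt]
  refine hF.trans ?_
  have hev : ∀ᶠ k in atTop, (∫⁻ x, ENNReal.ofReal ‖x i - Y x‖⁻¹ *
      ‖u n x - u (ns k) x‖ₑ ^ 2) ≤ ENNReal.ofReal ((3 * (c1 * S) + 1) * (4 * δ)) := by
    filter_upwards [eventually_ge_atTop n] with k hk using hdiff k hk
  refine (liminf_le_liminf hev).trans (le_of_eq ?_)
  exact liminf_const _

/-- Every `H¹` function has energy at least the infimum over smooth functions. -/
theorem h1_lower {z g : ℝ} {K : ℕ} (R : Fin K → E3)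
    (hg : ∀ ψ : Conf N → ℂ, Trial ψ → g ≤ energy z R ψ) {ψ : Conf N → ℂ}
    {G : Fin N × Fin 3 → Conf N → ℂ} (hψm : Measurable ψ) (hψ : MemLp ψ 2)
    (hGm : ∀ q, Measurable (G q)) (hG : ∀ q, MemLp (G q) 2)
    (hw : ∀ q, WeakD ψ (G q) (dirV q)) (hn : ∫ x, ‖ψ x‖ ^ 2 = 1) :
    g ≤ (∑ i, ∑ a, ∫ x, ‖G (i, a) x‖ ^ 2) + ∫ x, coulomb z R x * ‖ψ x‖ ^ 2 := by
  obtain ⟨S, hS, hsob⟩ := sobolev1
  have hc1 := c1_nonneg
  choose u hu hs h1 h2 using fun n : ℕ => h1_approx (v := dirV) hψm hψ hGm hG hw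
    (ε := 1 / ((n : ℝ) + 1)) (by positivity)
  have hum : ∀ n, Measurable (u n) := fun n => (hu n).continuous.measurable
  have hlim0 : Tendsto (fun n : ℕ => ENNReal.ofReal (1 / ((n : ℝ) + 1))) atTop (𝓝 0) := by
    have := ENNReal.tendsto_ofReal (tendsto_one_div_add_atTop_nhds_zero_nat (𝕜 := ℝ))
    simpa using this
  have hD : Tendsto (fun n => ∫⁻ x, ‖u n x - ψ x‖ₑ ^ 2) atTop (𝓝 0) :=
    tendsto_of_tendsto_of_tendsto_of_le_of_le tendsto_const_nhds hlim0 (fun _ => zero_le) h1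
  have hDq : ∀ q, Tendsto (fun n => ∫⁻ x, ‖fderiv ℝ (u n) x (dirV q) - G q x‖ₑ ^ 2) atTop
      (𝓝 0) := fun q =>
    tendsto_of_tendsto_of_tendsto_of_le_of_le tendsto_const_nhds hlim0 (fun _ => zero_le)
      fun n => h2 n q
  -- almost everywhere convergent subsequence
  obtain ⟨ns, hns, hae⟩ : ∃ ns : ℕ → ℕ, StrictMono ns ∧
      ∀ᵐ x : Conf N, Tendsto (fun k => u (ns k) x) atTop (𝓝 (ψ x)) := by
    have hd : Tendsto (fun n => eLpNorm (u n - ψ) 2 (volume : Measure (Conf N))) atTop (𝓝 0) := by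
      have h3 : ∀ n, eLpNorm (u n - ψ) 2 (volume : Measure (Conf N)) =
          (∫⁻ x, ‖u n x - ψ x‖ₑ ^ 2) ^ (1 / 2 : ℝ) := by
        intro n
        have : ∫⁻ x, ‖u n x - ψ x‖ₑ ^ 2 = (eLpNorm (u n - ψ) 2 volume) ^ 2 :=
          (sq_eLpNorm_two (u n - ψ)).symm
        rw [this, ← ENNReal.rpow_natCast, ← ENNReal.rpow_mul]
        norm_num
      simp only [h3]
      have h4 := (ENNReal.continuous_rpow_const (y := (1 / 2 : ℝ))).tendsto (0 : ℝ≥0∞)
      rw [ENNReal.zero_rpow_of_pos (by norm_num)] at h4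
      exact h4.comp hD
    have hmeas := tendstoInMeasure_of_tendsto_eLpNorm (p := 2) (by norm_num)
      (fun n => (hum n).aestronglyMeasurable) hψm.aestronglyMeasurable hd
    exact hmeas.exists_seq_tendsto_ae
  -- the weights
  have hW : ∀ (i : Fin N) (Y : Conf N → E3), Measurable Y →
      (∀ x y, Y (Function.update x i y) = Y x) →
      ∫⁻ x, ENNReal.ofReal ‖x i - Y x‖⁻¹ * dens ψ x < ∞ ∧
      Tendsto (fun n => ∫⁻ x, ENNReal.ofReal ‖x i - Y x‖⁻¹ * dens (u n) x) atTop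
        (𝓝 (∫⁻ x, ENNReal.ofReal ‖x i - Y x‖⁻¹ * dens ψ x)) := by
    intro i Y hYm hY
    have hkm : Measurable fun x : Conf N => ENNReal.ofReal ‖x i - Y x‖⁻¹ :=
      ((measurable_pi_apply i).sub hYm).norm.inv.ennreal_ofReal
    have hwd := weight_dist hS hsob hψm.aestronglyMeasurable
      (fun q => (hGm q).aestronglyMeasurable) hu hs h1 h2 hns hae i hYm hY
    have e : ∀ f : Conf N → ℂ, ∀ x, dens f x = ‖f x‖ₑ ^ 2 := fun f x => by
      rw [enorm_sq_eq]; rfl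
    have hfin : ∫⁻ x, ENNReal.ofReal ‖x i - Y x‖⁻¹ * ‖ψ x‖ₑ ^ 2 < ∞ := by
      have h3 : ∫⁻ x, ENNReal.ofReal ‖x i - Y x‖⁻¹ * ‖ψ x‖ₑ ^ 2 ≤
          2 * (∫⁻ x, ENNReal.ofReal ‖x i - Y x‖⁻¹ * ‖u 0 x - ψ x‖ₑ ^ 2) +
          2 * ∫⁻ x, ENNReal.ofReal ‖x i - Y x‖⁻¹ * ‖u 0 x‖ₑ ^ 2 := by
        rw [← lintegral_const_mul' _ _ (by norm_num), ← lintegral_const_mul' _ _ (by norm_num),
          ← lintegral_add_left]
        · apply lintegral_mono
          intro x
          have h4 : ‖ψ x‖ₑ ^ 2 ≤ 2 * ‖u 0 x - ψ x‖ₑ ^ 2 + 2 * ‖u 0 x‖ₑ ^ 2 := by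
            have h5 := enorm_add_sq_le (ψ x - u 0 x) (u 0 x)
            rw [sub_add_cancel, enorm_sub_rev] at h5
            exact h5
          calc ENNReal.ofReal ‖x i - Y x‖⁻¹ * ‖ψ x‖ₑ ^ 2
              ≤ ENNReal.ofReal ‖x i - Y x‖⁻¹ * (2 * ‖u 0 x - ψ x‖ₑ ^ 2 + 2 * ‖u 0 x‖ₑ ^ 2) :=
                mul_le_mul' le_rfl h4
            _ = _ := by ring
        · exact (hkm.mul (((hum 0).sub hψm).enorm.pow_const 2)).const_mul 2
      refine lt_of_le_of_lt h3 (ENNReal.add_lt_top.2 ⟨ENNReal.mul_lt_top (by norm_num)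
        (lt_of_le_of_lt (hwd 0) ENNReal.ofReal_lt_top), ENNReal.mul_lt_top (by norm_num) ?_⟩)
      have h4 := coul_many hsob (hu 0) (hs 0) i hYm hY
      simp only [e] at h4
      refine lt_of_le_of_lt h4 (ENNReal.add_lt_top.2 ⟨ENNReal.mul_lt_top ENNReal.ofReal_lt_top ?_,
        ?_⟩)
      · rw [lintegral_kd (hu 0)]
        refine ENNReal.sum_lt_top.2 fun a _ => ?_
        have hc : Continuous fun x => fderiv ℝ (u 0) x (dirV (i, a)) :=
          ((hu 0).continuous_fderiv (by simp)).clm_apply continuous_const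
        have hcs : HasCompactSupport fun x => fderiv ℝ (u 0) x (dirV (i, a)) := by
          refine ((hs 0).fderiv ℝ).mono fun x hx => ?_
          by_contra hcon
          apply hx
          have : fderiv ℝ (u 0) x = 0 := by by_contra h; exact hcon h
          simp [this]
        exact lt_top_iff_ne_top.2 ((memLp_iff_n2 hc.aestronglyMeasurable).1
          (hc.memLp_of_hasCompactSupport hcs))
      · exact lt_top_iff_ne_top.2 ((memLp_iff_n2 (hum 0).aestronglyMeasurable).1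
          ((hu 0).continuous.memLp_of_hasCompactSupport (hs 0)))
    have hlimW : Tendsto (fun n => ∫⁻ x, ENNReal.ofReal ‖x i - Y x‖⁻¹ * ‖u n x - ψ x‖ₑ ^ 2)
        atTop (𝓝 0) := by
      have h5 : Tendsto (fun n : ℕ => ENNReal.ofReal ((3 * (c1 * S) + 1) *
          (4 * (1 / ((n : ℝ) + 1))))) atTop (𝓝 0) := by
        have h6 := ENNReal.tendsto_ofReal ((tendsto_one_div_add_atTop_nhds_zero_nat
          (𝕜 := ℝ)).const_mul 4 |>.const_mul (3 * (c1 * S) + 1))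
        simpa using h6
      exact tendsto_of_tendsto_of_tendsto_of_le_of_le tendsto_const_nhds h5 (fun _ => zero_le) hwd
    simp only [e]
    exact ⟨hfin, n2_tendsto_weight hkm hum hψm hfin.ne hlimW⟩
  have hWee : ∀ i j : Fin N, ∫⁻ x, ENNReal.ofReal ‖x i - x j‖⁻¹ * dens ψ x < ∞ ∧
      Tendsto (fun n => ∫⁻ x, ENNReal.ofReal ‖x i - x j‖⁻¹ * dens (u n) x) atTop
        (𝓝 (∫⁻ x, ENNReal.ofReal ‖x i - x j‖⁻¹ * dens ψ x)) := by
    intro i j
    by_cases hij : i = j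
    · subst hij
      simp
    · exact hW i (fun x => x j) (measurable_pi_apply j)
        (fun x y => Function.update_of_ne (Ne.symm hij) _ _)
  have hWen : ∀ (i : Fin N) (k : Fin K), ∫⁻ x, ENNReal.ofReal ‖x i - R k‖⁻¹ * dens ψ x < ∞ ∧
      Tendsto (fun n => ∫⁻ x, ENNReal.ofReal ‖x i - R k‖⁻¹ * dens (u n) x) atTop
        (𝓝 (∫⁻ x, ENNReal.ofReal ‖x i - R k‖⁻¹ * dens ψ x)) := fun i k =>
    hW i (fun _ => R k) measurable_const (fun _ _ => rfl)
  -- norms
  have hint : Integrable fun x : Conf N => ‖ψ x‖ ^ 2 := by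
    by_contra hcon
    rw [integral_undef hcon] at hn
    exact zero_ne_one hn
  have hdψ : ∫⁻ x, dens ψ x = 1 := by
    have : ∫⁻ x, dens ψ x = ENNReal.ofReal (∫ x, ‖ψ x‖ ^ 2) := by
      rw [ofReal_integral_eq_lintegral_ofReal hint (Eventually.of_forall fun x => sq_nonneg _)]
      rfl
    rw [this, hn, ENNReal.ofReal_one]
  have e : ∀ f : Conf N → ℂ, ∀ x, dens f x = ‖f x‖ₑ ^ 2 := fun f x => by
    rw [enorm_sq_eq]; rfl
  have hdens : Tendsto (fun n => ∫⁻ x, dens (u n) x) atTop (𝓝 1) := by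
    rw [← hdψ]
    simp only [e]
    exact n2_tendsto (fun n => (hum n).aestronglyMeasurable) hψm.aestronglyMeasurable
      ((memLp_iff_n2 hψ.1).1 hψ) hD
  have hkin : Tendsto (fun n => kin (u n)) atTop
      (𝓝 (∑ i, ∑ a : Fin 3, ∫⁻ x, ‖G (i, a) x‖ₑ ^ 2)) := by
    have e2 : ∀ n, kin (u n) = ∑ i, ∑ a : Fin 3, ∫⁻ x, ‖fderiv ℝ (u n) x (dirV (i, a))‖ₑ ^ 2 := by
      intro n
      unfold kin
      exact Finset.sum_congr rfl fun i _ => lintegral_kd (hu n) i
    simp only [e2]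
    refine tendsto_finsetSum _ fun i _ => tendsto_finsetSum _ fun a _ => ?_
    refine n2_tendsto (fun n => ?_) (hGm _).aestronglyMeasurable
      ((memLp_iff_n2 (hG _).1).1 (hG _)) (hDq _)
    exact (((hu n).continuous_fderiv (by simp)).clm_apply continuous_const).aestronglyMeasurable
  have hPee : Tendsto (fun n => Pee (u n)) atTop (𝓝 (Pee ψ)) := by
    unfold Pee
    refine ENNReal.Tendsto.const_mul ?_ (Or.inr (by norm_num))
    exact tendsto_finsetSum _ fun i _ => tendsto_finsetSum _ fun j _ => (hWee i j).2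
  have hAen : Tendsto (fun n => Aen R (u n)) atTop (𝓝 (Aen R ψ)) := by
    unfold Aen
    exact tendsto_finsetSum _ fun i _ => tendsto_finsetSum _ fun k _ => (hWen i k).2
  have hPfin : Pee ψ ≠ ∞ := by
    unfold Pee
    exact ENNReal.mul_ne_top (by norm_num) (ENNReal.sum_lt_top.2 fun i _ =>
      ENNReal.sum_lt_top.2 fun j _ => (hWee i j).1).ne
  have hAfin : Aen R ψ ≠ ∞ := by
    unfold Aen
    exact (ENNReal.sum_lt_top.2 fun i _ => ENNReal.sum_lt_top.2 fun j _ => (hWen i j).1).ne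
  have hGfin : (∑ i, ∑ a : Fin 3, ∫⁻ x, ‖G (i, a) x‖ₑ ^ 2) ≠ ∞ :=
    (ENNReal.sum_lt_top.2 fun i _ => ENNReal.sum_lt_top.2 fun a _ =>
      lt_top_iff_ne_top.2 ((memLp_iff_n2 (hG _).1).1 (hG (i, a)))).ne
  -- limits of real numbers
  have r1 := (ENNReal.tendsto_toReal (a := 1) (by norm_num)).comp hdens
  have r2 := (ENNReal.tendsto_toReal hGfin).comp hkin
  have r3 := (ENNReal.tendsto_toReal hPfin).comp hPee
  have r4 := (ENNReal.tendsto_toReal hAfin).comp hAen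
  have key : g * (1 : ℝ≥0∞).toReal ≤ (∑ i, ∑ a : Fin 3, ∫⁻ x, ‖G (i, a) x‖ₑ ^ 2).toReal +
      (Pee ψ).toReal - z * (Aen R ψ).toReal + z ^ 2 * rep R * (1 : ℝ≥0∞).toReal := by
    refine le_of_tendsto_of_tendsto' (r1.const_mul g)
      (((r2.add r3).sub (r4.const_mul z)).add (r1.const_mul (z ^ 2 * rep R))) fun n => ?_
    exact energy_ge_gen R hg (hu n) (hs n)
  rw [ENNReal.toReal_one, mul_one, mul_one] at key
  have hsumG : (∑ i, ∑ a : Fin 3, ∫⁻ x, ‖G (i, a) x‖ₑ ^ 2).toReal =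
      ∑ i, ∑ a : Fin 3, ∫ x, ‖G (i, a) x‖ ^ 2 := by
    have hf : ∀ q, ∫⁻ x, ‖G q x‖ₑ ^ 2 ≠ ∞ := fun q => (memLp_iff_n2 (hG _).1).1 (hG q)
    rw [ENNReal.toReal_sum fun i _ => (ENNReal.sum_lt_top.2 fun a _ =>
      lt_top_iff_ne_top.2 (hf (i, a))).ne]
    refine Finset.sum_congr rfl fun i _ => ?_
    rw [ENNReal.toReal_sum fun a _ => hf (i, a)]
    refine Finset.sum_congr rfl fun a _ => ?_
    simp only [enorm_sq_eq]
    rw [integral_eq_lintegral_of_nonneg_ae (Eventually.of_forall fun x => sq_nonneg _)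
      ((hGm _).norm.pow_const 2).aestronglyMeasurable]
  have hcoul := coulomb_eq z R hψm (fun i j => (hWee i j).1) (fun i k => (hWen i k).1) hint
  rw [hcoul.2, hn, ← hsumG]
  linarith

end

end Pool.Agent.Lib_helper90c


end
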